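import Pool.Agent.W_1bfdb5t_h19.Da11

/-!
# Data of the certificate for closed walks of length 11 in triangle-free graphs
-/

set_option maxRecDepth 100000

namespace Pool.Agent.CycT

theorem datsB11 : datsB cm11 ws11 dat11 = true := by decide +kernel

end Pool.Agent.CycT
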