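import Pool.Agent.W_1bfdb5t_h19.Dh11

/-!
# Data of the certificate for closed walks of length 11 in triangle-free graphs
-/

set_option maxRecDepth 100000

namespace Pool.Agent.CycT

open Pool.Agent.CycGT

theorem chH0_11 : (((List.zip reps7 rowsT).take 70).all fun p =>
    decide (tH11 p.1 p.2 ≤ 16632000 * M11)) = true := by decide +kernel

theorem chH1_11 : (((List.zip reps7 rowsT).drop 70).all fun p =>
    decide (tH11 p.1 p.2 ≤ 16632000 * M11)) = true := by decide +kernel

end Pool.Agent.CycT
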