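import Pool.Agent.W_1bfdb5t_h19.TDefb19

/-!
# Data of the certificate for closed walks of length 11 in triangle-free graphs
-/

set_option maxRecDepth 100000

namespace Pool.Agent.CycT

/-- The class sums. -/
def K11 : List ℤ := [Int.ofNat 29578348800000000000000000,
  Int.ofNat 0,
  Int.ofNat 0,
  Int.negSucc 2109230602252961335801199999,
  Int.ofNat 0,
  Int.negSucc 36320562760799881336467599999,
  Int.ofNat 19966640324754143378880900000,
  Int.ofNat 0,
  Int.ofNat 195710815012452039401742500000,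
  Int.negSucc 14673532076698696328389749999,
  Int.negSucc 14660777412799069328577249999,
  Int.negSucc 39928147555647255659477499999,
  Int.ofNat 40539023965305804008070000000,
  Int.ofNat 118577030517358286702415700000,
  Int.ofNat 0,
  Int.negSucc 246484845401697696608819999999,
  Int.ofNat 3131059497663850290720000000,
  Int.negSucc 163943874193185378501299999999,
  Int.ofNat 57870515774173943115272000000,
  Int.negSucc 153899718906307268972346499999,
  Int.ofNat 39961278455827074694579500000,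
  Int.ofNat 39974033112582710781180000000,
  Int.negSucc 354221126179318612861919999999,
  Int.negSucc 194076747404472374044622999999,
  Int.negSucc 118777103768617280332571499999,
  Int.negSucc 48490091939805120365736499999,
  Int.ofNat 93744824406929615596950000000,
  Int.ofNat 123440665237430515884000000000,
  Int.ofNat 205214543973167028405496000000,
  Int.ofNat 84742305128347184791724000000,
  Int.ofNat 120300658482674142390428000000,
  Int.negSucc 36249029140380464036194999999,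
  Int.ofNat 111394868049307691585100000000,
  Int.ofNat 408381672132109856325600000000,
  Int.ofNat 398441936465907027384600000000,
  Int.negSucc 53423447669822037578219999999,
  Int.ofNat 37841487072166720189847000000,
  Int.ofNat 111983057951626619994600000000,
  Int.negSucc 510942545427229948632599999999,
  Int.ofNat 126269069115926838303790000000,
  Int.ofNat 97488727117245465797250000000,
  Int.negSucc 60066828094792740038999999999,
  Int.negSucc 104795762389714993778999999999,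
  Int.negSucc 441913940165723543972999999999,
  Int.negSucc 123440665237430515883999999999,
  Int.ofNat 324337539930554859345000000000,
  Int.ofNat 256260680583603482241000000000,
  Int.ofNat 109062205577440757050500000000,
  Int.negSucc 174795704064359671702499999999,
  Int.ofNat 76460476929535734603750000000,
  Int.ofNat 0,
  Int.ofNat 0,
  Int.ofNat 0,
  Int.ofNat 0,
  Int.ofNat 0,
  Int.ofNat 0,
  Int.ofNat 0,
  Int.ofNat 0,
  Int.ofNat 0,
  Int.ofNat 0,
  Int.ofNat 0,
  Int.ofNat 0,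
  Int.ofNat 0,
  Int.ofNat 0,
  Int.ofNat 0,
  Int.ofNat 0,
  Int.ofNat 0,
  Int.ofNat 0,
  Int.ofNat 0,
  Int.ofNat 0,
  Int.ofNat 0,
  Int.ofNat 0,
  Int.ofNat 0,
  Int.ofNat 0,
  Int.ofNat 0,
  Int.ofNat 0,
  Int.ofNat 0,
  Int.ofNat 0,
  Int.ofNat 0,
  Int.ofNat 0,
  Int.ofNat 0,
  Int.ofNat 0,
  Int.ofNat 0,
  Int.ofNat 0,
  Int.ofNat 0,
  Int.ofNat 0,
  Int.ofNat 0,
  Int.ofNat 0,
  Int.ofNat 0,
  Int.ofNat 0,
  Int.ofNat 0,
  Int.ofNat 0,
  Int.ofNat 0,
  Int.ofNat 0,
  Int.ofNat 0,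
  Int.ofNat 0,
  Int.ofNat 0,
  Int.ofNat 0,
  Int.ofNat 0,
  Int.ofNat 0,
  Int.ofNat 0,
  Int.ofNat 0,
  Int.ofNat 0,
  Int.ofNat 0,
  Int.ofNat 0,
  Int.ofNat 0,
  Int.ofNat 0,
  Int.ofNat 0,
  Int.ofNat 0,
  Int.ofNat 0,
  Int.ofNat 0,
  Int.ofNat 0,
  Int.ofNat 0,
  Int.ofNat 0,
  Int.ofNat 0,
  Int.ofNat 0,
  Int.ofNat 0,
  Int.ofNat 0,
  Int.ofNat 0,
  Int.ofNat 0,
  Int.ofNat 0,
  Int.ofNat 0,
  Int.ofNat 0,
  Int.ofNat 0,
  Int.ofNat 0,
  Int.ofNat 0,
  Int.ofNat 0,
  Int.ofNat 0,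
  Int.ofNat 0,
  Int.ofNat 0,
  Int.ofNat 0,
  Int.ofNat 0,
  Int.ofNat 0,
  Int.ofNat 0,
  Int.ofNat 0,
  Int.ofNat 0,
  Int.ofNat 0,
  Int.ofNat 0,
  Int.ofNat 0,
  Int.ofNat 0,
  Int.ofNat 0,
  Int.ofNat 0,
  Int.ofNat 0,
  Int.ofNat 0,
  Int.ofNat 0,
  Int.ofNat 0,
  Int.ofNat 0,
  Int.ofNat 0,
  Int.ofNat 0,
  Int.ofNat 0,
  Int.ofNat 0,
  Int.ofNat 0,
  Int.ofNat 0,
  Int.ofNat 0,
  Int.ofNat 0,
  Int.ofNat 0,
  Int.ofNat 0,
  Int.ofNat 0,
  Int.ofNat 0,
  Int.ofNat 0,
  Int.ofNat 0,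
  Int.ofNat 0,
  Int.ofNat 0,
  Int.ofNat 0,
  Int.ofNat 0,
  Int.ofNat 0,
  Int.negSucc 875306249999999999999999999999]

end Pool.Agent.CycT
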