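import Pool.Agent.W_1bfdb5t_h19.Dt11

/-!
# Data of the certificate for closed walks of length 11 in triangle-free graphs
-/

set_option maxRecDepth 100000

namespace Pool.Agent.CycT

theorem chkS0_11 : Pool.Agent.CycGT.chkS ty0_11 1000000 sq0_11 = true := by decide +kernel

theorem chkS1_11 : Pool.Agent.CycGT.chkS ty1_11 1000000 sq1_11 = true := by decide +kernel

theorem chkS2_11 : Pool.Agent.CycGT.chkS ty2_11 1000000 sq2_11 = true := by decide +kernel


end Pool.Agent.CycT
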