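import Mathlib

/-!
# Cutting a list into parts
-/

namespace Pool.Agent.CycT

lemma mem_part {α : Type} (l : List α) (q n : ℕ) (hl : l.length ≤ n * q) (g : α) (hg : g ∈ l) :
    ∃ p < n, g ∈ (l.drop (p * q)).take q := by
  obtain ⟨i, hi, rfl⟩ := List.mem_iff_getElem.1 hg
  have hq : 0 < q := by
    rcases Nat.eq_zero_or_pos q with h | h
    · subst h; simp at hl; subst hl; simp at hi
    · exact h
  refine ⟨i / q, Nat.div_lt_of_lt_mul (by rw [mul_comm]; omega), ?_⟩
  have h1 : i % q < q := Nat.mod_lt _ hq
  have h2 : i / q * q + i % q = i := by rw [mul_comm]; exact Nat.div_add_mod i q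
  rw [List.mem_iff_getElem]
  refine ⟨i % q, ?_, ?_⟩
  · rw [List.length_take, List.length_drop]
    omega
  · rw [List.getElem_take, List.getElem_drop]
    simp only [h2]

lemma mem_cut {α : Type} (l : List α) (a q i : ℕ) (h1 : a ≤ i) (h2 : i < a + q)
    (hi : i < l.length) : l[i] ∈ (l.drop a).take q := by
  rw [List.mem_iff_getElem]
  refine ⟨i - a, ?_, ?_⟩
  · rw [List.length_take, List.length_drop]
    omega
  · rw [List.getElem_take, List.getElem_drop]
    congr 1
    omega

end Pool.Agent.CycT
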