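import Pool.Agent.W_1bfdb5t_h19.Dc19
import Pool.Agent.W_1bfdb5_h19.FlData

/-!
# Counts of the small patterns in the triangle-free graphs on seven vertices
-/

namespace Pool.Agent.CycT

open Pool.Agent.CycGT

theorem tb10 : ((((List.zip reps7 rowsT).drop 86).take 4).all fun p =>
    decide (cmS.map (fun ms => totp ms p.1) = rowD p.2)) = true := by decide +kernel

end Pool.Agent.CycT
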