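import Pool.Agent.W_1bfdb5t_h19.Tb0_19
import Pool.Agent.W_1bfdb5t_h19.Tb1_19
import Pool.Agent.W_1bfdb5t_h19.Tb2_19
import Pool.Agent.W_1bfdb5t_h19.Tb3_19
import Pool.Agent.W_1bfdb5t_h19.Tb4_19
import Pool.Agent.W_1bfdb5t_h19.Tb5_19
import Pool.Agent.W_1bfdb5t_h19.Tb6_19
import Pool.Agent.W_1bfdb5t_h19.Tb7_19
import Pool.Agent.W_1bfdb5t_h19.Tb8_19
import Pool.Agent.W_1bfdb5t_h19.Tb9_19
import Pool.Agent.W_1bfdb5t_h19.Tb10_19
import Pool.Agent.W_1bfdb5t_h19.Tb11_19
import Pool.Agent.W_1bfdb5t_h19.Tb12_19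
import Pool.Agent.W_1bfdb5t_h19.Tb13_19
import Pool.Agent.W_1bfdb5t_h19.Tb14_19
import Pool.Agent.W_1bfdb5t_h19.Tb15_19
import Pool.Agent.W_1bfdb5t_h19.Tb16_19
import Pool.Agent.W_1bfdb5t_h19.Tb17_19
import Pool.Agent.W_1bfdb5t_h19.Prt19

/-!
# The counts of the small patterns, all graphs
-/

namespace Pool.Agent.CycT

open Pool.Agent.CycGT

lemma len_tb : (List.zip reps7 rowsT).length = 107 := by decide +kernel

lemma len_r7 : reps7.length = 107 := by decide +kernel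

/-- The table of the counts is right. -/
theorem tbl (p : ℕ × ℕ) (hp : p ∈ List.zip reps7 rowsT) :
    cmS.map (fun ms => totp ms p.1) = rowD p.2 := by
  obtain ⟨i, hi, rfl⟩ := List.mem_iff_getElem.1 hp
  have h107 : i < 107 := by have := len_tb; omega
  rcases (by omega : i < 20 ∨ (20 ≤ i ∧ i < 32) ∨ (32 ≤ i ∧ i < 37) ∨ (37 ≤ i ∧ i < 44) ∨ (44 ≤ i ∧ i < 54) ∨ (54 ≤ i ∧ i < 61) ∨ (61 ≤ i ∧ i < 70) ∨ (70 ≤ i ∧ i < 75) ∨ (75 ≤ i ∧ i < 81) ∨ (81 ≤ i ∧ i < 86) ∨ (86 ≤ i ∧ i < 90) ∨ (90 ≤ i ∧ i < 93) ∨ (93 ≤ i ∧ i < 96) ∨ (96 ≤ i ∧ i < 99) ∨ (99 ≤ i ∧ i < 103) ∨ (103 ≤ i ∧ i < 105) ∨ (105 ≤ i ∧ i < 106) ∨ (106 ≤ i ∧ i < 107)) with h | h | h | h | h | h | h | h | h | h | h | h | h | h | h | h | h | h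
  · exact of_decide_eq_true (List.all_eq_true.1 tb0 _ (mem_cut _ 0 20 i (by omega) (by omega) hi))
  · exact of_decide_eq_true (List.all_eq_true.1 tb1 _ (mem_cut _ 20 12 i (by omega) (by omega) hi))
  · exact of_decide_eq_true (List.all_eq_true.1 tb2 _ (mem_cut _ 32 5 i (by omega) (by omega) hi))
  · exact of_decide_eq_true (List.all_eq_true.1 tb3 _ (mem_cut _ 37 7 i (by omega) (by omega) hi))
  · exact of_decide_eq_true (List.all_eq_true.1 tb4 _ (mem_cut _ 44 10 i (by omega) (by omega) hi))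
  · exact of_decide_eq_true (List.all_eq_true.1 tb5 _ (mem_cut _ 54 7 i (by omega) (by omega) hi))
  · exact of_decide_eq_true (List.all_eq_true.1 tb6 _ (mem_cut _ 61 9 i (by omega) (by omega) hi))
  · exact of_decide_eq_true (List.all_eq_true.1 tb7 _ (mem_cut _ 70 5 i (by omega) (by omega) hi))
  · exact of_decide_eq_true (List.all_eq_true.1 tb8 _ (mem_cut _ 75 6 i (by omega) (by omega) hi))
  · exact of_decide_eq_true (List.all_eq_true.1 tb9 _ (mem_cut _ 81 5 i (by omega) (by omega) hi))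
  · exact of_decide_eq_true (List.all_eq_true.1 tb10 _ (mem_cut _ 86 4 i (by omega) (by omega) hi))
  · exact of_decide_eq_true (List.all_eq_true.1 tb11 _ (mem_cut _ 90 3 i (by omega) (by omega) hi))
  · exact of_decide_eq_true (List.all_eq_true.1 tb12 _ (mem_cut _ 93 3 i (by omega) (by omega) hi))
  · exact of_decide_eq_true (List.all_eq_true.1 tb13 _ (mem_cut _ 96 3 i (by omega) (by omega) hi))
  · exact of_decide_eq_true (List.all_eq_true.1 tb14 _ (mem_cut _ 99 4 i (by omega) (by omega) hi))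
  · exact of_decide_eq_true (List.all_eq_true.1 tb15 _ (mem_cut _ 103 2 i (by omega) (by omega) hi))
  · exact of_decide_eq_true (List.all_eq_true.1 tb16 _ (mem_cut _ 105 1 i (by omega) (by omega) hi))
  · exact of_decide_eq_true (List.all_eq_true.1 tb17 _ (mem_cut _ 106 1 i (by omega) (by omega) hi))

lemma dotK_eq (f : List ℕ → ℤ) : ∀ (cm : List (List ℕ)) (K : List ℤ),
    ((List.zip cm K).map fun p => p.2 * f p.1).sum = dotK K (cm.map f) := by
  intro cm
  induction cm with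
  | nil =>
    intro K
    cases K <;> simp [dotK]
  | cons m cm ih =>
    intro K
    cases K with
    | nil => simp [dotK]
    | cons b K =>
      rw [List.zip_cons_cons, List.map_cons, List.sum_cons, ih K, List.map_cons, dotK]

/-- The inequality at the coded graphs from the table. -/
theorem hH_of (cm : List (List ℕ)) (K : List ℤ) (hcm : cm.take 50 = cmS) (cT : ℤ)
    (tys : List Ty) (N : ℤ)
    (h : ∀ p ∈ List.zip reps7 rowsT,
      dotK K (rowD p.2) + cT * (tys.map fun T => tot T p.1).sum ≤ N) :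
    ∀ g ∈ reps7, ((List.zip (cm.take 50) K).map fun p => p.2 * totp p.1 g).sum +
      cT * (tys.map fun T => tot T g).sum ≤ N := by
  intro g hg
  obtain ⟨i, hi, rfl⟩ := List.mem_iff_getElem.1 hg
  have hz : i < (List.zip reps7 rowsT).length := by
    rw [len_tb]; rw [len_r7] at hi; exact hi
  have hp : (List.zip reps7 rowsT)[i] ∈ List.zip reps7 rowsT := List.getElem_mem hz
  have h1 := h _ hp
  have h2 := tbl _ hp
  have e : ((List.zip reps7 rowsT)[i]).1 = reps7[i] := by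
    simp only [List.getElem_zip]
    rfl
  rw [e] at h1 h2
  rw [hcm, dotK_eq (fun ms => totp ms reps7[i]) cmS K, h2]
  exact h1

end Pool.Agent.CycT
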