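import Pool.Agent.W_1bfdb5t_h19.Fin19
import Pool.Agent.W_1bfdb5t_h19.Prt19
import Pool.Agent.W_1bfdb5t_h19.Ca11
import Pool.Agent.W_1bfdb5t_h19.Cb5_11
import Pool.Agent.W_1bfdb5t_h19.Cb6_11
import Pool.Agent.W_1bfdb5t_h19.Ck11
import Pool.Agent.W_1bfdb5t_h19.Ct11
import Pool.Agent.W_1bfdb5t_h19.Ch11
import Pool.Agent.W_1bfdb5t_h19.Tab19

/-!
# Closed walks of length 11 in triangle-free graphs
-/

namespace Pool.Agent.CycT

open Finset Matrix Pool.Agent.CycGT
open scoped Classical

variable {V : Type} [Fintype V]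

lemma big_11 : ((List.range K11.length).all fun c =>
    Nat.blt c 50 || Nat.beq (c + 1) K11.length || decide (K11.getD c 0 = 0)) = true := by
  decide +kernel

lemma last_11 : K11.getD (K11.length - 1) 0 = - (2 * 5 ^ 11 * M11) := by decide +kernel

lemma small_11 : ((List.zip (cm11.take 50) K11).all fun p => Nat.ble p.1.length 7 &&
    ((List.range 7).all fun i => Nat.blt (p.1.getD i 0) (2 ^ i))) = true := by decide +kernel

lemma sgs_11 : (tys11.all fun T => Nat.beq T.sg.length 5 && T.sg.all fun m => Nat.blt m 32) = true := by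
  decide +kernel

lemma cyc_11 : isoB (List.range 11) (mE (cm11.getD (K11.length - 1) []))
    (wE (List.replicate 11 0)) = true := by decide +kernel

lemma val_nonneg_11 (T : Ty) (hT : T ∈ tys11) (r : V → V → Bool) :
    0 ≤ ∑ φ : Fin 7 → V, val T r (List.ofFn φ) := by
  simp only [tys11, List.mem_cons, List.not_mem_nil, or_false] at hT
  rcases hT with rfl | rfl | rfl
  · exact val_nonneg ty0_11 1000000 sq0_11 chkS0_11 rfl r
  · exact val_nonneg ty1_11 1000000 sq1_11 chkS1_11 rfl r
  · exact val_nonneg ty2_11 1000000 sq2_11 chkS2_11 rfl r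

lemma all_H_11 (g : ℕ) (hg : g ∈ reps7) : ((List.zip (cm11.take 50) K11).map fun p =>
      p.2 * totp p.1 g).sum + cT11 * (tys11.map fun T => tot T g).sum ≤
        5040 * (2 * (1650 : ℕ) * M11) := by
  refine hH_of cm11 K11 (by decide +kernel) cT11 tys11 _ (fun p hp => ?_) g hg
  have e : (5040 * (2 * ((1650 : ℕ) : ℤ) * M11)) = 16632000 * M11 := by push_cast; ring
  rw [e]
  rw [← List.take_append_drop 70 (List.zip reps7 rowsT), List.mem_append] at hp
  rcases hp with hp | hp
  · exact of_decide_eq_true (List.all_eq_true.1 chH0_11 p hp)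
  · exact of_decide_eq_true (List.all_eq_true.1 chH1_11 p hp)

theorem main11 (G : SimpleGraph V) (hG : OddFree G 5) :
    (#(clos G 11) : ℝ) * 5 ^ 11 ≤ 1650 * (Fintype.card V : ℝ) ^ 11 := by
  rcases Nat.eq_zero_or_pos (Fintype.card V) with h0 | hV
  · have : IsEmpty V := Fintype.card_eq_zero_iff.1 h0
    have h1 : clos G 11 = ∅ := by
      rw [Finset.eq_empty_iff_forall_notMem]
      intro c _
      exact this.elim (c 0)
    rw [h1, h0]
    simp
  · have h := cert_bound G hG hV ws11 cm11 dat11 b5_11 b6_11 K11 tys11 cT11 M11 1650 50 11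
      (by decide +kernel) (by decide +kernel) (by decide +kernel) (by decide +kernel)
      b5_11_len b5_11_dom b5_11_x b6_11_len b6_11_dom b6_11_x datsB11 sumB11
      (by decide +kernel) (by decide +kernel) big_11 last_11 small_11
      (fun T hT => by
        have h1 := List.all_eq_true.1 sgs_11 T hT
        rw [Bool.and_eq_true] at h1
        refine ⟨Nat.eq_of_beq_eq_true h1.1, fun m hm => ?_⟩
        have h2 := List.all_eq_true.1 h1.2 m hm
        rwa [Nat.blt_eq] at h2)
      (fun T hT r => val_nonneg_11 T hT r) all_H_11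
    rw [tt_iso G _ _ _ cyc_11, tt_clos11 G hV] at h
    have hn : (0 : ℝ) < (Fintype.card V : ℝ) ^ 11 := by
      have : (0 : ℝ) < (Fintype.card V : ℝ) := by exact_mod_cast hV
      positivity
    rw [← mul_div_assoc, div_le_iff₀ hn] at h
    push_cast at h
    linarith

end Pool.Agent.CycT
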