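import Pool.Agent.W_1bfdb5t_h19.Db6_9

/-!
# Data of the certificate for closed walks of length 9 in triangle-free graphs
-/

set_option maxRecDepth 100000

namespace Pool.Agent.CycT

theorem b6_9_len : b6_9.lenB = true := by decide +kernel

theorem b6_9_dom : b6_9.domB = true := by decide +kernel

theorem b6_9_x : b6_9.xB = true := by decide +kernel

end Pool.Agent.CycT
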