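import Pool.Agent.W_1bfdb5t_h19.TDefb19

/-!
# Data of the certificate for closed walks of length 9 in triangle-free graphs
-/

set_option maxRecDepth 100000

namespace Pool.Agent.CycT

/-- The class sums. -/
def K9 : List ℤ := [Int.ofNat 45619200000000000000000,
  Int.ofNat 0,
  Int.ofNat 0,
  Int.negSucc 829982225273630849999999,
  Int.ofNat 0,
  Int.negSucc 2328223298255146079999999,
  Int.ofNat 858100258016154405000000,
  Int.ofNat 0,
  Int.ofNat 35580989591288931150000000,
  Int.ofNat 2030335067321787600000000,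
  Int.negSucc 223886783163544199999999,
  Int.ofNat 12756212221065568200000000,
  Int.ofNat 3988187748802407780000000,
  Int.ofNat 5872616637073281090000000,
  Int.ofNat 0,
  Int.negSucc 48891332626475466599999999,
  Int.ofNat 369035246111083200000000,
  Int.negSucc 69847486641626146199999999,
  Int.ofNat 5983633404515962800000000,
  Int.negSucc 6454200754234116674999999,
  Int.negSucc 10481053993678718999999999,
  Int.negSucc 15051956048572845599999999,
  Int.negSucc 43169806744394521049999999,
  Int.negSucc 64121426537953870799999999,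
  Int.negSucc 49049653218603140924999999,
  Int.negSucc 305625617371733399999999,
  Int.ofNat 20242248756642311400000000,
  Int.ofNat 18091706290987824000000000,
  Int.ofNat 96062510255660190000000000,
  Int.negSucc 6108374972871209024999999,
  Int.ofNat 80908810060542234075000000,
  Int.ofNat 47961329406677041050000000,
  Int.ofNat 34948167016681611000000000,
  Int.ofNat 73444645486673208000000000,
  Int.ofNat 61247709792038583000000000,
  Int.ofNat 28917023198861132100000000,
  Int.ofNat 49054945654315828800000000,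
  Int.ofNat 27408333214135962000000000,
  Int.negSucc 169320345012644944499999999,
  Int.negSucc 38484311003238968999999999,
  Int.ofNat 39598256473051716000000000,
  Int.negSucc 67812107650604743724999999,
  Int.negSucc 42011470856646414899999999,
  Int.negSucc 102310512448352097374999999,
  Int.negSucc 18091706290987823999999999,
  Int.ofNat 101679629053832843625000000,
  Int.ofNat 184049378451934806375000000,
  Int.ofNat 88037335323575055000000000,
  Int.negSucc 34614240840486449999999999,
  Int.ofNat 29521492252318440000000000,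
  Int.ofNat 0,
  Int.ofNat 0,
  Int.ofNat 0,
  Int.ofNat 0,
  Int.ofNat 0,
  Int.ofNat 0,
  Int.ofNat 0,
  Int.ofNat 0,
  Int.ofNat 0,
  Int.ofNat 0,
  Int.ofNat 0,
  Int.ofNat 0,
  Int.ofNat 0,
  Int.ofNat 0,
  Int.ofNat 0,
  Int.ofNat 0,
  Int.ofNat 0,
  Int.ofNat 0,
  Int.ofNat 0,
  Int.ofNat 0,
  Int.ofNat 0,
  Int.ofNat 0,
  Int.ofNat 0,
  Int.ofNat 0,
  Int.ofNat 0,
  Int.ofNat 0,
  Int.ofNat 0,
  Int.ofNat 0,
  Int.ofNat 0,
  Int.ofNat 0,
  Int.ofNat 0,
  Int.ofNat 0,
  Int.ofNat 0,
  Int.ofNat 0,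
  Int.ofNat 0,
  Int.ofNat 0,
  Int.ofNat 0,
  Int.ofNat 0,
  Int.ofNat 0,
  Int.ofNat 0,
  Int.ofNat 0,
  Int.ofNat 0,
  Int.ofNat 0,
  Int.ofNat 0,
  Int.ofNat 0,
  Int.ofNat 0,
  Int.ofNat 0,
  Int.ofNat 0,
  Int.ofNat 0,
  Int.ofNat 0,
  Int.ofNat 0,
  Int.ofNat 0,
  Int.ofNat 0,
  Int.ofNat 0,
  Int.ofNat 0,
  Int.ofNat 0,
  Int.ofNat 0,
  Int.ofNat 0,
  Int.ofNat 0,
  Int.ofNat 0,
  Int.ofNat 0,
  Int.ofNat 0,
  Int.ofNat 0,
  Int.negSucc 247499999999999999999999999]

end Pool.Agent.CycT
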