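import Pool.Agent.W_1bfdb5t_h19.Da9
import Pool.Agent.W_1bfdb5t_h19.Dx5_9
import Pool.Agent.W_1bfdb5t_h19.Dx6_9
import Pool.Agent.W_1bfdb5t_h19.Dk9

/-!
# Data of the certificate for closed walks of length 9 in triangle-free graphs
-/

set_option maxRecDepth 100000

namespace Pool.Agent.CycT

theorem sumB9 : sumB (conL X5_9 X6_9 ws9 dat9) K9 = true := by decide +kernel

end Pool.Agent.CycT
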