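import Pool.Agent.W_1bfdb5t_h19.Dt9

/-!
# Data of the certificate for closed walks of length 9 in triangle-free graphs
-/

set_option maxRecDepth 100000

namespace Pool.Agent.CycT

theorem chkS0_9 : Pool.Agent.CycGT.chkS ty0_9 1000000 sq0_9 = true := by decide +kernel

theorem chkS1_9 : Pool.Agent.CycGT.chkS ty1_9 1000000 sq1_9 = true := by decide +kernel

theorem chkS2_9 : Pool.Agent.CycGT.chkS ty2_9 1000000 sq2_9 = true := by decide +kernel


end Pool.Agent.CycT
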