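import Pool.Agent.W_1bfdb5t_h19.Fk5
import Pool.Agent.W_1bfdb5t_h19.Fk9
import Pool.Agent.W_1bfdb5t_h19.Fk11
import Pool.Agent.W_1bfdb5fd_h19.RbB
import Pool.Agent.W_1bfdb5fd_h19.RbC
import Pool.Agent.W_1bfdb5_h19.Concl
import Pool.Agent.W_1bfdb5_h19.Neg

/-!
# Triangle-free graphs: all cycle lengths
-/

namespace Pool.Agent.CycT

open Finset Filter Topology Pool.Agent.CycGT Pool.Agent.CycFD
open scoped Classical

/-- The bound for closed walks, `k = 5 + 2 j`, `j ≤ 3`. -/
theorem clos_bound (j : ℕ) (hj : j < 4) {V : Type} [Fintype V] (G : SimpleGraph V)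
    (hG : OddFree G 5) :
    (#(clos G (5 + 2 * j)) : ℝ) * ((5 : ℕ) : ℝ) ^ (5 + 2 * j) ≤
      2 * ((5 : ℕ) : ℝ) * ((5 + 2 * j).choose j : ℝ) * (Fintype.card V : ℝ) ^ (5 + 2 * j) := by
  interval_cases j
  · have h := main5c G hG
    have e : ((5 + 2 * 0).choose 0 : ℝ) = 1 := by norm_num
    rw [e]
    refine le_trans (le_of_eq ?_) (h.trans (le_of_eq ?_)) <;> norm_num
  · have h := main5 G hG
    have e : ((5 + 2 * 1).choose 1 : ℝ) = 7 := by norm_num [Nat.choose]
    rw [e]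
    have h' : (#(clos G 7) : ℝ) * 5 ^ 7 ≤ 70 * (Fintype.card V : ℝ) ^ 7 := by linarith
    refine le_trans (le_of_eq ?_) (h'.trans (le_of_eq ?_)) <;> norm_num
  · have h := main9 G hG
    have e : ((5 + 2 * 2).choose 2 : ℝ) = 36 := by norm_num [Nat.choose]
    rw [e]
    refine le_trans (le_of_eq ?_) (h.trans (le_of_eq ?_)) <;> norm_num
  · have h := main11 G hG
    have e : ((5 + 2 * 3).choose 3 : ℝ) = 165 := by norm_num [Nat.choose]
    rw [e]
    refine le_trans (le_of_eq ?_) (h.trans (le_of_eq ?_)) <;> norm_num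

theorem holds (j : ℕ) (hj : j < 4) :
    Tendsto (fun n : ℕ => (exC n (5 + 2 * j) 3 : ℝ) / (n : ℝ) ^ (5 + 2 * j)) atTop
      (𝓝 (cKL (5 + 2 * j) 3)) := by
  have h := asym_gen 5 j (by norm_num) (by decide) (by omega) fun q H hH => by
    have := clos_bound j hj H hH
    rwa [Fintype.card_fin] at this
  exact h

theorem holds_hom (j : ℕ) (hj : j < 4) {V : Type} [Fintype V] (G : SimpleGraph V)
    (hG : (SimpleGraph.cycleGraph 3).Free G) :
    (Nat.card (SimpleGraph.cycleGraph (5 + 2 * j) →g G) : ℝ) ≤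
      2 * ((5 + 2 * j : ℕ) : ℝ) * cKL (5 + 2 * j) 3 * (Fintype.card V : ℝ) ^ (5 + 2 * j) ∧
    (G.copyCount (SimpleGraph.cycleGraph (5 + 2 * j)) : ℝ) ≤
      cKL (5 + 2 * j) 3 * (Fintype.card V : ℝ) ^ (5 + 2 * j) := by
  have hO : OddFree G 5 := oddFree_of_free G 1 fun i hi => by
    have : i = 0 := by omega
    subst this
    exact hG
  constructor
  · have h1 := hom_le_clos G (5 + 2 * j) (by omega)
    have h2 := clos_bound j hj G hO
    have h3 := cKL_fix 5 j (by norm_num) (by omega)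
    have h4 : ((Nat.card (SimpleGraph.cycleGraph (5 + 2 * j) →g G) : ℕ) : ℝ) ≤
        (#(clos G (5 + 2 * j)) : ℝ) := by exact_mod_cast h1
    refine h4.trans ?_
    have e : (5 - 2 : ℕ) = 3 := rfl
    rw [e] at h3
    rw [h3]
    rw [← le_div_iff₀ (by positivity)] at h2
    refine h2.trans (le_of_eq ?_)
    push_cast
    field_simp
  · refine exact_gen 5 j (by norm_num) (by decide) (by omega) G (fun i hi h3 hle => ?_)
      (fun h => clos_bound j hj G h)
    have : i = 3 := by omega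
    subst this
    exact hG

end Pool.Agent.CycT
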