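import Pool.Agent.W_1bfdb5t_h19.Dh5

/-!
# Data of the certificate for closed walks of length 5 in triangle-free graphs
-/

set_option maxRecDepth 100000

namespace Pool.Agent.CycT

open Pool.Agent.CycGT

theorem chH4_5 : (((reps7.drop 56).take 14).all fun g =>
    decide (tH5 g ≤ 5040000)) = true := by decide +kernel

end Pool.Agent.CycT
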