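import Pool.Agent.W_1bfdb5t_h19.TDefs19

/-!
# Closed walks of length 9 and 11 in triangle-free graphs: isomorphic and vanishing densities
-/

namespace Pool.Agent.CycT

open Finset Matrix Pool.Agent.CycGT
open scoped Classical

variable {V : Type} [Fintype V]

theorem memE_iff (e : ℕ × ℕ) (E : List (ℕ × ℕ)) : memE e E = true ↔
    ∃ f ∈ E, (e.1 = f.1 ∧ e.2 = f.2) ∨ (e.1 = f.2 ∧ e.2 = f.1) := by
  unfold memE
  rw [List.any_eq_true]
  simp only [Bool.or_eq_true, Bool.and_eq_true, Nat.beq_eq]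

theorem adj_of_memE (G : SimpleGraph V) {n : ℕ} [NeZero n] (φ : Fin n → V) (E : List (ℕ × ℕ))
    (hE : ∀ f ∈ E, G.Adj (φ (Fin.ofNat n f.1)) (φ (Fin.ofNat n f.2))) {a b : ℕ}
    (h : memE (a, b) E = true) : G.Adj (φ (Fin.ofNat n a)) (φ (Fin.ofNat n b)) := by
  rw [memE_iff] at h
  obtain ⟨f, hf, h | h⟩ := h
  · obtain ⟨h1, h2⟩ := h
    simp only at h1 h2
    rw [h1, h2]
    exact hE f hf
  · obtain ⟨h1, h2⟩ := h
    simp only at h1 h2
    rw [h1, h2]
    exact (hE f hf).symm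

theorem tt_iso (G : SimpleGraph V) (p : List ℕ) (E E' : List (ℕ × ℕ))
    (h : isoB p E E' = true) : tt G E = tt G E' := by
  unfold isoB at h
  simp only [Bool.and_eq_true, List.all_eq_true, List.any_eq_true, Nat.beq_eq, Nat.blt_eq,
    List.mem_range] at h
  obtain ⟨⟨⟨hlen, hsurj⟩, hE⟩, hE'⟩ := h
  have hval : ∀ a : ℕ, a < 11 → ((Fin.ofNat 11 a : Fin 11) : ℕ) = a := by
    intro a ha
    exact Nat.mod_eq_of_lt ha
  have hs : Function.Surjective
      (fun i : Fin 11 => (Fin.ofNat 11 (p.getD (i : ℕ) 0) : Fin 11)) := by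
    intro y
    obtain ⟨j, hj, hij⟩ := hsurj y.1 y.2
    obtain ⟨k, hk, hkj⟩ := List.mem_iff_getElem.1 hj
    refine ⟨⟨k, by omega⟩, ?_⟩
    apply Fin.ext
    simp only
    rw [List.getD_eq_getElem _ _ hk, hkj, ← hij]
    exact hval y.1 y.2
  let σ : Fin 11 ≃ Fin 11 := Equiv.ofBijective _ (hs.bijective_of_finite)
  have hσ : ∀ a : ℕ, a < 11 → σ (Fin.ofNat 11 a) = Fin.ofNat 11 (p.getD a 0) := by
    intro a ha
    change (Fin.ofNat 11 (p.getD ((Fin.ofNat 11 a : Fin 11) : ℕ) 0) : Fin 11) = _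
    rw [hval a ha]
  unfold tt
  congr 1
  symm
  apply Fintype.sum_equiv (Equiv.arrowCongr σ.symm (Equiv.refl V))
  intro φ
  have hφ : ∀ x : Fin 11, (Equiv.arrowCongr σ.symm (Equiv.refl V)) φ x = φ (σ x) := fun x => rfl
  have key : (∀ e ∈ E', G.Adj (φ (Fin.ofNat 11 e.1)) (φ (Fin.ofNat 11 e.2))) ↔
      (∀ e ∈ E, G.Adj ((Equiv.arrowCongr σ.symm (Equiv.refl V)) φ (Fin.ofNat 11 e.1))
        ((Equiv.arrowCongr σ.symm (Equiv.refl V)) φ (Fin.ofNat 11 e.2))) := by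
    constructor
    · intro H e he
      obtain ⟨⟨h1, h2⟩, h3⟩ := hE e he
      rw [hφ, hφ, hσ _ h1, hσ _ h2]
      exact adj_of_memE G φ E' H h3
    · intro H f hf
      obtain ⟨⟨h1, h2⟩, h3⟩ := hE' f hf
      rw [memE_iff] at h3
      obtain ⟨f', hf', h4⟩ := h3
      obtain ⟨e, he, rfl⟩ := List.mem_map.1 hf'
      obtain ⟨⟨g1, g2⟩, -⟩ := hE e he
      have h5 := H e he
      rw [hφ, hφ, hσ _ g1, hσ _ g2] at h5
      rcases h4 with ⟨h6, h7⟩ | ⟨h6, h7⟩
      · simp only at h6 h7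
        rw [h6, h7]
        exact h5
      · simp only at h6 h7
        rw [h6, h7]
        exact h5.symm
  by_cases hc : ∀ e ∈ E', G.Adj (φ (Fin.ofNat 11 e.1)) (φ (Fin.ofNat 11 e.2))
  · rw [if_pos hc, if_pos (key.1 hc)]
  · rw [if_neg hc, if_neg (fun h => hc (key.2 h))]

theorem tt_zero {G : SimpleGraph V} (hG : OddFree G 5) (p : List ℕ) (E : List (ℕ × ℕ))
    (h : zeroB p E = true) : tt G E = 0 := by
  unfold tt
  rw [Finset.sum_eq_zero, zero_div]
  intro φ _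
  rw [if_neg]
  intro hc
  unfold zeroB at h
  split at h
  · exact (adj_of_memE G φ E hc h).ne rfl
  · rename_i a b c
    rw [Bool.and_eq_true, Bool.and_eq_true] at h
    obtain ⟨⟨h1, h2⟩, h3⟩ := h
    have a1 := adj_of_memE G φ E hc h1
    have a2 := adj_of_memE G φ E hc h2
    have a3 := (adj_of_memE G φ E hc h3).symm
    exact hG 3 (by norm_num) (by decide) _
      ⟨SimpleGraph.Walk.cons a1 (SimpleGraph.Walk.cons a2 (SimpleGraph.Walk.cons a3
        SimpleGraph.Walk.nil)), rfl⟩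
  · exact absurd h (by simp)

end Pool.Agent.CycT
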