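import Pool.Agent.W_1bfdb5t_h19.TDefs19

/-!
# MP_1bfdb5_co: traces of words are homomorphism densities (helper23)
-/

set_option autoImplicit false

namespace Pool.Agent.CycT

open Finset Matrix Pool.Agent.CycGT
open scoped Classical

variable {V : Type} [Fintype V]

/-- Sum over the values at the positions `n, ..., n + k - 1`. -/
noncomputable def SW : ℕ → ℕ → ((ℕ → V) → ℝ) → (ℕ → V) → ℝ
  | _, 0, f, φ => f φ
  | n, k + 1, f, φ => ∑ v : V, SW (n + 1) k f (Function.update φ n v)

theorem SW_zero (n : ℕ) (f : (ℕ → V) → ℝ) (φ : ℕ → V) : SW n 0 f φ = f φ := by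
  simp [SW]

theorem SW_succ (n k : ℕ) (f : (ℕ → V) → ℝ) (φ : ℕ → V) :
    SW n (k + 1) f φ = ∑ v : V, SW (n + 1) k f (Function.update φ n v) := by
  simp [SW]

/-- A factor which does not see the positions. -/
theorem SW_mul (k : ℕ) : ∀ (n : ℕ) (g f : (ℕ → V) → ℝ) (φ : ℕ → V),
    (∀ φ₁ φ₂ : ℕ → V, (∀ i < n, φ₁ i = φ₂ i) → g φ₁ = g φ₂) →
    SW n k (fun φ => g φ * f φ) φ = g φ * SW n k f φ := by
  induction k with
  | zero => intro n g f φ _; simp [SW_zero]
  | succ k ih =>
    intro n g f φ hg
    rw [SW_succ, SW_succ, Finset.mul_sum]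
    refine Finset.sum_congr rfl fun v _ => ?_
    rw [ih (n + 1) g f _ fun φ₁ φ₂ h => hg φ₁ φ₂ fun i hi => h i (by omega)]
    congr 1
    refine hg _ _ fun i hi => ?_
    rw [Function.update_of_ne (by omega)]

/-- A function which does not see the positions. -/
theorem SW_const (k : ℕ) : ∀ (n : ℕ) (f : (ℕ → V) → ℝ) (φ : ℕ → V),
    (∀ φ₁ φ₂ : ℕ → V, (∀ i < n, φ₁ i = φ₂ i) → f φ₁ = f φ₂) →
    SW n k f φ = (Fintype.card V : ℝ) ^ k * f φ := by
  induction k with
  | zero => intro n f φ _; simp [SW_zero]
  | succ k ih =>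
    intro n f φ hf
    rw [SW_succ]
    have h1 : ∀ v : V, SW (n + 1) k f (Function.update φ n v) =
        (Fintype.card V : ℝ) ^ k * f φ := by
      intro v
      rw [ih (n + 1) f _ fun φ₁ φ₂ h => hf φ₁ φ₂ fun i hi => h i (by omega)]
      congr 1
      refine hf _ _ fun i hi => ?_
      rw [Function.update_of_ne (by omega)]
    simp only [h1]
    rw [Finset.sum_const, Finset.card_univ, nsmul_eq_mul]
    ring

theorem SW_add (k l : ℕ) : ∀ (n : ℕ) (f : (ℕ → V) → ℝ) (φ : ℕ → V),
    SW n (k + l) f φ = SW n k (fun φ => SW (n + k) l f φ) φ := by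
  induction k with
  | zero => intro n f φ; simp [SW_zero]
  | succ k ih =>
    intro n f φ
    rw [show k + 1 + l = (k + l) + 1 by omega, SW_succ, SW_succ]
    refine Finset.sum_congr rfl fun v _ => ?_
    rw [ih (n + 1) f]
    congr 1
    funext φ
    rw [show n + 1 + k = n + (k + 1) by omega]

/-- The sum as a sum over functions on `Fin k`. -/
theorem SW_fin (k : ℕ) : ∀ (n : ℕ) (f : (ℕ → V) → ℝ) (φ : ℕ → V),
    SW n k f φ = ∑ ψ : Fin k → V,
      f (fun i => if h : n ≤ i ∧ i - n < k then ψ ⟨i - n, h.2⟩ else φ i) := by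
  induction k with
  | zero =>
    intro n f φ
    simp [SW_zero]
  | succ k ih =>
    intro n f φ
    rw [SW_succ, ← (Fin.consEquiv (fun _ : Fin (k + 1) => V)).sum_comp, Fintype.sum_prod_type]
    refine Finset.sum_congr rfl fun v _ => ?_
    rw [ih (n + 1) f]
    refine Finset.sum_congr rfl fun ψ _ => ?_
    congr 1
    funext i
    simp only [Fin.consEquiv_apply]
    by_cases h1 : i < n
    · rw [dif_neg (by omega), dif_neg (by omega), Function.update_of_ne (by omega)]
    · rcases eq_or_ne i n with h2 | h2
      · subst h2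
        rw [dif_neg (by omega), dif_pos (by omega), Function.update_self]
        have h3 : (⟨i - i, by omega⟩ : Fin (k + 1)) = 0 := by
          apply Fin.ext
          simp
        rw [h3]
        rfl
      · by_cases h3 : i - n < k + 1
        · rw [dif_pos (by omega), dif_pos (by omega)]
          have h4 : (⟨i - n, by omega⟩ : Fin (k + 1)) = Fin.succ ⟨i - (n + 1), by omega⟩ := by
            apply Fin.ext
            simp only [Fin.val_succ]
            omega
          rw [h4, Fin.cons_succ]
        · rw [dif_neg (by omega), dif_neg (by omega), Function.update_of_ne h2]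

/-- Indicator of the edges. -/
noncomputable def indE (G : SimpleGraph V) (E : List (ℕ × ℕ)) (φ : ℕ → V) : ℝ :=
  if (∀ e ∈ E, G.Adj (φ e.1) (φ e.2)) then 1 else 0

omit [Fintype V] in
theorem indE_nil (G : SimpleGraph V) (φ : ℕ → V) : indE G [] φ = 1 := by
  simp [indE]

omit [Fintype V] in
theorem indE_cons (G : SimpleGraph V) (e : ℕ × ℕ) (E : List (ℕ × ℕ)) (φ : ℕ → V) :
    indE G (e :: E) φ = (if G.Adj (φ e.1) (φ e.2) then 1 else 0) * indE G E φ := by
  unfold indE
  by_cases h1 : G.Adj (φ e.1) (φ e.2)
  · by_cases h2 : ∀ e ∈ E, G.Adj (φ e.1) (φ e.2)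
    · rw [if_pos h1, if_pos h2, if_pos]
      · norm_num
      · intro x hx
        rcases List.mem_cons.1 hx with h | h
        · rw [h]
          exact h1
        · exact h2 x h
    · rw [if_pos h1, if_neg h2, if_neg]
      · norm_num
      · intro h
        exact h2 fun x hx => h x (List.mem_cons_of_mem _ hx)
  · rw [if_neg h1, if_neg, zero_mul]
    intro h
    exact h1 (h e List.mem_cons_self)

/-- The entries of the matrix of a word. -/
theorem ev_entry (G : SimpleGraph V) (hV : 0 < Fintype.card V) : ∀ (w : List ℕ) (hne : w ≠ [])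
    (_ : w.getLast hne ≠ 1) (c n : ℕ) (_ : c < n) (φ : ℕ → V),
    (Fintype.card V : ℝ) ^ w.length * ev G w (φ c) (φ 0) =
      5 ^ lett w * SW n (w.length - 1) (indE G (edgs c n w)) φ := by
  have hN : (Fintype.card V : ℝ) ≠ 0 := by exact_mod_cast hV.ne'
  intro w
  induction w with
  | nil => intro hne; exact absurd rfl hne
  | cons a w ih =>
    intro hne hl c n hc φ
    cases w with
    | nil =>
      simp only [List.getLast_singleton] at hl
      simp only [List.length_singleton, pow_one, Nat.sub_self, SW_zero]
      match a, hl with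
      | 0, _ =>
        have h1 : edgs c n [0] = [(c, 0)] := rfl
        rw [h1, indE_cons, indE_nil]
        simp only [ev, List.map_cons, List.map_nil, List.prod_cons, List.prod_nil, mul_one, lm,
          Matrix.smul_apply, Matrix.of_apply, smul_eq_mul]
        have h2 : lett [0] = 1 := rfl
        rw [h2]
        field_simp
      | k + 2, _ =>
        have h1 : edgs c n [k + 2] = [] := rfl
        rw [h1, indE_nil]
        simp only [ev, List.map_cons, List.map_nil, List.prod_cons, List.prod_nil, mul_one, lm,
          Matrix.smul_apply, Matrix.of_apply, smul_eq_mul]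
        have h2 : lett [k + 2] = 0 := rfl
        rw [h2]
        field_simp
    | cons b w =>
      have hl' : (b :: w).getLast (List.cons_ne_nil _ _) ≠ 1 := by
        rwa [List.getLast_cons (List.cons_ne_nil _ _)] at hl
      have ih' := ih (List.cons_ne_nil _ _) hl'
      have hlen : (a :: b :: w).length - 1 = ((b :: w).length - 1) + 1 := by simp
      have hev : ev G (a :: b :: w) = lm G a * ev G (b :: w) := by simp [ev]
      rw [hlen, SW_succ, hev, Matrix.mul_apply]
      have hL : (a :: b :: w).length = (b :: w).length + 1 := rfl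
      rw [hL, pow_succ]
      match a with
      | 0 =>
        have h1 : edgs c n (0 :: b :: w) = (c, n) :: edgs n (n + 1) (b :: w) := rfl
        have h2 : lett (0 :: b :: w) = lett (b :: w) + 1 := rfl
        rw [h1, h2, Finset.mul_sum, Finset.mul_sum]
        refine Finset.sum_congr rfl fun z _ => ?_
        have h3 := ih' n (n + 1) (by omega) (Function.update φ n z)
        rw [Function.update_self, Function.update_of_ne (by omega : (0 : ℕ) ≠ n)] at h3
        have h4 : indE G ((c, n) :: edgs n (n + 1) (b :: w)) = fun φ : ℕ → V =>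
            (if G.Adj (φ c) (φ n) then (1 : ℝ) else 0) * indE G (edgs n (n + 1) (b :: w)) φ := by
          funext φ
          exact indE_cons G _ _ φ
        rw [h4, SW_mul _ (n + 1) (fun φ : ℕ → V => if G.Adj (φ c) (φ n) then (1 : ℝ) else 0) _ _
          (fun φ₁ φ₂ h => by simp only [h c (by omega), h n (by omega)])]
        simp only [Function.update_self, Function.update_of_ne (by omega : c ≠ n), lm,
          Matrix.smul_apply, Matrix.of_apply, smul_eq_mul]
        rw [pow_succ]
        field_simp
        linear_combination (if G.Adj (φ c) z then (1 : ℝ) else 0) * h3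
      | 1 =>
        have h1 : edgs c n (1 :: b :: w) = (c, n) :: edgs c (n + 1) (b :: w) := rfl
        have h2 : lett (1 :: b :: w) = lett (b :: w) + 1 := rfl
        rw [h1, h2]
        have h5 : ∑ z, lm G 1 (φ c) z * ev G (b :: w) z (φ 0) =
            (5 / (Fintype.card V : ℝ)) * ((∑ v : V, if G.Adj (φ c) v then (1 : ℝ) else 0) *
              ev G (b :: w) (φ c) (φ 0)) := by
          rw [Finset.sum_eq_single (φ c)]
          · simp only [lm, Matrix.smul_apply, Matrix.diagonal_apply_eq, smul_eq_mul,
              Finset.sum_boole]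
            ring
          · intro z _ hz
            simp only [lm, Matrix.smul_apply, smul_eq_mul]
            rw [Matrix.diagonal_apply_ne' _ hz]
            ring
          · intro h
            exact absurd (Finset.mem_univ _) h
        rw [h5, Finset.sum_mul, Finset.mul_sum, Finset.mul_sum, Finset.mul_sum]
        refine Finset.sum_congr rfl fun z _ => ?_
        have h3 := ih' c (n + 1) (by omega) (Function.update φ n z)
        rw [Function.update_of_ne (by omega : c ≠ n),
          Function.update_of_ne (by omega : (0 : ℕ) ≠ n)] at h3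
        have h4 : indE G ((c, n) :: edgs c (n + 1) (b :: w)) = fun φ : ℕ → V =>
            (if G.Adj (φ c) (φ n) then (1 : ℝ) else 0) * indE G (edgs c (n + 1) (b :: w)) φ := by
          funext φ
          exact indE_cons G _ _ φ
        rw [h4, SW_mul _ (n + 1) (fun φ : ℕ → V => if G.Adj (φ c) (φ n) then (1 : ℝ) else 0) _ _
          (fun φ₁ φ₂ h => by simp only [h c (by omega), h n (by omega)])]
        simp only [Function.update_self, Function.update_of_ne (by omega : c ≠ n)]
        rw [pow_succ]
        field_simp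
        linear_combination (if G.Adj (φ c) z then (1 : ℝ) else 0) * h3
      | k + 2 =>
        have h1 : edgs c n ((k + 2) :: b :: w) = edgs n (n + 1) (b :: w) := rfl
        have h2 : lett ((k + 2) :: b :: w) = lett (b :: w) := rfl
        rw [h1, h2, Finset.mul_sum, Finset.mul_sum]
        refine Finset.sum_congr rfl fun z _ => ?_
        have h3 := ih' n (n + 1) (by omega) (Function.update φ n z)
        rw [Function.update_self, Function.update_of_ne (by omega : (0 : ℕ) ≠ n)] at h3
        simp only [lm, Matrix.smul_apply, Matrix.of_apply, smul_eq_mul]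
        rw [← h3]
        field_simp

/-- The vertices of the edges. -/
theorem edgs_lt : ∀ (w : List ℕ) (c n : ℕ), c < n → ∀ e ∈ edgs c n w,
    e.1 < n + w.length - 1 ∧ e.2 < n + w.length - 1 := by
  intro w
  induction w with
  | nil => intro c n _ e he; simp [edgs] at he
  | cons a w ih =>
    intro c n hc e he
    cases w with
    | nil =>
      match a with
      | 0 =>
        have h1 : edgs c n [0] = [(c, 0)] := rfl
        rw [h1] at he
        simp only [List.mem_singleton] at he
        subst he
        simp only [List.length_singleton]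
        omega
      | k + 1 =>
        have h1 : edgs c n [k + 1] = [] := rfl
        rw [h1] at he
        simp at he
    | cons b w =>
      have hL : (a :: b :: w).length = (b :: w).length + 1 := rfl
      have hL' : (b :: w).length = w.length + 1 := rfl
      match a with
      | 0 =>
        have h1 : edgs c n (0 :: b :: w) = (c, n) :: edgs n (n + 1) (b :: w) := rfl
        rw [h1] at he
        rcases List.mem_cons.1 he with h | h
        · subst h
          rw [hL, hL']
          constructor <;> simp only <;> omega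
        · have := ih n (n + 1) (by omega) e h
          rw [hL]
          omega
      | 1 =>
        have h1 : edgs c n (1 :: b :: w) = (c, n) :: edgs c (n + 1) (b :: w) := rfl
        rw [h1] at he
        rcases List.mem_cons.1 he with h | h
        · subst h
          rw [hL, hL']
          constructor <;> simp only <;> omega
        · have := ih c (n + 1) (by omega) e h
          rw [hL]
          omega
      | k + 2 =>
        have h1 : edgs c n ((k + 2) :: b :: w) = edgs n (n + 1) (b :: w) := rfl
        rw [h1] at he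
        have := ih n (n + 1) (by omega) e he
        rw [hL]
        omega

theorem Fw_eq (G : SimpleGraph V) (hV : 0 < Fintype.card V) (w : List ℕ) (hne : w ≠ [])
    (hw : w.length ≤ 11) (hl : w.getLast hne ≠ 1) : Fw G w = 5 ^ lett w * tt G (wE w) := by
  have hN : (Fintype.card V : ℝ) ≠ 0 := by exact_mod_cast hV.ne'
  obtain ⟨v0⟩ : Nonempty V := Fintype.card_pos_iff.1 hV
  have hlen : 0 < w.length := List.length_pos_iff.2 hne
  have h1 : (Fintype.card V : ℝ) ^ w.length * Fw G w =
      5 ^ lett w * SW 0 w.length (indE G (wE w)) (fun _ => v0) := by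
    obtain ⟨k, hk⟩ : ∃ k, w.length = k + 1 := ⟨w.length - 1, by omega⟩
    have h2 : Fw G w = ∑ x : V, ev G w x x := rfl
    rw [h2, Finset.mul_sum]
    rw [show SW 0 w.length (indE G (wE w)) (fun _ => v0) =
      ∑ v : V, SW 1 k (indE G (wE w)) (Function.update (fun _ => v0) 0 v) by rw [hk, SW_succ],
      Finset.mul_sum]
    refine Finset.sum_congr rfl fun x _ => ?_
    have h3 := ev_entry G hV w hne hl 0 1 (by omega) (Function.update (fun _ => v0) 0 x)
    rw [Function.update_self] at h3
    rw [h3, show w.length - 1 = k by omega]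
    rfl
  have hdep : ∀ φ₁ φ₂ : ℕ → V, (∀ i < 0 + w.length, φ₁ i = φ₂ i) →
      indE G (wE w) φ₁ = indE G (wE w) φ₂ := by
    intro φ₁ φ₂ h
    unfold indE
    have h2 : (∀ e ∈ wE w, G.Adj (φ₁ e.1) (φ₁ e.2)) ↔ (∀ e ∈ wE w, G.Adj (φ₂ e.1) (φ₂ e.2)) := by
      refine forall₂_congr fun e he => ?_
      have h3 := edgs_lt w 0 1 (by omega) e he
      rw [h e.1 (by omega), h e.2 (by omega)]
    simp only [h2]
  have h4 : SW 0 11 (indE G (wE w)) (fun _ => v0) = (Fintype.card V : ℝ) ^ (11 - w.length) *
      SW 0 w.length (indE G (wE w)) (fun _ => v0) := by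
    have h5 : 11 = w.length + (11 - w.length) := by omega
    have h6 : SW 0 11 (indE G (wE w)) (fun _ => v0) =
        SW 0 (w.length + (11 - w.length)) (indE G (wE w)) (fun _ => v0) := by rw [← h5]
    rw [h6, SW_add]
    have h7 : (fun φ : ℕ → V => SW (0 + w.length) (11 - w.length) (indE G (wE w)) φ) =
        fun φ : ℕ → V => (Fintype.card V : ℝ) ^ (11 - w.length) * indE G (wE w) φ := by
      funext φ
      exact SW_const _ _ _ _ hdep
    rw [h7]
    exact SW_mul _ _ (fun _ => (Fintype.card V : ℝ) ^ (11 - w.length)) _ _ fun _ _ _ => rfl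
  have h8 : SW 0 11 (indE G (wE w)) (fun _ => v0) = ∑ φ : Fin 11 → V,
      if (∀ e ∈ wE w, G.Adj (φ (Fin.ofNat 11 e.1)) (φ (Fin.ofNat 11 e.2))) then (1 : ℝ)
      else 0 := by
    rw [SW_fin]
    refine Finset.sum_congr rfl fun ψ _ => ?_
    unfold indE
    have h9 : ∀ i, i < 11 → (if h : 0 ≤ i ∧ i - 0 < 11 then ψ ⟨i - 0, h.2⟩ else v0) =
        ψ (Fin.ofNat 11 i) := by
      intro i hi
      rw [dif_pos ⟨Nat.zero_le _, by omega⟩]
      congr 1
      apply Fin.ext
      simp only [Fin.ofNat, Nat.sub_zero]
      exact (Nat.mod_eq_of_lt hi).symm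
    have h2 : (∀ e ∈ wE w, G.Adj ((fun i => if h : 0 ≤ i ∧ i - 0 < 11 then ψ ⟨i - 0, h.2⟩ else v0)
          e.1) ((fun i => if h : 0 ≤ i ∧ i - 0 < 11 then ψ ⟨i - 0, h.2⟩ else v0) e.2)) ↔
        (∀ e ∈ wE w, G.Adj (ψ (Fin.ofNat 11 e.1)) (ψ (Fin.ofNat 11 e.2))) := by
      refine forall₂_congr fun e he => ?_
      have h3 := edgs_lt w 0 1 (by omega) e he
      simp only
      rw [h9 e.1 (by omega), h9 e.2 (by omega)]
    simp only [h2]
  unfold tt
  rw [← h8, h4]
  have h10 : (Fintype.card V : ℝ) ^ 11 = (Fintype.card V : ℝ) ^ (11 - w.length) *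
      (Fintype.card V : ℝ) ^ w.length := by
    rw [← pow_add]
    congr 1
    omega
  rw [h10]
  have h11 : (Fintype.card V : ℝ) ^ (11 - w.length) ≠ 0 := pow_ne_zero _ hN
  have h12 : (Fintype.card V : ℝ) ^ w.length ≠ 0 := pow_ne_zero _ hN
  rw [mul_div_mul_left _ _ h11, mul_div_assoc', ← h1, mul_div_cancel_left₀ _ h12]

theorem ev_append (G : SimpleGraph V) (a b : List ℕ) : ev G (a ++ b) = ev G a * ev G b := by
  simp [ev]

theorem Fw_rot (G : SimpleGraph V) (w : List ℕ) : Fw G (rotW w) = Fw G w := by
  obtain ⟨T, hT⟩ : ∃ T, T = w.reverse.takeWhile fun a => Nat.beq a 1 := ⟨_, rfl⟩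
  obtain ⟨D, hD⟩ : ∃ D, D = w.reverse.dropWhile fun a => Nat.beq a 1 := ⟨_, rfl⟩
  have h1 : T ++ D = w.reverse := by
    rw [hT, hD]
    exact List.takeWhile_append_dropWhile
  have h2 : w = D.reverse ++ T.reverse := by
    rw [← List.reverse_append, h1, List.reverse_reverse]
  have h3 : T.reverse = T := by
    have h4 : ∀ a ∈ T, a = 1 := by
      intro a ha
      rw [hT] at ha
      have := List.mem_takeWhile_imp ha
      exact Nat.eq_of_beq_eq_true this
    rw [List.eq_replicate_of_mem h4, List.reverse_replicate]
  have h5 : rotW w = T ++ D.reverse := by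
    rw [rotW, ← hT, ← hD]
  rw [h5]
  conv_rhs => rw [h2, h3]
  unfold Fw
  rw [ev_append, ev_append, Matrix.trace_mul_comm]

theorem lm_symm (G : SimpleGraph V) (a : ℕ) : (lm G a)ᵀ = lm G a := by
  ext u v
  match a with
  | 0 =>
    simp only [lm, Matrix.transpose_apply, Matrix.smul_apply, Matrix.of_apply, G.adj_comm]
  | 1 =>
    simp only [lm, Matrix.transpose_apply, Matrix.smul_apply]
    rcases eq_or_ne u v with h | h
    · rw [h]
    · rw [Matrix.diagonal_apply_ne _ h, Matrix.diagonal_apply_ne _ h.symm]
  | k + 2 => simp [lm]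

theorem ev_rev (G : SimpleGraph V) (w : List ℕ) : ev G w.reverse = (ev G w)ᵀ := by
  induction w with
  | nil => simp [ev]
  | cons a w ih =>
    rw [List.reverse_cons, ev_append, ih]
    have h1 : ev G [a] = lm G a := by simp [ev]
    have h2 : ev G (a :: w) = lm G a * ev G w := by simp [ev]
    rw [h1, h2, Matrix.transpose_mul, lm_symm]

theorem Fw_rev (G : SimpleGraph V) (w : List ℕ) : Fw G w.reverse = Fw G w := by
  unfold Fw
  rw [ev_rev, Matrix.trace_transpose]

end Pool.Agent.CycT
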