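import Pool.Agent.W_1bfdb5t_h19.TDefb19
import Pool.Agent.W_1bfdb5t_h19.Wrd23
import Pool.Agent.W_1bfdb5t_h19.Iso1

/-!
# Closed walks of length 9 and 11: the sum over the pairs and the classes (helper60)
-/

set_option autoImplicit false

namespace Pool.Agent.CycT

open Finset Matrix Pool.Agent.CycGT
open scoped Classical

variable {V : Type} [Fintype V]

/-! ### letters -/

theorem lett_append60 (a b : List ℕ) : lett (a ++ b) = lett a + lett b := by
  induction a with
  | nil => simp [lett]
  | cons x a ih =>
    simp only [List.cons_append, lett]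
    rw [ih]
    cases Nat.blt x 2
    · simp
    · simp only [cond_true]; omega

theorem lett_reverse60 (a : List ℕ) : lett a.reverse = lett a := by
  induction a with
  | nil => rfl
  | cons x a ih =>
    rw [List.reverse_cons, lett_append60, ih]
    simp only [lett]
    cases Nat.blt x 2
    · simp
    · simp

theorem rotW_split60 (w : List ℕ) : ∃ T D : List ℕ, w.reverse = T ++ D ∧ rotW w = T ++ D.reverse :=
  ⟨w.reverse.takeWhile fun a => Nat.beq a 1, w.reverse.dropWhile fun a => Nat.beq a 1,
    List.takeWhile_append_dropWhile.symm, rfl⟩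

theorem lett_rotW60 (w : List ℕ) : lett (rotW w) = lett w := by
  obtain ⟨T, D, h1, h2⟩ := rotW_split60 w
  rw [h2, lett_append60, lett_reverse60, ← lett_append60, ← h1, lett_reverse60]

theorem length_rotW60 (w : List ℕ) : (rotW w).length = w.length := by
  obtain ⟨T, D, h1, h2⟩ := rotW_split60 w
  rw [h2, List.length_append, List.length_reverse, ← List.length_append, ← h1,
    List.length_reverse]

/-! ### one pair -/

/-- The value of a class. -/
noncomputable def val60 (G : SimpleGraph V) (cm : List (List ℕ)) : ℕ → ℝ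
  | 0 => 0
  | c + 1 => tt G (mE (cm.getD c []))

theorem datB_val60 (G : SimpleGraph V) (hG : OddFree G 5) (hV : 0 < Fintype.card V)
    (cm : List (List ℕ)) (w : List ℕ) (q : ℕ × List ℕ) (h : datB cm w q = true) :
    Fw G w = 5 ^ lett w * val60 G cm q.1 := by
  obtain ⟨c, p⟩ := q
  rw [← Fw_rot, ← lett_rotW60]
  unfold datB at h
  have hlen := length_rotW60 w
  revert h hlen
  generalize rotW w = r
  intro h hlen
  cases r with
  | nil => simp at h
  | cons a r =>
    cases c with
    | zero =>
      simp only [Bool.and_eq_true, Nat.ble_eq, Bool.not_eq_true', ← Bool.not_eq_true,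
        Nat.beq_eq] at h
      obtain ⟨⟨h1, h2⟩, h3⟩ := h
      have hne : (a :: r) ≠ [] := by simp
      have h4 : (a :: r).getLast hne ≠ 1 := by
        rw [List.getLastD_cons] at h2
        rwa [List.getLast_eq_getLastD]
      rw [Fw_eq G hV (a :: r) hne (by omega) h4, tt_zero hG p _ h3]
      simp [val60]
    | succ c =>
      simp only [Bool.and_eq_true, Nat.ble_eq, Bool.not_eq_true', ← Bool.not_eq_true,
        Nat.beq_eq] at h
      obtain ⟨⟨h1, h2⟩, h3⟩ := h
      have hne : (a :: r) ≠ [] := by simp
      have h4 : (a :: r).getLast hne ≠ 1 := by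
        rw [List.getLastD_cons] at h2
        rwa [List.getLast_eq_getLastD]
      rw [Fw_eq G hV (a :: r) hne (by omega) h4, tt_iso G p _ _ h3]
      rfl

/-! ### grouping by classes -/

theorem clsS_sum60 (v : ℕ → ℝ) (hv : v 0 = 0) (m : ℕ) : ∀ L : List (ℕ × ℤ),
    (∀ x ∈ L, x.1 ≤ m) → (L.map fun x => (x.2 : ℝ) * v x.1).sum =
      ∑ c ∈ range m, (clsS L (c + 1) : ℝ) * v (c + 1) := by
  intro L
  induction L with
  | nil => intro _; simp [clsS]
  | cons x L ih =>
    intro h
    rw [List.map_cons, List.sum_cons, ih fun y hy => h y (List.mem_cons_of_mem _ hy)]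
    have hx := h x List.mem_cons_self
    have h1 : ∀ c, (clsS (x :: L) (c + 1) : ℝ) * v (c + 1) =
        (if x.1 = c + 1 then (x.2 : ℝ) * v x.1 else 0) + (clsS L (c + 1) : ℝ) * v (c + 1) := by
      intro c
      by_cases h2 : x.1 = c + 1
      · have h3 : Nat.beq x.1 (c + 1) = true := by rw [Nat.beq_eq]; exact h2
        simp only [clsS, h3, cond_true, if_pos h2]
        rw [h2]
        push_cast
        ring
      · have h3 : Nat.beq x.1 (c + 1) = false := by
          rw [← Bool.not_eq_true, Nat.beq_eq]; exact h2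
        simp only [clsS, h3, cond_false, if_neg h2]
        ring
    rw [Finset.sum_congr rfl fun c _ => h1 c, Finset.sum_add_distrib]
    congr 1
    rcases Nat.eq_zero_or_pos x.1 with h0 | h0
    · rw [h0, hv, mul_zero, Finset.sum_eq_zero]
      intro c _
      rw [if_neg (by omega)]
    · rw [Finset.sum_eq_single (x.1 - 1)]
      · rw [if_pos (by omega)]
      · intro c _ hc
        rw [if_neg (by omega)]
      · intro hc
        exact absurd (Finset.mem_range.2 (by omega)) hc

/-! ### the sum over the pairs -/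

theorem list_range_sum60 (n : ℕ) (f : ℕ → ℝ) :
    ((List.range n).map f).sum = ∑ i ∈ range n, f i := by
  induction n with
  | zero => simp
  | succ n ih =>
    rw [List.range_succ, List.map_append, List.sum_append, ih, Finset.sum_range_succ]
    simp

theorem flatMap_sum60 {α β : Type} (l : List α) (f : α → List β) (g : β → ℝ) :
    ((l.flatMap f).map g).sum = (l.map fun a => ((f a).map g).sum).sum := by
  induction l with
  | nil => simp
  | cons a l ih =>
    rw [List.flatMap_cons, List.map_append, List.sum_append, ih, List.map_cons, List.sum_cons]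

theorem prs_sum60 (n : ℕ) (g : ℕ × ℕ × ℕ → ℝ) : ((prs n).map g).sum =
    ∑ i ∈ range n, ∑ j ∈ range n, if i ≤ j then g (i, j, 0) + g (i, j, 1) else 0 := by
  unfold prs
  rw [flatMap_sum60, list_range_sum60]
  refine Finset.sum_congr rfl fun i hi => ?_
  rw [Finset.mem_range] at hi
  rw [flatMap_sum60, list_range_sum60]
  have h1 : ∀ s, (([(i, i + s, 0), (i, i + s, 1)] : List (ℕ × ℕ × ℕ)).map g).sum =
      g (i, i + s, 0) + g (i, i + s, 1) := by
    intro s
    simp
  simp only [h1]
  rw [← Finset.sum_filter]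
  have h2 : (range n).filter (fun j => i ≤ j) = Finset.Ico i n := by
    ext j
    simp only [Finset.mem_filter, Finset.mem_range, Finset.mem_Ico]
    tauto
  rw [h2, Finset.sum_Ico_eq_sum_range]

theorem sym_sum60 (n : ℕ) (f : ℕ → ℕ → ℝ) (hf : ∀ i < n, ∀ j < n, f i j = f j i) :
    ∑ i ∈ range n, ∑ j ∈ range n, f i j =
      ∑ i ∈ range n, ∑ j ∈ range n, if i ≤ j then (if i = j then 1 else 2) * f i j else 0 := by
  have h1 : ∑ i ∈ range n, ∑ j ∈ range n, (if j < i then f i j else 0) =
      ∑ i ∈ range n, ∑ j ∈ range n, (if i < j then f i j else 0) := by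
    rw [Finset.sum_comm]
    refine Finset.sum_congr rfl fun i hi => Finset.sum_congr rfl fun j hj => ?_
    rw [Finset.mem_range] at hi hj
    by_cases h : i < j
    · rw [if_pos h, if_pos h, hf j hj i hi]
    · rw [if_neg h, if_neg h]
  have h2 : ∑ i ∈ range n, ∑ j ∈ range n, f i j =
      ∑ i ∈ range n, ∑ j ∈ range n, (if i ≤ j then f i j else 0) +
      ∑ i ∈ range n, ∑ j ∈ range n, (if j < i then f i j else 0) := by
    rw [← Finset.sum_add_distrib]
    refine Finset.sum_congr rfl fun i _ => ?_
    rw [← Finset.sum_add_distrib]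
    refine Finset.sum_congr rfl fun j _ => ?_
    by_cases h : i ≤ j
    · rw [if_pos h, if_neg (by omega), add_zero]
    · rw [if_neg h, if_pos (by omega), zero_add]
  rw [h2, h1, ← Finset.sum_add_distrib]
  refine Finset.sum_congr rfl fun i _ => ?_
  rw [← Finset.sum_add_distrib]
  refine Finset.sum_congr rfl fun j _ => ?_
  rcases lt_trichotomy i j with h | h | h
  · rw [if_pos h.le, if_pos h, if_pos h.le, if_neg h.ne]
    ring
  · subst h
    simp
  · rw [if_neg (by omega), if_neg (by omega), if_neg (by omega), add_zero]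

/-! ### the theorem -/

theorem S_eq (G : SimpleGraph V) (hG : OddFree G 5) (hV : 0 < Fintype.card V)
    (cm ws : List (List ℕ)) (dat : List (ℕ × List ℕ)) (X5 X6 : List (List ℤ)) (K : List ℤ)
    (h5 : ∀ i < ws.length, ∀ j < ws.length, ent X5 i j = ent X5 j i)
    (h6 : ∀ i < ws.length, ∀ j < ws.length, ent X6 i j = ent X6 j i)
    (hd : datsB cm ws dat = true) (hs : sumB (conL X5 X6 ws dat) K = true) :
    ∑ i ∈ range ws.length, ∑ j ∈ range ws.length,
      ((ent X5 i j : ℝ) * (5 * Fw G ((ws.getD i []).reverse ++ ws.getD j []) -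
        2 * Fw G ((ws.getD i []).reverse ++ 0 :: ws.getD j [])) +
       (ent X6 i j : ℝ) * (5 * Fw G ((ws.getD i []).reverse ++ ws.getD j []) +
        2 * Fw G ((ws.getD i []).reverse ++ 0 :: ws.getD j []))) =
    ∑ c ∈ range K.length, (K.getD c 0 : ℝ) * tt G (mE (cm.getD c [])) := by
  have hsym0 : ∀ i j, Fw G ((ws.getD i []).reverse ++ ws.getD j []) =
      Fw G ((ws.getD j []).reverse ++ ws.getD i []) := by
    intro i j
    rw [← Fw_rev G ((ws.getD j []).reverse ++ ws.getD i [])]
    simp
  have hsym1 : ∀ i j, Fw G ((ws.getD i []).reverse ++ 0 :: ws.getD j []) =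
      Fw G ((ws.getD j []).reverse ++ 0 :: ws.getD i []) := by
    intro i j
    rw [← Fw_rev G ((ws.getD j []).reverse ++ 0 :: ws.getD i [])]
    simp
  rw [sym_sum60 _ _ fun i hi j hj => by
    rw [h5 i hi j hj, h6 i hi j hj, hsym0 i j, hsym1 i j]]
  have e1 : ∀ i ∈ range ws.length, ∀ j ∈ range ws.length,
      (if i ≤ j then (if i = j then 1 else 2) *
        ((ent X5 i j : ℝ) * (5 * Fw G ((ws.getD i []).reverse ++ ws.getD j []) -
          2 * Fw G ((ws.getD i []).reverse ++ 0 :: ws.getD j [])) +
         (ent X6 i j : ℝ) * (5 * Fw G ((ws.getD i []).reverse ++ ws.getD j []) +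
          2 * Fw G ((ws.getD i []).reverse ++ 0 :: ws.getD j []))) else 0) =
      if i ≤ j then (fun e => (coE X5 X6 e : ℝ) * Fw G (wordE ws e)) (i, j, 0) +
        (fun e => (coE X5 X6 e : ℝ) * Fw G (wordE ws e)) (i, j, 1) else 0 := by
    intro i _ j _
    by_cases hij : i ≤ j
    · rw [if_pos hij, if_pos hij]
      have hw0 : wordE ws (i, j, 0) = (ws.getD i []).reverse ++ ws.getD j [] := rfl
      have hw1 : wordE ws (i, j, 1) = (ws.getD i []).reverse ++ 0 :: ws.getD j [] := rfl
      have hc0 : coE X5 X6 (i, j, 0) = (bif Nat.beq i j then 1 else 2) *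
        (5 * (ent X5 i j + ent X6 i j)) := rfl
      have hc1 : coE X5 X6 (i, j, 1) = (bif Nat.beq i j then 1 else 2) *
        (2 * (ent X6 i j - ent X5 i j)) := rfl
      simp only [hw0, hw1, hc0, hc1]
      by_cases h : i = j
      · have hb : Nat.beq i j = true := by rw [Nat.beq_eq]; exact h
        rw [if_pos h, hb]
        push_cast
        simp only [cond_true]
        push_cast
        ring
      · have hb : Nat.beq i j = false := by rw [← Bool.not_eq_true, Nat.beq_eq]; exact h
        rw [if_neg h, hb]
        push_cast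
        simp only [cond_false]
        push_cast
        ring
    · rw [if_neg hij, if_neg hij]
  rw [Finset.sum_congr rfl fun i hi => Finset.sum_congr rfl fun j hj => e1 i hi j hj,
    ← prs_sum60 ws.length fun e => (coE X5 X6 e : ℝ) * Fw G (wordE ws e)]
  unfold datsB at hd
  simp only [Bool.and_eq_true, Nat.beq_eq, List.all_eq_true] at hd
  obtain ⟨hl, hd⟩ := hd
  have e2 : (prs ws.length) = (List.zip (prs ws.length) dat).map Prod.fst := by
    rw [List.map_fst_zip]
    omega
  have e3 : ((prs ws.length).map fun e => (coE X5 X6 e : ℝ) * Fw G (wordE ws e)).sum =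
      ((conL X5 X6 ws dat).map fun x => (x.2 : ℝ) * val60 G cm x.1).sum := by
    conv_lhs => rw [e2]
    unfold conL
    rw [List.map_map, List.map_map]
    congr 1
    refine List.map_congr_left fun x hx => ?_
    simp only [Function.comp]
    rw [datB_val60 G hG hV cm _ _ (hd x hx)]
    push_cast
    ring
  rw [e3]
  unfold sumB at hs
  simp only [Bool.and_eq_true, List.all_eq_true, Nat.ble_eq, List.mem_range,
    decide_eq_true_eq] at hs
  obtain ⟨hs1, hs2⟩ := hs
  rw [clsS_sum60 (val60 G cm) rfl K.length _ hs1]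
  refine Finset.sum_congr rfl fun c hc => ?_
  rw [Finset.mem_range] at hc
  rw [hs2 c hc]
  rfl

end Pool.Agent.CycT
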