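import Pool.Agent.W_1bfdb5t_h19.TDefs19

/-!
# Closed walks of length 9 and 11: small edge lists and closed walks
-/

namespace Pool.Agent.CycT

open Finset Matrix Pool.Agent.CycGT
open scoped Classical

variable {V : Type} [Fintype V]

/-- A function which depends on the first `k` coordinates only. -/
lemma sum_append31 (k r : ℕ) (f : (Fin k → V) → ℝ) :
    ∑ φ : Fin (k + r) → V, f (fun i => φ (Fin.castAdd r i)) =
      (Fintype.card V : ℝ) ^ r * ∑ ψ : Fin k → V, f ψ := by
  rw [← (Fin.appendEquiv k r).sum_comp, Fintype.sum_prod_type, Finset.mul_sum]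
  refine Finset.sum_congr rfl fun a _ => ?_
  have h : ∀ b : Fin r → V, f (fun i => (Fin.appendEquiv k r) (a, b) (Fin.castAdd r i)) = f a := by
    intro b
    congr 1
    funext i
    exact Fin.append_left a b i
  rw [Finset.sum_congr rfl fun b _ => h b, Finset.sum_const, Finset.card_univ, nsmul_eq_mul]
  congr 1
  rw [Fintype.card_fun, Fintype.card_fin, Nat.cast_pow]

/-- Edge lists on the first `k` vertices. -/
lemma tt_first31 (G : SimpleGraph V) (hV : 0 < Fintype.card V) (k r : ℕ) [NeZero k]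
    (hk : k + r = 11) (E : List (ℕ × ℕ)) (hE : ∀ e ∈ E, e.1 < k ∧ e.2 < k) :
    tt G E = (∑ φ : Fin k → V, if (∀ e ∈ E, G.Adj (φ (Fin.ofNat k e.1)) (φ (Fin.ofNat k e.2)))
      then (1 : ℝ) else 0) / (Fintype.card V : ℝ) ^ k := by
  have hc : (0 : ℝ) < Fintype.card V := by exact_mod_cast hV
  have hsum : (∑ φ : Fin 11 → V,
      if (∀ e ∈ E, G.Adj (φ (Fin.ofNat 11 e.1)) (φ (Fin.ofNat 11 e.2))) then (1 : ℝ) else 0) =
      (Fintype.card V : ℝ) ^ r * ∑ φ : Fin k → V,
        if (∀ e ∈ E, G.Adj (φ (Fin.ofNat k e.1)) (φ (Fin.ofNat k e.2))) then (1 : ℝ) else 0 := by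
    have h1 := sum_append31 (V := V) k r (fun ψ =>
      if (∀ e ∈ E, G.Adj (ψ (Fin.ofNat k e.1)) (ψ (Fin.ofNat k e.2))) then (1 : ℝ) else 0)
    rw [← h1]
    subst_vars
    have e1 : (∑ φ : Fin (k + r) → V, if (∀ e ∈ E, G.Adj (φ (Fin.castAdd r (Fin.ofNat k e.1)))
        (φ (Fin.castAdd r (Fin.ofNat k e.2)))) then (1 : ℝ) else 0) =
        ∑ φ : Fin 11 → V, if (∀ e ∈ E, G.Adj (φ (Fin.cast hk (Fin.castAdd r (Fin.ofNat k e.1))))
        (φ (Fin.cast hk (Fin.castAdd r (Fin.ofNat k e.2))))) then (1 : ℝ) else 0 := by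
      refine Fintype.sum_equiv (Equiv.arrowCongr (finCongr hk) (Equiv.refl V)) _ _ fun φ => ?_
      simp [Equiv.arrowCongr]
    rw [e1]
    refine Finset.sum_congr rfl fun φ _ => ?_
    have e2 : ∀ a : ℕ, a < k → Fin.cast hk (Fin.castAdd r (Fin.ofNat k a)) = Fin.ofNat 11 a := by
      intro a ha
      ext
      simp only [Fin.val_cast, Fin.val_castAdd, Fin.ofNat]
      rw [Nat.mod_eq_of_lt ha, Nat.mod_eq_of_lt (by omega)]
    have e3 : (∀ e ∈ E, G.Adj (φ (Fin.ofNat 11 e.1)) (φ (Fin.ofNat 11 e.2))) ↔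
        (∀ e ∈ E, G.Adj (φ (Fin.cast hk (Fin.castAdd r (Fin.ofNat k e.1))))
          (φ (Fin.cast hk (Fin.castAdd r (Fin.ofNat k e.2))))) := by
      refine forall₂_congr fun e he => ?_
      rw [e2 _ (hE e he).1, e2 _ (hE e he).2]
    rw [if_congr e3 rfl rfl]
  unfold tt
  rw [hsum, show (11 : ℕ) = r + k by omega, pow_add, mul_div_mul_left _ _ (by positivity)]

/-- Edge lists on seven vertices. -/
theorem tt_small (G : SimpleGraph V) (hV : 0 < Fintype.card V) (E : List (ℕ × ℕ))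
    (hE : ∀ e ∈ E, e.1 < 7 ∧ e.2 < 7) :
    tt G E = (∑ φ : Fin 7 → V, if (∀ e ∈ E, G.Adj (φ (Fin.ofNat 7 e.1)) (φ (Fin.ofNat 7 e.2)))
      then (1 : ℝ) else 0) / (Fintype.card V : ℝ) ^ 7 :=
  tt_first31 G hV 7 4 rfl E hE

lemma sum_ite_clos31 (G : SimpleGraph V) (M : ℕ) [NeZero M] (P : (ZMod M → V) → Prop)
    [hP : DecidablePred P] (h : ∀ c, P c ↔ IsCl G M c) :
    ∑ φ : ZMod M → V, (if P φ then (1 : ℝ) else 0) = (#(clos G M) : ℝ) := by
  rw [Finset.sum_boole]
  congr 2
  unfold clos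
  ext c
  rw [Finset.mem_filter, Finset.mem_filter, h c]

theorem tt_clos9 (G : SimpleGraph V) (hV : 0 < Fintype.card V) :
    tt G (wE (List.replicate 9 0)) = (#(clos G 9) : ℝ) / (Fintype.card V : ℝ) ^ 9 := by
  have hw : wE (List.replicate 9 0) =
      [(0, 1), (1, 2), (2, 3), (3, 4), (4, 5), (5, 6), (6, 7), (7, 8), (8, 0)] := by decide
  rw [hw, tt_first31 G hV 9 2 rfl _ (by decide)]
  congr 1
  refine sum_ite_clos31 G 9 _ fun c => ?_
  constructor
  · intro h i
    have h' : ∀ a b : ℕ, (a, b) ∈ [(0, 1), (1, 2), (2, 3), (3, 4), (4, 5), (5, 6), (6, 7), (7, 8),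
        (8, 0)] → G.Adj (c (Fin.ofNat 9 a)) (c (Fin.ofNat 9 b)) := fun a b hab => h (a, b) hab
    change Fin 9 at i
    fin_cases i
    · exact h' 0 1 (by decide)
    · exact h' 1 2 (by decide)
    · exact h' 2 3 (by decide)
    · exact h' 3 4 (by decide)
    · exact h' 4 5 (by decide)
    · exact h' 5 6 (by decide)
    · exact h' 6 7 (by decide)
    · exact h' 7 8 (by decide)
    · exact h' 8 0 (by decide)
  · intro h e he
    simp only [List.mem_cons, List.not_mem_nil, or_false] at he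
    rcases he with rfl | rfl | rfl | rfl | rfl | rfl | rfl | rfl | rfl
    · exact h (0 : Fin 9)
    · exact h (1 : Fin 9)
    · exact h (2 : Fin 9)
    · exact h (3 : Fin 9)
    · exact h (4 : Fin 9)
    · exact h (5 : Fin 9)
    · exact h (6 : Fin 9)
    · exact h (7 : Fin 9)
    · exact h (8 : Fin 9)

theorem tt_clos11 (G : SimpleGraph V) (hV : 0 < Fintype.card V) :
    tt G (wE (List.replicate 11 0)) = (#(clos G 11) : ℝ) / (Fintype.card V : ℝ) ^ 11 := by
  have hw : wE (List.replicate 11 0) =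
      [(0, 1), (1, 2), (2, 3), (3, 4), (4, 5), (5, 6), (6, 7), (7, 8), (8, 9), (9, 10), (10, 0)] := by
    decide
  rw [hw, tt_first31 G hV 11 0 rfl _ (by decide)]
  congr 1
  refine sum_ite_clos31 G 11 _ fun c => ?_
  constructor
  · intro h i
    have h' : ∀ a b : ℕ, (a, b) ∈ [(0, 1), (1, 2), (2, 3), (3, 4), (4, 5), (5, 6), (6, 7), (7, 8),
        (8, 9), (9, 10), (10, 0)] → G.Adj (c (Fin.ofNat 11 a)) (c (Fin.ofNat 11 b)) :=
      fun a b hab => h (a, b) hab
    change Fin 11 at i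
    fin_cases i
    · exact h' 0 1 (by decide)
    · exact h' 1 2 (by decide)
    · exact h' 2 3 (by decide)
    · exact h' 3 4 (by decide)
    · exact h' 4 5 (by decide)
    · exact h' 5 6 (by decide)
    · exact h' 6 7 (by decide)
    · exact h' 7 8 (by decide)
    · exact h' 8 9 (by decide)
    · exact h' 9 10 (by decide)
    · exact h' 10 0 (by decide)
  · intro h e he
    simp only [List.mem_cons, List.not_mem_nil, or_false] at he
    rcases he with rfl | rfl | rfl | rfl | rfl | rfl | rfl | rfl | rfl | rfl | rfl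
    · exact h (0 : Fin 11)
    · exact h (1 : Fin 11)
    · exact h (2 : Fin 11)
    · exact h (3 : Fin 11)
    · exact h (4 : Fin 11)
    · exact h (5 : Fin 11)
    · exact h (6 : Fin 11)
    · exact h (7 : Fin 11)
    · exact h (8 : Fin 11)
    · exact h (9 : Fin 11)
    · exact h (10 : Fin 11)

end Pool.Agent.CycT
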