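import Pool.Agent.W_1bfdb5t_h19.Dx5_11

/-!
# Data of the certificate for closed walks of length 11 in triangle-free graphs
-/

set_option maxRecDepth 100000

namespace Pool.Agent.CycT

/-- The block for the localiser `5 - 2 a`. -/
def b5_11 : Blk where
  n := 41
  d := 38
  Nc := [[Int.ofNat 1, Int.ofNat 0, Int.ofNat 0, Int.ofNat 0, Int.ofNat 0, Int.ofNat 0, Int.ofNat 0, Int.ofNat 0, Int.ofNat 0, Int.ofNat 0, Int.ofNat 0, Int.ofNat 0, Int.ofNat 0, Int.ofNat 0, Int.ofNat 0, Int.ofNat 0, Int.ofNat 0, Int.ofNat 0, Int.ofNat 0, Int.ofNat 0, Int.ofNat 0, Int.ofNat 0, Int.ofNat 0, Int.ofNat 0, Int.ofNat 0, Int.ofNat 0, Int.ofNat 0, Int.ofNat 0, Int.ofNat 0, Int.ofNat 0, Int.ofNat 0, Int.ofNat 0, Int.ofNat 0, Int.ofNat 0, Int.ofNat 0, Int.ofNat 0, Int.ofNat 0, Int.ofNat 0],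
  [Int.ofNat 0, Int.ofNat 1, Int.ofNat 0, Int.ofNat 0, Int.ofNat 0, Int.ofNat 0, Int.ofNat 0, Int.ofNat 0, Int.ofNat 0, Int.ofNat 0, Int.ofNat 0, Int.ofNat 0, Int.ofNat 0, Int.ofNat 0, Int.ofNat 0, Int.ofNat 0, Int.ofNat 0, Int.ofNat 0, Int.ofNat 0, Int.ofNat 0, Int.ofNat 0, Int.ofNat 0, Int.ofNat 0, Int.ofNat 0, Int.ofNat 0, Int.ofNat 0, Int.ofNat 0, Int.ofNat 0, Int.ofNat 0, Int.ofNat 0, Int.ofNat 0, Int.ofNat 0, Int.ofNat 0, Int.ofNat 0, Int.ofNat 0, Int.ofNat 0, Int.ofNat 0, Int.ofNat 0],
  [Int.ofNat 0, Int.ofNat 0, Int.ofNat 1, Int.ofNat 0, Int.ofNat 0, Int.ofNat 0, Int.ofNat 0, Int.ofNat 0, Int.ofNat 0, Int.ofNat 0, Int.ofNat 0, Int.ofNat 0, Int.ofNat 0, Int.ofNat 0, Int.ofNat 0, Int.ofNat 0, Int.ofNat 0, Int.ofNat 0, Int.ofNat 0, Int.ofNat 0, Int.ofNat 0, Int.ofNat 0, Int.ofNat 0, Int.ofNat 0, Int.ofNat 0, Int.ofNat 0, Int.ofNat 0, Int.ofNat 0, Int.ofNat 0, Int.ofNat 0, Int.ofNat 0, Int.ofNat 0, Int.ofNat 0, Int.ofNat 0, Int.ofNat 0, Int.ofNat 0, Int.ofNat 0, Int.ofNat 0],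
  [Int.ofNat 0, Int.ofNat 0, Int.ofNat 0, Int.ofNat 1, Int.ofNat 0, Int.ofNat 0, Int.ofNat 0, Int.ofNat 0, Int.ofNat 0, Int.ofNat 0, Int.ofNat 0, Int.ofNat 0, Int.ofNat 0, Int.ofNat 0, Int.ofNat 0, Int.ofNat 0, Int.ofNat 0, Int.ofNat 0, Int.ofNat 0, Int.ofNat 0, Int.ofNat 0, Int.ofNat 0, Int.ofNat 0, Int.ofNat 0, Int.ofNat 0, Int.ofNat 0, Int.ofNat 0, Int.ofNat 0, Int.ofNat 0, Int.ofNat 0, Int.ofNat 0, Int.ofNat 0, Int.ofNat 0, Int.ofNat 0, Int.ofNat 0, Int.ofNat 0, Int.ofNat 0, Int.ofNat 0],
  [Int.ofNat 0, Int.ofNat 0, Int.ofNat 0, Int.ofNat 0, Int.ofNat 1, Int.ofNat 0, Int.ofNat 0, Int.ofNat 0, Int.ofNat 0, Int.ofNat 0, Int.ofNat 0, Int.ofNat 0, Int.ofNat 0, Int.ofNat 0, Int.ofNat 0, Int.ofNat 0, Int.ofNat 0, Int.ofNat 0, Int.ofNat 0, Int.ofNat 0, Int.ofNat 0, Int.ofNat 0, Int.ofNat 0, Int.ofNat 0, Int.ofNat 0, Int.ofNat 0, Int.ofNat 0, Int.ofNat 0, Int.ofNat 0, Int.ofNat 0, Int.ofNat 0, Int.ofNat 0, Int.ofNat 0, Int.ofNat 0, Int.ofNat 0, Int.ofNat 0, Int.ofNat 0, Int.ofNat 0],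
  [Int.ofNat 0, Int.ofNat 0, Int.ofNat 0, Int.ofNat 0, Int.ofNat 0, Int.ofNat 1, Int.ofNat 0, Int.ofNat 0, Int.ofNat 0, Int.ofNat 0, Int.ofNat 0, Int.ofNat 0, Int.ofNat 0, Int.ofNat 0, Int.ofNat 0, Int.ofNat 0, Int.ofNat 0, Int.ofNat 0, Int.ofNat 0, Int.ofNat 0, Int.ofNat 0, Int.ofNat 0, Int.ofNat 0, Int.ofNat 0, Int.ofNat 0, Int.ofNat 0, Int.ofNat 0, Int.ofNat 0, Int.ofNat 0, Int.ofNat 0, Int.ofNat 0, Int.ofNat 0, Int.ofNat 0, Int.ofNat 0, Int.ofNat 0, Int.ofNat 0, Int.ofNat 0, Int.ofNat 0],
  [Int.ofNat 0, Int.ofNat 0, Int.ofNat 0, Int.ofNat 0, Int.ofNat 0, Int.ofNat 0, Int.ofNat 1, Int.ofNat 0, Int.ofNat 0, Int.ofNat 0, Int.ofNat 0, Int.ofNat 0, Int.ofNat 0, Int.ofNat 0, Int.ofNat 0, Int.ofNat 0, Int.ofNat 0, Int.ofNat 0, Int.ofNat 0, Int.ofNat 0, Int.ofNat 0, Int.ofNat 0, Int.ofNat 0, Int.ofNat 0, Int.ofNat 0, Int.ofNat 0, Int.ofNat 0, Int.ofNat 0, Int.ofNat 0, Int.ofNat 0, Int.ofNat 0, Int.ofNat 0, Int.ofNat 0, Int.ofNat 0, Int.ofNat 0, Int.ofNat 0, Int.ofNat 0, Int.ofNat 0],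
  [Int.ofNat 0, Int.ofNat 0, Int.ofNat 0, Int.ofNat 0, Int.ofNat 0, Int.ofNat 0, Int.ofNat 0, Int.ofNat 1, Int.ofNat 0, Int.ofNat 0, Int.ofNat 0, Int.ofNat 0, Int.ofNat 0, Int.ofNat 0, Int.ofNat 0, Int.ofNat 0, Int.ofNat 0, Int.ofNat 0, Int.ofNat 0, Int.ofNat 0, Int.ofNat 0, Int.ofNat 0, Int.ofNat 0, Int.ofNat 0, Int.ofNat 0, Int.ofNat 0, Int.ofNat 0, Int.ofNat 0, Int.ofNat 0, Int.ofNat 0, Int.ofNat 0, Int.ofNat 0, Int.ofNat 0, Int.ofNat 0, Int.ofNat 0, Int.ofNat 0, Int.ofNat 0, Int.ofNat 0],
  [Int.ofNat 0, Int.ofNat 0, Int.ofNat 0, Int.ofNat 0, Int.ofNat 0, Int.ofNat 0, Int.ofNat 0, Int.ofNat 0, Int.ofNat 1, Int.ofNat 0, Int.ofNat 0, Int.ofNat 0, Int.ofNat 0, Int.ofNat 0, Int.ofNat 0, Int.ofNat 0, Int.ofNat 0, Int.ofNat 0, Int.ofNat 0, Int.ofNat 0, Int.ofNat 0, Int.ofNat 0, Int.ofNat 0, Int.ofNat 0, Int.ofNat 0, Int.ofNat 0, Int.ofNat 0, Int.ofNat 0, Int.ofNat 0, Int.ofNat 0, Int.ofNat 0, Int.ofNat 0, Int.ofNat 0, Int.ofNat 0, Int.ofNat 0, Int.ofNat 0, Int.ofNat 0, Int.ofNat 0],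
  [Int.ofNat 0, Int.ofNat 0, Int.ofNat 0, Int.ofNat 0, Int.ofNat 0, Int.ofNat 0, Int.ofNat 0, Int.ofNat 0, Int.ofNat 0, Int.ofNat 1, Int.ofNat 0, Int.ofNat 0, Int.ofNat 0, Int.ofNat 0, Int.ofNat 0, Int.ofNat 0, Int.ofNat 0, Int.ofNat 0, Int.ofNat 0, Int.ofNat 0, Int.ofNat 0, Int.ofNat 0, Int.ofNat 0, Int.ofNat 0, Int.ofNat 0, Int.ofNat 0, Int.ofNat 0, Int.ofNat 0, Int.ofNat 0, Int.ofNat 0, Int.ofNat 0, Int.ofNat 0, Int.ofNat 0, Int.ofNat 0, Int.ofNat 0, Int.ofNat 0, Int.ofNat 0, Int.ofNat 0],
  [Int.ofNat 0, Int.ofNat 0, Int.ofNat 0, Int.ofNat 0, Int.ofNat 0, Int.ofNat 0, Int.ofNat 0, Int.ofNat 0, Int.ofNat 0, Int.ofNat 0, Int.ofNat 1, Int.ofNat 0, Int.ofNat 0, Int.ofNat 0, Int.ofNat 0, Int.ofNat 0, Int.ofNat 0, Int.ofNat 0, Int.ofNat 0, Int.ofNat 0, Int.ofNat 0, Int.ofNat 0, Int.ofNat 0, Int.ofNat 0, Int.ofNat 0, Int.ofNat 0, Int.ofNat 0, Int.ofNat 0, Int.ofNat 0, Int.ofNat 0, Int.ofNat 0, Int.ofNat 0, Int.ofNat 0, Int.ofNat 0, Int.ofNat 0, Int.ofNat 0, Int.ofNat 0, Int.ofNat 0],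
  [Int.ofNat 0, Int.ofNat 0, Int.ofNat 0, Int.ofNat 0, Int.ofNat 0, Int.ofNat 0, Int.ofNat 0, Int.ofNat 0, Int.ofNat 0, Int.ofNat 0, Int.ofNat 0, Int.ofNat 1, Int.ofNat 0, Int.ofNat 0, Int.ofNat 0, Int.ofNat 0, Int.ofNat 0, Int.ofNat 0, Int.ofNat 0, Int.ofNat 0, Int.ofNat 0, Int.ofNat 0, Int.ofNat 0, Int.ofNat 0, Int.ofNat 0, Int.ofNat 0, Int.ofNat 0, Int.ofNat 0, Int.ofNat 0, Int.ofNat 0, Int.ofNat 0, Int.ofNat 0, Int.ofNat 0, Int.ofNat 0, Int.ofNat 0, Int.ofNat 0, Int.ofNat 0, Int.ofNat 0],
  [Int.ofNat 0, Int.ofNat 0, Int.ofNat 0, Int.ofNat 0, Int.ofNat 0, Int.ofNat 0, Int.ofNat 0, Int.ofNat 0, Int.ofNat 0, Int.ofNat 0, Int.ofNat 0, Int.ofNat 0, Int.ofNat 1, Int.ofNat 0, Int.ofNat 0, Int.ofNat 0, Int.ofNat 0, Int.ofNat 0, Int.ofNat 0, Int.ofNat 0, Int.ofNat 0, Int.ofNat 0, Int.ofNat 0, Int.ofNat 0, Int.ofNat 0, Int.ofNat 0, Int.ofNat 0, Int.ofNat 0, Int.ofNat 0, Int.ofNat 0, Int.ofNat 0, Int.ofNat 0, Int.ofNat 0, Int.ofNat 0, Int.ofNat 0, Int.ofNat 0, Int.ofNat 0, Int.ofNat 0],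
  [Int.ofNat 0, Int.ofNat 0, Int.ofNat 0, Int.ofNat 0, Int.ofNat 0, Int.ofNat 0, Int.ofNat 0, Int.ofNat 0, Int.ofNat 0, Int.ofNat 0, Int.ofNat 0, Int.ofNat 0, Int.ofNat 0, Int.ofNat 1, Int.ofNat 0, Int.ofNat 0, Int.ofNat 0, Int.ofNat 0, Int.ofNat 0, Int.ofNat 0, Int.ofNat 0, Int.ofNat 0, Int.ofNat 0, Int.ofNat 0, Int.ofNat 0, Int.ofNat 0, Int.ofNat 0, Int.ofNat 0, Int.ofNat 0, Int.ofNat 0, Int.ofNat 0, Int.ofNat 0, Int.ofNat 0, Int.ofNat 0, Int.ofNat 0, Int.ofNat 0, Int.ofNat 0, Int.ofNat 0],
  [Int.ofNat 0, Int.ofNat 0, Int.ofNat 0, Int.ofNat 0, Int.ofNat 0, Int.ofNat 0, Int.ofNat 0, Int.ofNat 0, Int.ofNat 0, Int.ofNat 0, Int.ofNat 0, Int.ofNat 0, Int.ofNat 0, Int.ofNat 0, Int.ofNat 1, Int.ofNat 0, Int.ofNat 0, Int.ofNat 0, Int.ofNat 0, Int.ofNat 0, Int.ofNat 0, Int.ofNat 0, Int.ofNat 0, Int.ofNat 0, Int.ofNat 0, Int.ofNat 0, Int.ofNat 0, Int.ofNat 0, Int.ofNat 0, Int.ofNat 0, Int.ofNat 0, Int.ofNat 0, Int.ofNat 0, Int.ofNat 0, Int.ofNat 0, Int.ofNat 0, Int.ofNat 0, Int.ofNat 0],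
  [Int.ofNat 0, Int.ofNat 0, Int.ofNat 0, Int.ofNat 0, Int.ofNat 0, Int.ofNat 0, Int.ofNat 0, Int.ofNat 0, Int.ofNat 0, Int.ofNat 0, Int.ofNat 0, Int.ofNat 0, Int.ofNat 0, Int.ofNat 0, Int.ofNat 0, Int.ofNat 1, Int.ofNat 0, Int.ofNat 0, Int.ofNat 0, Int.ofNat 0, Int.ofNat 0, Int.ofNat 0, Int.ofNat 0, Int.ofNat 0, Int.ofNat 0, Int.ofNat 0, Int.ofNat 0, Int.ofNat 0, Int.ofNat 0, Int.ofNat 0, Int.ofNat 0, Int.ofNat 0, Int.ofNat 0, Int.ofNat 0, Int.ofNat 0, Int.ofNat 0, Int.ofNat 0, Int.ofNat 0],
  [Int.ofNat 0, Int.ofNat 0, Int.ofNat 0, Int.ofNat 0, Int.ofNat 0, Int.ofNat 0, Int.ofNat 0, Int.ofNat 0, Int.ofNat 0, Int.ofNat 0, Int.ofNat 0, Int.ofNat 0, Int.ofNat 0, Int.ofNat 0, Int.ofNat 0, Int.ofNat 0, Int.ofNat 1, Int.ofNat 0, Int.ofNat 0, Int.ofNat 0, Int.ofNat 0, Int.ofNat 0, Int.ofNat 0, Int.ofNat 0, Int.ofNat 0, Int.ofNat 0, Int.ofNat 0, Int.ofNat 0, Int.ofNat 0, Int.ofNat 0, Int.ofNat 0, Int.ofNat 0, Int.ofNat 0, Int.ofNat 0, Int.ofNat 0, Int.ofNat 0, Int.ofNat 0, Int.ofNat 0],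
  [Int.ofNat 0, Int.ofNat 0, Int.ofNat 0, Int.ofNat 0, Int.ofNat 0, Int.ofNat 0, Int.ofNat 0, Int.ofNat 0, Int.ofNat 0, Int.ofNat 0, Int.ofNat 0, Int.ofNat 0, Int.ofNat 0, Int.ofNat 0, Int.ofNat 0, Int.ofNat 0, Int.ofNat 0, Int.ofNat 1, Int.ofNat 0, Int.ofNat 0, Int.ofNat 0, Int.ofNat 0, Int.ofNat 0, Int.ofNat 0, Int.ofNat 0, Int.ofNat 0, Int.ofNat 0, Int.ofNat 0, Int.ofNat 0, Int.ofNat 0, Int.ofNat 0, Int.ofNat 0, Int.ofNat 0, Int.ofNat 0, Int.ofNat 0, Int.ofNat 0, Int.ofNat 0, Int.ofNat 0],
  [Int.ofNat 0, Int.ofNat 0, Int.ofNat 0, Int.ofNat 0, Int.ofNat 0, Int.ofNat 0, Int.ofNat 0, Int.ofNat 0, Int.ofNat 0, Int.ofNat 0, Int.ofNat 0, Int.ofNat 0, Int.ofNat 0, Int.ofNat 0, Int.ofNat 0, Int.ofNat 0, Int.ofNat 0, Int.ofNat 0, Int.ofNat 1, Int.ofNat 0, Int.ofNat 0, Int.ofNat 0, Int.ofNat 0, Int.ofNat 0, Int.ofNat 0, Int.ofNat 0, Int.ofNat 0, Int.ofNat 0, Int.ofNat 0, Int.ofNat 0, Int.ofNat 0, Int.ofNat 0, Int.ofNat 0, Int.ofNat 0, Int.ofNat 0, Int.ofNat 0, Int.ofNat 0, Int.ofNat 0],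
  [Int.ofNat 0, Int.ofNat 0, Int.ofNat 0, Int.ofNat 0, Int.ofNat 0, Int.ofNat 0, Int.ofNat 0, Int.ofNat 0, Int.ofNat 0, Int.ofNat 0, Int.ofNat 0, Int.ofNat 0, Int.ofNat 0, Int.ofNat 0, Int.ofNat 0, Int.ofNat 0, Int.ofNat 0, Int.ofNat 0, Int.ofNat 0, Int.ofNat 1, Int.ofNat 0, Int.ofNat 0, Int.ofNat 0, Int.ofNat 0, Int.ofNat 0, Int.ofNat 0, Int.ofNat 0, Int.ofNat 0, Int.ofNat 0, Int.ofNat 0, Int.ofNat 0, Int.ofNat 0, Int.ofNat 0, Int.ofNat 0, Int.ofNat 0, Int.ofNat 0, Int.ofNat 0, Int.ofNat 0],
  [Int.ofNat 0, Int.ofNat 0, Int.ofNat 0, Int.ofNat 0, Int.ofNat 0, Int.ofNat 0, Int.ofNat 0, Int.ofNat 0, Int.ofNat 0, Int.ofNat 0, Int.ofNat 0, Int.ofNat 0, Int.ofNat 0, Int.ofNat 0, Int.ofNat 0, Int.ofNat 0, Int.ofNat 0, Int.ofNat 0, Int.ofNat 0, Int.ofNat 0, Int.ofNat 1, Int.ofNat 0, Int.ofNat 0, Int.ofNat 0, Int.ofNat 0, Int.ofNat 0, Int.ofNat 0, Int.ofNat 0, Int.ofNat 0, Int.ofNat 0, Int.ofNat 0, Int.ofNat 0, Int.ofNat 0, Int.ofNat 0, Int.ofNat 0, Int.ofNat 0, Int.ofNat 0, Int.ofNat 0],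
  [Int.ofNat 0, Int.ofNat 0, Int.ofNat 0, Int.ofNat 0, Int.ofNat 0, Int.ofNat 0, Int.ofNat 0, Int.ofNat 0, Int.ofNat 0, Int.ofNat 0, Int.ofNat 0, Int.ofNat 0, Int.ofNat 0, Int.ofNat 0, Int.ofNat 0, Int.ofNat 0, Int.ofNat 0, Int.ofNat 0, Int.ofNat 0, Int.ofNat 0, Int.ofNat 0, Int.ofNat 1, Int.ofNat 0, Int.ofNat 0, Int.ofNat 0, Int.ofNat 0, Int.ofNat 0, Int.ofNat 0, Int.ofNat 0, Int.ofNat 0, Int.ofNat 0, Int.ofNat 0, Int.ofNat 0, Int.ofNat 0, Int.ofNat 0, Int.ofNat 0, Int.ofNat 0, Int.ofNat 0],
  [Int.ofNat 0, Int.ofNat 0, Int.ofNat 0, Int.ofNat 0, Int.ofNat 0, Int.ofNat 0, Int.ofNat 0, Int.ofNat 0, Int.ofNat 0, Int.ofNat 0, Int.ofNat 0, Int.ofNat 0, Int.ofNat 0, Int.ofNat 0, Int.ofNat 0, Int.ofNat 0, Int.ofNat 0, Int.ofNat 0, Int.ofNat 0, Int.ofNat 0, Int.ofNat 0, Int.ofNat 0, Int.ofNat 1, Int.ofNat 0, Int.ofNat 0, Int.ofNat 0, Int.ofNat 0, Int.ofNat 0, Int.ofNat 0, Int.ofNat 0, Int.ofNat 0, Int.ofNat 0, Int.ofNat 0, Int.ofNat 0, Int.ofNat 0, Int.ofNat 0, Int.ofNat 0, Int.ofNat 0],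
  [Int.ofNat 0, Int.ofNat 0, Int.ofNat 0, Int.ofNat 0, Int.ofNat 0, Int.ofNat 0, Int.ofNat 0, Int.ofNat 0, Int.ofNat 0, Int.ofNat 0, Int.ofNat 0, Int.ofNat 0, Int.ofNat 0, Int.ofNat 0, Int.ofNat 0, Int.ofNat 0, Int.ofNat 0, Int.ofNat 0, Int.ofNat 0, Int.ofNat 0, Int.ofNat 0, Int.ofNat 0, Int.ofNat 0, Int.ofNat 1, Int.ofNat 0, Int.ofNat 0, Int.ofNat 0, Int.ofNat 0, Int.ofNat 0, Int.ofNat 0, Int.ofNat 0, Int.ofNat 0, Int.ofNat 0, Int.ofNat 0, Int.ofNat 0, Int.ofNat 0, Int.ofNat 0, Int.ofNat 0],
  [Int.ofNat 0, Int.ofNat 0, Int.ofNat 0, Int.ofNat 0, Int.ofNat 0, Int.ofNat 0, Int.ofNat 0, Int.ofNat 0, Int.ofNat 0, Int.ofNat 0, Int.ofNat 0, Int.ofNat 0, Int.ofNat 0, Int.ofNat 0, Int.ofNat 0, Int.ofNat 0, Int.ofNat 0, Int.ofNat 0, Int.ofNat 0, Int.ofNat 0, Int.ofNat 0, Int.ofNat 0, Int.ofNat 0, Int.ofNat 0, Int.ofNat 1, Int.ofNat 0, Int.ofNat 0, Int.ofNat 0, Int.ofNat 0, Int.ofNat 0, Int.ofNat 0, Int.ofNat 0, Int.ofNat 0, Int.ofNat 0, Int.ofNat 0, Int.ofNat 0, Int.ofNat 0, Int.ofNat 0],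
  [Int.ofNat 0, Int.ofNat 0, Int.ofNat 0, Int.ofNat 0, Int.ofNat 0, Int.ofNat 0, Int.ofNat 0, Int.ofNat 0, Int.ofNat 0, Int.ofNat 0, Int.ofNat 0, Int.ofNat 0, Int.ofNat 0, Int.ofNat 0, Int.ofNat 0, Int.ofNat 0, Int.ofNat 0, Int.ofNat 0, Int.ofNat 0, Int.ofNat 0, Int.ofNat 0, Int.ofNat 0, Int.ofNat 0, Int.ofNat 0, Int.ofNat 0, Int.ofNat 1, Int.ofNat 0, Int.ofNat 0, Int.ofNat 0, Int.ofNat 0, Int.ofNat 0, Int.ofNat 0, Int.ofNat 0, Int.ofNat 0, Int.ofNat 0, Int.ofNat 0, Int.ofNat 0, Int.ofNat 0],
  [Int.ofNat 0, Int.ofNat 0, Int.ofNat 0, Int.ofNat 0, Int.ofNat 0, Int.ofNat 0, Int.ofNat 0, Int.ofNat 0, Int.ofNat 0, Int.ofNat 0, Int.ofNat 0, Int.ofNat 0, Int.ofNat 0, Int.ofNat 0, Int.ofNat 0, Int.ofNat 0, Int.ofNat 0, Int.ofNat 0, Int.ofNat 0, Int.ofNat 0, Int.ofNat 0, Int.ofNat 0, Int.ofNat 0, Int.ofNat 0, Int.ofNat 0, Int.ofNat 0, Int.ofNat 1, Int.ofNat 0, Int.ofNat 0, Int.ofNat 0, Int.ofNat 0, Int.ofNat 0, Int.ofNat 0, Int.ofNat 0, Int.ofNat 0, Int.ofNat 0, Int.ofNat 0, Int.ofNat 0],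
  [Int.ofNat 0, Int.ofNat 0, Int.ofNat 0, Int.ofNat 0, Int.ofNat 0, Int.ofNat 0, Int.ofNat 0, Int.ofNat 0, Int.ofNat 0, Int.ofNat 0, Int.ofNat 0, Int.ofNat 0, Int.ofNat 0, Int.ofNat 0, Int.ofNat 0, Int.ofNat 0, Int.ofNat 0, Int.ofNat 0, Int.ofNat 0, Int.ofNat 0, Int.ofNat 0, Int.ofNat 0, Int.ofNat 0, Int.ofNat 0, Int.ofNat 0, Int.ofNat 0, Int.ofNat 0, Int.ofNat 1, Int.ofNat 0, Int.ofNat 0, Int.ofNat 0, Int.ofNat 0, Int.ofNat 0, Int.ofNat 0, Int.ofNat 0, Int.ofNat 0, Int.ofNat 0, Int.ofNat 0],
  [Int.ofNat 0, Int.ofNat 0, Int.ofNat 0, Int.ofNat 0, Int.ofNat 0, Int.ofNat 0, Int.ofNat 0, Int.ofNat 0, Int.ofNat 0, Int.ofNat 0, Int.ofNat 0, Int.ofNat 0, Int.ofNat 0, Int.ofNat 0, Int.ofNat 0, Int.ofNat 0, Int.ofNat 0, Int.ofNat 0, Int.ofNat 0, Int.ofNat 0, Int.ofNat 0, Int.ofNat 0, Int.ofNat 0, Int.ofNat 0, Int.ofNat 0, Int.ofNat 0, Int.ofNat 0, Int.ofNat 0, Int.ofNat 1, Int.ofNat 0, Int.ofNat 0, Int.ofNat 0, Int.ofNat 0, Int.ofNat 0, Int.ofNat 0, Int.ofNat 0, Int.ofNat 0, Int.ofNat 0],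
  [Int.ofNat 0, Int.ofNat 0, Int.ofNat 0, Int.ofNat 0, Int.ofNat 0, Int.ofNat 0, Int.ofNat 0, Int.ofNat 0, Int.ofNat 0, Int.ofNat 0, Int.ofNat 0, Int.ofNat 0, Int.ofNat 0, Int.ofNat 0, Int.ofNat 0, Int.ofNat 0, Int.ofNat 0, Int.ofNat 0, Int.ofNat 0, Int.ofNat 0, Int.ofNat 0, Int.ofNat 0, Int.ofNat 0, Int.ofNat 0, Int.ofNat 0, Int.ofNat 0, Int.ofNat 0, Int.ofNat 0, Int.ofNat 0, Int.ofNat 1, Int.ofNat 0, Int.ofNat 0, Int.ofNat 0, Int.ofNat 0, Int.ofNat 0, Int.ofNat 0, Int.ofNat 0, Int.ofNat 0],
  [Int.ofNat 0, Int.ofNat 0, Int.ofNat 0, Int.ofNat 0, Int.ofNat 0, Int.ofNat 0, Int.ofNat 0, Int.ofNat 0, Int.ofNat 0, Int.ofNat 0, Int.ofNat 0, Int.ofNat 0, Int.ofNat 0, Int.ofNat 0, Int.ofNat 0, Int.ofNat 0, Int.ofNat 0, Int.ofNat 0, Int.ofNat 0, Int.ofNat 0, Int.ofNat 0, Int.ofNat 0, Int.ofNat 0, Int.ofNat 0, Int.ofNat 0, Int.ofNat 0, Int.ofNat 0, Int.ofNat 0, Int.ofNat 0, Int.ofNat 0, Int.ofNat 1, Int.ofNat 0, Int.ofNat 0, Int.ofNat 0, Int.ofNat 0, Int.ofNat 0, Int.ofNat 0, Int.ofNat 0],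
  [Int.ofNat 0, Int.ofNat 0, Int.ofNat 0, Int.ofNat 0, Int.ofNat 0, Int.ofNat 0, Int.ofNat 0, Int.ofNat 0, Int.ofNat 0, Int.ofNat 0, Int.ofNat 0, Int.ofNat 0, Int.ofNat 0, Int.ofNat 0, Int.ofNat 0, Int.ofNat 0, Int.ofNat 0, Int.ofNat 0, Int.ofNat 0, Int.ofNat 0, Int.ofNat 0, Int.ofNat 0, Int.ofNat 0, Int.ofNat 0, Int.ofNat 0, Int.ofNat 0, Int.ofNat 0, Int.ofNat 0, Int.ofNat 0, Int.ofNat 0, Int.ofNat 0, Int.ofNat 1, Int.ofNat 0, Int.ofNat 0, Int.ofNat 0, Int.ofNat 0, Int.ofNat 0, Int.ofNat 0],
  [Int.ofNat 0, Int.ofNat 0, Int.ofNat 0, Int.ofNat 0, Int.ofNat 0, Int.ofNat 0, Int.ofNat 0, Int.ofNat 0, Int.ofNat 0, Int.ofNat 0, Int.ofNat 0, Int.ofNat 0, Int.ofNat 0, Int.ofNat 0, Int.ofNat 0, Int.ofNat 0, Int.ofNat 0, Int.ofNat 0, Int.ofNat 0, Int.ofNat 0, Int.ofNat 0, Int.ofNat 0, Int.ofNat 0, Int.ofNat 0, Int.ofNat 0, Int.ofNat 0, Int.ofNat 0, Int.ofNat 0, Int.ofNat 0, Int.ofNat 0, Int.ofNat 0, Int.ofNat 0, Int.ofNat 1, Int.ofNat 0, Int.ofNat 0, Int.ofNat 0, Int.ofNat 0, Int.ofNat 0],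
  [Int.ofNat 0, Int.ofNat 0, Int.ofNat 0, Int.ofNat 0, Int.ofNat 0, Int.ofNat 0, Int.ofNat 0, Int.ofNat 0, Int.ofNat 0, Int.ofNat 0, Int.ofNat 0, Int.ofNat 0, Int.ofNat 0, Int.ofNat 0, Int.ofNat 0, Int.ofNat 0, Int.ofNat 0, Int.ofNat 0, Int.ofNat 0, Int.ofNat 0, Int.ofNat 0, Int.ofNat 0, Int.ofNat 0, Int.ofNat 0, Int.ofNat 0, Int.ofNat 0, Int.ofNat 0, Int.ofNat 0, Int.ofNat 0, Int.ofNat 0, Int.ofNat 0, Int.ofNat 0, Int.ofNat 0, Int.ofNat 1, Int.ofNat 0, Int.ofNat 0, Int.ofNat 0, Int.ofNat 0],
  [Int.ofNat 0, Int.ofNat 0, Int.ofNat 0, Int.ofNat 0, Int.ofNat 0, Int.ofNat 0, Int.ofNat 0, Int.ofNat 0, Int.ofNat 0, Int.ofNat 0, Int.ofNat 0, Int.ofNat 0, Int.ofNat 0, Int.ofNat 0, Int.ofNat 0, Int.ofNat 0, Int.ofNat 0, Int.ofNat 0, Int.ofNat 0, Int.ofNat 0, Int.ofNat 0, Int.ofNat 0, Int.ofNat 0, Int.ofNat 0, Int.ofNat 0, Int.ofNat 0, Int.ofNat 0, Int.ofNat 0, Int.ofNat 0, Int.ofNat 0, Int.ofNat 0, Int.ofNat 0, Int.ofNat 0, Int.ofNat 0, Int.ofNat 1, Int.ofNat 0, Int.ofNat 0, Int.ofNat 0],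
  [Int.ofNat 0, Int.ofNat 0, Int.ofNat 0, Int.ofNat 0, Int.ofNat 0, Int.ofNat 0, Int.ofNat 0, Int.ofNat 0, Int.ofNat 0, Int.ofNat 0, Int.ofNat 0, Int.ofNat 0, Int.ofNat 0, Int.ofNat 0, Int.ofNat 0, Int.ofNat 0, Int.ofNat 0, Int.ofNat 0, Int.ofNat 0, Int.ofNat 0, Int.ofNat 0, Int.ofNat 0, Int.ofNat 0, Int.ofNat 0, Int.ofNat 0, Int.ofNat 0, Int.ofNat 0, Int.ofNat 0, Int.ofNat 0, Int.ofNat 0, Int.ofNat 0, Int.ofNat 0, Int.ofNat 0, Int.ofNat 0, Int.ofNat 0, Int.ofNat 1, Int.ofNat 0, Int.ofNat 0],
  [Int.ofNat 0, Int.ofNat 0, Int.ofNat 0, Int.ofNat 0, Int.ofNat 0, Int.ofNat 0, Int.ofNat 0, Int.ofNat 0, Int.ofNat 0, Int.ofNat 0, Int.ofNat 0, Int.ofNat 0, Int.ofNat 0, Int.ofNat 0, Int.ofNat 0, Int.ofNat 0, Int.ofNat 0, Int.ofNat 0, Int.ofNat 0, Int.ofNat 0, Int.ofNat 0, Int.ofNat 0, Int.ofNat 0, Int.ofNat 0, Int.ofNat 0, Int.ofNat 0, Int.ofNat 0, Int.ofNat 0, Int.ofNat 0, Int.ofNat 0, Int.ofNat 0, Int.ofNat 0, Int.ofNat 0, Int.ofNat 0, Int.ofNat 0, Int.ofNat 0, Int.ofNat 1, Int.ofNat 0],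
  [Int.ofNat 0, Int.ofNat 0, Int.ofNat 0, Int.ofNat 0, Int.ofNat 0, Int.ofNat 0, Int.ofNat 0, Int.ofNat 0, Int.ofNat 0, Int.ofNat 0, Int.ofNat 0, Int.ofNat 0, Int.ofNat 0, Int.ofNat 0, Int.ofNat 0, Int.ofNat 0, Int.ofNat 0, Int.ofNat 0, Int.ofNat 0, Int.ofNat 0, Int.ofNat 0, Int.ofNat 0, Int.ofNat 0, Int.ofNat 0, Int.ofNat 0, Int.ofNat 0, Int.ofNat 0, Int.ofNat 0, Int.ofNat 0, Int.ofNat 0, Int.ofNat 0, Int.ofNat 0, Int.ofNat 0, Int.ofNat 0, Int.ofNat 0, Int.ofNat 0, Int.ofNat 0, Int.ofNat 1],
  [Int.negSucc 1, Int.ofNat 0, Int.negSucc 1, Int.ofNat 0, Int.negSucc 3, Int.negSucc 3, Int.ofNat 0, Int.ofNat 0, Int.ofNat 0, Int.ofNat 0, Int.negSucc 3, Int.ofNat 0, Int.ofNat 0, Int.ofNat 0, Int.ofNat 0, Int.negSucc 0, Int.ofNat 0, Int.ofNat 0, Int.ofNat 0, Int.ofNat 0, Int.ofNat 0, Int.negSucc 1, Int.ofNat 0, Int.ofNat 0, Int.ofNat 0, Int.ofNat 0, Int.ofNat 0, Int.ofNat 0, Int.negSucc 1, Int.ofNat 0, Int.ofNat 0, Int.ofNat 0, Int.negSucc 1, Int.ofNat 0, Int.negSucc 1, Int.ofNat 0, Int.ofNat 1, Int.negSucc 1],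
  [Int.ofNat 0, Int.ofNat 0, Int.ofNat 0, Int.ofNat 0, Int.ofNat 0, Int.ofNat 0, Int.ofNat 0, Int.negSucc 1, Int.ofNat 0, Int.ofNat 0, Int.ofNat 0, Int.negSucc 1, Int.ofNat 0, Int.negSucc 1, Int.ofNat 0, Int.ofNat 1, Int.negSucc 3, Int.negSucc 3, Int.ofNat 0, Int.negSucc 3, Int.ofNat 0, Int.ofNat 2, Int.ofNat 0, Int.ofNat 0, Int.ofNat 0, Int.negSucc 3, Int.negSucc 3, Int.ofNat 0, Int.ofNat 2, Int.ofNat 0, Int.ofNat 0, Int.negSucc 3, Int.ofNat 2, Int.ofNat 0, Int.ofNat 2, Int.ofNat 0, Int.negSucc 1, Int.ofNat 3],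
  [Int.ofNat 0, Int.negSucc 1, Int.ofNat 0, Int.negSucc 1, Int.ofNat 0, Int.ofNat 0, Int.negSucc 3, Int.ofNat 0, Int.negSucc 3, Int.negSucc 3, Int.ofNat 0, Int.ofNat 0, Int.negSucc 3, Int.ofNat 0, Int.negSucc 3, Int.negSucc 9, Int.ofNat 0, Int.ofNat 0, Int.negSucc 7, Int.ofNat 0, Int.negSucc 7, Int.negSucc 19, Int.negSucc 7, Int.negSucc 7, Int.negSucc 7, Int.ofNat 0, Int.ofNat 0, Int.negSucc 7, Int.negSucc 19, Int.negSucc 7, Int.negSucc 7, Int.ofNat 0, Int.negSucc 19, Int.negSucc 7, Int.negSucc 19, Int.negSucc 7, Int.negSucc 9, Int.negSucc 39]]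
  Z := [[Int.ofNat 4758551525774160642528000, Int.negSucc 5382528259892312860531199, Int.ofNat 4467503018668231044921600, Int.negSucc 3747700718142150165177599, Int.negSucc 1000549996315660784447999, Int.negSucc 1330738528673879499283199, Int.ofNat 1507653850417963141420800, Int.ofNat 218868716355760755648000, Int.ofNat 2088009693853083031449600, Int.ofNat 4070773950813566260992000, Int.negSucc 961724632878342481075199, Int.ofNat 1195846617186911022278400, Int.ofNat 744668905360644723513600, Int.ofNat 241050364323636245414400, Int.ofNat 474296246722647487756800, Int.negSucc 2253177644463093971750399, Int.ofNat 33709604786091163238400, Int.negSucc 482386620951054892799, Int.negSucc 216323238988767178195199, Int.negSucc 72348422900688625017599, Int.ofNat 97151713400486961216000, Int.ofNat 158046948242483473555200, Int.negSucc 1035667620137829390566399, Int.negSucc 503906079419881019481599, Int.negSucc 690698790841429507737599, Int.negSucc 41157518003225664767999, Int.ofNat 4492244402150791104000, Int.negSucc 178114767007047731078399,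 Int.negSucc 62200032790580083526399, Int.ofNat 88838426937268070899200, Int.ofNat 578839682645457598310400, Int.negSucc 5451073965403555507199, Int.ofNat 263546439154885237478400, Int.ofNat 650178116605436852160000, Int.ofNat 398080784882553079507200, Int.negSucc 286984694151461485670399, Int.negSucc 349689476864512842220799, Int.ofNat 61397558069134160764800],
  [Int.negSucc 5382528259892312860531199, Int.ofNat 32167586867012504847245600, Int.negSucc 14982125223227801192032935, Int.negSucc 7224577748647354444950271, Int.ofNat 728731878540241426905600, Int.ofNat 3043771192789684183008000, Int.ofNat 1220705767611760567737600, Int.negSucc 233997931544153710751999, Int.negSucc 9040040478940035937673943, Int.negSucc 16200471176153445845663999, Int.ofNat 3288872435920813809849600, Int.negSucc 948237083264317187577599, Int.negSucc 273139646368247819596799, Int.ofNat 34379211673421984678400, Int.ofNat 4539523630793365363968000, Int.ofNat 3431561523003392446886400, Int.negSucc 36903397771060507814399, Int.negSucc 140156667085532452991999,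 Int.negSucc 57107226623150360966399, Int.negSucc 14649684039470765375999, Int.negSucc 1598832498776634057081599, Int.negSucc 413531290286600464742399, Int.ofNat 3083760920211501384035840, Int.ofNat 2208204053579143824422400, Int.ofNat 1143754939885531375584000, Int.negSucc 386460194305990193625599, Int.ofNat 130122785536117123276800, Int.ofNat 1354529684146677450048000, Int.negSucc 919445191641803259014399, Int.negSucc 968663116882168433107199, Int.negSucc 1829820174514041187295999, Int.ofNat 355316272059260348928000, Int.negSucc 139940232079047939302399, Int.negSucc 4565657010419698981132799, Int.ofNat 968885211659734658016000, Int.ofNat 3286814139204592069382400, Int.ofNat 788415098623053941894400, Int.negSucc 256690284890492718719999],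
  [Int.ofNat 4467503018668231044921600, Int.negSucc 14982125223227801192032935, Int.ofNat 9224355372183039281356800, Int.ofNat 1684147189392289387584000, Int.negSucc 845021650577443120454399, Int.negSucc 1952973999055538185708799, Int.ofNat 398464369318976310604800, Int.ofNat 52304366910472059801600, Int.ofNat 4794807347580126627878400, Int.ofNat 9797976718750206101606400, Int.negSucc 2018467867392608612198399, Int.ofNat 796144723224125619052800, Int.negSucc 1461150008133115033843199, Int.ofNat 827702792783032934476800, Int.negSucc 1983345907066730487590399, Int.negSucc 2765390803377936903187199, Int.ofNat 9813855283093456358400, Int.ofNat 31822581017373117753600, Int.ofNat 47222206188464592230400, Int.negSucc 2102476256835110956799, Int.ofNat 553975853003884259020800, Int.ofNat 473244320396352918067200, Int.negSucc 1893851186340975762700799, Int.negSucc 1292776033047253461907199, Int.negSucc 1211851080944261235878399, Int.ofNat 147506315014738681747200, Int.negSucc 81941579270747396927999, Int.negSucc 470070723923200926489599,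 Int.ofNat 192146458940759090476800, Int.ofNat 294498049691444256403200, Int.ofNat 1351652349109585487328000, Int.negSucc 179973338767203987532799, Int.negSucc 69526382999228897414399, Int.ofNat 2179076255028906818457600, Int.ofNat 105281051440935967833600, Int.negSucc 839627552866622879923199, Int.negSucc 536565555979020032774399, Int.ofNat 123951876114767217753600],
  [Int.negSucc 3747700718142150165177599, Int.negSucc 7224577748647354444950271, Int.ofNat 1684147189392289387584000, Int.ofNat 12593750453912693242195200, Int.ofNat 1033631946984305169446400, Int.ofNat 205629583851944226374400, Int.negSucc 3645492684005819466892799, Int.negSucc 1051297409113559511321599, Int.ofNat 1598857776114697996934400, Int.ofNat 2641200576328811841926400, Int.negSucc 449661292339305711974399, Int.negSucc 78966253254808692863999, Int.ofNat 778653993760180280870400, Int.ofNat 68810262371262041011200, Int.negSucc 4818214018789420155379199, Int.ofNat 835957552855741992748800, Int.ofNat 178017513938470229587200, Int.ofNat 200047505065619152032000,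 Int.negSucc 237674394144568872691199, Int.ofNat 208008551103537206131200, Int.ofNat 904632690001156531833600, Int.ofNat 81648282639729463257600, Int.negSucc 389138849904984153811199, Int.negSucc 945894564635523273388799, Int.ofNat 1117949909900499712108800, Int.ofNat 95030987411871385056000, Int.negSucc 171179442755543293343999, Int.negSucc 101134174531069576915199, Int.ofNat 598161538084130297222400, Int.ofNat 44151068228052067027200, Int.negSucc 720410108664473654918399, Int.negSucc 208721215457087326156799, Int.negSucc 190530810637965231033599, Int.negSucc 430608282614401186713599, Int.negSucc 722265825357520574457599, Int.negSucc 783464438102506518758399, Int.ofNat 550423156635312231398400, Int.ofNat 162958873858639133184000],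
  [Int.negSucc 1000549996315660784447999, Int.ofNat 728731878540241426905600, Int.negSucc 845021650577443120454399, Int.ofNat 1033631946984305169446400, Int.ofNat 228251272741593784300800, Int.ofNat 250666898650455965932800, Int.negSucc 435900515359911709161599, Int.negSucc 59683695602652340127999, Int.negSucc 353930297168327715763199, Int.negSucc 760179626363575968076799, Int.ofNat 181409878038509333740800, Int.negSucc 215915670108674785267199, Int.ofNat 72476824286630454163200, Int.negSucc 117780521855485517683199, Int.negSucc 267539184740783104531199, Int.ofNat 458052180317792214336000, Int.negSucc 5250338952936771657599, Int.ofNat 7631771575843168790400, Int.ofNat 32384022000015107036160, Int.ofNat 25360279220644474579200, Int.ofNat 48014792895940675459200, Int.negSucc 50225786490832311340799, Int.ofNat 202422922353159111676800, Int.ofNat 93098897147704310553600, Int.ofNat 157813435682688905683200, Int.ofNat 7828526879151763075200, Int.negSucc 1171295083933354598399, Int.ofNat 32209192800011716070400, Int.ofNat 38753754170036076662400,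 Int.negSucc 6147236179105179185509, Int.negSucc 131395116346580229002649, Int.negSucc 2353585804520979974399, Int.negSucc 36995763311786349907199, Int.negSucc 118550140617036187987199, Int.negSucc 112589871565403410214399, Int.negSucc 5896335697627011436799, Int.ofNat 67730558757589264118400, Int.negSucc 10644873384365857727999],
  [Int.negSucc 1330738528673879499283199, Int.ofNat 3043771192789684183008000, Int.negSucc 1952973999055538185708799, Int.ofNat 205629583851944226374400, Int.ofNat 250666898650455965932800, Int.ofNat 510459380878423323110400, Int.negSucc 156499013934953725806847, Int.negSucc 29614241689023721766399, Int.negSucc 942254640507512050582910, Int.negSucc 2108140472369177813548799, Int.ofNat 411309181815330456403200, Int.negSucc 369525816345702497644799, Int.negSucc 327803754844303254316799, Int.negSucc 124657964041172847667199, Int.ofNat 289539384351943790937600, Int.ofNat 805716474992622574617600, Int.negSucc 1529607123475022591999, Int.negSucc 12881484990449198323199, Int.ofNat 38734821242460105235200,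 Int.ofNat 3641874855083044070400, Int.negSucc 188384652066082760870399, Int.negSucc 76076304034596918998399, Int.ofNat 447516715110262724908800, Int.ofNat 281706861641142764736000, Int.ofNat 234019419541778992867200, Int.negSucc 9754045417761791327999, Int.ofNat 19395685424681160940800, Int.ofNat 89828381753140062614400, Int.negSucc 41359305102912155923199, Int.negSucc 31480848874553519750399, Int.negSucc 254863084855313136383999, Int.ofNat 17068012320808916812800, Int.negSucc 66780921823043836262399, Int.negSucc 343312362641127842726399, Int.negSucc 77707406970468721555199, Int.ofNat 219061898481405192595200, Int.ofNat 144547348446387238060800, Int.negSucc 16991092395557384831999],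
  [Int.ofNat 1507653850417963141420800, Int.ofNat 1220705767611760567737600, Int.ofNat 398464369318976310604800, Int.negSucc 3645492684005819466892799, Int.negSucc 435900515359911709161599, Int.negSucc 156499013934953725806847, Int.ofNat 1434396217961589484492800, Int.ofNat 294671235924165081945600, Int.ofNat 967490710217326713600, Int.ofNat 55890288583264977004800, Int.negSucc 85121418944820690431999, Int.negSucc 6759557837425154361599, Int.negSucc 1329431935281779106086399, Int.ofNat 298448698087946024236800, Int.ofNat 1570270477099157723635200, Int.negSucc 409611710344365264153599, Int.negSucc 24379548146641968134399, Int.negSucc 69187552126332667372799, Int.ofNat 72363878853211791091095, Int.negSucc 99904473340055244806399, Int.negSucc 474884183989409898412799, Int.ofNat 96555069738326337465600, Int.negSucc 84957019123654382140799, Int.ofNat 97803179721378786433295, Int.negSucc 384943535997493458585599, Int.negSucc 1227976627045728268799, Int.ofNat 37133776171055554099200, Int.negSucc 45304615183890933561599, Int.negSucc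 207629382825462911039999, Int.ofNat 13207262221074402950400, Int.ofNat 301522958767724216140800, Int.ofNat 31164687818933639443200, Int.negSucc 25945835148235291161599, Int.ofNat 300004575105309019545600, Int.ofNat 250554586330074045801600, Int.ofNat 284554286367987111840000, Int.negSucc 120198722988338037388799, Int.negSucc 8210276886902173574399],
  [Int.ofNat 218868716355760755648000, Int.negSucc 233997931544153710751999, Int.ofNat 52304366910472059801600, Int.negSucc 1051297409113559511321599, Int.negSucc 59683695602652340127999, Int.negSucc 29614241689023721766399, Int.ofNat 294671235924165081945600, Int.ofNat 176698426959158449363200, Int.ofNat 38702553288652289836800, Int.ofNat 54197159064997253760000, Int.negSucc 279114732614647238399, Int.negSucc 147668635093353328281599, Int.negSucc 307285964169932101535999, Int.negSucc 52750152866820804595199, Int.ofNat 453008887374252469478400, Int.ofNat 12545955967446720000, Int.negSucc 37756774263710986847999, Int.negSucc 26449748314669666022399, Int.ofNat 93279654594042144883200,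 Int.negSucc 23807529284957036236799, Int.negSucc 66412915421231669471999, Int.negSucc 7652413517140021593599, Int.ofNat 20795930874516182112000, Int.ofNat 100404798070874567961600, Int.negSucc 183794750369605212364799, Int.ofNat 23110247042986479667200, Int.ofNat 19777648471565724230400, Int.negSucc 59102623464291546047999, Int.negSucc 23434595476357041849599, Int.ofNat 58622742874350927417600, Int.ofNat 185438447125358394240000, Int.ofNat 9486926346545727206400, Int.negSucc 10266156320057830483199, Int.ofNat 332319780640142851046400, Int.negSucc 22115436108196365043199, Int.negSucc 55648576621849357036799, Int.negSucc 102321444474410432543999, Int.negSucc 22147445144658207628799],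
  [Int.ofNat 2088009693853083031449600, Int.negSucc 9040040478940035937673943, Int.ofNat 4794807347580126627878400, Int.ofNat 1598857776114697996934400, Int.negSucc 353930297168327715763199, Int.negSucc 942254640507512050582910, Int.ofNat 967490710217326713600, Int.ofNat 38702553288652289836800, Int.ofNat 2845345738653210514176000, Int.ofNat 4752655975942981084742400, Int.negSucc 1085376197977442243308799, Int.ofNat 292582766401778267251200, Int.negSucc 727334241798374803756799, Int.ofNat 114621014524458321734400, Int.negSucc 1303525236601816290316799, Int.negSucc 1100798328237137764415999, Int.ofNat 30244675084533031449600, Int.ofNat 27520475721545968761600, Int.negSucc 4531535989332945465599, Int.ofNat 4497955429616776108800, Int.ofNat 286887192452712046540800, Int.ofNat 175181269363757271014400, Int.negSucc 916609166908465332556799, Int.negSucc 618435511355811562358399, Int.negSucc 540326036106639378086399, Int.ofNat 96313894909247915827200, Int.negSucc 19817878521954727468799, Int.negSucc 334601331638969702361599, Int.ofNat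 184266750762289713772800, Int.ofNat 303194488092650685139305, Int.ofNat 628043659743630238617600, Int.negSucc 126418264095708512927999, Int.negSucc 29635973557173887903999, Int.ofNat 1357344226619107707052800, Int.negSucc 174812412123240452870399, Int.negSucc 693068303255552229356286, Int.negSucc 219701589972241250764799, Int.ofNat 100677041901209272262400],
  [Int.ofNat 4070773950813566260992000, Int.negSucc 16200471176153445845663999, Int.ofNat 9797976718750206101606400, Int.ofNat 2641200576328811841926400, Int.negSucc 760179626363575968076799, Int.negSucc 2108140472369177813548799, Int.ofNat 55890288583264977004800, Int.ofNat 54197159064997253760000, Int.ofNat 4752655975942981084742400, Int.ofNat 11616219572601766213728000, Int.negSucc 2060642939984863404863168, Int.ofNat 847113458755310767238400, Int.negSucc 1167191621853524184153599, Int.ofNat 1327774702984012703347200, Int.negSucc 1879307225310643594502399, Int.negSucc 3189966174445391736595199, Int.negSucc 33320284180507768953599, Int.ofNat 46088679181391856172800,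 Int.ofNat 132753921395005561996800, Int.negSucc 25510889574842602694399, Int.ofNat 751714480926821868019200, Int.ofNat 612911568350367903052800, Int.negSucc 2227514860601647181510399, Int.negSucc 1612336627857349426031999, Int.negSucc 1103122083137020568294399, Int.ofNat 203219431410962385619200, Int.negSucc 174874050860806465459199, Int.negSucc 588719312463751109222399, Int.ofNat 293200780836325502649600, Int.ofNat 167964274915654566585600, Int.ofNat 1482606263985272660122819, Int.negSucc 159028600632414149145599, Int.negSucc 76764681325611387763199, Int.ofNat 2146797202942683248630400, Int.ofNat 142879831262614350777600, Int.negSucc 1012706865100895081644799, Int.negSucc 616969769999904481305599, Int.ofNat 72320864456008803398400],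
  [Int.negSucc 961724632878342481075199, Int.ofNat 3288872435920813809849600, Int.negSucc 2018467867392608612198399, Int.negSucc 449661292339305711974399, Int.ofNat 181409878038509333740800, Int.ofNat 411309181815330456403200, Int.negSucc 85121418944820690431999, Int.negSucc 279114732614647238399, Int.negSucc 1085376197977442243308799, Int.negSucc 2060642939984863404863168, Int.ofNat 450121241439728216467200, Int.negSucc 157197784325425599974399, Int.ofNat 408816265867660993305600, Int.negSucc 161116313075993274854399, Int.ofNat 482447662800734705637728, Int.ofNat 559048156651531729728000, Int.negSucc 8027780295487989254399, Int.negSucc 7267942852154182598399, Int.negSucc 3798359856857903500799, Int.negSucc 1968354752959642319999, Int.negSucc 101460473083546348262399, Int.negSucc 100615444789271452185599, Int.ofNat 397894863129736415788800, Int.ofNat 271855681029877569206400, Int.ofNat 267553080086170677926400, Int.negSucc 31408778078390654323199, Int.ofNat 13633765117044970060800, Int.ofNat 99230463099783812160000, Int.negSucc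 40657666870359789868799, Int.negSucc 78384832426220282726399, Int.negSucc 285946225264868932108799, Int.ofNat 45484256197985845968000, Int.ofNat 24872721521432687884800, Int.negSucc 484100967398053923590399, Int.negSucc 10611155491160808729599, Int.ofNat 171755137817803193472000, Int.ofNat 102998583607561617830400, Int.negSucc 34105658632263366220799],
  [Int.ofNat 1195846617186911022278400, Int.negSucc 948237083264317187577599, Int.ofNat 796144723224125619052800, Int.negSucc 78966253254808692863999, Int.negSucc 215915670108674785267199, Int.negSucc 369525816345702497644799, Int.negSucc 6759557837425154361599, Int.negSucc 147668635093353328281599, Int.ofNat 292582766401778267251200, Int.ofNat 847113458755310767238400, Int.negSucc 157197784325425599974399, Int.ofNat 761453339908984679174400, Int.ofNat 1710910504895796221472000, Int.ofNat 22186181920921152825600, Int.negSucc 197650020750589099929599, Int.negSucc 767949826032351290764799, Int.ofNat 64797335930067758035200, Int.ofNat 50373122478291498412800, Int.negSucc 260906499729180584697599,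 Int.negSucc 4594833921498623711999, Int.ofNat 215711840655118284422400, Int.negSucc 784078832421376127999, Int.negSucc 344538430135148015020799, Int.negSucc 292914840254830309151999, Int.ofNat 260863130515748033145600, Int.negSucc 61084242936197884166399, Int.negSucc 37463201036190532511999, Int.negSucc 6217829726474620799999, Int.ofNat 59142177389555711942400, Int.negSucc 90451206248288794271999, Int.negSucc 239272496321544047980799, Int.ofNat 20551946042092790707200, Int.ofNat 220823613864533508192000, Int.negSucc 490853033374892856595199, Int.ofNat 133438880553562133222400, Int.negSucc 184378026342498185433599, Int.ofNat 45624079504207797465600, Int.ofNat 34004949746179326969600],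
  [Int.ofNat 744668905360644723513600, Int.negSucc 273139646368247819596799, Int.negSucc 1461150008133115033843199, Int.ofNat 778653993760180280870400, Int.ofNat 72476824286630454163200, Int.negSucc 327803754844303254316799, Int.negSucc 1329431935281779106086399, Int.negSucc 307285964169932101535999, Int.negSucc 727334241798374803756799, Int.negSucc 1167191621853524184153599, Int.ofNat 408816265867660993305600, Int.ofNat 1710910504895796221472000, Int.ofNat 7578505727994643242530720, Int.negSucc 1140908276210173500556799, Int.negSucc 853981854203578878086399, Int.negSucc 771067225736553925670399, Int.ofNat 109750462817148835718400, Int.ofNat 163197679579931751955200, Int.negSucc 646222251103408717919999, Int.ofNat 59185869773689666425600, Int.ofNat 1112134876318319162400000, Int.negSucc 449359936944998296089599, Int.negSucc 140216122263782241331199, Int.negSucc 264361231714336454879999, Int.ofNat 1358536244595678269168173, Int.negSucc 185900261403816966988799, Int.negSucc 48103358581625900716799, Int.ofNat 37890566972028273484800,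 Int.ofNat 329384790062784127526400, Int.negSucc 243808303301861176569599, Int.negSucc 1212091614853619504659199, Int.ofNat 142328375190128826316800, Int.ofNat 836194457322492664032000, Int.negSucc 1607372889083553067257599, Int.negSucc 84894811325038207583999, Int.negSucc 1095949758855795658214399, Int.ofNat 166767390772302666528000, Int.ofNat 2582982294370853356800],
  [Int.ofNat 241050364323636245414400, Int.ofNat 34379211673421984678400, Int.ofNat 827702792783032934476800, Int.ofNat 68810262371262041011200, Int.negSucc 117780521855485517683199, Int.negSucc 124657964041172847667199, Int.ofNat 298448698087946024236800, Int.negSucc 52750152866820804595199, Int.ofNat 114621014524458321734400, Int.ofNat 1327774702984012703347200, Int.negSucc 161116313075993274854399, Int.ofNat 22186181920921152825600, Int.negSucc 1140908276210173500556799, Int.ofNat 690441175225233206611200, Int.ofNat 326860074835594577222400, Int.negSucc 407372956334521327987199, Int.ofNat 1863171029665947456000, Int.negSucc 9818306266125326860799, Int.ofNat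 33378252429080655532800, Int.negSucc 36437071440890352959999, Int.negSucc 194086880760091910572799, Int.ofNat 216934263731188539244800, Int.negSucc 279687741198697383551999, Int.negSucc 235813664414615734137599, Int.negSucc 119124990847594656287999, Int.ofNat 26344443922931576332800, Int.negSucc 59804976629271481171199, Int.negSucc 24026357175069570047999, Int.negSucc 44788325314516737407999, Int.negSucc 91086063391599987110399, Int.ofNat 182812733237610455616000, Int.negSucc 13201795513176578380799, Int.negSucc 127084221666205871558399, Int.negSucc 98116051139428973414399, Int.ofNat 188155958233778358969600, Int.ofNat 288486655633360610899200, Int.ofNat 329668524334660492800, Int.negSucc 1770435233320330886399],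
  [Int.ofNat 474296246722647487756800, Int.ofNat 4539523630793365363968000, Int.negSucc 1983345907066730487590399, Int.negSucc 4818214018789420155379199, Int.negSucc 267539184740783104531199, Int.ofNat 289539384351943790937600, Int.ofNat 1570270477099157723635200, Int.ofNat 453008887374252469478400, Int.negSucc 1303525236601816290316799, Int.negSucc 1879307225310643594502399, Int.ofNat 482447662800734705637728, Int.negSucc 197650020750589099929599, Int.negSucc 853981854203578878086399, Int.ofNat 326860074835594577222400, Int.ofNat 3105670467356812793378880, Int.ofNat 116148240242648762803200, Int.negSucc 40731974591697210931199, Int.negSucc 80582669954294722905599, Int.ofNat 66895014774679588224000, Int.negSucc 176951547387736047763199, Int.negSucc 764088663769786985011199, Int.ofNat 54055066931430317625600, Int.ofNat 214157946473217656582400, Int.ofNat 363576033816189080140800, Int.ofNat 26353022261610483129600, Int.ofNat 9796182174037997337600, Int.ofNat 7417492136296974950400, Int.negSucc 145523256203402872703999, Int.negSucc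 159410181062523071116799, Int.negSucc 12238486042042700294399, Int.ofNat 34912024050224689804800, Int.ofNat 93652330049096243443200, Int.ofNat 21568721957255050905600, Int.negSucc 244277888921463317356799, Int.ofNat 143836752144012661843200, Int.ofNat 294616838934032027212800, Int.negSucc 7884632165573437747199, Int.negSucc 63291918448692507974399],
  [Int.negSucc 2253177644463093971750399, Int.ofNat 3431561523003392446886400, Int.negSucc 2765390803377936903187199, Int.ofNat 835957552855741992748800, Int.ofNat 458052180317792214336000, Int.ofNat 805716474992622574617600, Int.negSucc 409611710344365264153599, Int.ofNat 12545955967446720000, Int.negSucc 1100798328237137764415999, Int.negSucc 3189966174445391736595199, Int.ofNat 559048156651531729728000, Int.negSucc 767949826032351290764799, Int.negSucc 771067225736553925670399, Int.negSucc 407372956334521327987199, Int.ofNat 116148240242648762803200, Int.ofNat 1471664539277603232307200, Int.negSucc 11474426682355301683199, Int.negSucc 22899688123189057689599, Int.ofNat 116086701589638264576000,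 Int.ofNat 22894209760898784672000, Int.negSucc 245786972889648955564799, Int.negSucc 157940207853776884972799, Int.ofNat 739914886115480516313600, Int.ofNat 493199464163154200524800, Int.ofNat 261979176743540123212800, Int.ofNat 12210259608678014956800, Int.ofNat 53919262528243965216000, Int.ofNat 89344963562118222067200, Int.negSucc 21496460999193431596799, Int.ofNat 66231928322982828806400, Int.negSucc 301020522808827008678399, Int.negSucc 2033071231867865279999, Int.negSucc 140331137456814154905599, Int.negSucc 156270605543372279231999, Int.negSucc 272906912962937876313599, Int.ofNat 180012846716748617644800, Int.ofNat 193414056033939741000000, Int.negSucc 14793175840463821382399],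
  [Int.ofNat 33709604786091163238400, Int.negSucc 36903397771060507814399, Int.ofNat 9813855283093456358400, Int.ofNat 178017513938470229587200, Int.negSucc 5250338952936771657599, Int.negSucc 1529607123475022591999, Int.negSucc 24379548146641968134399, Int.negSucc 37756774263710986847999, Int.ofNat 30244675084533031449600, Int.negSucc 33320284180507768953599, Int.negSucc 8027780295487989254399, Int.ofNat 64797335930067758035200, Int.ofNat 109750462817148835718400, Int.ofNat 1863171029665947456000, Int.negSucc 40731974591697210931199, Int.negSucc 11474426682355301683199, Int.ofNat 17375531853789801619200, Int.ofNat 8030035640313951264000, Int.negSucc 42963349359135866169599, Int.negSucc 2050002680020862111999, Int.negSucc 8359930695819741292799, Int.ofNat 646923039026033952000, Int.negSucc 21206839574539702137599, Int.negSucc 33614833845406245868799, Int.ofNat 74533380759689504889600, Int.negSucc 5964218668538523993599, Int.negSucc 4857637485087611078399, Int.negSucc 5799622772878942649179, Int.ofNat 12971086070864971795200,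 Int.negSucc 791749587216327667199, Int.negSucc 68104518223825079942399, Int.negSucc 3339539402280802156799, Int.ofNat 15065795521649673964800, Int.negSucc 90175259827362103430399, Int.negSucc 7506524632049231443199, Int.negSucc 16893893225273589907199, Int.ofNat 39147956192219020473600, Int.ofNat 12453695815612772448000],
  [Int.negSucc 482386620951054892799, Int.negSucc 140156667085532452991999, Int.ofNat 31822581017373117753600, Int.ofNat 200047505065619152032000, Int.ofNat 7631771575843168790400, Int.negSucc 12881484990449198323199, Int.negSucc 69187552126332667372799, Int.negSucc 26449748314669666022399, Int.ofNat 27520475721545968761600, Int.ofNat 46088679181391856172800, Int.negSucc 7267942852154182598399, Int.ofNat 50373122478291498412800, Int.ofNat 163197679579931751955200, Int.negSucc 9818306266125326860799, Int.negSucc 80582669954294722905599, Int.negSucc 22899688123189057689599, Int.ofNat 8030035640313951264000, Int.ofNat 7400982627037993593600, Int.negSucc 25208378335789179148799, Int.ofNat 2961078991837398432000,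 Int.ofNat 28099398636363086323200, Int.negSucc 2989046727361518969599, Int.negSucc 21048599858512419647999, Int.negSucc 27210624552358737235199, Int.ofNat 46167989020020792288000, Int.negSucc 3168534273100628140799, Int.negSucc 5173377266798395199999, Int.negSucc 3537524874615768691199, Int.ofNat 17319344723399832422400, Int.negSucc 2683867539999008563199, Int.negSucc 37523436821537373907199, Int.negSucc 1550542905407378937599, Int.ofNat 14863180185199723104000, Int.negSucc 52779271368421220313599, Int.negSucc 9424413503763945523199, Int.negSucc 29952277607042612639999, Int.ofNat 15807092589548271648000, Int.ofNat 4829977913525604403200],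
  [Int.negSucc 216323238988767178195199, Int.negSucc 57107226623150360966399, Int.ofNat 47222206188464592230400, Int.negSucc 237674394144568872691199, Int.ofNat 32384022000015107036160, Int.ofNat 38734821242460105235200, Int.ofNat 72363878853211791091095, Int.ofNat 93279654594042144883200, Int.negSucc 4531535989332945465599, Int.ofNat 132753921395005561996800, Int.negSucc 3798359856857903500799, Int.negSucc 260906499729180584697599, Int.negSucc 646222251103408717919999, Int.ofNat 33378252429080655532800, Int.ofNat 66895014774679588224000, Int.ofNat 116086701589638264576000, Int.negSucc 42963349359135866169599, Int.negSucc 25208378335789179148799, Int.ofNat 135859891692399705834324, Int.ofNat 2159347382548899379200, Int.negSucc 23346948386355881414399, Int.ofNat 14842215600854561337600, Int.ofNat 60176422911635131046400, Int.ofNat 72746658961071165907200, Int.negSucc 200649941678610074012677, Int.ofNat 27399087479587132108800, Int.ofNat 14136867886639721932800, Int.ofNat 2643489674354719008000, Int.negSucc 39145575775654385855999,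 Int.ofNat 16293150075928927219200, Int.ofNat 193115549533483697702400, Int.negSucc 1516564218173764031999, Int.negSucc 77231546914304565619199, Int.ofNat 314601958880611674854400, Int.negSucc 2988195113804516179199, Int.ofNat 52465126166720572032000, Int.negSucc 85435647936957858758399, Int.negSucc 24677336942493255820799],
  [Int.negSucc 72348422900688625017599, Int.negSucc 14649684039470765375999, Int.negSucc 2102476256835110956799, Int.ofNat 208008551103537206131200, Int.ofNat 25360279220644474579200, Int.ofNat 3641874855083044070400, Int.negSucc 99904473340055244806399, Int.negSucc 23807529284957036236799, Int.ofNat 4497955429616776108800, Int.negSucc 25510889574842602694399, Int.negSucc 1968354752959642319999, Int.negSucc 4594833921498623711999, Int.ofNat 59185869773689666425600, Int.negSucc 36437071440890352959999, Int.negSucc 176951547387736047763199, Int.ofNat 22894209760898784672000, Int.negSucc 2050002680020862111999, Int.ofNat 2961078991837398432000, Int.ofNat 2159347382548899379200, Int.ofNat 15178511899112108601600,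 Int.ofNat 44703109698954327129600, Int.negSucc 10687831367124431519999, Int.ofNat 22681370808083636812800, Int.ofNat 14288352546673240313180, Int.negSucc 22808239254016086124799, Int.negSucc 4322660334066861695999, Int.ofNat 2906618348660325062400, Int.ofNat 27117421129536606086400, Int.ofNat 1559422493526763756800, Int.negSucc 2737756823479051046399, Int.ofNat 3426360553934571052800, Int.negSucc 3313664177702053593599, Int.negSucc 5447717099876941343999, Int.negSucc 5111046112275046943999, Int.negSucc 444486503387143526399, Int.ofNat 18717015093087498969600, Int.negSucc 5585798123386706534399, Int.negSucc 1480137543851289523199],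
  [Int.ofNat 97151713400486961216000, Int.negSucc 1598832498776634057081599, Int.ofNat 553975853003884259020800, Int.ofNat 904632690001156531833600, Int.ofNat 48014792895940675459200, Int.negSucc 188384652066082760870399, Int.negSucc 474884183989409898412799, Int.negSucc 66412915421231669471999, Int.ofNat 286887192452712046540800, Int.ofNat 751714480926821868019200, Int.negSucc 101460473083546348262399, Int.ofNat 215711840655118284422400, Int.ofNat 1112134876318319162400000, Int.negSucc 194086880760091910572799, Int.negSucc 764088663769786985011199, Int.negSucc 245786972889648955564799, Int.negSucc 8359930695819741292799, Int.ofNat 28099398636363086323200, Int.negSucc 23346948386355881414399, Int.ofNat 44703109698954327129600, Int.ofNat 383506692814565380569600, Int.negSucc 60216772548108459628799, Int.negSucc 121045807374079819795199, Int.negSucc 138195756766747419667199, Int.ofNat 53125341190000436448000, Int.negSucc 9772975209826189670399, Int.negSucc 6895751363646005951999, Int.ofNat 17189003365271573472000, Int.ofNat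 68564586667119007046400, Int.negSucc 36786117987588919622399, Int.negSucc 26160203253594381753599, Int.ofNat 5974483591128769516800, Int.ofNat 101175499736298040435200, Int.ofNat 68972633596424900160000, Int.negSucc 24335218465084257473679, Int.negSucc 268711692045239565158399, Int.negSucc 66487345992888618470399, Int.negSucc 6241893934302862617599],
  [Int.ofNat 158046948242483473555200, Int.negSucc 413531290286600464742399, Int.ofNat 473244320396352918067200, Int.ofNat 81648282639729463257600, Int.negSucc 50225786490832311340799, Int.negSucc 76076304034596918998399, Int.ofNat 96555069738326337465600, Int.negSucc 7652413517140021593599, Int.ofNat 175181269363757271014400, Int.ofNat 612911568350367903052800, Int.negSucc 100615444789271452185599, Int.negSucc 784078832421376127999, Int.negSucc 449359936944998296089599, Int.ofNat 216934263731188539244800, Int.ofNat 54055066931430317625600, Int.negSucc 157940207853776884972799, Int.ofNat 646923039026033952000, Int.negSucc 2989046727361518969599, Int.ofNat 14842215600854561337600,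 Int.negSucc 10687831367124431519999, Int.negSucc 60216772548108459628799, Int.ofNat 77119883239375298649600, Int.negSucc 120971246222143379462399, Int.negSucc 85844235289536438623999, Int.negSucc 82957112004576202847999, Int.ofNat 14735879553918749990400, Int.negSucc 18367012677106296403199, Int.negSucc 25725996358131264249599, Int.negSucc 3651065908024015353599, Int.negSucc 2928344381296263820799, Int.ofNat 102342263859966982924800, Int.negSucc 12682598190059114553599, Int.negSucc 49818315509595281375999, Int.ofNat 50156380656697348051200, Int.ofNat 42394044940218363974400, Int.ofNat 67229122440357762393600, Int.negSucc 12980214611792441395199, Int.ofNat 3735590638590368812800],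
  [Int.negSucc 1035667620137829390566399, Int.ofNat 3083760920211501384035840, Int.negSucc 1893851186340975762700799, Int.negSucc 389138849904984153811199, Int.ofNat 202422922353159111676800, Int.ofNat 447516715110262724908800, Int.negSucc 84957019123654382140799, Int.ofNat 20795930874516182112000, Int.negSucc 916609166908465332556799, Int.negSucc 2227514860601647181510399, Int.ofNat 397894863129736415788800, Int.negSucc 344538430135148015020799, Int.negSucc 140216122263782241331199, Int.negSucc 279687741198697383551999, Int.ofNat 214157946473217656582400, Int.ofNat 739914886115480516313600, Int.negSucc 21206839574539702137599, Int.negSucc 21048599858512419647999, Int.ofNat 60176422911635131046400, Int.ofNat 22681370808083636812800, Int.negSucc 121045807374079819795199, Int.negSucc 120971246222143379462399, Int.ofNat 500317657533228220358400, Int.ofNat 379640147088049727443200, Int.ofNat 67120862276729114380800, Int.negSucc 25547455660237176556799, Int.ofNat 45726049794917691763200, Int.ofNat 141234541110883987603200, Int.negSucc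 75119195479674800563199, Int.negSucc 17907918033656085573161, Int.negSucc 165570587132830290028799, Int.ofNat 24024884325162639609600, Int.negSucc 43900991124407726399999, Int.negSucc 225559027705492736236799, Int.negSucc 40779071487347849510399, Int.ofNat 249147920314557568047878, Int.ofNat 65826585684152082316800, Int.negSucc 29690137220256519551999],
  [Int.negSucc 503906079419881019481599, Int.ofNat 2208204053579143824422400, Int.negSucc 1292776033047253461907199, Int.negSucc 945894564635523273388799, Int.ofNat 93098897147704310553600, Int.ofNat 281706861641142764736000, Int.ofNat 97803179721378786433295, Int.ofNat 100404798070874567961600, Int.negSucc 618435511355811562358399, Int.negSucc 1612336627857349426031999, Int.ofNat 271855681029877569206400, Int.negSucc 292914840254830309151999, Int.negSucc 264361231714336454879999, Int.negSucc 235813664414615734137599, Int.ofNat 363576033816189080140800, Int.ofNat 493199464163154200524800, Int.negSucc 33614833845406245868799, Int.negSucc 27210624552358737235199, Int.ofNat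 72746658961071165907200, Int.ofNat 14288352546673240313180, Int.negSucc 138195756766747419667199, Int.negSucc 85844235289536438623999, Int.ofNat 379640147088049727443200, Int.ofNat 376296004543831334726400, Int.negSucc 136420318140700143513599, Int.negSucc 14692601374468528492799, Int.ofNat 45072269755787005804800, Int.ofNat 92672046213594460704000, Int.negSucc 64804805381908702655999, Int.ofNat 39600671923629012268800, Int.ofNat 22513122910909534176000, Int.ofNat 14554959463811129126400, Int.negSucc 49227708791328793689599, Int.negSucc 28445821070841573235199, Int.negSucc 25454960642627944646399, Int.ofNat 231259925941000302528000, Int.negSucc 18889515969586469625599, Int.negSucc 33468064215546448051199],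
  [Int.negSucc 690698790841429507737599, Int.ofNat 1143754939885531375584000, Int.negSucc 1211851080944261235878399, Int.ofNat 1117949909900499712108800, Int.ofNat 157813435682688905683200, Int.ofNat 234019419541778992867200, Int.negSucc 384943535997493458585599, Int.negSucc 183794750369605212364799, Int.negSucc 540326036106639378086399, Int.negSucc 1103122083137020568294399, Int.ofNat 267553080086170677926400, Int.ofNat 260863130515748033145600, Int.ofNat 1358536244595678269168173, Int.negSucc 119124990847594656287999, Int.ofNat 26353022261610483129600, Int.ofNat 261979176743540123212800, Int.ofNat 74533380759689504889600, Int.ofNat 46167989020020792288000, Int.negSucc 200649941678610074012677, Int.negSucc 22808239254016086124799, Int.ofNat 53125341190000436448000, Int.negSucc 82957112004576202847999, Int.ofNat 67120862276729114380800, Int.negSucc 136420318140700143513599, Int.ofNat 758160856572800691628800, Int.negSucc 32508894529986030374399, Int.negSucc 34162748474193591033599, Int.negSucc 31734251097718315910399, Int.ofNat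 90676428473439847584000, Int.negSucc 100277153902305132479999, Int.negSucc 616702632914381391705599, Int.ofNat 31645323423468141004800, Int.ofNat 159454221486039069408000, Int.negSucc 718721579203030318406399, Int.negSucc 101508801306463993478399, Int.negSucc 248966411337455980895999, Int.ofNat 261928829178286567315200, Int.ofNat 32412852030133227744000],
  [Int.negSucc 41157518003225664767999, Int.negSucc 386460194305990193625599, Int.ofNat 147506315014738681747200, Int.ofNat 95030987411871385056000, Int.ofNat 7828526879151763075200, Int.negSucc 9754045417761791327999, Int.negSucc 1227976627045728268799, Int.ofNat 23110247042986479667200, Int.ofNat 96313894909247915827200, Int.ofNat 203219431410962385619200, Int.negSucc 31408778078390654323199, Int.negSucc 61084242936197884166399, Int.negSucc 185900261403816966988799, Int.ofNat 26344443922931576332800, Int.ofNat 9796182174037997337600, Int.ofNat 12210259608678014956800, Int.negSucc 5964218668538523993599, Int.negSucc 3168534273100628140799, Int.ofNat 27399087479587132108800,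 Int.negSucc 4322660334066861695999, Int.negSucc 9772975209826189670399, Int.ofNat 14735879553918749990400, Int.negSucc 25547455660237176556799, Int.negSucc 14692601374468528492799, Int.negSucc 32508894529986030374399, Int.ofNat 14698538417695744684800, Int.negSucc 2316222286494092121599, Int.negSucc 30413795319413099193599, Int.ofNat 11031354783231862060800, Int.ofNat 21330691886143219507200, Int.ofNat 52618442169162851654400, Int.negSucc 6374493644950303891199, Int.negSucc 20845642509045810892799, Int.ofNat 109180551846542054860800, Int.negSucc 27190402609374662111999, Int.negSucc 34738018127032320172799, Int.negSucc 14435945993337968735999, Int.negSucc 459012176990100115199],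
  [Int.ofNat 4492244402150791104000, Int.ofNat 130122785536117123276800, Int.negSucc 81941579270747396927999, Int.negSucc 171179442755543293343999, Int.negSucc 1171295083933354598399, Int.ofNat 19395685424681160940800, Int.ofNat 37133776171055554099200, Int.ofNat 19777648471565724230400, Int.negSucc 19817878521954727468799, Int.negSucc 174874050860806465459199, Int.ofNat 13633765117044970060800, Int.negSucc 37463201036190532511999, Int.negSucc 48103358581625900716799, Int.negSucc 59804976629271481171199, Int.ofNat 7417492136296974950400, Int.ofNat 53919262528243965216000, Int.negSucc 4857637485087611078399, Int.negSucc 5173377266798395199999, Int.ofNat 14136867886639721932800, Int.ofNat 2906618348660325062400, Int.negSucc 6895751363646005951999, Int.negSucc 18367012677106296403199, Int.ofNat 45726049794917691763200, Int.ofNat 45072269755787005804800, Int.negSucc 34162748474193591033599, Int.negSucc 2316222286494092121599, Int.ofNat 11871817281594807264000, Int.ofNat 13034738453424787008000, Int.negSucc 15424280863119362707199,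 Int.ofNat 10015577028234243648000, Int.ofNat 12038185693560043180800, Int.ofNat 1279227282811685625600, Int.negSucc 1823702124199627526399, Int.ofNat 49863496196893794105600, Int.negSucc 3356152209047021529599, Int.ofNat 10769388073047215539200, Int.negSucc 10871399586069279129599, Int.negSucc 1594203264815705107199],
  [Int.negSucc 178114767007047731078399, Int.ofNat 1354529684146677450048000, Int.negSucc 470070723923200926489599, Int.negSucc 101134174531069576915199, Int.ofNat 32209192800011716070400, Int.ofNat 89828381753140062614400, Int.negSucc 45304615183890933561599, Int.negSucc 59102623464291546047999, Int.negSucc 334601331638969702361599, Int.negSucc 588719312463751109222399, Int.ofNat 99230463099783812160000, Int.negSucc 6217829726474620799999, Int.ofNat 37890566972028273484800, Int.negSucc 24026357175069570047999, Int.negSucc 145523256203402872703999, Int.ofNat 89344963562118222067200, Int.negSucc 5799622772878942649179, Int.negSucc 3537524874615768691199, Int.ofNat 2643489674354719008000, Int.ofNat 27117421129536606086400,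 Int.ofNat 17189003365271573472000, Int.negSucc 25725996358131264249599, Int.ofNat 141234541110883987603200, Int.ofNat 92672046213594460704000, Int.negSucc 31734251097718315910399, Int.negSucc 30413795319413099193599, Int.ofNat 13034738453424787008000, Int.ofNat 127642827272366558880000, Int.negSucc 63087733554372706233599, Int.negSucc 68621790177872840563199, Int.negSucc 49580343413002568275199, Int.ofNat 11797280377699203878400, Int.negSucc 13889648310133298975999, Int.negSucc 194192310580180483334399, Int.ofNat 91835974075903031520000, Int.ofNat 212588677809140902214400, Int.ofNat 8925889471142051116800, Int.negSucc 12642606722846894975999],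
  [Int.negSucc 62200032790580083526399, Int.negSucc 919445191641803259014399, Int.ofNat 192146458940759090476800, Int.ofNat 598161538084130297222400, Int.ofNat 38753754170036076662400, Int.negSucc 41359305102912155923199, Int.negSucc 207629382825462911039999, Int.negSucc 23434595476357041849599, Int.ofNat 184266750762289713772800, Int.ofNat 293200780836325502649600, Int.negSucc 40657666870359789868799, Int.ofNat 59142177389555711942400, Int.ofNat 329384790062784127526400, Int.negSucc 44788325314516737407999, Int.negSucc 159410181062523071116799, Int.negSucc 21496460999193431596799, Int.ofNat 12971086070864971795200, Int.ofNat 17319344723399832422400, Int.negSucc 39145575775654385855999, Int.ofNat 1559422493526763756800, Int.ofNat 68564586667119007046400, Int.negSucc 3651065908024015353599, Int.negSucc 75119195479674800563199, Int.negSucc 64804805381908702655999, Int.ofNat 90676428473439847584000, Int.ofNat 11031354783231862060800, Int.negSucc 15424280863119362707199, Int.negSucc 63087733554372706233599, Int.ofNat 76892755468055698080000,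 Int.ofNat 39257715752111116915200, Int.negSucc 38410157548564501190399, Int.negSucc 11500112218875066259199, Int.ofNat 25993857382171959571200, Int.ofNat 1796947430162713920000, Int.negSucc 87802306137720395020799, Int.negSucc 161599992613322946903919, Int.ofNat 20709092075403099513600, Int.ofNat 10546293598923695558400],
  [Int.ofNat 88838426937268070899200, Int.negSucc 968663116882168433107199, Int.ofNat 294498049691444256403200, Int.ofNat 44151068228052067027200, Int.negSucc 6147236179105179185509, Int.negSucc 31480848874553519750399, Int.ofNat 13207262221074402950400, Int.ofNat 58622742874350927417600, Int.ofNat 303194488092650685139305, Int.ofNat 167964274915654566585600, Int.negSucc 78384832426220282726399, Int.negSucc 90451206248288794271999, Int.negSucc 243808303301861176569599, Int.negSucc 91086063391599987110399, Int.negSucc 12238486042042700294399, Int.ofNat 66231928322982828806400, Int.negSucc 791749587216327667199, Int.negSucc 2683867539999008563199, Int.ofNat 16293150075928927219200, Int.negSucc 2737756823479051046399,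 Int.negSucc 36786117987588919622399, Int.negSucc 2928344381296263820799, Int.negSucc 17907918033656085573161, Int.ofNat 39600671923629012268800, Int.negSucc 100277153902305132479999, Int.ofNat 21330691886143219507200, Int.ofNat 10015577028234243648000, Int.negSucc 68621790177872840563199, Int.ofNat 39257715752111116915200, Int.ofNat 105348663118162984665600, Int.ofNat 99223990075660597056000, Int.negSucc 23014700521284813868799, Int.negSucc 25165765100220529075199, Int.ofNat 243996215186765709158400, Int.negSucc 100892328949032126105599, Int.negSucc 96481662966819413337599, Int.negSucc 23466286737844685279999, Int.ofNat 11179897634072355552000],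
  [Int.ofNat 578839682645457598310400, Int.negSucc 1829820174514041187295999, Int.ofNat 1351652349109585487328000, Int.negSucc 720410108664473654918399, Int.negSucc 131395116346580229002649, Int.negSucc 254863084855313136383999, Int.ofNat 301522958767724216140800, Int.ofNat 185438447125358394240000, Int.ofNat 628043659743630238617600, Int.ofNat 1482606263985272660122819, Int.negSucc 285946225264868932108799, Int.negSucc 239272496321544047980799, Int.negSucc 1212091614853619504659199, Int.ofNat 182812733237610455616000, Int.ofNat 34912024050224689804800, Int.negSucc 301020522808827008678399, Int.negSucc 68104518223825079942399, Int.negSucc 37523436821537373907199, Int.ofNat 193115549533483697702400, Int.ofNat 3426360553934571052800, Int.negSucc 26160203253594381753599, Int.ofNat 102342263859966982924800, Int.negSucc 165570587132830290028799, Int.ofNat 22513122910909534176000, Int.negSucc 616702632914381391705599, Int.ofNat 52618442169162851654400, Int.ofNat 12038185693560043180800, Int.negSucc 49580343413002568275199, Int.negSucc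 38410157548564501190399, Int.ofNat 99223990075660597056000, Int.ofNat 570452211480698479296000, Int.negSucc 30510979171744078425599, Int.negSucc 137193389560113879283199, Int.ofNat 732993266406629356128000, Int.ofNat 44872226785541838009600, Int.ofNat 82493997706343441836800, Int.negSucc 238373459585742929011199, Int.negSucc 27931861650411351359999],
  [Int.negSucc 5451073965403555507199, Int.ofNat 355316272059260348928000, Int.negSucc 179973338767203987532799, Int.negSucc 208721215457087326156799, Int.negSucc 2353585804520979974399, Int.ofNat 17068012320808916812800, Int.ofNat 31164687818933639443200, Int.ofNat 9486926346545727206400, Int.negSucc 126418264095708512927999, Int.negSucc 159028600632414149145599, Int.ofNat 45484256197985845968000, Int.ofNat 20551946042092790707200, Int.ofNat 142328375190128826316800, Int.negSucc 13201795513176578380799, Int.ofNat 93652330049096243443200, Int.negSucc 2033071231867865279999, Int.negSucc 3339539402280802156799, Int.negSucc 1550542905407378937599, Int.negSucc 1516564218173764031999,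 Int.negSucc 3313664177702053593599, Int.ofNat 5974483591128769516800, Int.negSucc 12682598190059114553599, Int.ofNat 24024884325162639609600, Int.ofNat 14554959463811129126400, Int.ofNat 31645323423468141004800, Int.negSucc 6374493644950303891199, Int.ofNat 1279227282811685625600, Int.ofNat 11797280377699203878400, Int.negSucc 11500112218875066259199, Int.negSucc 23014700521284813868799, Int.negSucc 30510979171744078425599, Int.ofNat 11513226609627158707200, Int.ofNat 19901683616055994771200, Int.negSucc 54831174812207518233599, Int.ofNat 19678206771591087283200, Int.ofNat 5034274229021045299200, Int.negSucc 979994105426327846399, Int.negSucc 6660844667289723455999],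
  [Int.ofNat 263546439154885237478400, Int.negSucc 139940232079047939302399, Int.negSucc 69526382999228897414399, Int.negSucc 190530810637965231033599, Int.negSucc 36995763311786349907199, Int.negSucc 66780921823043836262399, Int.negSucc 25945835148235291161599, Int.negSucc 10266156320057830483199, Int.negSucc 29635973557173887903999, Int.negSucc 76764681325611387763199, Int.ofNat 24872721521432687884800, Int.ofNat 220823613864533508192000, Int.ofNat 836194457322492664032000, Int.negSucc 127084221666205871558399, Int.ofNat 21568721957255050905600, Int.negSucc 140331137456814154905599, Int.ofNat 15065795521649673964800, Int.ofNat 14863180185199723104000, Int.negSucc 77231546914304565619199, Int.negSucc 5447717099876941343999, Int.ofNat 101175499736298040435200, Int.negSucc 49818315509595281375999, Int.negSucc 43900991124407726399999, Int.negSucc 49227708791328793689599, Int.ofNat 159454221486039069408000, Int.negSucc 20845642509045810892799, Int.negSucc 1823702124199627526399, Int.negSucc 13889648310133298975999, Int.ofNat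 25993857382171959571200, Int.negSucc 25165765100220529075199, Int.negSucc 137193389560113879283199, Int.ofNat 19901683616055994771200, Int.ofNat 110494009463830642540800, Int.negSucc 141404410983804675033599, Int.ofNat 400345784657734406400, Int.negSucc 155328862918632472742399, Int.ofNat 15311324596348662336000, Int.ofNat 4746381699225536697600],
  [Int.ofNat 650178116605436852160000, Int.negSucc 4565657010419698981132799, Int.ofNat 2179076255028906818457600, Int.negSucc 430608282614401186713599, Int.negSucc 118550140617036187987199, Int.negSucc 343312362641127842726399, Int.ofNat 300004575105309019545600, Int.ofNat 332319780640142851046400, Int.ofNat 1357344226619107707052800, Int.ofNat 2146797202942683248630400, Int.negSucc 484100967398053923590399, Int.negSucc 490853033374892856595199, Int.negSucc 1607372889083553067257599, Int.negSucc 98116051139428973414399, Int.negSucc 244277888921463317356799, Int.negSucc 156270605543372279231999, Int.negSucc 90175259827362103430399, Int.negSucc 52779271368421220313599, Int.ofNat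 314601958880611674854400, Int.negSucc 5111046112275046943999, Int.ofNat 68972633596424900160000, Int.ofNat 50156380656697348051200, Int.negSucc 225559027705492736236799, Int.negSucc 28445821070841573235199, Int.negSucc 718721579203030318406399, Int.ofNat 109180551846542054860800, Int.ofNat 49863496196893794105600, Int.negSucc 194192310580180483334399, Int.ofNat 1796947430162713920000, Int.ofNat 243996215186765709158400, Int.ofNat 732993266406629356128000, Int.negSucc 54831174812207518233599, Int.negSucc 141404410983804675033599, Int.ofNat 1520032158973593924422400, Int.negSucc 160865623018442191449599, Int.negSucc 346892206225137127027199, Int.negSucc 324199801567440243244799, Int.negSucc 8560308805941833740799],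
  [Int.ofNat 398080784882553079507200, Int.ofNat 968885211659734658016000, Int.ofNat 105281051440935967833600, Int.negSucc 722265825357520574457599, Int.negSucc 112589871565403410214399, Int.negSucc 77707406970468721555199, Int.ofNat 250554586330074045801600, Int.negSucc 22115436108196365043199, Int.negSucc 174812412123240452870399, Int.ofNat 142879831262614350777600, Int.negSucc 10611155491160808729599, Int.ofNat 133438880553562133222400, Int.negSucc 84894811325038207583999, Int.ofNat 188155958233778358969600, Int.ofNat 143836752144012661843200, Int.negSucc 272906912962937876313599, Int.negSucc 7506524632049231443199, Int.negSucc 9424413503763945523199, Int.negSucc 2988195113804516179199, Int.negSucc 444486503387143526399, Int.negSucc 24335218465084257473679, Int.ofNat 42394044940218363974400, Int.negSucc 40779071487347849510399, Int.negSucc 25454960642627944646399, Int.negSucc 101508801306463993478399, Int.negSucc 27190402609374662111999, Int.negSucc 3356152209047021529599, Int.ofNat 91835974075903031520000, Int.negSucc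 87802306137720395020799, Int.negSucc 100892328949032126105599, Int.ofNat 44872226785541838009600, Int.ofNat 19678206771591087283200, Int.ofNat 400345784657734406400, Int.negSucc 160865623018442191449599, Int.ofNat 193421248700611098585600, Int.ofNat 229589970963052667385600, Int.negSucc 35328889408530421267199, Int.negSucc 13879843714309851532799],
  [Int.negSucc 286984694151461485670399, Int.ofNat 3286814139204592069382400, Int.negSucc 839627552866622879923199, Int.negSucc 783464438102506518758399, Int.negSucc 5896335697627011436799, Int.ofNat 219061898481405192595200, Int.ofNat 284554286367987111840000, Int.negSucc 55648576621849357036799, Int.negSucc 693068303255552229356286, Int.negSucc 1012706865100895081644799, Int.ofNat 171755137817803193472000, Int.negSucc 184378026342498185433599, Int.negSucc 1095949758855795658214399, Int.ofNat 288486655633360610899200, Int.ofNat 294616838934032027212800, Int.ofNat 180012846716748617644800, Int.negSucc 16893893225273589907199, Int.negSucc 29952277607042612639999, Int.ofNat 52465126166720572032000,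 Int.ofNat 18717015093087498969600, Int.negSucc 268711692045239565158399, Int.ofNat 67229122440357762393600, Int.ofNat 249147920314557568047878, Int.ofNat 231259925941000302528000, Int.negSucc 248966411337455980895999, Int.negSucc 34738018127032320172799, Int.ofNat 10769388073047215539200, Int.ofNat 212588677809140902214400, Int.negSucc 161599992613322946903919, Int.negSucc 96481662966819413337599, Int.ofNat 82493997706343441836800, Int.ofNat 5034274229021045299200, Int.negSucc 155328862918632472742399, Int.negSucc 346892206225137127027199, Int.ofNat 229589970963052667385600, Int.ofNat 680329325599627469875200, Int.ofNat 18086293733475360556800, Int.negSucc 27801202440958211865599],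
  [Int.negSucc 349689476864512842220799, Int.ofNat 788415098623053941894400, Int.negSucc 536565555979020032774399, Int.ofNat 550423156635312231398400, Int.ofNat 67730558757589264118400, Int.ofNat 144547348446387238060800, Int.negSucc 120198722988338037388799, Int.negSucc 102321444474410432543999, Int.negSucc 219701589972241250764799, Int.negSucc 616969769999904481305599, Int.ofNat 102998583607561617830400, Int.ofNat 45624079504207797465600, Int.ofNat 166767390772302666528000, Int.ofNat 329668524334660492800, Int.negSucc 7884632165573437747199, Int.ofNat 193414056033939741000000, Int.ofNat 39147956192219020473600, Int.ofNat 15807092589548271648000, Int.negSucc 85435647936957858758399, Int.negSucc 5585798123386706534399, Int.negSucc 66487345992888618470399, Int.negSucc 12980214611792441395199, Int.ofNat 65826585684152082316800, Int.negSucc 18889515969586469625599, Int.ofNat 261928829178286567315200, Int.negSucc 14435945993337968735999, Int.negSucc 10871399586069279129599, Int.ofNat 8925889471142051116800, Int.ofNat 20709092075403099513600,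 Int.negSucc 23466286737844685279999, Int.negSucc 238373459585742929011199, Int.negSucc 979994105426327846399, Int.ofNat 15311324596348662336000, Int.negSucc 324199801567440243244799, Int.negSucc 35328889408530421267199, Int.ofNat 18086293733475360556800, Int.ofNat 135517889734956919008000, Int.ofNat 22302619718365090540800],
  [Int.ofNat 61397558069134160764800, Int.negSucc 256690284890492718719999, Int.ofNat 123951876114767217753600, Int.ofNat 162958873858639133184000, Int.negSucc 10644873384365857727999, Int.negSucc 16991092395557384831999, Int.negSucc 8210276886902173574399, Int.negSucc 22147445144658207628799, Int.ofNat 100677041901209272262400, Int.ofNat 72320864456008803398400, Int.negSucc 34105658632263366220799, Int.ofNat 34004949746179326969600, Int.ofNat 2582982294370853356800, Int.negSucc 1770435233320330886399, Int.negSucc 63291918448692507974399, Int.negSucc 14793175840463821382399, Int.ofNat 12453695815612772448000, Int.ofNat 4829977913525604403200, Int.negSucc 24677336942493255820799, Int.negSucc 1480137543851289523199,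 Int.negSucc 6241893934302862617599, Int.ofNat 3735590638590368812800, Int.negSucc 29690137220256519551999, Int.negSucc 33468064215546448051199, Int.ofNat 32412852030133227744000, Int.negSucc 459012176990100115199, Int.negSucc 1594203264815705107199, Int.negSucc 12642606722846894975999, Int.ofNat 10546293598923695558400, Int.ofNat 11179897634072355552000, Int.negSucc 27931861650411351359999, Int.negSucc 6660844667289723455999, Int.ofNat 4746381699225536697600, Int.negSucc 8560308805941833740799, Int.negSucc 13879843714309851532799, Int.negSucc 27801202440958211865599, Int.ofNat 22302619718365090540800, Int.ofNat 12156921946656044812800]]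
  U := [[Int.ofNat 230412787, Int.ofNat 0, Int.ofNat 0, Int.ofNat 0, Int.ofNat 0, Int.ofNat 0, Int.ofNat 0, Int.ofNat 0, Int.ofNat 0, Int.ofNat 0, Int.ofNat 0, Int.ofNat 0, Int.ofNat 0, Int.ofNat 0, Int.ofNat 0, Int.ofNat 0, Int.ofNat 0, Int.ofNat 0, Int.ofNat 0, Int.ofNat 0, Int.ofNat 0, Int.ofNat 0, Int.ofNat 0, Int.ofNat 0, Int.ofNat 0, Int.ofNat 0, Int.ofNat 0, Int.ofNat 0, Int.ofNat 0, Int.ofNat 0, Int.ofNat 0, Int.ofNat 0, Int.ofNat 0, Int.ofNat 0, Int.ofNat 0, Int.ofNat 0, Int.ofNat 0, Int.ofNat 0],
  [Int.negSucc 260627209, Int.ofNat 539407910, Int.ofNat 0, Int.ofNat 0, Int.ofNat 0, Int.ofNat 0, Int.ofNat 0, Int.ofNat 0, Int.ofNat 0, Int.ofNat 0, Int.ofNat 0, Int.ofNat 0, Int.ofNat 0, Int.ofNat 0, Int.ofNat 0, Int.ofNat 0, Int.ofNat 0, Int.ofNat 0, Int.ofNat 0, Int.ofNat 0, Int.ofNat 0, Int.ofNat 0, Int.ofNat 0, Int.ofNat 0, Int.ofNat 0, Int.ofNat 0, Int.ofNat 0, Int.ofNat 0, Int.ofNat 0, Int.ofNat 0, Int.ofNat 0, Int.ofNat 0, Int.ofNat 0, Int.ofNat 0, Int.ofNat 0, Int.ofNat 0, Int.ofNat 0, Int.ofNat 0],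
  [Int.ofNat 216320806, Int.negSucc 205361518, Int.ofNat 118093736, Int.ofNat 0, Int.ofNat 0, Int.ofNat 0, Int.ofNat 0, Int.ofNat 0, Int.ofNat 0, Int.ofNat 0, Int.ofNat 0, Int.ofNat 0, Int.ofNat 0, Int.ofNat 0, Int.ofNat 0, Int.ofNat 0, Int.ofNat 0, Int.ofNat 0, Int.ofNat 0, Int.ofNat 0, Int.ofNat 0, Int.ofNat 0, Int.ofNat 0, Int.ofNat 0, Int.ofNat 0, Int.ofNat 0, Int.ofNat 0, Int.ofNat 0, Int.ofNat 0, Int.ofNat 0, Int.ofNat 0, Int.ofNat 0, Int.ofNat 0, Int.ofNat 0, Int.ofNat 0, Int.ofNat 0, Int.ofNat 0, Int.ofNat 0],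
  [Int.negSucc 181467283, Int.negSucc 237109145, Int.ofNat 79189330, Int.ofNat 212329464, Int.ofNat 0, Int.ofNat 0, Int.ofNat 0, Int.ofNat 0, Int.ofNat 0, Int.ofNat 0, Int.ofNat 0, Int.ofNat 0, Int.ofNat 0, Int.ofNat 0, Int.ofNat 0, Int.ofNat 0, Int.ofNat 0, Int.ofNat 0, Int.ofNat 0, Int.ofNat 0, Int.ofNat 0, Int.ofNat 0, Int.ofNat 0, Int.ofNat 0, Int.ofNat 0, Int.ofNat 0, Int.ofNat 0, Int.ofNat 0, Int.ofNat 0, Int.ofNat 0, Int.ofNat 0, Int.ofNat 0, Int.ofNat 0, Int.ofNat 0, Int.ofNat 0, Int.ofNat 0, Int.ofNat 0, Int.ofNat 0],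
  [Int.negSucc 48447595, Int.negSucc 8335878, Int.negSucc 5583625, Int.ofNat 5680000, Int.ofNat 8140038, Int.ofNat 0, Int.ofNat 0, Int.ofNat 0, Int.ofNat 0, Int.ofNat 0, Int.ofNat 0, Int.ofNat 0, Int.ofNat 0, Int.ofNat 0, Int.ofNat 0, Int.ofNat 0, Int.ofNat 0, Int.ofNat 0, Int.ofNat 0, Int.ofNat 0, Int.ofNat 0, Int.ofNat 0, Int.ofNat 0, Int.ofNat 0, Int.ofNat 0, Int.ofNat 0, Int.ofNat 0, Int.ofNat 0, Int.ofNat 0, Int.ofNat 0, Int.ofNat 0, Int.ofNat 0, Int.ofNat 0, Int.ofNat 0, Int.ofNat 0, Int.ofNat 0, Int.ofNat 0, Int.ofNat 0],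
  [Int.negSucc 64435642, Int.ofNat 31822101, Int.negSucc 11136520, Int.negSucc 4575841, Int.negSucc 11797903, Int.ofNat 15689130, Int.ofNat 0, Int.ofNat 0, Int.ofNat 0, Int.ofNat 0, Int.ofNat 0, Int.ofNat 0, Int.ofNat 0, Int.ofNat 0, Int.ofNat 0, Int.ofNat 0, Int.ofNat 0, Int.ofNat 0, Int.ofNat 0, Int.ofNat 0, Int.ofNat 0, Int.ofNat 0, Int.ofNat 0, Int.ofNat 0, Int.ofNat 0, Int.ofNat 0, Int.ofNat 0, Int.ofNat 0, Int.ofNat 0, Int.ofNat 0, Int.ofNat 0, Int.ofNat 0, Int.ofNat 0, Int.ofNat 0, Int.ofNat 0, Int.ofNat 0, Int.ofNat 0, Int.ofNat 0],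
  [Int.ofNat 73002054, Int.ofNat 60520995, Int.ofNat 9165696, Int.negSucc 64994873, Int.negSucc 49341356, Int.ofNat 16224128, Int.ofNat 2204337, Int.ofNat 0, Int.ofNat 0, Int.ofNat 0, Int.ofNat 0, Int.ofNat 0, Int.ofNat 0, Int.ofNat 0, Int.ofNat 0, Int.ofNat 0, Int.ofNat 0, Int.ofNat 0, Int.ofNat 0, Int.ofNat 0, Int.ofNat 0, Int.ofNat 0, Int.ofNat 0, Int.ofNat 0, Int.ofNat 0, Int.ofNat 0, Int.ofNat 0, Int.ofNat 0, Int.ofNat 0, Int.ofNat 0, Int.ofNat 0, Int.ofNat 0, Int.ofNat 0, Int.ofNat 0, Int.ofNat 0, Int.ofNat 0, Int.ofNat 0, Int.ofNat 0],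
  [Int.ofNat 10597834, Int.ofNat 280703, Int.negSucc 13983268, Int.negSucc 40654185, Int.ofNat 336403, Int.ofNat 367259, Int.negSucc 2979793, Int.ofNat 1172991, Int.ofNat 0, Int.ofNat 0, Int.ofNat 0, Int.ofNat 0, Int.ofNat 0, Int.ofNat 0, Int.ofNat 0, Int.ofNat 0, Int.ofNat 0, Int.ofNat 0, Int.ofNat 0, Int.ofNat 0, Int.ofNat 0, Int.ofNat 0, Int.ofNat 0, Int.ofNat 0, Int.ofNat 0, Int.ofNat 0, Int.ofNat 0, Int.ofNat 0, Int.ofNat 0, Int.ofNat 0, Int.ofNat 0, Int.ofNat 0, Int.ofNat 0, Int.ofNat 0, Int.ofNat 0, Int.ofNat 0, Int.ofNat 0, Int.ofNat 0],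
  [Int.ofNat 101103443, Int.negSucc 138128675, Int.ofNat 27585365, Int.ofNat 5882744, Int.negSucc 9990817, Int.ofNat 39129479, Int.negSucc 3889227, Int.ofNat 1181248, Int.ofNat 574250, Int.ofNat 0, Int.ofNat 0, Int.ofNat 0, Int.ofNat 0, Int.ofNat 0, Int.ofNat 0, Int.ofNat 0, Int.ofNat 0, Int.ofNat 0, Int.ofNat 0, Int.ofNat 0, Int.ofNat 0, Int.ofNat 0, Int.ofNat 0, Int.ofNat 0, Int.ofNat 0, Int.ofNat 0, Int.ofNat 0, Int.ofNat 0, Int.ofNat 0, Int.ofNat 0, Int.ofNat 0, Int.ofNat 0, Int.ofNat 0, Int.ofNat 0, Int.ofNat 0, Int.ofNat 0, Int.ofNat 0, Int.ofNat 0],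
  [Int.ofNat 197110801, Int.negSucc 239842850, Int.ofNat 147514169, Int.negSucc 15607577, Int.negSucc 2287542, Int.negSucc 104688281, Int.negSucc 14192525, Int.ofNat 6980374, Int.negSucc 1037934, Int.ofNat 1536229, Int.ofNat 0, Int.ofNat 0, Int.ofNat 0, Int.ofNat 0, Int.ofNat 0, Int.ofNat 0, Int.ofNat 0, Int.ofNat 0, Int.ofNat 0, Int.ofNat 0, Int.ofNat 0, Int.ofNat 0, Int.ofNat 0, Int.ofNat 0, Int.ofNat 0, Int.ofNat 0, Int.ofNat 0, Int.ofNat 0, Int.ofNat 0, Int.ofNat 0, Int.ofNat 0, Int.ofNat 0, Int.ofNat 0, Int.ofNat 0, Int.ofNat 0, Int.ofNat 0, Int.ofNat 0, Int.ofNat 0],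
  [Int.negSucc 46567633, Int.ofNat 45524973, Int.negSucc 26225231, Int.negSucc 2807624, Int.ofNat 2072666, Int.negSucc 8978802, Int.ofNat 211193, Int.negSucc 3036, Int.negSucc 113947, Int.ofNat 40112, Int.ofNat 172088, Int.ofNat 0, Int.ofNat 0, Int.ofNat 0, Int.ofNat 0, Int.ofNat 0, Int.ofNat 0, Int.ofNat 0, Int.ofNat 0, Int.ofNat 0, Int.ofNat 0, Int.ofNat 0, Int.ofNat 0, Int.ofNat 0, Int.ofNat 0, Int.ofNat 0, Int.ofNat 0, Int.ofNat 0, Int.ofNat 0, Int.ofNat 0, Int.ofNat 0, Int.ofNat 0, Int.ofNat 0, Int.ofNat 0, Int.ofNat 0, Int.ofNat 0, Int.ofNat 0, Int.ofNat 0],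
  [Int.ofNat 57904047, Int.ofNat 8364857, Int.negSucc 16305652, Int.ofNat 60760745, Int.ofNat 3678679, Int.negSucc 33015716, Int.ofNat 3163289, Int.negSucc 878368, Int.negSucc 423469, Int.ofNat 69997, Int.ofNat 27294, Int.ofNat 254424, Int.ofNat 0, Int.ofNat 0, Int.ofNat 0, Int.ofNat 0, Int.ofNat 0, Int.ofNat 0, Int.ofNat 0, Int.ofNat 0, Int.ofNat 0, Int.ofNat 0, Int.ofNat 0, Int.ofNat 0, Int.ofNat 0, Int.ofNat 0, Int.ofNat 0, Int.ofNat 0, Int.ofNat 0, Int.ofNat 0, Int.ofNat 0, Int.ofNat 0, Int.ofNat 0, Int.ofNat 0, Int.ofNat 0, Int.ofNat 0, Int.ofNat 0, Int.ofNat 0],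
  [Int.ofNat 36057587, Int.ofNat 11772577, Int.negSucc 183618070, Int.ofNat 153358576, Int.ofNat 93036024, Int.negSucc 124542924, Int.ofNat 38400762, Int.negSucc 15185486, Int.negSucc 1828675, Int.negSucc 1521573, Int.ofNat 116287, Int.ofNat 576119, Int.ofNat 829276, Int.ofNat 0, Int.ofNat 0, Int.ofNat 0, Int.ofNat 0, Int.ofNat 0, Int.ofNat 0, Int.ofNat 0, Int.ofNat 0, Int.ofNat 0, Int.ofNat 0, Int.ofNat 0, Int.ofNat 0, Int.ofNat 0, Int.ofNat 0, Int.ofNat 0, Int.ofNat 0, Int.ofNat 0, Int.ofNat 0, Int.ofNat 0, Int.ofNat 0, Int.ofNat 0, Int.ofNat 0, Int.ofNat 0, Int.ofNat 0, Int.ofNat 0],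
  [Int.ofNat 11671891, Int.ofNat 6350620, Int.ofNat 67859843, Int.negSucc 4625904, Int.negSucc 35683198, Int.negSucc 33604235, Int.negSucc 20316109, Int.ofNat 9074929, Int.negSucc 188374, Int.ofNat 1472015, Int.ofNat 401, Int.negSucc 75198, Int.negSucc 302283, Int.ofNat 257804, Int.ofNat 0, Int.ofNat 0, Int.ofNat 0, Int.ofNat 0, Int.ofNat 0, Int.ofNat 0, Int.ofNat 0, Int.ofNat 0, Int.ofNat 0, Int.ofNat 0, Int.ofNat 0, Int.ofNat 0, Int.ofNat 0, Int.ofNat 0, Int.ofNat 0, Int.ofNat 0, Int.ofNat 0, Int.ofNat 0, Int.ofNat 0, Int.ofNat 0, Int.ofNat 0, Int.ofNat 0, Int.ofNat 0, Int.ofNat 0],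
  [Int.ofNat 22965882, Int.ofNat 104989439, Int.negSucc 46869714, Int.negSucc 98821903, Int.negSucc 85682297, Int.negSucc 39253804, Int.negSucc 43350474, Int.ofNat 19116115, Int.negSucc 59559, Int.ofNat 2915794, Int.ofNat 36633, Int.negSucc 140133, Int.negSucc 728172, Int.ofNat 410817, Int.ofNat 434014, Int.ofNat 0, Int.ofNat 0, Int.ofNat 0, Int.ofNat 0, Int.ofNat 0, Int.ofNat 0, Int.ofNat 0, Int.ofNat 0, Int.ofNat 0, Int.ofNat 0, Int.ofNat 0, Int.ofNat 0, Int.ofNat 0, Int.ofNat 0, Int.ofNat 0, Int.ofNat 0, Int.ofNat 0, Int.ofNat 0, Int.ofNat 0, Int.ofNat 0, Int.ofNat 0, Int.ofNat 0, Int.ofNat 0],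
  [Int.negSucc 109101034, Int.ofNat 18261837, Int.negSucc 29653017, Int.negSucc 17865622, Int.negSucc 10706110, Int.ofNat 53528038, Int.ofNat 1511635, Int.negSucc 1076491, Int.ofNat 571952, Int.negSucc 423271, Int.negSucc 15989, Int.negSucc 92126, Int.negSucc 58183, Int.negSucc 39068, Int.negSucc 11786, Int.ofNat 180646, Int.ofNat 0, Int.ofNat 0, Int.ofNat 0, Int.ofNat 0, Int.ofNat 0, Int.ofNat 0, Int.ofNat 0, Int.ofNat 0, Int.ofNat 0, Int.ofNat 0, Int.ofNat 0, Int.ofNat 0, Int.ofNat 0, Int.ofNat 0, Int.ofNat 0, Int.ofNat 0, Int.ofNat 0, Int.ofNat 0, Int.ofNat 0, Int.ofNat 0, Int.ofNat 0, Int.ofNat 0],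
  [Int.ofNat 1632252, Int.ofNat 25370, Int.negSucc 2018637, Int.ofNat 11530090, Int.negSucc 6885608, Int.ofNat 2316624, Int.negSucc 962939, Int.ofNat 481558, Int.ofNat 23370, Int.ofNat 68676, Int.ofNat 2422, Int.ofNat 8831, Int.negSucc 29512, Int.ofNat 21815, Int.ofNat 17923, Int.ofNat 199, Int.ofNat 167914, Int.ofNat 0, Int.ofNat 0, Int.ofNat 0, Int.ofNat 0, Int.ofNat 0, Int.ofNat 0, Int.ofNat 0, Int.ofNat 0, Int.ofNat 0, Int.ofNat 0, Int.ofNat 0, Int.ofNat 0, Int.ofNat 0, Int.ofNat 0, Int.ofNat 0, Int.ofNat 0, Int.ofNat 0, Int.ofNat 0, Int.ofNat 0, Int.ofNat 0, Int.ofNat 0],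
  [Int.negSucc 23357, Int.negSucc 2910206, Int.negSucc 2011565, Int.ofNat 7991877, Int.ofNat 384490, Int.negSucc 2161274, Int.negSucc 986240, Int.ofNat 400901, Int.negSucc 6192, Int.ofNat 64981, Int.ofNat 2077, Int.ofNat 4598, Int.negSucc 15229, Int.ofNat 13696, Int.ofNat 11474, Int.negSucc 1647, Int.ofNat 500, Int.ofNat 166788, Int.ofNat 0, Int.ofNat 0, Int.ofNat 0, Int.ofNat 0, Int.ofNat 0, Int.ofNat 0, Int.ofNat 0, Int.ofNat 0, Int.ofNat 0, Int.ofNat 0, Int.ofNat 0, Int.ofNat 0, Int.ofNat 0, Int.ofNat 0, Int.ofNat 0, Int.ofNat 0, Int.ofNat 0, Int.ofNat 0, Int.ofNat 0, Int.ofNat 0],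
  [Int.negSucc 10474579, Int.negSucc 6242204, Int.ofNat 12793311, Int.negSucc 33182672, Int.ofNat 7581112, Int.ofNat 2290526, Int.ofNat 5778455, Int.negSucc 2414150, Int.negSucc 55842, Int.negSucc 353624, Int.negSucc 8840, Int.negSucc 17110, Int.ofNat 112032, Int.negSucc 81001, Int.negSucc 69270, Int.ofNat 6847, Int.negSucc 5133, Int.negSucc 3928, Int.ofNat 177094, Int.ofNat 0, Int.ofNat 0, Int.ofNat 0, Int.ofNat 0, Int.ofNat 0, Int.ofNat 0, Int.ofNat 0, Int.ofNat 0, Int.ofNat 0, Int.ofNat 0, Int.ofNat 0, Int.ofNat 0, Int.ofNat 0, Int.ofNat 0, Int.ofNat 0, Int.ofNat 0, Int.ofNat 0, Int.ofNat 0, Int.ofNat 0],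
  [Int.negSucc 3503179, Int.negSucc 1995646, Int.ofNat 2748027, Int.ofNat 4682339, Int.ofNat 10482988, Int.ofNat 3449146, Int.ofNat 1056409, Int.negSucc 675227, Int.ofNat 63696, Int.negSucc 131503, Int.negSucc 5004, Int.negSucc 8308, Int.ofNat 22357, Int.negSucc 22427, Int.negSucc 19285, Int.negSucc 2320, Int.negSucc 2250, Int.ofNat 963, Int.negSucc 2014, Int.ofNat 168866, Int.ofNat 0, Int.ofNat 0, Int.ofNat 0, Int.ofNat 0, Int.ofNat 0, Int.ofNat 0, Int.ofNat 0, Int.ofNat 0, Int.ofNat 0, Int.ofNat 0, Int.ofNat 0, Int.ofNat 0, Int.ofNat 0, Int.ofNat 0, Int.ofNat 0, Int.ofNat 0, Int.ofNat 0, Int.ofNat 0],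
  [Int.ofNat 4704180, Int.negSucc 30796418, Int.negSucc 9834631, Int.ofNat 20831562, Int.ofNat 40988342, Int.negSucc 22262110, Int.ofNat 22642896, Int.negSucc 9324265, Int.negSucc 517208, Int.negSucc 1199260, Int.ofNat 10687, Int.ofNat 145973, Int.ofNat 433296, Int.negSucc 166121, Int.negSucc 146570, Int.ofNat 1852, Int.negSucc 5134, Int.negSucc 5094, Int.ofNat 26440, Int.negSucc 3536, Int.ofNat 187740, Int.ofNat 0, Int.ofNat 0, Int.ofNat 0, Int.ofNat 0, Int.ofNat 0, Int.ofNat 0, Int.ofNat 0, Int.ofNat 0, Int.ofNat 0, Int.ofNat 0, Int.ofNat 0, Int.ofNat 0, Int.ofNat 0, Int.ofNat 0, Int.ofNat 0, Int.ofNat 0, Int.ofNat 0],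
  [Int.ofNat 7652786, Int.negSucc 4855630, Int.ofNat 22247414, Int.negSucc 2888942, Int.negSucc 10988395, Int.negSucc 6134239, Int.negSucc 9932313, Int.ofNat 4160830, Int.ofNat 58553, Int.ofNat 609880, Int.negSucc 3607, Int.negSucc 52312, Int.negSucc 157565, Int.ofNat 65780, Int.ofNat 50025, Int.negSucc 7104, Int.ofNat 195, Int.ofNat 2170, Int.negSucc 8944, Int.ofNat 3188, Int.negSucc 14105, Int.ofNat 170012, Int.ofNat 0, Int.ofNat 0, Int.ofNat 0, Int.ofNat 0, Int.ofNat 0, Int.ofNat 0, Int.ofNat 0, Int.ofNat 0, Int.ofNat 0, Int.ofNat 0, Int.ofNat 0, Int.ofNat 0, Int.ofNat 0, Int.ofNat 0, Int.ofNat 0, Int.ofNat 0],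
  [Int.negSucc 50148024, Int.ofNat 39552614, Int.negSucc 18279466, Int.negSucc 12320232, Int.ofNat 15535765, Int.ofNat 27167568, Int.ofNat 5386515, Int.negSucc 2774736, Int.ofNat 289616, Int.negSucc 557110, Int.negSucc 12718, Int.negSucc 34420, Int.ofNat 63434, Int.negSucc 72337, Int.negSucc 51231, Int.ofNat 8399, Int.negSucc 4289, Int.negSucc 143, Int.ofNat 3803, Int.ofNat 6056, Int.ofNat 1345, Int.negSucc 476, Int.ofNat 172902, Int.ofNat 0, Int.ofNat 0, Int.ofNat 0, Int.ofNat 0, Int.ofNat 0, Int.ofNat 0, Int.ofNat 0, Int.ofNat 0, Int.ofNat 0, Int.ofNat 0, Int.ofNat 0, Int.ofNat 0, Int.ofNat 0, Int.ofNat 0, Int.ofNat 0],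
  [Int.negSucc 24399617, Int.ofNat 33884018, Int.negSucc 18516115, Int.negSucc 25810870, Int.ofNat 22390012, Int.ofNat 27555871, Int.negSucc 12919250, Int.ofNat 4163910, Int.ofNat 641805, Int.ofNat 337314, Int.negSucc 21811, Int.negSucc 150167, Int.negSucc 225126, Int.ofNat 36005, Int.ofNat 49445, Int.negSucc 7639, Int.negSucc 10340, Int.ofNat 8099, Int.negSucc 25291, Int.ofNat 27767, Int.negSucc 44263, Int.ofNat 22429, Int.ofNat 31688, Int.ofNat 234535, Int.ofNat 0, Int.ofNat 0, Int.ofNat 0, Int.ofNat 0, Int.ofNat 0, Int.ofNat 0, Int.ofNat 0, Int.ofNat 0, Int.ofNat 0, Int.ofNat 0, Int.ofNat 0, Int.ofNat 0, Int.ofNat 0, Int.ofNat 0],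
  [Int.negSucc 33444301, Int.ofNat 7497407, Int.negSucc 40188534, Int.ofNat 53520196, Int.negSucc 39987110, Int.negSucc 29135005, Int.ofNat 17953938, Int.negSucc 5734550, Int.negSucc 817214, Int.negSucc 497468, Int.ofNat 49805, Int.ofNat 243998, Int.ofNat 268836, Int.ofNat 9490, Int.ofNat 408, Int.ofNat 22334, Int.ofNat 19196, Int.negSucc 10073, Int.ofNat 26155, Int.negSucc 42589, Int.ofNat 52186, Int.negSucc 33433, Int.negSucc 46518, Int.negSucc 169269, Int.ofNat 244126, Int.ofNat 0, Int.ofNat 0, Int.ofNat 0, Int.ofNat 0, Int.ofNat 0, Int.ofNat 0, Int.ofNat 0, Int.ofNat 0, Int.ofNat 0, Int.ofNat 0, Int.ofNat 0, Int.ofNat 0, Int.ofNat 0],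
  [Int.negSucc 1992886, Int.negSucc 8956233, Int.ofNat 2011427, Int.negSucc 7461468, Int.negSucc 3716820, Int.negSucc 498668, Int.negSucc 2209809, Int.ofNat 942945, Int.ofNat 15731, Int.ofNat 134144, Int.negSucc 564, Int.negSucc 17894, Int.negSucc 35385, Int.ofNat 12545, Int.ofNat 11963, Int.ofNat 1234, Int.negSucc 481, Int.negSucc 81, Int.ofNat 892, Int.negSucc 115, Int.negSucc 740, Int.ofNat 469, Int.ofNat 52, Int.ofNat 921, Int.negSucc 484, Int.ofNat 166639, Int.ofNat 0, Int.ofNat 0, Int.ofNat 0, Int.ofNat 0, Int.ofNat 0, Int.ofNat 0, Int.ofNat 0, Int.ofNat 0, Int.ofNat 0, Int.ofNat 0, Int.ofNat 0, Int.ofNat 0],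
  [Int.ofNat 217519, Int.ofNat 2796486, Int.negSucc 3276802, Int.negSucc 4463740, Int.ofNat 3420023, Int.ofNat 7957830, Int.ofNat 3957057, Int.negSucc 1710847, Int.ofNat 40792, Int.negSucc 278383, Int.negSucc 3276, Int.ofNat 6620, Int.ofNat 56977, Int.negSucc 36106, Int.negSucc 28712, Int.ofNat 3443, Int.negSucc 291, Int.negSucc 1066, Int.ofNat 4353, Int.negSucc 1002, Int.ofNat 5953, Int.negSucc 3095, Int.ofNat 985, Int.negSucc 5868, Int.ofNat 3604, Int.negSucc 230, Int.ofNat 167019, Int.ofNat 0, Int.ofNat 0, Int.ofNat 0, Int.ofNat 0, Int.ofNat 0, Int.ofNat 0, Int.ofNat 0, Int.ofNat 0, Int.ofNat 0, Int.ofNat 0, Int.ofNat 0],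
  [Int.negSucc 8624488, Int.ofNat 23849211, Int.ofNat 12861623, Int.ofNat 9150711, Int.ofNat 19675420, Int.ofNat 6678274, Int.ofNat 9117830, Int.negSucc 4032767, Int.negSucc 837, Int.negSucc 610512, Int.negSucc 9824, Int.ofNat 23988, Int.ofNat 157249, Int.negSucc 93289, Int.negSucc 86823, Int.negSucc 2222, Int.negSucc 2626, Int.negSucc 1115, Int.ofNat 6622, Int.ofNat 2773, Int.ofNat 10881, Int.negSucc 2195, Int.ofNat 5118, Int.ofNat 2433, Int.negSucc 7010, Int.negSucc 1230, Int.ofNat 1969, Int.ofNat 170314, Int.ofNat 0, Int.ofNat 0, Int.ofNat 0, Int.ofNat 0, Int.ofNat 0, Int.ofNat 0, Int.ofNat 0, Int.ofNat 0, Int.ofNat 0, Int.ofNat 0],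
  [Int.negSucc 3011785, Int.negSucc 20472498, Int.negSucc 11931286, Int.ofNat 10444370, Int.negSucc 1246391, Int.negSucc 6616830, Int.negSucc 10686280, Int.ofNat 4250014, Int.ofNat 101047, Int.ofNat 599051, Int.ofNat 5222, Int.negSucc 38522, Int.negSucc 169957, Int.ofNat 90432, Int.ofNat 83446, Int.negSucc 6068, Int.negSucc 914, Int.ofNat 4659, Int.negSucc 17932, Int.ofNat 8545, Int.negSucc 25769, Int.ofNat 11436, Int.ofNat 5698, Int.ofNat 41343, Int.negSucc 25238, Int.ofNat 663, Int.negSucc 3298, Int.negSucc 6334, Int.ofNat 172623, Int.ofNat 0, Int.ofNat 0, Int.ofNat 0, Int.ofNat 0, Int.ofNat 0, Int.ofNat 0, Int.ofNat 0, Int.ofNat 0, Int.ofNat 0],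
  [Int.ofNat 4301642, Int.negSucc 17956845, Int.negSucc 11283589, Int.negSucc 9847903, Int.negSucc 2080169, Int.ofNat 19256249, Int.negSucc 14338641, Int.ofNat 5334049, Int.ofNat 478668, Int.ofNat 597797, Int.negSucc 10763, Int.negSucc 111711, Int.negSucc 260463, Int.ofNat 85580, Int.ofNat 87424, Int.negSucc 3890, Int.negSucc 2610, Int.ofNat 6399, Int.negSucc 24600, Int.ofNat 15051, Int.negSucc 38583, Int.ofNat 15775, Int.ofNat 14644, Int.ofNat 68869, Int.negSucc 44199, Int.ofNat 520, Int.negSucc 2890, Int.negSucc 6318, Int.ofNat 14717, Int.ofNat 176741, Int.ofNat 0, Int.ofNat 0, Int.ofNat 0, Int.ofNat 0, Int.ofNat 0, Int.ofNat 0, Int.ofNat 0, Int.ofNat 0],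
  [Int.ofNat 28027976, Int.negSucc 24304614, Int.ofNat 34090382, Int.negSucc 53754945, Int.ofNat 22728826, Int.ofNat 8782663, Int.negSucc 17422031, Int.ofNat 6166949, Int.ofNat 488926, Int.ofNat 705502, Int.negSucc 32194, Int.negSucc 194852, Int.negSucc 248701, Int.ofNat 25338, Int.ofNat 27309, Int.negSucc 16346, Int.negSucc 15280, Int.ofNat 6832, Int.negSucc 15337, Int.ofNat 29876, Int.negSucc 36499, Int.ofNat 25069, Int.ofNat 32100, Int.ofNat 121363, Int.negSucc 94413, Int.ofNat 1455, Int.negSucc 2553, Int.ofNat 909, Int.ofNat 13073, Int.ofNat 18866, Int.ofNat 188319, Int.ofNat 0, Int.ofNat 0, Int.ofNat 0, Int.ofNat 0, Int.ofNat 0, Int.ofNat 0, Int.ofNat 0],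
  [Int.negSucc 263945, Int.ofNat 7221630, Int.negSucc 3961143, Int.negSucc 1651044, Int.ofNat 1033528, Int.negSucc 6110296, Int.ofNat 4098258, Int.negSucc 1525458, Int.negSucc 143823, Int.negSucc 170196, Int.ofNat 4983, Int.ofNat 33894, Int.ofNat 75018, Int.negSucc 21364, Int.negSucc 19514, Int.ofNat 1967, Int.ofNat 383, Int.negSucc 1856, Int.ofNat 7411, Int.negSucc 4183, Int.ofNat 11005, Int.negSucc 4660, Int.negSucc 3561, Int.negSucc 18275, Int.ofNat 12205, Int.ofNat 36, Int.ofNat 866, Int.ofNat 1220, Int.negSucc 3871, Int.negSucc 5334, Int.negSucc 3980, Int.ofNat 167101, Int.ofNat 0, Int.ofNat 0, Int.ofNat 0, Int.ofNat 0, Int.ofNat 0, Int.ofNat 0],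
  [Int.ofNat 12761173, Int.ofNat 3271406, Int.negSucc 24255128, Int.ofNat 13594191, Int.ofNat 2471355, Int.negSucc 13107593, Int.ofNat 9714400, Int.negSucc 3642373, Int.negSucc 318235, Int.negSucc 412910, Int.ofNat 17490, Int.ofNat 104725, Int.ofNat 167810, Int.negSucc 28914, Int.negSucc 23760, Int.ofNat 3818, Int.ofNat 3378, Int.negSucc 2901, Int.ofNat 9142, Int.negSucc 9589, Int.ofNat 18334, Int.negSucc 9848, Int.negSucc 9570, Int.negSucc 39834, Int.ofNat 29891, Int.negSucc 435, Int.ofNat 1394, Int.ofNat 692, Int.negSucc 5611, Int.negSucc 8123, Int.negSucc 12148, Int.ofNat 2090, Int.ofNat 168865, Int.ofNat 0, Int.ofNat 0, Int.ofNat 0, Int.ofNat 0, Int.ofNat 0],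
  [Int.ofNat 31482252, Int.negSucc 79222111, Int.ofNat 10433231, Int.negSucc 88078702, Int.ofNat 12377641, Int.ofNat 36873202, Int.ofNat 16162638, Int.negSucc 6989959, Int.ofNat 195050, Int.negSucc 1169213, Int.negSucc 28486, Int.negSucc 52896, Int.ofNat 257512, Int.negSucc 211366, Int.negSucc 163779, Int.ofNat 25922, Int.negSucc 9061, Int.negSucc 9081, Int.ofNat 44372, Int.negSucc 5768, Int.ofNat 46735, Int.negSucc 18660, Int.ofNat 9052, Int.negSucc 31410, Int.ofNat 13258, Int.ofNat 1961, Int.ofNat 8040, Int.ofNat 9069, Int.negSucc 21009, Int.negSucc 18576, Int.ofNat 1261, Int.ofNat 6610, Int.ofNat 5540, Int.ofNat 200343, Int.ofNat 0, Int.ofNat 0, Int.ofNat 0, Int.ofNat 0],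
  [Int.ofNat 19275456, Int.ofNat 29353251, Int.ofNat 25682537, Int.ofNat 1722907, Int.ofNat 6880371, Int.negSucc 11724719, Int.ofNat 8186552, Int.negSucc 3154738, Int.negSucc 255879, Int.negSucc 361858, Int.negSucc 1600, Int.ofNat 54364, Int.ofNat 158419, Int.negSucc 67490, Int.negSucc 73361, Int.negSucc 5388, Int.ofNat 45, Int.negSucc 3089, Int.ofNat 12487, Int.negSucc 4952, Int.ofNat 20376, Int.negSucc 6233, Int.negSucc 5700, Int.negSucc 28374, Int.ofNat 13392, Int.negSucc 1098, Int.ofNat 1758, Int.ofNat 7160, Int.negSucc 9545, Int.negSucc 11952, Int.negSucc 4965, Int.ofNat 2358, Int.ofNat 2501, Int.ofNat 5786, Int.ofNat 171144, Int.ofNat 0, Int.ofNat 0, Int.ofNat 0],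
  [Int.negSucc 13896075, Int.ofNat 61268407, Int.ofNat 52675265, Int.negSucc 4270088, Int.ofNat 11066703, Int.ofNat 18903768, Int.negSucc 18080419, Int.ofNat 6516275, Int.ofNat 595860, Int.ofNat 734924, Int.negSucc 35352, Int.negSucc 175962, Int.negSucc 299940, Int.ofNat 52406, Int.ofNat 32708, Int.negSucc 23116, Int.negSucc 7239, Int.ofNat 8739, Int.negSucc 30590, Int.ofNat 26833, Int.negSucc 47587, Int.ofNat 26618, Int.ofNat 23678, Int.ofNat 105914, Int.negSucc 81099, Int.negSucc 1200, Int.negSucc 3821, Int.ofNat 3001, Int.ofNat 13965, Int.ofNat 19965, Int.ofNat 29218, Int.negSucc 5983, Int.negSucc 11902, Int.negSucc 25851, Int.negSucc 272, Int.ofNat 183974, Int.ofNat 0, Int.ofNat 0],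
  [Int.negSucc 16932301, Int.ofNat 8125907, Int.negSucc 5544763, Int.ofNat 25592870, Int.negSucc 21285305, Int.ofNat 4289440, Int.negSucc 1061880, Int.ofNat 791312, Int.negSucc 3084, Int.ofNat 133787, Int.ofNat 8219, Int.ofNat 27485, Int.negSucc 52680, Int.ofNat 47597, Int.ofNat 38126, Int.ofNat 4747, Int.ofNat 8071, Int.negSucc 352, Int.negSucc 5476, Int.negSucc 9588, Int.negSucc 1786, Int.negSucc 4480, Int.negSucc 12757, Int.negSucc 35299, Int.ofNat 30999, Int.negSucc 586, Int.negSucc 658, Int.negSucc 3772, Int.ofNat 351, Int.negSucc 634, Int.negSucc 15384, Int.negSucc 729, Int.ofNat 1639, Int.negSucc 11999, Int.negSucc 1550, Int.negSucc 4162, Int.ofNat 170493, Int.ofNat 0],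
  [Int.ofNat 2972929, Int.negSucc 3872798, Int.negSucc 470158, Int.ofNat 6954032, Int.negSucc 6036683, Int.ofNat 5137392, Int.ofNat 377937, Int.negSucc 92055, Int.ofNat 36686, Int.negSucc 25161, Int.ofNat 272, Int.ofNat 6730, Int.negSucc 8787, Int.ofNat 5798, Int.ofNat 4796, Int.ofNat 1860, Int.ofNat 2616, Int.negSucc 151, Int.negSucc 1800, Int.negSucc 2811, Int.negSucc 467, Int.negSucc 1757, Int.negSucc 3504, Int.negSucc 10766, Int.ofNat 9300, Int.negSucc 349, Int.ofNat 119, Int.negSucc 707, Int.negSucc 390, Int.negSucc 93, Int.negSucc 5124, Int.negSucc 299, Int.ofNat 599, Int.negSucc 2865, Int.negSucc 361, Int.negSucc 1114, Int.ofNat 2705, Int.ofNat 166911]]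
  c := 89631360
  X := X5_11

end Pool.Agent.CycT
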