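import Pool.Agent.W_1bfdb5t_h19.Dx5_9

/-!
# Data of the certificate for closed walks of length 9 in triangle-free graphs
-/

set_option maxRecDepth 100000

namespace Pool.Agent.CycT

/-- The block for the localiser `5 - 2 a`. -/
def b5_9 : Blk where
  n := 29
  d := 26
  Nc := [[Int.ofNat 1, Int.ofNat 0, Int.ofNat 0, Int.ofNat 0, Int.ofNat 0, Int.ofNat 0, Int.ofNat 0, Int.ofNat 0, Int.ofNat 0, Int.ofNat 0, Int.ofNat 0, Int.ofNat 0, Int.ofNat 0, Int.ofNat 0, Int.ofNat 0, Int.ofNat 0, Int.ofNat 0, Int.ofNat 0, Int.ofNat 0, Int.ofNat 0, Int.ofNat 0, Int.ofNat 0, Int.ofNat 0, Int.ofNat 0, Int.ofNat 0, Int.ofNat 0],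
  [Int.ofNat 0, Int.ofNat 1, Int.ofNat 0, Int.ofNat 0, Int.ofNat 0, Int.ofNat 0, Int.ofNat 0, Int.ofNat 0, Int.ofNat 0, Int.ofNat 0, Int.ofNat 0, Int.ofNat 0, Int.ofNat 0, Int.ofNat 0, Int.ofNat 0, Int.ofNat 0, Int.ofNat 0, Int.ofNat 0, Int.ofNat 0, Int.ofNat 0, Int.ofNat 0, Int.ofNat 0, Int.ofNat 0, Int.ofNat 0, Int.ofNat 0, Int.ofNat 0],
  [Int.ofNat 0, Int.ofNat 0, Int.ofNat 1, Int.ofNat 0, Int.ofNat 0, Int.ofNat 0, Int.ofNat 0, Int.ofNat 0, Int.ofNat 0, Int.ofNat 0, Int.ofNat 0, Int.ofNat 0, Int.ofNat 0, Int.ofNat 0, Int.ofNat 0, Int.ofNat 0, Int.ofNat 0, Int.ofNat 0, Int.ofNat 0, Int.ofNat 0, Int.ofNat 0, Int.ofNat 0, Int.ofNat 0, Int.ofNat 0, Int.ofNat 0, Int.ofNat 0],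
  [Int.ofNat 0, Int.ofNat 0, Int.ofNat 0, Int.ofNat 1, Int.ofNat 0, Int.ofNat 0, Int.ofNat 0, Int.ofNat 0, Int.ofNat 0, Int.ofNat 0, Int.ofNat 0, Int.ofNat 0, Int.ofNat 0, Int.ofNat 0, Int.ofNat 0, Int.ofNat 0, Int.ofNat 0, Int.ofNat 0, Int.ofNat 0, Int.ofNat 0, Int.ofNat 0, Int.ofNat 0, Int.ofNat 0, Int.ofNat 0, Int.ofNat 0, Int.ofNat 0],
  [Int.ofNat 0, Int.ofNat 0, Int.ofNat 0, Int.ofNat 0, Int.ofNat 1, Int.ofNat 0, Int.ofNat 0, Int.ofNat 0, Int.ofNat 0, Int.ofNat 0, Int.ofNat 0, Int.ofNat 0, Int.ofNat 0, Int.ofNat 0, Int.ofNat 0, Int.ofNat 0, Int.ofNat 0, Int.ofNat 0, Int.ofNat 0, Int.ofNat 0, Int.ofNat 0, Int.ofNat 0, Int.ofNat 0, Int.ofNat 0, Int.ofNat 0, Int.ofNat 0],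
  [Int.ofNat 0, Int.ofNat 0, Int.ofNat 0, Int.ofNat 0, Int.ofNat 0, Int.ofNat 1, Int.ofNat 0, Int.ofNat 0, Int.ofNat 0, Int.ofNat 0, Int.ofNat 0, Int.ofNat 0, Int.ofNat 0, Int.ofNat 0, Int.ofNat 0, Int.ofNat 0, Int.ofNat 0, Int.ofNat 0, Int.ofNat 0, Int.ofNat 0, Int.ofNat 0, Int.ofNat 0, Int.ofNat 0, Int.ofNat 0, Int.ofNat 0, Int.ofNat 0],
  [Int.ofNat 0, Int.ofNat 0, Int.ofNat 0, Int.ofNat 0, Int.ofNat 0, Int.ofNat 0, Int.ofNat 1, Int.ofNat 0, Int.ofNat 0, Int.ofNat 0, Int.ofNat 0, Int.ofNat 0, Int.ofNat 0, Int.ofNat 0, Int.ofNat 0, Int.ofNat 0, Int.ofNat 0, Int.ofNat 0, Int.ofNat 0, Int.ofNat 0, Int.ofNat 0, Int.ofNat 0, Int.ofNat 0, Int.ofNat 0, Int.ofNat 0, Int.ofNat 0],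
  [Int.ofNat 0, Int.ofNat 0, Int.ofNat 0, Int.ofNat 0, Int.ofNat 0, Int.ofNat 0, Int.ofNat 0, Int.ofNat 1, Int.ofNat 0, Int.ofNat 0, Int.ofNat 0, Int.ofNat 0, Int.ofNat 0, Int.ofNat 0, Int.ofNat 0, Int.ofNat 0, Int.ofNat 0, Int.ofNat 0, Int.ofNat 0, Int.ofNat 0, Int.ofNat 0, Int.ofNat 0, Int.ofNat 0, Int.ofNat 0, Int.ofNat 0, Int.ofNat 0],
  [Int.ofNat 0, Int.ofNat 0, Int.ofNat 0, Int.ofNat 0, Int.ofNat 0, Int.ofNat 0, Int.ofNat 0, Int.ofNat 0, Int.ofNat 1, Int.ofNat 0, Int.ofNat 0, Int.ofNat 0, Int.ofNat 0, Int.ofNat 0, Int.ofNat 0, Int.ofNat 0, Int.ofNat 0, Int.ofNat 0, Int.ofNat 0, Int.ofNat 0, Int.ofNat 0, Int.ofNat 0, Int.ofNat 0, Int.ofNat 0, Int.ofNat 0, Int.ofNat 0],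
  [Int.ofNat 0, Int.ofNat 0, Int.ofNat 0, Int.ofNat 0, Int.ofNat 0, Int.ofNat 0, Int.ofNat 0, Int.ofNat 0, Int.ofNat 0, Int.ofNat 1, Int.ofNat 0, Int.ofNat 0, Int.ofNat 0, Int.ofNat 0, Int.ofNat 0, Int.ofNat 0, Int.ofNat 0, Int.ofNat 0, Int.ofNat 0, Int.ofNat 0, Int.ofNat 0, Int.ofNat 0, Int.ofNat 0, Int.ofNat 0, Int.ofNat 0, Int.ofNat 0],
  [Int.ofNat 0, Int.ofNat 0, Int.ofNat 0, Int.ofNat 0, Int.ofNat 0, Int.ofNat 0, Int.ofNat 0, Int.ofNat 0, Int.ofNat 0, Int.ofNat 0, Int.ofNat 1, Int.ofNat 0, Int.ofNat 0, Int.ofNat 0, Int.ofNat 0, Int.ofNat 0, Int.ofNat 0, Int.ofNat 0, Int.ofNat 0, Int.ofNat 0, Int.ofNat 0, Int.ofNat 0, Int.ofNat 0, Int.ofNat 0, Int.ofNat 0, Int.ofNat 0],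
  [Int.ofNat 0, Int.ofNat 0, Int.ofNat 0, Int.ofNat 0, Int.ofNat 0, Int.ofNat 0, Int.ofNat 0, Int.ofNat 0, Int.ofNat 0, Int.ofNat 0, Int.ofNat 0, Int.ofNat 1, Int.ofNat 0, Int.ofNat 0, Int.ofNat 0, Int.ofNat 0, Int.ofNat 0, Int.ofNat 0, Int.ofNat 0, Int.ofNat 0, Int.ofNat 0, Int.ofNat 0, Int.ofNat 0, Int.ofNat 0, Int.ofNat 0, Int.ofNat 0],
  [Int.ofNat 0, Int.ofNat 0, Int.ofNat 0, Int.ofNat 0, Int.ofNat 0, Int.ofNat 0, Int.ofNat 0, Int.ofNat 0, Int.ofNat 0, Int.ofNat 0, Int.ofNat 0, Int.ofNat 0, Int.ofNat 1, Int.ofNat 0, Int.ofNat 0, Int.ofNat 0, Int.ofNat 0, Int.ofNat 0, Int.ofNat 0, Int.ofNat 0, Int.ofNat 0, Int.ofNat 0, Int.ofNat 0, Int.ofNat 0, Int.ofNat 0, Int.ofNat 0],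
  [Int.ofNat 0, Int.ofNat 0, Int.ofNat 0, Int.ofNat 0, Int.ofNat 0, Int.ofNat 0, Int.ofNat 0, Int.ofNat 0, Int.ofNat 0, Int.ofNat 0, Int.ofNat 0, Int.ofNat 0, Int.ofNat 0, Int.ofNat 1, Int.ofNat 0, Int.ofNat 0, Int.ofNat 0, Int.ofNat 0, Int.ofNat 0, Int.ofNat 0, Int.ofNat 0, Int.ofNat 0, Int.ofNat 0, Int.ofNat 0, Int.ofNat 0, Int.ofNat 0],
  [Int.ofNat 0, Int.ofNat 0, Int.ofNat 0, Int.ofNat 0, Int.ofNat 0, Int.ofNat 0, Int.ofNat 0, Int.ofNat 0, Int.ofNat 0, Int.ofNat 0, Int.ofNat 0, Int.ofNat 0, Int.ofNat 0, Int.ofNat 0, Int.ofNat 1, Int.ofNat 0, Int.ofNat 0, Int.ofNat 0, Int.ofNat 0, Int.ofNat 0, Int.ofNat 0, Int.ofNat 0, Int.ofNat 0, Int.ofNat 0, Int.ofNat 0, Int.ofNat 0],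
  [Int.ofNat 0, Int.ofNat 0, Int.ofNat 0, Int.ofNat 0, Int.ofNat 0, Int.ofNat 0, Int.ofNat 0, Int.ofNat 0, Int.ofNat 0, Int.ofNat 0, Int.ofNat 0, Int.ofNat 0, Int.ofNat 0, Int.ofNat 0, Int.ofNat 0, Int.ofNat 1, Int.ofNat 0, Int.ofNat 0, Int.ofNat 0, Int.ofNat 0, Int.ofNat 0, Int.ofNat 0, Int.ofNat 0, Int.ofNat 0, Int.ofNat 0, Int.ofNat 0],
  [Int.ofNat 0, Int.ofNat 0, Int.ofNat 0, Int.ofNat 0, Int.ofNat 0, Int.ofNat 0, Int.ofNat 0, Int.ofNat 0, Int.ofNat 0, Int.ofNat 0, Int.ofNat 0, Int.ofNat 0, Int.ofNat 0, Int.ofNat 0, Int.ofNat 0, Int.ofNat 0, Int.ofNat 1, Int.ofNat 0, Int.ofNat 0, Int.ofNat 0, Int.ofNat 0, Int.ofNat 0, Int.ofNat 0, Int.ofNat 0, Int.ofNat 0, Int.ofNat 0],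
  [Int.ofNat 0, Int.ofNat 0, Int.ofNat 0, Int.ofNat 0, Int.ofNat 0, Int.ofNat 0, Int.ofNat 0, Int.ofNat 0, Int.ofNat 0, Int.ofNat 0, Int.ofNat 0, Int.ofNat 0, Int.ofNat 0, Int.ofNat 0, Int.ofNat 0, Int.ofNat 0, Int.ofNat 0, Int.ofNat 1, Int.ofNat 0, Int.ofNat 0, Int.ofNat 0, Int.ofNat 0, Int.ofNat 0, Int.ofNat 0, Int.ofNat 0, Int.ofNat 0],
  [Int.ofNat 0, Int.ofNat 0, Int.ofNat 0, Int.ofNat 0, Int.ofNat 0, Int.ofNat 0, Int.ofNat 0, Int.ofNat 0, Int.ofNat 0, Int.ofNat 0, Int.ofNat 0, Int.ofNat 0, Int.ofNat 0, Int.ofNat 0, Int.ofNat 0, Int.ofNat 0, Int.ofNat 0, Int.ofNat 0, Int.ofNat 1, Int.ofNat 0, Int.ofNat 0, Int.ofNat 0, Int.ofNat 0, Int.ofNat 0, Int.ofNat 0, Int.ofNat 0],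
  [Int.ofNat 0, Int.ofNat 0, Int.ofNat 0, Int.ofNat 0, Int.ofNat 0, Int.ofNat 0, Int.ofNat 0, Int.ofNat 0, Int.ofNat 0, Int.ofNat 0, Int.ofNat 0, Int.ofNat 0, Int.ofNat 0, Int.ofNat 0, Int.ofNat 0, Int.ofNat 0, Int.ofNat 0, Int.ofNat 0, Int.ofNat 0, Int.ofNat 1, Int.ofNat 0, Int.ofNat 0, Int.ofNat 0, Int.ofNat 0, Int.ofNat 0, Int.ofNat 0],
  [Int.ofNat 0, Int.ofNat 0, Int.ofNat 0, Int.ofNat 0, Int.ofNat 0, Int.ofNat 0, Int.ofNat 0, Int.ofNat 0, Int.ofNat 0, Int.ofNat 0, Int.ofNat 0, Int.ofNat 0, Int.ofNat 0, Int.ofNat 0, Int.ofNat 0, Int.ofNat 0, Int.ofNat 0, Int.ofNat 0, Int.ofNat 0, Int.ofNat 0, Int.ofNat 1, Int.ofNat 0, Int.ofNat 0, Int.ofNat 0, Int.ofNat 0, Int.ofNat 0],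
  [Int.ofNat 0, Int.ofNat 0, Int.ofNat 0, Int.ofNat 0, Int.ofNat 0, Int.ofNat 0, Int.ofNat 0, Int.ofNat 0, Int.ofNat 0, Int.ofNat 0, Int.ofNat 0, Int.ofNat 0, Int.ofNat 0, Int.ofNat 0, Int.ofNat 0, Int.ofNat 0, Int.ofNat 0, Int.ofNat 0, Int.ofNat 0, Int.ofNat 0, Int.ofNat 0, Int.ofNat 1, Int.ofNat 0, Int.ofNat 0, Int.ofNat 0, Int.ofNat 0],
  [Int.ofNat 0, Int.ofNat 0, Int.ofNat 0, Int.ofNat 0, Int.ofNat 0, Int.ofNat 0, Int.ofNat 0, Int.ofNat 0, Int.ofNat 0, Int.ofNat 0, Int.ofNat 0, Int.ofNat 0, Int.ofNat 0, Int.ofNat 0, Int.ofNat 0, Int.ofNat 0, Int.ofNat 0, Int.ofNat 0, Int.ofNat 0, Int.ofNat 0, Int.ofNat 0, Int.ofNat 0, Int.ofNat 1, Int.ofNat 0, Int.ofNat 0, Int.ofNat 0],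
  [Int.ofNat 0, Int.ofNat 0, Int.ofNat 0, Int.ofNat 0, Int.ofNat 0, Int.ofNat 0, Int.ofNat 0, Int.ofNat 0, Int.ofNat 0, Int.ofNat 0, Int.ofNat 0, Int.ofNat 0, Int.ofNat 0, Int.ofNat 0, Int.ofNat 0, Int.ofNat 0, Int.ofNat 0, Int.ofNat 0, Int.ofNat 0, Int.ofNat 0, Int.ofNat 0, Int.ofNat 0, Int.ofNat 0, Int.ofNat 1, Int.ofNat 0, Int.ofNat 0],
  [Int.ofNat 0, Int.ofNat 0, Int.ofNat 0, Int.ofNat 0, Int.ofNat 0, Int.ofNat 0, Int.ofNat 0, Int.ofNat 0, Int.ofNat 0, Int.ofNat 0, Int.ofNat 0, Int.ofNat 0, Int.ofNat 0, Int.ofNat 0, Int.ofNat 0, Int.ofNat 0, Int.ofNat 0, Int.ofNat 0, Int.ofNat 0, Int.ofNat 0, Int.ofNat 0, Int.ofNat 0, Int.ofNat 0, Int.ofNat 0, Int.ofNat 1, Int.ofNat 0],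
  [Int.ofNat 0, Int.ofNat 0, Int.ofNat 0, Int.ofNat 0, Int.ofNat 0, Int.ofNat 0, Int.ofNat 0, Int.ofNat 0, Int.ofNat 0, Int.ofNat 0, Int.ofNat 0, Int.ofNat 0, Int.ofNat 0, Int.ofNat 0, Int.ofNat 0, Int.ofNat 0, Int.ofNat 0, Int.ofNat 0, Int.ofNat 0, Int.ofNat 0, Int.ofNat 0, Int.ofNat 0, Int.ofNat 0, Int.ofNat 0, Int.ofNat 0, Int.ofNat 1],
  [Int.negSucc 1, Int.ofNat 0, Int.negSucc 1, Int.ofNat 0, Int.negSucc 3, Int.negSucc 3, Int.ofNat 0, Int.ofNat 0, Int.ofNat 0, Int.negSucc 3, Int.ofNat 0, Int.ofNat 0, Int.ofNat 0, Int.ofNat 0, Int.negSucc 0, Int.negSucc 1, Int.ofNat 0, Int.ofNat 0, Int.ofNat 0, Int.negSucc 1, Int.ofNat 0, Int.negSucc 1, Int.ofNat 0, Int.negSucc 1, Int.ofNat 0, Int.ofNat 1],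
  [Int.ofNat 0, Int.ofNat 0, Int.ofNat 0, Int.ofNat 0, Int.ofNat 0, Int.ofNat 0, Int.negSucc 1, Int.ofNat 0, Int.ofNat 0, Int.ofNat 0, Int.negSucc 1, Int.ofNat 0, Int.negSucc 1, Int.ofNat 0, Int.ofNat 1, Int.ofNat 2, Int.ofNat 0, Int.ofNat 0, Int.ofNat 0, Int.ofNat 2, Int.ofNat 0, Int.ofNat 2, Int.ofNat 0, Int.ofNat 2, Int.ofNat 0, Int.negSucc 1],
  [Int.ofNat 0, Int.negSucc 1, Int.ofNat 0, Int.negSucc 1, Int.ofNat 0, Int.ofNat 0, Int.ofNat 0, Int.negSucc 3, Int.negSucc 3, Int.ofNat 0, Int.ofNat 0, Int.negSucc 3, Int.ofNat 0, Int.negSucc 3, Int.negSucc 9, Int.negSucc 19, Int.negSucc 7, Int.negSucc 7, Int.negSucc 7, Int.negSucc 19, Int.negSucc 7, Int.negSucc 19, Int.negSucc 7, Int.negSucc 19, Int.negSucc 7, Int.negSucc 9]]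
  Z := [[Int.ofNat 2579543802671064768000, Int.negSucc 2753077735670144255999, Int.ofNat 788842190750885568000, Int.negSucc 1908224092635423551999, Int.negSucc 409705803314140607999, Int.negSucc 810654780897675647999, Int.ofNat 478177477410504960000, Int.ofNat 1249991513424998784000, Int.negSucc 229391576294912063999, Int.negSucc 276202997709135551999, Int.ofNat 678005837321801472000, Int.ofNat 1532662005446605440000, Int.negSucc 435052399561794431999, Int.negSucc 695095167375658367999, Int.ofNat 115496535800796480000, Int.negSucc 98482128277832639999, Int.negSucc 224036163381653567999, Int.ofNat 460494761633970624000, Int.negSucc 614441220344404991999, Int.ofNat 230921539434774144000, Int.negSucc 165329593655783039999, Int.ofNat 127055321726908608000, Int.negSucc 591017895325439999, Int.negSucc 100067319582626879999, Int.ofNat 159978936947176512000, Int.negSucc 166258830384497663999],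
  [Int.negSucc 2753077735670144255999, Int.ofNat 9767307386922318576000, Int.negSucc 4847116971807373823999, Int.ofNat 1142109539013229902000, Int.ofNat 345964338617774976000, Int.ofNat 1400453349038301888000, Int.negSucc 353136778010805887999, Int.negSucc 4529226871862092223999, Int.negSucc 3774063079254707711999, Int.ofNat 1338964587192786048000, Int.negSucc 1685786019567686783999, Int.negSucc 3600682272263552255999, Int.ofNat 347016496344306624000, Int.ofNat 725609538044677440000, Int.ofNat 1127444151451242240000, Int.ofNat 169414384809035520000, Int.ofNat 896338632134164032000, Int.ofNat 168071381450755200000, Int.ofNat 980347160081602368000, Int.negSucc 219922820888626943999, Int.ofNat 500371633126265472000, Int.negSucc 362608143676713791999, Int.negSucc 625936342025522879999, Int.ofNat 16416046040809536000, Int.negSucc 523144641183081983999, Int.ofNat 698715716859895680000],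
  [Int.ofNat 788842190750885568000, Int.negSucc 4847116971807373823999, Int.ofNat 2726302030288455168000, Int.negSucc 149811520338138339999, Int.negSucc 70967924783870399999, Int.negSucc 652192103275194239999, Int.ofNat 44044883244293184000, Int.ofNat 2117804658681723264000, Int.ofNat 2262827592596609280000, Int.negSucc 715218290231094143999, Int.ofNat 818245550756924928000, Int.ofNat 1723161308997718656000, Int.ofNat 8336263509775872000, Int.negSucc 168085370662450559999, Int.negSucc 782647580178437111999, Int.negSucc 22714746168020543999, Int.negSucc 475777306370665727999, Int.negSucc 200844325506819455999, Int.negSucc 351182869867044863999, Int.ofNat 21082492249574976000, Int.negSucc 337022719514857727999, Int.ofNat 150550290407544192000, Int.ofNat 391265073261292032000, Int.ofNat 80846343823519296000, Int.ofNat 315279458377526016000, Int.negSucc 379833463626002495999],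
  [Int.negSucc 1908224092635423551999, Int.ofNat 1142109539013229902000, Int.negSucc 149811520338138339999, Int.ofNat 1685913013346225044000, Int.ofNat 313933832964556992000, Int.ofNat 545666716385493120000, Int.negSucc 313826578471105919999, Int.negSucc 521796123204301439999, Int.ofNat 632506555261899648000, Int.ofNat 106617320490764160000, Int.negSucc 391399533536026751999, Int.negSucc 711370382205726143999, Int.ofNat 196851064015102464000, Int.ofNat 369110245290095232000, Int.negSucc 140446745516449151999, Int.ofNat 6256721376930816000, Int.ofNat 151526450930906304000, Int.negSucc 440748015978200831999, Int.ofNat 418744699285968000000, Int.negSucc 158304796016830847999, Int.ofNat 99602012166319872000, Int.negSucc 8890817660493119999, Int.ofNat 93551930110957824000, Int.ofNat 27903446412836544000, Int.negSucc 188840176734623039999, Int.ofNat 72315357200051328000],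
  [Int.negSucc 409705803314140607999, Int.ofNat 345964338617774976000, Int.negSucc 70967924783870399999, Int.ofNat 313933832964556992000, Int.ofNat 71763544763970048000, Int.ofNat 130480941341266560000, Int.negSucc 93307120109191295999, Int.negSucc 141978995459763263999, Int.ofNat 64217156400099648000, Int.ofNat 27635154275817792000, Int.negSucc 102294547921431359999, Int.negSucc 210900672567997631999, Int.ofNat 83975973103706112000, Int.ofNat 125083195181087616000, Int.negSucc 44297102535136703999, Int.ofNat 4242077735543239680, Int.ofNat 46608360615273600000, Int.negSucc 100194645860724095999, Int.ofNat 116577167119608201120, Int.negSucc 41333939979649964927, Int.ofNat 18337652587748736000, Int.negSucc 18658638008135379071, Int.ofNat 18836463057781248000, Int.ofNat 21335720875021048320, Int.ofNat 4527561325506806880, Int.ofNat 10013766914710944000],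
  [Int.negSucc 810654780897675647999, Int.ofNat 1400453349038301888000, Int.negSucc 652192103275194239999, Int.ofNat 545666716385493120000, Int.ofNat 130480941341266560000, Int.ofNat 397776436567304256000, Int.negSucc 185534316650548799999, Int.negSucc 455327064477470591999, Int.negSucc 207346293426191039999, Int.ofNat 162803298701786688000, Int.negSucc 345364377052666751999, Int.negSucc 820013520336924671999, Int.ofNat 147170034811540224000, Int.ofNat 290211004634601600000, Int.ofNat 83724157167666048000, Int.ofNat 3951605344279236768, Int.ofNat 143206356948006528000, Int.negSucc 165238751196066239999, Int.ofNat 216186216871960818720, Int.negSucc 53010049381521407999, Int.ofNat 154779433436498112000, Int.negSucc 71223767324700612767, Int.negSucc 72632787764817906719, Int.ofNat 3278057834912256000, Int.negSucc 28788165893931659999, Int.ofNat 93332844896350752000],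
  [Int.ofNat 478177477410504960000, Int.negSucc 353136778010805887999, Int.ofNat 44044883244293184000, Int.negSucc 313826578471105919999, Int.negSucc 93307120109191295999, Int.negSucc 185534316650548799999, Int.ofNat 168682913585790912000, Int.ofNat 50912956145519424000, Int.negSucc 125053930215599615999, Int.negSucc 3373098396256511999, Int.ofNat 134865992876978880000, Int.ofNat 358075607418726912000, Int.negSucc 178543356628437503999, Int.negSucc 252026095197026303999, Int.ofNat 106119351628988544000, Int.negSucc 7661802194525951999, Int.negSucc 49179630765066911999, Int.ofNat 161043407265102912000, Int.negSucc 150621333204184041599, Int.ofNat 54842696639796929760, Int.negSucc 30261798717651071999, Int.ofNat 51528346586513280000, Int.negSucc 20330930452993897274, Int.negSucc 48313428647001953759, Int.negSucc 104255405492616575999, Int.ofNat 9134300168870976000],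
  [Int.ofNat 1249991513424998784000, Int.negSucc 4529226871862092223999, Int.ofNat 2117804658681723264000, Int.negSucc 521796123204301439999, Int.negSucc 141978995459763263999, Int.negSucc 455327064477470591999, Int.ofNat 50912956145519424000, Int.ofNat 2516500842301068480000, Int.ofNat 1970905773856979520000, Int.negSucc 650741192917022591999, Int.ofNat 664422717660685632000, Int.ofNat 1201155924698725248000, Int.negSucc 73115748766450367999, Int.negSucc 106102113428716415999, Int.negSucc 497755903091882687999, Int.negSucc 97827276139471295999, Int.negSucc 416761223192740799999, Int.negSucc 210798236499092351999, Int.negSucc 518842973948333759999, Int.ofNat 125192238686773632000, Int.negSucc 101892066279734015999, Int.ofNat 103169187911801088000, Int.ofNat 191534287853760192000, Int.negSucc 20922415927509887999, Int.ofNat 390363372849475872000, Int.negSucc 316921743279744767999],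
  [Int.negSucc 229391576294912063999, Int.negSucc 3774063079254707711999, Int.ofNat 2262827592596609280000, Int.ofNat 632506555261899648000, Int.ofNat 64217156400099648000, Int.negSucc 207346293426191039999, Int.negSucc 125053930215599615999, Int.ofNat 1970905773856979520000, Int.ofNat 2809991039803030944000, Int.negSucc 614536360822948607999, Int.ofNat 483984035143627392000, Int.ofNat 615131885159953920000, Int.ofNat 135993908978243712000, Int.ofNat 213680802007506240000, Int.negSucc 694307314038533183999, Int.ofNat 75599725851144000000, Int.negSucc 532478470049235071999, Int.negSucc 372115890830490047999, Int.negSucc 387000862526602367999, Int.negSucc 10736882168829695999, Int.negSucc 118762845057419903999, Int.ofNat 46353489817111488000, Int.ofNat 185856934601475506250, Int.ofNat 66648302022912192000, Int.ofNat 199656260653633344000, Int.negSucc 226670602961556863999],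
  [Int.negSucc 276202997709135551999, Int.ofNat 1338964587192786048000, Int.negSucc 715218290231094143999, Int.ofNat 106617320490764160000, Int.ofNat 27635154275817792000, Int.ofNat 162803298701786688000, Int.negSucc 3373098396256511999, Int.negSucc 650741192917022591999, Int.negSucc 614536360822948607999, Int.ofNat 201409174505880000000, Int.negSucc 215904734929293695999, Int.negSucc 404641362702886847999, Int.negSucc 13559686179126911999, Int.ofNat 19190208224873664000, Int.ofNat 205469331440586048000, Int.ofNat 8321701210783488000, Int.ofNat 136900642890135168000, Int.ofNat 58275699223173696000, Int.ofNat 117281883963701952000, Int.negSucc 15833462138385407999, Int.ofNat 70007811706191744000, Int.negSucc 29834001481141439999, Int.negSucc 88049924998516799999, Int.negSucc 19051856964081215999, Int.negSucc 115531105411833407999, Int.ofNat 103694890077719424000],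
  [Int.ofNat 678005837321801472000, Int.negSucc 1685786019567686783999, Int.ofNat 818245550756924928000, Int.negSucc 391399533536026751999, Int.negSucc 102294547921431359999, Int.negSucc 345364377052666751999, Int.ofNat 134865992876978880000, Int.ofNat 664422717660685632000, Int.ofNat 483984035143627392000, Int.negSucc 215904734929293695999, Int.ofNat 351118710869541120000, Int.ofNat 769761931556414016000, Int.negSucc 110832536416352255999, Int.negSucc 229004918995444415999, Int.negSucc 160915262034491711999, Int.negSucc 13763112677366975999, Int.negSucc 176614067236400639999, Int.ofNat 76227308819798400000, Int.negSucc 209148240886060607999, Int.ofNat 51735114627774336000, Int.negSucc 121783224148343999999, Int.ofNat 75635351835569856000, Int.ofNat 104104993618036224000, Int.negSucc 5520432813793919999, Int.ofNat 49545204344102016000, Int.negSucc 113886291099537791999],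
  [Int.ofNat 1532662005446605440000, Int.negSucc 3600682272263552255999, Int.ofNat 1723161308997718656000, Int.negSucc 711370382205726143999, Int.negSucc 210900672567997631999, Int.negSucc 820013520336924671999, Int.ofNat 358075607418726912000, Int.ofNat 1201155924698725248000, Int.ofNat 615131885159953920000, Int.negSucc 404641362702886847999, Int.ofNat 769761931556414016000, Int.ofNat 2242981161143692992000, Int.negSucc 396237909529541375999, Int.negSucc 746052948345469247999, Int.negSucc 265536734078867327999, Int.negSucc 150222116595158783999, Int.negSucc 157582236275576639999, Int.ofNat 143276155403851008000, Int.negSucc 269852457320195903999, Int.ofNat 86969987166579264000, Int.negSucc 368199293595435506249, Int.ofNat 259428202511442624000, Int.ofNat 351430930179819072000, Int.negSucc 43190795009602943999, Int.ofNat 33503846417110080000, Int.negSucc 285306189428829887999],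
  [Int.negSucc 435052399561794431999, Int.ofNat 347016496344306624000, Int.ofNat 8336263509775872000, Int.ofNat 196851064015102464000, Int.ofNat 83975973103706112000, Int.ofNat 147170034811540224000, Int.negSucc 178543356628437503999, Int.negSucc 73115748766450367999, Int.ofNat 135993908978243712000, Int.negSucc 13559686179126911999, Int.negSucc 110832536416352255999, Int.negSucc 396237909529541375999, Int.ofNat 235205218271732544000, Int.ofNat 301277786219879040000, Int.negSucc 151556454541749311999, Int.ofNat 44422092680872896000, Int.ofNat 6102971027727552000, Int.negSucc 126464644192246271999, Int.ofNat 131077098472036585275, Int.negSucc 61933485467722175999, Int.ofNat 4009977492472512000, Int.negSucc 77408498355135551999, Int.ofNat 9619616555689269600, Int.ofNat 79050688797491136000, Int.ofNat 152365353333842880000, Int.negSucc 15472315304867519999],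
  [Int.negSucc 695095167375658367999, Int.ofNat 725609538044677440000, Int.negSucc 168085370662450559999, Int.ofNat 369110245290095232000, Int.ofNat 125083195181087616000, Int.ofNat 290211004634601600000, Int.negSucc 252026095197026303999, Int.negSucc 106102113428716415999, Int.ofNat 213680802007506240000, Int.ofNat 19190208224873664000, Int.negSucc 229004918995444415999, Int.negSucc 746052948345469247999, Int.ofNat 301277786219879040000, Int.ofNat 451382943662120448000, Int.negSucc 125728742302954559999, Int.ofNat 62869376734534656000, Int.ofNat 22802827562292096000, Int.negSucc 191293624143521855999, Int.ofNat 145287029448608256000, Int.negSucc 77055175627626239999, Int.ofNat 60683844145541760000, Int.negSucc 121957783020387071999, Int.negSucc 53771561287817471999, Int.ofNat 86129747848108800000, Int.ofNat 176529575004032448000, Int.ofNat 18797176296024192000],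
  [Int.ofNat 115496535800796480000, Int.ofNat 1127444151451242240000, Int.negSucc 782647580178437111999, Int.negSucc 140446745516449151999, Int.negSucc 44297102535136703999, Int.ofNat 83724157167666048000, Int.ofNat 106119351628988544000, Int.negSucc 497755903091882687999, Int.negSucc 694307314038533183999, Int.ofNat 205469331440586048000, Int.negSucc 160915262034491711999, Int.negSucc 265536734078867327999, Int.negSucc 151556454541749311999, Int.negSucc 125728742302954559999, Int.ofNat 335911446796685760000, Int.negSucc 12319866478789055999, Int.ofNat 119094399980468352000, Int.ofNat 149766989541497856000, Int.negSucc 27701969895971711999, Int.ofNat 38082236897612160000, Int.ofNat 90189845049009024000, Int.negSucc 7208453969646335999, Int.negSucc 149699061565542719999, Int.negSucc 70578390200193215999, Int.negSucc 162595687198475519999, Int.ofNat 121381169532220224000],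
  [Int.negSucc 98482128277832639999, Int.ofNat 169414384809035520000, Int.negSucc 22714746168020543999, Int.ofNat 6256721376930816000, Int.ofNat 4242077735543239680, Int.ofNat 3951605344279236768, Int.negSucc 7661802194525951999, Int.negSucc 97827276139471295999, Int.ofNat 75599725851144000000, Int.ofNat 8321701210783488000, Int.negSucc 13763112677366975999, Int.negSucc 150222116595158783999, Int.ofNat 44422092680872896000, Int.ofNat 62869376734534656000, Int.negSucc 12319866478789055999, Int.ofNat 56278411442953920000, Int.negSucc 55193949980966015999, Int.ofNat 35647325810984448000, Int.negSucc 37537163181764927999, Int.negSucc 10195669716401663999, Int.negSucc 4726697656044743999, Int.negSucc 31509729152301311999, Int.negSucc 43653985598738621249, Int.ofNat 22678780685121792000, Int.negSucc 7286512703424767999, Int.ofNat 25044777463708848600],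
  [Int.negSucc 224036163381653567999, Int.ofNat 896338632134164032000, Int.negSucc 475777306370665727999, Int.ofNat 151526450930906304000, Int.ofNat 46608360615273600000, Int.ofNat 143206356948006528000, Int.negSucc 49179630765066911999, Int.negSucc 416761223192740799999, Int.negSucc 532478470049235071999, Int.ofNat 136900642890135168000, Int.negSucc 176614067236400639999, Int.negSucc 157582236275576639999, Int.ofNat 6102971027727552000, Int.ofNat 22802827562292096000, Int.ofNat 119094399980468352000, Int.negSucc 55193949980966015999, Int.ofNat 202387573956845376000, Int.negSucc 44988058877262335999, Int.ofNat 195615037719858240000, Int.negSucc 31880178392686271999, Int.ofNat 22006493957517696000, Int.negSucc 5186016538338239999, Int.ofNat 1407186071907264000, Int.negSucc 7230134452692095999, Int.negSucc 13409595790208639999, Int.ofNat 31723446172879296000],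
  [Int.ofNat 460494761633970624000, Int.ofNat 168071381450755200000, Int.negSucc 200844325506819455999, Int.negSucc 440748015978200831999, Int.negSucc 100194645860724095999, Int.negSucc 165238751196066239999, Int.ofNat 161043407265102912000, Int.negSucc 210798236499092351999, Int.negSucc 372115890830490047999, Int.ofNat 58275699223173696000, Int.ofNat 76227308819798400000, Int.ofNat 143276155403851008000, Int.negSucc 126464644192246271999, Int.negSucc 191293624143521855999, Int.ofNat 149766989541497856000, Int.ofNat 35647325810984448000, Int.negSucc 44988058877262335999, Int.ofNat 230669495098808832000, Int.negSucc 140898032087548031999, Int.ofNat 46614008583489600000, Int.negSucc 25258944821787071999, Int.ofNat 8262898003717632000, Int.negSucc 77962247028129023999, Int.negSucc 25145455940744831999, Int.negSucc 91184759221792895999, Int.ofNat 45283648489162056000],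
  [Int.negSucc 614441220344404991999, Int.ofNat 980347160081602368000, Int.negSucc 351182869867044863999, Int.ofNat 418744699285968000000, Int.ofNat 116577167119608201120, Int.ofNat 216186216871960818720, Int.negSucc 150621333204184041599, Int.negSucc 518842973948333759999, Int.negSucc 387000862526602367999, Int.ofNat 117281883963701952000, Int.negSucc 209148240886060607999, Int.negSucc 269852457320195903999, Int.ofNat 131077098472036585275, Int.ofNat 145287029448608256000, Int.negSucc 27701969895971711999, Int.negSucc 37537163181764927999, Int.ofNat 195615037719858240000, Int.negSucc 140898032087548031999, Int.ofNat 330830134331938560000, Int.negSucc 77412321254733695999, Int.ofNat 15904440655950528000, Int.negSucc 14903870292419327999, Int.ofNat 79168127723359488000, Int.ofNat 34396773572728512000, Int.ofNat 9744707115792000000, Int.ofNat 10798774435132992000],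
  [Int.ofNat 230921539434774144000, Int.negSucc 219922820888626943999, Int.ofNat 21082492249574976000, Int.negSucc 158304796016830847999, Int.negSucc 41333939979649964927, Int.negSucc 53010049381521407999, Int.ofNat 54842696639796929760, Int.ofNat 125192238686773632000, Int.negSucc 10736882168829695999, Int.negSucc 15833462138385407999, Int.ofNat 51735114627774336000, Int.ofNat 86969987166579264000, Int.negSucc 61933485467722175999, Int.negSucc 77055175627626239999, Int.ofNat 38082236897612160000, Int.negSucc 10195669716401663999, Int.negSucc 31880178392686271999, Int.ofNat 46614008583489600000, Int.negSucc 77412321254733695999, Int.ofNat 33680000848519872000, Int.ofNat 17048309483427581250, Int.ofNat 15651042201229248000, Int.negSucc 15207155578891583999, Int.negSucc 26315691290412479999, Int.negSucc 18938914263586943999, Int.negSucc 230347851186815999],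
  [Int.negSucc 165329593655783039999, Int.ofNat 500371633126265472000, Int.negSucc 337022719514857727999, Int.ofNat 99602012166319872000, Int.ofNat 18337652587748736000, Int.ofNat 154779433436498112000, Int.negSucc 30261798717651071999, Int.negSucc 101892066279734015999, Int.negSucc 118762845057419903999, Int.ofNat 70007811706191744000, Int.negSucc 121783224148343999999, Int.negSucc 368199293595435506249, Int.ofNat 4009977492472512000, Int.ofNat 60683844145541760000, Int.ofNat 90189845049009024000, Int.negSucc 4726697656044743999, Int.ofNat 22006493957517696000, Int.negSucc 25258944821787071999, Int.ofNat 15904440655950528000, Int.ofNat 17048309483427581250, Int.ofNat 119349330117849216000, Int.negSucc 18687226713623423999, Int.negSucc 59155890562885247999, Int.negSucc 34361553080581055999, Int.negSucc 54602304162234047999, Int.ofNat 55968652342202688000],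
  [Int.ofNat 127055321726908608000, Int.negSucc 362608143676713791999, Int.ofNat 150550290407544192000, Int.negSucc 8890817660493119999, Int.negSucc 18658638008135379071, Int.negSucc 71223767324700612767, Int.ofNat 51528346586513280000, Int.ofNat 103169187911801088000, Int.ofNat 46353489817111488000, Int.negSucc 29834001481141439999, Int.ofNat 75635351835569856000, Int.ofNat 259428202511442624000, Int.negSucc 77408498355135551999, Int.negSucc 121957783020387071999, Int.negSucc 7208453969646335999, Int.negSucc 31509729152301311999, Int.negSucc 5186016538338239999, Int.ofNat 8262898003717632000, Int.negSucc 14903870292419327999, Int.ofNat 15651042201229248000, Int.negSucc 18687226713623423999, Int.ofNat 47358605864617344000, Int.ofNat 50545781630467200000, Int.negSucc 24421091554075391999, Int.negSucc 46308787639481663999, Int.negSucc 22574401538350463999],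
  [Int.negSucc 591017895325439999, Int.negSucc 625936342025522879999, Int.ofNat 391265073261292032000, Int.ofNat 93551930110957824000, Int.ofNat 18836463057781248000, Int.negSucc 72632787764817906719, Int.negSucc 20330930452993897274, Int.ofNat 191534287853760192000, Int.ofNat 185856934601475506250, Int.negSucc 88049924998516799999, Int.ofNat 104104993618036224000, Int.ofNat 351430930179819072000, Int.ofNat 9619616555689269600, Int.negSucc 53771561287817471999, Int.negSucc 149699061565542719999, Int.negSucc 43653985598738621249, Int.ofNat 1407186071907264000, Int.negSucc 77962247028129023999, Int.ofNat 79168127723359488000, Int.negSucc 15207155578891583999, Int.negSucc 59155890562885247999, Int.ofNat 50545781630467200000, Int.ofNat 139241682383893056000, Int.ofNat 12145606467122304000, Int.ofNat 33590833996357440000, Int.negSucc 77313655245771647999],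
  [Int.negSucc 100067319582626879999, Int.ofNat 16416046040809536000, Int.ofNat 80846343823519296000, Int.ofNat 27903446412836544000, Int.ofNat 21335720875021048320, Int.ofNat 3278057834912256000, Int.negSucc 48313428647001953759, Int.negSucc 20922415927509887999, Int.ofNat 66648302022912192000, Int.negSucc 19051856964081215999, Int.negSucc 5520432813793919999, Int.negSucc 43190795009602943999, Int.ofNat 79050688797491136000, Int.ofNat 86129747848108800000, Int.negSucc 70578390200193215999, Int.ofNat 22678780685121792000, Int.negSucc 7230134452692095999, Int.negSucc 25145455940744831999, Int.ofNat 34396773572728512000, Int.negSucc 26315691290412479999, Int.negSucc 34361553080581055999, Int.negSucc 24421091554075391999, Int.ofNat 12145606467122304000, Int.ofNat 38613988676780352000, Int.ofNat 63769493803365504000, Int.negSucc 16356106106833008599],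
  [Int.ofNat 159978936947176512000, Int.negSucc 523144641183081983999, Int.ofNat 315279458377526016000, Int.negSucc 188840176734623039999, Int.ofNat 4527561325506806880, Int.negSucc 28788165893931659999, Int.negSucc 104255405492616575999, Int.ofNat 390363372849475872000, Int.ofNat 199656260653633344000, Int.negSucc 115531105411833407999, Int.ofNat 49545204344102016000, Int.ofNat 33503846417110080000, Int.ofNat 152365353333842880000, Int.ofNat 176529575004032448000, Int.negSucc 162595687198475519999, Int.negSucc 7286512703424767999, Int.negSucc 13409595790208639999, Int.negSucc 91184759221792895999, Int.ofNat 9744707115792000000, Int.negSucc 18938914263586943999, Int.negSucc 54602304162234047999, Int.negSucc 46308787639481663999, Int.ofNat 33590833996357440000, Int.ofNat 63769493803365504000, Int.ofNat 259293011249055168000, Int.negSucc 87466786801713791999],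
  [Int.negSucc 166258830384497663999, Int.ofNat 698715716859895680000, Int.negSucc 379833463626002495999, Int.ofNat 72315357200051328000, Int.ofNat 10013766914710944000, Int.ofNat 93332844896350752000, Int.ofNat 9134300168870976000, Int.negSucc 316921743279744767999, Int.negSucc 226670602961556863999, Int.ofNat 103694890077719424000, Int.negSucc 113886291099537791999, Int.negSucc 285306189428829887999, Int.negSucc 15472315304867519999, Int.ofNat 18797176296024192000, Int.ofNat 121381169532220224000, Int.ofNat 25044777463708848600, Int.ofNat 31723446172879296000, Int.ofNat 45283648489162056000, Int.ofNat 10798774435132992000, Int.negSucc 230347851186815999, Int.ofNat 55968652342202688000, Int.negSucc 22574401538350463999, Int.negSucc 77313655245771647999, Int.negSucc 16356106106833008599, Int.negSucc 87466786801713791999, Int.ofNat 72628324511136768000]]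
  U := [[Int.ofNat 63804778, Int.ofNat 0, Int.ofNat 0, Int.ofNat 0, Int.ofNat 0, Int.ofNat 0, Int.ofNat 0, Int.ofNat 0, Int.ofNat 0, Int.ofNat 0, Int.ofNat 0, Int.ofNat 0, Int.ofNat 0, Int.ofNat 0, Int.ofNat 0, Int.ofNat 0, Int.ofNat 0, Int.ofNat 0, Int.ofNat 0, Int.ofNat 0, Int.ofNat 0, Int.ofNat 0, Int.ofNat 0, Int.ofNat 0, Int.ofNat 0, Int.ofNat 0],
  [Int.negSucc 68100468, Int.ofNat 103815700, Int.ofNat 0, Int.ofNat 0, Int.ofNat 0, Int.ofNat 0, Int.ofNat 0, Int.ofNat 0, Int.ofNat 0, Int.ofNat 0, Int.ofNat 0, Int.ofNat 0, Int.ofNat 0, Int.ofNat 0, Int.ofNat 0, Int.ofNat 0, Int.ofNat 0, Int.ofNat 0, Int.ofNat 0, Int.ofNat 0, Int.ofNat 0, Int.ofNat 0, Int.ofNat 0, Int.ofNat 0, Int.ofNat 0, Int.ofNat 0],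
  [Int.ofNat 19512897, Int.negSucc 60889479, Int.ofNat 14642190, Int.ofNat 0, Int.ofNat 0, Int.ofNat 0, Int.ofNat 0, Int.ofNat 0, Int.ofNat 0, Int.ofNat 0, Int.ofNat 0, Int.ofNat 0, Int.ofNat 0, Int.ofNat 0, Int.ofNat 0, Int.ofNat 0, Int.ofNat 0, Int.ofNat 0, Int.ofNat 0, Int.ofNat 0, Int.ofNat 0, Int.ofNat 0, Int.ofNat 0, Int.ofNat 0, Int.ofNat 0, Int.ofNat 0],
  [Int.negSucc 47202065, Int.negSucc 13600167, Int.negSucc 9800653, Int.ofNat 12312399, Int.ofNat 0, Int.ofNat 0, Int.ofNat 0, Int.ofNat 0, Int.ofNat 0, Int.ofNat 0, Int.ofNat 0, Int.ofNat 0, Int.ofNat 0, Int.ofNat 0, Int.ofNat 0, Int.ofNat 0, Int.ofNat 0, Int.ofNat 0, Int.ofNat 0, Int.ofNat 0, Int.ofNat 0, Int.ofNat 0, Int.ofNat 0, Int.ofNat 0, Int.ofNat 0, Int.ofNat 0],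
  [Int.negSucc 10134532, Int.negSucc 1388391, Int.ofNat 82514, Int.negSucc 78635, Int.ofNat 2900652, Int.ofNat 0, Int.ofNat 0, Int.ofNat 0, Int.ofNat 0, Int.ofNat 0, Int.ofNat 0, Int.ofNat 0, Int.ofNat 0, Int.ofNat 0, Int.ofNat 0, Int.ofNat 0, Int.ofNat 0, Int.ofNat 0, Int.ofNat 0, Int.ofNat 0, Int.ofNat 0, Int.ofNat 0, Int.ofNat 0, Int.ofNat 0, Int.ofNat 0, Int.ofNat 0],
  [Int.negSucc 20052455, Int.ofNat 8136821, Int.negSucc 9740022, Int.negSucc 5693236, Int.ofNat 4952899, Int.ofNat 2735445, Int.ofNat 0, Int.ofNat 0, Int.ofNat 0, Int.ofNat 0, Int.ofNat 0, Int.ofNat 0, Int.ofNat 0, Int.ofNat 0, Int.ofNat 0, Int.ofNat 0, Int.ofNat 0, Int.ofNat 0, Int.ofNat 0, Int.ofNat 0, Int.ofNat 0, Int.ofNat 0, Int.ofNat 0, Int.ofNat 0, Int.ofNat 0, Int.ofNat 0],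
  [Int.ofNat 11828257, Int.ofNat 2390391, Int.negSucc 1074880, Int.ofNat 6902492, Int.negSucc 8081246, Int.negSucc 2279863, Int.ofNat 1050526, Int.ofNat 0, Int.ofNat 0, Int.ofNat 0, Int.ofNat 0, Int.ofNat 0, Int.ofNat 0, Int.ofNat 0, Int.ofNat 0, Int.ofNat 0, Int.ofNat 0, Int.ofNat 0, Int.ofNat 0, Int.ofNat 0, Int.ofNat 0, Int.ofNat 0, Int.ofNat 0, Int.ofNat 0, Int.ofNat 0, Int.ofNat 0],
  [Int.ofNat 30919944, Int.negSucc 48573946, Int.negSucc 14921629, Int.negSucc 13881307, Int.ofNat 7576288, Int.ofNat 12697120, Int.ofNat 653917, Int.ofNat 4657087, Int.ofNat 0, Int.ofNat 0, Int.ofNat 0, Int.ofNat 0, Int.ofNat 0, Int.ofNat 0, Int.ofNat 0, Int.ofNat 0, Int.ofNat 0, Int.ofNat 0, Int.ofNat 0, Int.ofNat 0, Int.ofNat 0, Int.ofNat 0, Int.ofNat 0, Int.ofNat 0, Int.ofNat 0, Int.ofNat 0],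
  [Int.negSucc 5674257, Int.negSucc 61098259, Int.negSucc 2604671, Int.negSucc 10236554, Int.negSucc 14331772, Int.ofNat 15882910, Int.ofNat 3850597, Int.ofNat 8963668, Int.ofNat 2270182, Int.ofNat 0, Int.ofNat 0, Int.ofNat 0, Int.ofNat 0, Int.ofNat 0, Int.ofNat 0, Int.ofNat 0, Int.ofNat 0, Int.ofNat 0, Int.ofNat 0, Int.ofNat 0, Int.ofNat 0, Int.ofNat 0, Int.ofNat 0, Int.ofNat 0, Int.ofNat 0, Int.ofNat 0],
  [Int.negSucc 6832190, Int.ofNat 15874183, Int.negSucc 1975808, Int.ofNat 3436054, Int.negSucc 1086708, Int.negSucc 1285987, Int.negSucc 10689, Int.negSucc 418241, Int.negSucc 55913, Int.ofNat 537562, Int.ofNat 0, Int.ofNat 0, Int.ofNat 0, Int.ofNat 0, Int.ofNat 0, Int.ofNat 0, Int.ofNat 0, Int.ofNat 0, Int.ofNat 0, Int.ofNat 0, Int.ofNat 0, Int.ofNat 0, Int.ofNat 0, Int.ofNat 0, Int.ofNat 0, Int.ofNat 0],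
  [Int.ofNat 16771236, Int.negSucc 14627055, Int.ofNat 5022038, Int.ofNat 1964414, Int.negSucc 4153922, Int.negSucc 3322256, Int.ofNat 135314, Int.negSucc 996545, Int.ofNat 77359, Int.negSucc 12342, Int.ofNat 591350, Int.ofNat 0, Int.ofNat 0, Int.ofNat 0, Int.ofNat 0, Int.ofNat 0, Int.ofNat 0, Int.ofNat 0, Int.ofNat 0, Int.ofNat 0, Int.ofNat 0, Int.ofNat 0, Int.ofNat 0, Int.ofNat 0, Int.ofNat 0, Int.ofNat 0],
  [Int.ofNat 37912116, Int.negSucc 29870839, Int.ofNat 10998409, Int.ofNat 29915345, Int.ofNat 3907101, Int.negSucc 12005399, Int.negSucc 2238469, Int.negSucc 5099007, Int.negSucc 1410520, Int.ofNat 132351, Int.negSucc 299259, Int.ofNat 1366696, Int.ofNat 0, Int.ofNat 0, Int.ofNat 0, Int.ofNat 0, Int.ofNat 0, Int.ofNat 0, Int.ofNat 0, Int.ofNat 0, Int.ofNat 0, Int.ofNat 0, Int.ofNat 0, Int.ofNat 0, Int.ofNat 0, Int.ofNat 0],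
  [Int.negSucc 10761509, Int.negSucc 1783676, Int.ofNat 7822467, Int.negSucc 11766336, Int.ofNat 6697735, Int.ofNat 2567755, Int.negSucc 602426, Int.ofNat 246160, Int.negSucc 69542, Int.negSucc 97866, Int.negSucc 31078, Int.negSucc 171250, Int.ofNat 685443, Int.ofNat 0, Int.ofNat 0, Int.ofNat 0, Int.ofNat 0, Int.ofNat 0, Int.ofNat 0, Int.ofNat 0, Int.ofNat 0, Int.ofNat 0, Int.ofNat 0, Int.ofNat 0, Int.ofNat 0, Int.ofNat 0],
  [Int.negSucc 17193958, Int.negSucc 247550, Int.ofNat 3766137, Int.negSucc 15877178, Int.ofNat 7329709, Int.ofNat 9232356, Int.ofNat 114058, Int.ofNat 3247219, Int.ofNat 311720, Int.negSucc 82663, Int.negSucc 170982, Int.negSucc 40491, Int.ofNat 324103, Int.ofNat 699585, Int.ofNat 0, Int.ofNat 0, Int.ofNat 0, Int.ofNat 0, Int.ofNat 0, Int.ofNat 0, Int.ofNat 0, Int.ofNat 0, Int.ofNat 0, Int.ofNat 0, Int.ofNat 0, Int.ofNat 0],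
  [Int.ofNat 2856937, Int.ofNat 19014315, Int.negSucc 9097994, Int.ofNat 6710325, Int.negSucc 4578946, Int.ofNat 2551967, Int.ofNat 913282, Int.ofNat 1878254, Int.ofNat 274319, Int.ofNat 101726, Int.negSucc 111851, Int.ofNat 278145, Int.negSucc 200037, Int.negSucc 32663, Int.ofNat 630281, Int.ofNat 0, Int.ofNat 0, Int.ofNat 0, Int.ofNat 0, Int.ofNat 0, Int.ofNat 0, Int.ofNat 0, Int.ofNat 0, Int.ofNat 0, Int.ofNat 0, Int.ofNat 0],
  [Int.negSucc 2436065, Int.ofNat 977565, Int.ofNat 4863195, Int.negSucc 3586216, Int.negSucc 5970806, Int.ofNat 2177570, Int.ofNat 1027436, Int.ofNat 1741289, Int.ofNat 641333, Int.negSucc 17871, Int.ofNat 55637, Int.negSucc 122098, Int.ofNat 19147, Int.ofNat 18837, Int.ofNat 3543, Int.ofNat 557818, Int.ofNat 0, Int.ofNat 0, Int.ofNat 0, Int.ofNat 0, Int.ofNat 0, Int.ofNat 0, Int.ofNat 0, Int.ofNat 0, Int.ofNat 0, Int.ofNat 0],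
  [Int.negSucc 5541785, Int.ofNat 9991530, Int.negSucc 2349088, Int.ofNat 7344768, Int.ofNat 11046243, Int.negSucc 797377, Int.negSucc 1643027, Int.negSucc 1433364, Int.negSucc 953138, Int.ofNat 51961, Int.negSucc 311476, Int.ofNat 584696, Int.ofNat 98504, Int.ofNat 166293, Int.ofNat 77693, Int.negSucc 79244, Int.ofNat 640177, Int.ofNat 0, Int.ofNat 0, Int.ofNat 0, Int.ofNat 0, Int.ofNat 0, Int.ofNat 0, Int.ofNat 0, Int.ofNat 0, Int.ofNat 0],
  [Int.ofNat 11390855, Int.ofNat 10027257, Int.ofNat 4869268, Int.ofNat 2123165, Int.negSucc 10000354, Int.negSucc 1799943, Int.ofNat 1074511, Int.ofNat 473772, Int.ofNat 562312, Int.ofNat 18337, Int.ofNat 130644, Int.negSucc 112498, Int.negSucc 114782, Int.negSucc 100218, Int.ofNat 29182, Int.ofNat 80857, Int.negSucc 113097, Int.ofNat 575371, Int.ofNat 0, Int.ofNat 0, Int.ofNat 0, Int.ofNat 0, Int.ofNat 0, Int.ofNat 0, Int.ofNat 0, Int.ofNat 0],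
  [Int.negSucc 15198893, Int.ofNat 4933871, Int.ofNat 2918239, Int.ofNat 3182201, Int.ofNat 12692882, Int.negSucc 7327508, Int.negSucc 2570423, Int.negSucc 4939187, Int.negSucc 1298531, Int.negSucc 42333, Int.negSucc 38064, Int.ofNat 48832, Int.ofNat 161796, Int.ofNat 30438, Int.negSucc 153464, Int.negSucc 92248, Int.ofNat 71744, Int.negSucc 101635, Int.ofNat 617088, Int.ofNat 0, Int.ofNat 0, Int.ofNat 0, Int.ofNat 0, Int.ofNat 0, Int.ofNat 0, Int.ofNat 0],
  [Int.ofNat 5712104, Int.ofNat 403566, Int.negSucc 3661515, Int.negSucc 862815, Int.negSucc 2258994, Int.negSucc 655753, Int.ofNat 283417, Int.negSucc 168236, Int.ofNat 92761, Int.ofNat 249, Int.ofNat 108804, Int.negSucc 193219, Int.negSucc 94940, Int.negSucc 102957, Int.negSucc 9376, Int.negSucc 4187, Int.negSucc 62163, Int.ofNat 11881, Int.ofNat 1362, Int.ofNat 539648, Int.ofNat 0, Int.ofNat 0, Int.ofNat 0, Int.ofNat 0, Int.ofNat 0, Int.ofNat 0],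
  [Int.negSucc 4089612, Int.ofNat 4924336, Int.negSucc 10399858, Int.negSucc 5749623, Int.negSucc 1813868, Int.negSucc 1036187, Int.ofNat 311907, Int.negSucc 745009, Int.ofNat 94984, Int.negSucc 32440, Int.ofNat 273304, Int.negSucc 608942, Int.negSucc 159226, Int.negSucc 221926, Int.negSucc 77417, Int.negSucc 35802, Int.negSucc 139825, Int.negSucc 11893, Int.ofNat 56078, Int.ofNat 84358, Int.ofNat 627838, Int.ofNat 0, Int.ofNat 0, Int.ofNat 0, Int.ofNat 0, Int.ofNat 0],
  [Int.ofNat 3142856, Int.negSucc 3451001, Int.negSucc 2311472, Int.ofNat 5257213, Int.negSucc 615185, Int.negSucc 3964753, Int.negSucc 363588, Int.negSucc 1771494, Int.negSucc 276886, Int.ofNat 17503, Int.ofNat 76857, Int.negSucc 33573, Int.negSucc 101440, Int.negSucc 122244, Int.negSucc 26397, Int.negSucc 25731, Int.negSucc 36642, Int.negSucc 5843, Int.ofNat 35700, Int.ofNat 29801, Int.ofNat 64064, Int.ofNat 539215, Int.ofNat 0, Int.ofNat 0, Int.ofNat 0, Int.ofNat 0],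
  [Int.negSucc 14618, Int.negSucc 9525535, Int.ofNat 2582079, Int.ofNat 3469552, Int.ofNat 5659313, Int.negSucc 7511820, Int.negSucc 1627783, Int.negSucc 4227636, Int.negSucc 845500, Int.negSucc 37737, Int.ofNat 106777, Int.negSucc 121290, Int.ofNat 35602, Int.negSucc 96132, Int.negSucc 155452, Int.negSucc 57445, Int.negSucc 32513, Int.negSucc 51165, Int.ofNat 135854, Int.ofNat 30626, Int.ofNat 87452, Int.ofNat 42093, Int.ofNat 575363, Int.ofNat 0, Int.ofNat 0, Int.ofNat 0],
  [Int.negSucc 2475277, Int.negSucc 1374150, Int.ofNat 6298711, Int.negSucc 2416739, Int.ofNat 2058291, Int.ofNat 1504519, Int.negSucc 165368, Int.ofNat 561817, Int.ofNat 25084, Int.negSucc 22330, Int.negSucc 94004, Int.ofNat 128524, Int.ofNat 145220, Int.ofNat 134753, Int.negSucc 9465, Int.ofNat 22111, Int.ofNat 48612, Int.negSucc 1239, Int.negSucc 7501, Int.negSucc 39413, Int.negSucc 81232, Int.negSucc 30219, Int.negSucc 18146, Int.ofNat 541168, Int.ofNat 0, Int.ofNat 0],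
  [Int.ofNat 3957259, Int.negSucc 5357368, Int.ofNat 6431767, Int.negSucc 9833828, Int.ofNat 13275845, Int.ofNat 6731687, Int.negSucc 1067796, Int.ofNat 1637645, Int.negSucc 391724, Int.negSucc 50571, Int.negSucc 337863, Int.ofNat 383610, Int.ofNat 377333, Int.ofNat 388700, Int.ofNat 14895, Int.negSucc 22250, Int.ofNat 215321, Int.negSucc 75688, Int.ofNat 9290, Int.negSucc 88967, Int.negSucc 176221, Int.negSucc 76015, Int.negSucc 49570, Int.ofNat 76807, Int.ofNat 634089, Int.ofNat 0],
  [Int.negSucc 4112598, Int.ofNat 7924631, Int.negSucc 2507087, Int.ofNat 261211, Int.negSucc 5048797, Int.ofNat 888646, Int.ofNat 805306, Int.ofNat 978550, Int.ofNat 393725, Int.ofNat 18253, Int.ofNat 61107, Int.negSucc 104753, Int.negSucc 96718, Int.negSucc 63868, Int.ofNat 39343, Int.ofNat 25589, Int.negSucc 48947, Int.ofNat 35222, Int.negSucc 42690, Int.ofNat 13657, Int.ofNat 20844, Int.ofNat 4623, Int.negSucc 18518, Int.negSucc 13657, Int.negSucc 39743, Int.ofNat 530125]]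
  c := 633600
  X := X5_9

end Pool.Agent.CycT
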