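import Pool.Agent.W_1bfdb5t_h19.Dx6_11

/-!
# Data of the certificate for closed walks of length 11 in triangle-free graphs
-/

set_option maxRecDepth 100000

namespace Pool.Agent.CycT

/-- The block for the localiser `5 + 2 a`. -/
def b6_11 : Blk where
  n := 41
  d := 38
  Nc := [[Int.ofNat 1, Int.ofNat 0, Int.ofNat 0, Int.ofNat 0, Int.ofNat 0, Int.ofNat 0, Int.ofNat 0, Int.ofNat 0, Int.ofNat 0, Int.ofNat 0, Int.ofNat 0, Int.ofNat 0, Int.ofNat 0, Int.ofNat 0, Int.ofNat 0, Int.ofNat 0, Int.ofNat 0, Int.ofNat 0, Int.ofNat 0, Int.ofNat 0, Int.ofNat 0, Int.ofNat 0, Int.ofNat 0, Int.ofNat 0, Int.ofNat 0, Int.ofNat 0, Int.ofNat 0, Int.ofNat 0, Int.ofNat 0, Int.ofNat 0, Int.ofNat 0, Int.ofNat 0, Int.ofNat 0, Int.ofNat 0, Int.ofNat 0, Int.ofNat 0, Int.ofNat 0, Int.ofNat 0],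
  [Int.ofNat 0, Int.ofNat 1, Int.ofNat 0, Int.ofNat 0, Int.ofNat 0, Int.ofNat 0, Int.ofNat 0, Int.ofNat 0, Int.ofNat 0, Int.ofNat 0, Int.ofNat 0, Int.ofNat 0, Int.ofNat 0, Int.ofNat 0, Int.ofNat 0, Int.ofNat 0, Int.ofNat 0, Int.ofNat 0, Int.ofNat 0, Int.ofNat 0, Int.ofNat 0, Int.ofNat 0, Int.ofNat 0, Int.ofNat 0, Int.ofNat 0, Int.ofNat 0, Int.ofNat 0, Int.ofNat 0, Int.ofNat 0, Int.ofNat 0, Int.ofNat 0, Int.ofNat 0, Int.ofNat 0, Int.ofNat 0, Int.ofNat 0, Int.ofNat 0, Int.ofNat 0, Int.ofNat 0],
  [Int.ofNat 0, Int.ofNat 0, Int.ofNat 1, Int.ofNat 0, Int.ofNat 0, Int.ofNat 0, Int.ofNat 0, Int.ofNat 0, Int.ofNat 0, Int.ofNat 0, Int.ofNat 0, Int.ofNat 0, Int.ofNat 0, Int.ofNat 0, Int.ofNat 0, Int.ofNat 0, Int.ofNat 0, Int.ofNat 0, Int.ofNat 0, Int.ofNat 0, Int.ofNat 0, Int.ofNat 0, Int.ofNat 0, Int.ofNat 0, Int.ofNat 0, Int.ofNat 0, Int.ofNat 0, Int.ofNat 0, Int.ofNat 0, Int.ofNat 0, Int.ofNat 0, Int.ofNat 0, Int.ofNat 0, Int.ofNat 0, Int.ofNat 0, Int.ofNat 0, Int.ofNat 0, Int.ofNat 0],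
  [Int.ofNat 0, Int.ofNat 0, Int.ofNat 0, Int.ofNat 1, Int.ofNat 0, Int.ofNat 0, Int.ofNat 0, Int.ofNat 0, Int.ofNat 0, Int.ofNat 0, Int.ofNat 0, Int.ofNat 0, Int.ofNat 0, Int.ofNat 0, Int.ofNat 0, Int.ofNat 0, Int.ofNat 0, Int.ofNat 0, Int.ofNat 0, Int.ofNat 0, Int.ofNat 0, Int.ofNat 0, Int.ofNat 0, Int.ofNat 0, Int.ofNat 0, Int.ofNat 0, Int.ofNat 0, Int.ofNat 0, Int.ofNat 0, Int.ofNat 0, Int.ofNat 0, Int.ofNat 0, Int.ofNat 0, Int.ofNat 0, Int.ofNat 0, Int.ofNat 0, Int.ofNat 0, Int.ofNat 0],
  [Int.ofNat 0, Int.ofNat 0, Int.ofNat 0, Int.ofNat 0, Int.ofNat 1, Int.ofNat 0, Int.ofNat 0, Int.ofNat 0, Int.ofNat 0, Int.ofNat 0, Int.ofNat 0, Int.ofNat 0, Int.ofNat 0, Int.ofNat 0, Int.ofNat 0, Int.ofNat 0, Int.ofNat 0, Int.ofNat 0, Int.ofNat 0, Int.ofNat 0, Int.ofNat 0, Int.ofNat 0, Int.ofNat 0, Int.ofNat 0, Int.ofNat 0, Int.ofNat 0, Int.ofNat 0, Int.ofNat 0, Int.ofNat 0, Int.ofNat 0, Int.ofNat 0, Int.ofNat 0, Int.ofNat 0, Int.ofNat 0, Int.ofNat 0, Int.ofNat 0, Int.ofNat 0, Int.ofNat 0],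
  [Int.ofNat 0, Int.ofNat 0, Int.ofNat 0, Int.ofNat 0, Int.ofNat 0, Int.ofNat 1, Int.ofNat 0, Int.ofNat 0, Int.ofNat 0, Int.ofNat 0, Int.ofNat 0, Int.ofNat 0, Int.ofNat 0, Int.ofNat 0, Int.ofNat 0, Int.ofNat 0, Int.ofNat 0, Int.ofNat 0, Int.ofNat 0, Int.ofNat 0, Int.ofNat 0, Int.ofNat 0, Int.ofNat 0, Int.ofNat 0, Int.ofNat 0, Int.ofNat 0, Int.ofNat 0, Int.ofNat 0, Int.ofNat 0, Int.ofNat 0, Int.ofNat 0, Int.ofNat 0, Int.ofNat 0, Int.ofNat 0, Int.ofNat 0, Int.ofNat 0, Int.ofNat 0, Int.ofNat 0],
  [Int.ofNat 0, Int.ofNat 0, Int.ofNat 0, Int.ofNat 0, Int.ofNat 0, Int.ofNat 0, Int.ofNat 1, Int.ofNat 0, Int.ofNat 0, Int.ofNat 0, Int.ofNat 0, Int.ofNat 0, Int.ofNat 0, Int.ofNat 0, Int.ofNat 0, Int.ofNat 0, Int.ofNat 0, Int.ofNat 0, Int.ofNat 0, Int.ofNat 0, Int.ofNat 0, Int.ofNat 0, Int.ofNat 0, Int.ofNat 0, Int.ofNat 0, Int.ofNat 0, Int.ofNat 0, Int.ofNat 0, Int.ofNat 0, Int.ofNat 0, Int.ofNat 0, Int.ofNat 0, Int.ofNat 0, Int.ofNat 0, Int.ofNat 0, Int.ofNat 0, Int.ofNat 0, Int.ofNat 0],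
  [Int.ofNat 0, Int.ofNat 0, Int.ofNat 0, Int.ofNat 0, Int.ofNat 0, Int.ofNat 0, Int.ofNat 0, Int.ofNat 1, Int.ofNat 0, Int.ofNat 0, Int.ofNat 0, Int.ofNat 0, Int.ofNat 0, Int.ofNat 0, Int.ofNat 0, Int.ofNat 0, Int.ofNat 0, Int.ofNat 0, Int.ofNat 0, Int.ofNat 0, Int.ofNat 0, Int.ofNat 0, Int.ofNat 0, Int.ofNat 0, Int.ofNat 0, Int.ofNat 0, Int.ofNat 0, Int.ofNat 0, Int.ofNat 0, Int.ofNat 0, Int.ofNat 0, Int.ofNat 0, Int.ofNat 0, Int.ofNat 0, Int.ofNat 0, Int.ofNat 0, Int.ofNat 0, Int.ofNat 0],
  [Int.ofNat 0, Int.ofNat 0, Int.ofNat 0, Int.ofNat 0, Int.ofNat 0, Int.ofNat 0, Int.ofNat 0, Int.ofNat 0, Int.ofNat 1, Int.ofNat 0, Int.ofNat 0, Int.ofNat 0, Int.ofNat 0, Int.ofNat 0, Int.ofNat 0, Int.ofNat 0, Int.ofNat 0, Int.ofNat 0, Int.ofNat 0, Int.ofNat 0, Int.ofNat 0, Int.ofNat 0, Int.ofNat 0, Int.ofNat 0, Int.ofNat 0, Int.ofNat 0, Int.ofNat 0, Int.ofNat 0, Int.ofNat 0, Int.ofNat 0, Int.ofNat 0, Int.ofNat 0, Int.ofNat 0, Int.ofNat 0, Int.ofNat 0, Int.ofNat 0, Int.ofNat 0, Int.ofNat 0],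
  [Int.ofNat 0, Int.ofNat 0, Int.ofNat 0, Int.ofNat 0, Int.ofNat 0, Int.ofNat 0, Int.ofNat 0, Int.ofNat 0, Int.ofNat 0, Int.ofNat 1, Int.ofNat 0, Int.ofNat 0, Int.ofNat 0, Int.ofNat 0, Int.ofNat 0, Int.ofNat 0, Int.ofNat 0, Int.ofNat 0, Int.ofNat 0, Int.ofNat 0, Int.ofNat 0, Int.ofNat 0, Int.ofNat 0, Int.ofNat 0, Int.ofNat 0, Int.ofNat 0, Int.ofNat 0, Int.ofNat 0, Int.ofNat 0, Int.ofNat 0, Int.ofNat 0, Int.ofNat 0, Int.ofNat 0, Int.ofNat 0, Int.ofNat 0, Int.ofNat 0, Int.ofNat 0, Int.ofNat 0],
  [Int.ofNat 0, Int.ofNat 0, Int.ofNat 0, Int.ofNat 0, Int.ofNat 0, Int.ofNat 0, Int.ofNat 0, Int.ofNat 0, Int.ofNat 0, Int.ofNat 0, Int.ofNat 1, Int.ofNat 0, Int.ofNat 0, Int.ofNat 0, Int.ofNat 0, Int.ofNat 0, Int.ofNat 0, Int.ofNat 0, Int.ofNat 0, Int.ofNat 0, Int.ofNat 0, Int.ofNat 0, Int.ofNat 0, Int.ofNat 0, Int.ofNat 0, Int.ofNat 0, Int.ofNat 0, Int.ofNat 0, Int.ofNat 0, Int.ofNat 0, Int.ofNat 0, Int.ofNat 0, Int.ofNat 0, Int.ofNat 0, Int.ofNat 0, Int.ofNat 0, Int.ofNat 0, Int.ofNat 0],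
  [Int.ofNat 0, Int.ofNat 0, Int.ofNat 0, Int.ofNat 0, Int.ofNat 0, Int.ofNat 0, Int.ofNat 0, Int.ofNat 0, Int.ofNat 0, Int.ofNat 0, Int.ofNat 0, Int.ofNat 1, Int.ofNat 0, Int.ofNat 0, Int.ofNat 0, Int.ofNat 0, Int.ofNat 0, Int.ofNat 0, Int.ofNat 0, Int.ofNat 0, Int.ofNat 0, Int.ofNat 0, Int.ofNat 0, Int.ofNat 0, Int.ofNat 0, Int.ofNat 0, Int.ofNat 0, Int.ofNat 0, Int.ofNat 0, Int.ofNat 0, Int.ofNat 0, Int.ofNat 0, Int.ofNat 0, Int.ofNat 0, Int.ofNat 0, Int.ofNat 0, Int.ofNat 0, Int.ofNat 0],
  [Int.ofNat 0, Int.ofNat 0, Int.ofNat 0, Int.ofNat 0, Int.ofNat 0, Int.ofNat 0, Int.ofNat 0, Int.ofNat 0, Int.ofNat 0, Int.ofNat 0, Int.ofNat 0, Int.ofNat 0, Int.ofNat 1, Int.ofNat 0, Int.ofNat 0, Int.ofNat 0, Int.ofNat 0, Int.ofNat 0, Int.ofNat 0, Int.ofNat 0, Int.ofNat 0, Int.ofNat 0, Int.ofNat 0, Int.ofNat 0, Int.ofNat 0, Int.ofNat 0, Int.ofNat 0, Int.ofNat 0, Int.ofNat 0, Int.ofNat 0, Int.ofNat 0, Int.ofNat 0, Int.ofNat 0, Int.ofNat 0, Int.ofNat 0, Int.ofNat 0, Int.ofNat 0, Int.ofNat 0],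
  [Int.ofNat 0, Int.ofNat 0, Int.ofNat 0, Int.ofNat 0, Int.ofNat 0, Int.ofNat 0, Int.ofNat 0, Int.ofNat 0, Int.ofNat 0, Int.ofNat 0, Int.ofNat 0, Int.ofNat 0, Int.ofNat 0, Int.ofNat 1, Int.ofNat 0, Int.ofNat 0, Int.ofNat 0, Int.ofNat 0, Int.ofNat 0, Int.ofNat 0, Int.ofNat 0, Int.ofNat 0, Int.ofNat 0, Int.ofNat 0, Int.ofNat 0, Int.ofNat 0, Int.ofNat 0, Int.ofNat 0, Int.ofNat 0, Int.ofNat 0, Int.ofNat 0, Int.ofNat 0, Int.ofNat 0, Int.ofNat 0, Int.ofNat 0, Int.ofNat 0, Int.ofNat 0, Int.ofNat 0],
  [Int.ofNat 0, Int.ofNat 0, Int.ofNat 0, Int.ofNat 0, Int.ofNat 0, Int.ofNat 0, Int.ofNat 0, Int.ofNat 0, Int.ofNat 0, Int.ofNat 0, Int.ofNat 0, Int.ofNat 0, Int.ofNat 0, Int.ofNat 0, Int.ofNat 1, Int.ofNat 0, Int.ofNat 0, Int.ofNat 0, Int.ofNat 0, Int.ofNat 0, Int.ofNat 0, Int.ofNat 0, Int.ofNat 0, Int.ofNat 0, Int.ofNat 0, Int.ofNat 0, Int.ofNat 0, Int.ofNat 0, Int.ofNat 0, Int.ofNat 0, Int.ofNat 0, Int.ofNat 0, Int.ofNat 0, Int.ofNat 0, Int.ofNat 0, Int.ofNat 0, Int.ofNat 0, Int.ofNat 0],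
  [Int.ofNat 0, Int.ofNat 0, Int.ofNat 0, Int.ofNat 0, Int.ofNat 0, Int.ofNat 0, Int.ofNat 0, Int.ofNat 0, Int.ofNat 0, Int.ofNat 0, Int.ofNat 0, Int.ofNat 0, Int.ofNat 0, Int.ofNat 0, Int.ofNat 0, Int.ofNat 1, Int.ofNat 0, Int.ofNat 0, Int.ofNat 0, Int.ofNat 0, Int.ofNat 0, Int.ofNat 0, Int.ofNat 0, Int.ofNat 0, Int.ofNat 0, Int.ofNat 0, Int.ofNat 0, Int.ofNat 0, Int.ofNat 0, Int.ofNat 0, Int.ofNat 0, Int.ofNat 0, Int.ofNat 0, Int.ofNat 0, Int.ofNat 0, Int.ofNat 0, Int.ofNat 0, Int.ofNat 0],
  [Int.ofNat 0, Int.ofNat 0, Int.ofNat 0, Int.ofNat 0, Int.ofNat 0, Int.ofNat 0, Int.ofNat 0, Int.ofNat 0, Int.ofNat 0, Int.ofNat 0, Int.ofNat 0, Int.ofNat 0, Int.ofNat 0, Int.ofNat 0, Int.ofNat 0, Int.ofNat 0, Int.ofNat 1, Int.ofNat 0, Int.ofNat 0, Int.ofNat 0, Int.ofNat 0, Int.ofNat 0, Int.ofNat 0, Int.ofNat 0, Int.ofNat 0, Int.ofNat 0, Int.ofNat 0, Int.ofNat 0, Int.ofNat 0, Int.ofNat 0, Int.ofNat 0, Int.ofNat 0, Int.ofNat 0, Int.ofNat 0, Int.ofNat 0, Int.ofNat 0, Int.ofNat 0, Int.ofNat 0],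
  [Int.ofNat 0, Int.ofNat 0, Int.ofNat 0, Int.ofNat 0, Int.ofNat 0, Int.ofNat 0, Int.ofNat 0, Int.ofNat 0, Int.ofNat 0, Int.ofNat 0, Int.ofNat 0, Int.ofNat 0, Int.ofNat 0, Int.ofNat 0, Int.ofNat 0, Int.ofNat 0, Int.ofNat 0, Int.ofNat 1, Int.ofNat 0, Int.ofNat 0, Int.ofNat 0, Int.ofNat 0, Int.ofNat 0, Int.ofNat 0, Int.ofNat 0, Int.ofNat 0, Int.ofNat 0, Int.ofNat 0, Int.ofNat 0, Int.ofNat 0, Int.ofNat 0, Int.ofNat 0, Int.ofNat 0, Int.ofNat 0, Int.ofNat 0, Int.ofNat 0, Int.ofNat 0, Int.ofNat 0],
  [Int.ofNat 0, Int.ofNat 0, Int.ofNat 0, Int.ofNat 0, Int.ofNat 0, Int.ofNat 0, Int.ofNat 0, Int.ofNat 0, Int.ofNat 0, Int.ofNat 0, Int.ofNat 0, Int.ofNat 0, Int.ofNat 0, Int.ofNat 0, Int.ofNat 0, Int.ofNat 0, Int.ofNat 0, Int.ofNat 0, Int.ofNat 1, Int.ofNat 0, Int.ofNat 0, Int.ofNat 0, Int.ofNat 0, Int.ofNat 0, Int.ofNat 0, Int.ofNat 0, Int.ofNat 0, Int.ofNat 0, Int.ofNat 0, Int.ofNat 0, Int.ofNat 0, Int.ofNat 0, Int.ofNat 0, Int.ofNat 0, Int.ofNat 0, Int.ofNat 0, Int.ofNat 0, Int.ofNat 0],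
  [Int.ofNat 0, Int.ofNat 0, Int.ofNat 0, Int.ofNat 0, Int.ofNat 0, Int.ofNat 0, Int.ofNat 0, Int.ofNat 0, Int.ofNat 0, Int.ofNat 0, Int.ofNat 0, Int.ofNat 0, Int.ofNat 0, Int.ofNat 0, Int.ofNat 0, Int.ofNat 0, Int.ofNat 0, Int.ofNat 0, Int.ofNat 0, Int.ofNat 1, Int.ofNat 0, Int.ofNat 0, Int.ofNat 0, Int.ofNat 0, Int.ofNat 0, Int.ofNat 0, Int.ofNat 0, Int.ofNat 0, Int.ofNat 0, Int.ofNat 0, Int.ofNat 0, Int.ofNat 0, Int.ofNat 0, Int.ofNat 0, Int.ofNat 0, Int.ofNat 0, Int.ofNat 0, Int.ofNat 0],
  [Int.ofNat 0, Int.ofNat 0, Int.ofNat 0, Int.ofNat 0, Int.ofNat 0, Int.ofNat 0, Int.ofNat 0, Int.ofNat 0, Int.ofNat 0, Int.ofNat 0, Int.ofNat 0, Int.ofNat 0, Int.ofNat 0, Int.ofNat 0, Int.ofNat 0, Int.ofNat 0, Int.ofNat 0, Int.ofNat 0, Int.ofNat 0, Int.ofNat 0, Int.ofNat 1, Int.ofNat 0, Int.ofNat 0, Int.ofNat 0, Int.ofNat 0, Int.ofNat 0, Int.ofNat 0, Int.ofNat 0, Int.ofNat 0, Int.ofNat 0, Int.ofNat 0, Int.ofNat 0, Int.ofNat 0, Int.ofNat 0, Int.ofNat 0, Int.ofNat 0, Int.ofNat 0, Int.ofNat 0],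
  [Int.ofNat 0, Int.ofNat 0, Int.ofNat 0, Int.ofNat 0, Int.ofNat 0, Int.ofNat 0, Int.ofNat 0, Int.ofNat 0, Int.ofNat 0, Int.ofNat 0, Int.ofNat 0, Int.ofNat 0, Int.ofNat 0, Int.ofNat 0, Int.ofNat 0, Int.ofNat 0, Int.ofNat 0, Int.ofNat 0, Int.ofNat 0, Int.ofNat 0, Int.ofNat 0, Int.ofNat 1, Int.ofNat 0, Int.ofNat 0, Int.ofNat 0, Int.ofNat 0, Int.ofNat 0, Int.ofNat 0, Int.ofNat 0, Int.ofNat 0, Int.ofNat 0, Int.ofNat 0, Int.ofNat 0, Int.ofNat 0, Int.ofNat 0, Int.ofNat 0, Int.ofNat 0, Int.ofNat 0],
  [Int.ofNat 0, Int.ofNat 0, Int.ofNat 0, Int.ofNat 0, Int.ofNat 0, Int.ofNat 0, Int.ofNat 0, Int.ofNat 0, Int.ofNat 0, Int.ofNat 0, Int.ofNat 0, Int.ofNat 0, Int.ofNat 0, Int.ofNat 0, Int.ofNat 0, Int.ofNat 0, Int.ofNat 0, Int.ofNat 0, Int.ofNat 0, Int.ofNat 0, Int.ofNat 0, Int.ofNat 0, Int.ofNat 1, Int.ofNat 0, Int.ofNat 0, Int.ofNat 0, Int.ofNat 0, Int.ofNat 0, Int.ofNat 0, Int.ofNat 0, Int.ofNat 0, Int.ofNat 0, Int.ofNat 0, Int.ofNat 0, Int.ofNat 0, Int.ofNat 0, Int.ofNat 0, Int.ofNat 0],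
  [Int.ofNat 0, Int.ofNat 0, Int.ofNat 0, Int.ofNat 0, Int.ofNat 0, Int.ofNat 0, Int.ofNat 0, Int.ofNat 0, Int.ofNat 0, Int.ofNat 0, Int.ofNat 0, Int.ofNat 0, Int.ofNat 0, Int.ofNat 0, Int.ofNat 0, Int.ofNat 0, Int.ofNat 0, Int.ofNat 0, Int.ofNat 0, Int.ofNat 0, Int.ofNat 0, Int.ofNat 0, Int.ofNat 0, Int.ofNat 1, Int.ofNat 0, Int.ofNat 0, Int.ofNat 0, Int.ofNat 0, Int.ofNat 0, Int.ofNat 0, Int.ofNat 0, Int.ofNat 0, Int.ofNat 0, Int.ofNat 0, Int.ofNat 0, Int.ofNat 0, Int.ofNat 0, Int.ofNat 0],
  [Int.ofNat 0, Int.ofNat 0, Int.ofNat 0, Int.ofNat 0, Int.ofNat 0, Int.ofNat 0, Int.ofNat 0, Int.ofNat 0, Int.ofNat 0, Int.ofNat 0, Int.ofNat 0, Int.ofNat 0, Int.ofNat 0, Int.ofNat 0, Int.ofNat 0, Int.ofNat 0, Int.ofNat 0, Int.ofNat 0, Int.ofNat 0, Int.ofNat 0, Int.ofNat 0, Int.ofNat 0, Int.ofNat 0, Int.ofNat 0, Int.ofNat 1, Int.ofNat 0, Int.ofNat 0, Int.ofNat 0, Int.ofNat 0, Int.ofNat 0, Int.ofNat 0, Int.ofNat 0, Int.ofNat 0, Int.ofNat 0, Int.ofNat 0, Int.ofNat 0, Int.ofNat 0, Int.ofNat 0],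
  [Int.ofNat 0, Int.ofNat 0, Int.ofNat 0, Int.ofNat 0, Int.ofNat 0, Int.ofNat 0, Int.ofNat 0, Int.ofNat 0, Int.ofNat 0, Int.ofNat 0, Int.ofNat 0, Int.ofNat 0, Int.ofNat 0, Int.ofNat 0, Int.ofNat 0, Int.ofNat 0, Int.ofNat 0, Int.ofNat 0, Int.ofNat 0, Int.ofNat 0, Int.ofNat 0, Int.ofNat 0, Int.ofNat 0, Int.ofNat 0, Int.ofNat 0, Int.ofNat 1, Int.ofNat 0, Int.ofNat 0, Int.ofNat 0, Int.ofNat 0, Int.ofNat 0, Int.ofNat 0, Int.ofNat 0, Int.ofNat 0, Int.ofNat 0, Int.ofNat 0, Int.ofNat 0, Int.ofNat 0],
  [Int.ofNat 0, Int.ofNat 0, Int.ofNat 0, Int.ofNat 0, Int.ofNat 0, Int.ofNat 0, Int.ofNat 0, Int.ofNat 0, Int.ofNat 0, Int.ofNat 0, Int.ofNat 0, Int.ofNat 0, Int.ofNat 0, Int.ofNat 0, Int.ofNat 0, Int.ofNat 0, Int.ofNat 0, Int.ofNat 0, Int.ofNat 0, Int.ofNat 0, Int.ofNat 0, Int.ofNat 0, Int.ofNat 0, Int.ofNat 0, Int.ofNat 0, Int.ofNat 0, Int.ofNat 1, Int.ofNat 0, Int.ofNat 0, Int.ofNat 0, Int.ofNat 0, Int.ofNat 0, Int.ofNat 0, Int.ofNat 0, Int.ofNat 0, Int.ofNat 0, Int.ofNat 0, Int.ofNat 0],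
  [Int.ofNat 0, Int.ofNat 0, Int.ofNat 0, Int.ofNat 0, Int.ofNat 0, Int.ofNat 0, Int.ofNat 0, Int.ofNat 0, Int.ofNat 0, Int.ofNat 0, Int.ofNat 0, Int.ofNat 0, Int.ofNat 0, Int.ofNat 0, Int.ofNat 0, Int.ofNat 0, Int.ofNat 0, Int.ofNat 0, Int.ofNat 0, Int.ofNat 0, Int.ofNat 0, Int.ofNat 0, Int.ofNat 0, Int.ofNat 0, Int.ofNat 0, Int.ofNat 0, Int.ofNat 0, Int.ofNat 1, Int.ofNat 0, Int.ofNat 0, Int.ofNat 0, Int.ofNat 0, Int.ofNat 0, Int.ofNat 0, Int.ofNat 0, Int.ofNat 0, Int.ofNat 0, Int.ofNat 0],
  [Int.ofNat 0, Int.ofNat 0, Int.ofNat 0, Int.ofNat 0, Int.ofNat 0, Int.ofNat 0, Int.ofNat 0, Int.ofNat 0, Int.ofNat 0, Int.ofNat 0, Int.ofNat 0, Int.ofNat 0, Int.ofNat 0, Int.ofNat 0, Int.ofNat 0, Int.ofNat 0, Int.ofNat 0, Int.ofNat 0, Int.ofNat 0, Int.ofNat 0, Int.ofNat 0, Int.ofNat 0, Int.ofNat 0, Int.ofNat 0, Int.ofNat 0, Int.ofNat 0, Int.ofNat 0, Int.ofNat 0, Int.ofNat 1, Int.ofNat 0, Int.ofNat 0, Int.ofNat 0, Int.ofNat 0, Int.ofNat 0, Int.ofNat 0, Int.ofNat 0, Int.ofNat 0, Int.ofNat 0],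
  [Int.ofNat 0, Int.ofNat 0, Int.ofNat 0, Int.ofNat 0, Int.ofNat 0, Int.ofNat 0, Int.ofNat 0, Int.ofNat 0, Int.ofNat 0, Int.ofNat 0, Int.ofNat 0, Int.ofNat 0, Int.ofNat 0, Int.ofNat 0, Int.ofNat 0, Int.ofNat 0, Int.ofNat 0, Int.ofNat 0, Int.ofNat 0, Int.ofNat 0, Int.ofNat 0, Int.ofNat 0, Int.ofNat 0, Int.ofNat 0, Int.ofNat 0, Int.ofNat 0, Int.ofNat 0, Int.ofNat 0, Int.ofNat 0, Int.ofNat 1, Int.ofNat 0, Int.ofNat 0, Int.ofNat 0, Int.ofNat 0, Int.ofNat 0, Int.ofNat 0, Int.ofNat 0, Int.ofNat 0],
  [Int.ofNat 0, Int.ofNat 0, Int.ofNat 0, Int.ofNat 0, Int.ofNat 0, Int.ofNat 0, Int.ofNat 0, Int.ofNat 0, Int.ofNat 0, Int.ofNat 0, Int.ofNat 0, Int.ofNat 0, Int.ofNat 0, Int.ofNat 0, Int.ofNat 0, Int.ofNat 0, Int.ofNat 0, Int.ofNat 0, Int.ofNat 0, Int.ofNat 0, Int.ofNat 0, Int.ofNat 0, Int.ofNat 0, Int.ofNat 0, Int.ofNat 0, Int.ofNat 0, Int.ofNat 0, Int.ofNat 0, Int.ofNat 0, Int.ofNat 0, Int.ofNat 1, Int.ofNat 0, Int.ofNat 0, Int.ofNat 0, Int.ofNat 0, Int.ofNat 0, Int.ofNat 0, Int.ofNat 0],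
  [Int.ofNat 0, Int.ofNat 0, Int.ofNat 0, Int.ofNat 0, Int.ofNat 0, Int.ofNat 0, Int.ofNat 0, Int.ofNat 0, Int.ofNat 0, Int.ofNat 0, Int.ofNat 0, Int.ofNat 0, Int.ofNat 0, Int.ofNat 0, Int.ofNat 0, Int.ofNat 0, Int.ofNat 0, Int.ofNat 0, Int.ofNat 0, Int.ofNat 0, Int.ofNat 0, Int.ofNat 0, Int.ofNat 0, Int.ofNat 0, Int.ofNat 0, Int.ofNat 0, Int.ofNat 0, Int.ofNat 0, Int.ofNat 0, Int.ofNat 0, Int.ofNat 0, Int.ofNat 1, Int.ofNat 0, Int.ofNat 0, Int.ofNat 0, Int.ofNat 0, Int.ofNat 0, Int.ofNat 0],
  [Int.ofNat 0, Int.ofNat 0, Int.ofNat 0, Int.ofNat 0, Int.ofNat 0, Int.ofNat 0, Int.ofNat 0, Int.ofNat 0, Int.ofNat 0, Int.ofNat 0, Int.ofNat 0, Int.ofNat 0, Int.ofNat 0, Int.ofNat 0, Int.ofNat 0, Int.ofNat 0, Int.ofNat 0, Int.ofNat 0, Int.ofNat 0, Int.ofNat 0, Int.ofNat 0, Int.ofNat 0, Int.ofNat 0, Int.ofNat 0, Int.ofNat 0, Int.ofNat 0, Int.ofNat 0, Int.ofNat 0, Int.ofNat 0, Int.ofNat 0, Int.ofNat 0, Int.ofNat 0, Int.ofNat 1, Int.ofNat 0, Int.ofNat 0, Int.ofNat 0, Int.ofNat 0, Int.ofNat 0],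
  [Int.ofNat 0, Int.ofNat 0, Int.ofNat 0, Int.ofNat 0, Int.ofNat 0, Int.ofNat 0, Int.ofNat 0, Int.ofNat 0, Int.ofNat 0, Int.ofNat 0, Int.ofNat 0, Int.ofNat 0, Int.ofNat 0, Int.ofNat 0, Int.ofNat 0, Int.ofNat 0, Int.ofNat 0, Int.ofNat 0, Int.ofNat 0, Int.ofNat 0, Int.ofNat 0, Int.ofNat 0, Int.ofNat 0, Int.ofNat 0, Int.ofNat 0, Int.ofNat 0, Int.ofNat 0, Int.ofNat 0, Int.ofNat 0, Int.ofNat 0, Int.ofNat 0, Int.ofNat 0, Int.ofNat 0, Int.ofNat 1, Int.ofNat 0, Int.ofNat 0, Int.ofNat 0, Int.ofNat 0],
  [Int.ofNat 0, Int.ofNat 0, Int.ofNat 0, Int.ofNat 0, Int.ofNat 0, Int.ofNat 0, Int.ofNat 0, Int.ofNat 0, Int.ofNat 0, Int.ofNat 0, Int.ofNat 0, Int.ofNat 0, Int.ofNat 0, Int.ofNat 0, Int.ofNat 0, Int.ofNat 0, Int.ofNat 0, Int.ofNat 0, Int.ofNat 0, Int.ofNat 0, Int.ofNat 0, Int.ofNat 0, Int.ofNat 0, Int.ofNat 0, Int.ofNat 0, Int.ofNat 0, Int.ofNat 0, Int.ofNat 0, Int.ofNat 0, Int.ofNat 0, Int.ofNat 0, Int.ofNat 0, Int.ofNat 0, Int.ofNat 0, Int.ofNat 1, Int.ofNat 0, Int.ofNat 0, Int.ofNat 0],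
  [Int.ofNat 0, Int.ofNat 0, Int.ofNat 0, Int.ofNat 0, Int.ofNat 0, Int.ofNat 0, Int.ofNat 0, Int.ofNat 0, Int.ofNat 0, Int.ofNat 0, Int.ofNat 0, Int.ofNat 0, Int.ofNat 0, Int.ofNat 0, Int.ofNat 0, Int.ofNat 0, Int.ofNat 0, Int.ofNat 0, Int.ofNat 0, Int.ofNat 0, Int.ofNat 0, Int.ofNat 0, Int.ofNat 0, Int.ofNat 0, Int.ofNat 0, Int.ofNat 0, Int.ofNat 0, Int.ofNat 0, Int.ofNat 0, Int.ofNat 0, Int.ofNat 0, Int.ofNat 0, Int.ofNat 0, Int.ofNat 0, Int.ofNat 0, Int.ofNat 1, Int.ofNat 0, Int.ofNat 0],
  [Int.ofNat 0, Int.ofNat 0, Int.ofNat 0, Int.ofNat 0, Int.ofNat 0, Int.ofNat 0, Int.ofNat 0, Int.ofNat 0, Int.ofNat 0, Int.ofNat 0, Int.ofNat 0, Int.ofNat 0, Int.ofNat 0, Int.ofNat 0, Int.ofNat 0, Int.ofNat 0, Int.ofNat 0, Int.ofNat 0, Int.ofNat 0, Int.ofNat 0, Int.ofNat 0, Int.ofNat 0, Int.ofNat 0, Int.ofNat 0, Int.ofNat 0, Int.ofNat 0, Int.ofNat 0, Int.ofNat 0, Int.ofNat 0, Int.ofNat 0, Int.ofNat 0, Int.ofNat 0, Int.ofNat 0, Int.ofNat 0, Int.ofNat 0, Int.ofNat 0, Int.ofNat 1, Int.ofNat 0],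
  [Int.ofNat 0, Int.ofNat 0, Int.ofNat 0, Int.ofNat 0, Int.ofNat 0, Int.ofNat 0, Int.ofNat 0, Int.ofNat 0, Int.ofNat 0, Int.ofNat 0, Int.ofNat 0, Int.ofNat 0, Int.ofNat 0, Int.ofNat 0, Int.ofNat 0, Int.ofNat 0, Int.ofNat 0, Int.ofNat 0, Int.ofNat 0, Int.ofNat 0, Int.ofNat 0, Int.ofNat 0, Int.ofNat 0, Int.ofNat 0, Int.ofNat 0, Int.ofNat 0, Int.ofNat 0, Int.ofNat 0, Int.ofNat 0, Int.ofNat 0, Int.ofNat 0, Int.ofNat 0, Int.ofNat 0, Int.ofNat 0, Int.ofNat 0, Int.ofNat 0, Int.ofNat 0, Int.ofNat 1],
  [Int.negSucc 1, Int.ofNat 0, Int.negSucc 1, Int.ofNat 0, Int.negSucc 3, Int.negSucc 3, Int.ofNat 0, Int.ofNat 0, Int.ofNat 0, Int.ofNat 0, Int.negSucc 3, Int.ofNat 0, Int.ofNat 0, Int.ofNat 0, Int.ofNat 0, Int.negSucc 0, Int.ofNat 0, Int.ofNat 0, Int.ofNat 0, Int.ofNat 0, Int.ofNat 0, Int.negSucc 1, Int.ofNat 0, Int.ofNat 0, Int.ofNat 0, Int.ofNat 0, Int.ofNat 0, Int.ofNat 0, Int.negSucc 1, Int.ofNat 0, Int.ofNat 0, Int.ofNat 0, Int.negSucc 1, Int.ofNat 0, Int.negSucc 1, Int.ofNat 0, Int.ofNat 1, Int.negSucc 1],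
  [Int.ofNat 0, Int.ofNat 0, Int.ofNat 0, Int.ofNat 0, Int.ofNat 0, Int.ofNat 0, Int.ofNat 0, Int.negSucc 1, Int.ofNat 0, Int.ofNat 0, Int.ofNat 0, Int.negSucc 1, Int.ofNat 0, Int.negSucc 1, Int.ofNat 0, Int.ofNat 1, Int.negSucc 3, Int.negSucc 3, Int.ofNat 0, Int.negSucc 3, Int.ofNat 0, Int.ofNat 2, Int.ofNat 0, Int.ofNat 0, Int.ofNat 0, Int.negSucc 3, Int.negSucc 3, Int.ofNat 0, Int.ofNat 2, Int.ofNat 0, Int.ofNat 0, Int.negSucc 3, Int.ofNat 2, Int.ofNat 0, Int.ofNat 2, Int.ofNat 0, Int.negSucc 1, Int.ofNat 3],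
  [Int.ofNat 0, Int.negSucc 1, Int.ofNat 0, Int.negSucc 1, Int.ofNat 0, Int.ofNat 0, Int.negSucc 3, Int.ofNat 0, Int.negSucc 3, Int.negSucc 3, Int.ofNat 0, Int.ofNat 0, Int.negSucc 3, Int.ofNat 0, Int.negSucc 3, Int.negSucc 9, Int.ofNat 0, Int.ofNat 0, Int.negSucc 7, Int.ofNat 0, Int.negSucc 7, Int.negSucc 19, Int.negSucc 7, Int.negSucc 7, Int.negSucc 7, Int.ofNat 0, Int.ofNat 0, Int.negSucc 7, Int.negSucc 19, Int.negSucc 7, Int.negSucc 7, Int.ofNat 0, Int.negSucc 19, Int.negSucc 7, Int.negSucc 19, Int.negSucc 7, Int.negSucc 9, Int.negSucc 39]]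
  Z := [[Int.ofNat 3601242068274678501273600, Int.ofNat 2165562710711191686585600, Int.ofNat 1635185577296043968832000, Int.negSucc 7247533599652374200390399, Int.negSucc 844443671952403662047999, Int.negSucc 788877246878382209183999, Int.ofNat 2555365365496560487852800, Int.ofNat 850155990930741371385600, Int.negSucc 300115168230065814662399, Int.ofNat 9890636984888408985600, Int.negSucc 302833641431655325555199, Int.ofNat 374651036149538113056000, Int.negSucc 1430299264631399825644799, Int.ofNat 202210878251585491142400, Int.ofNat 7694884715079819122611200, Int.negSucc 1699703286845034324671999, Int.negSucc 87053513560791067180799, Int.negSucc 126398646827951616518399, Int.ofNat 231686528526607452480000, Int.negSucc 120994575581888779679999, Int.negSucc 1146761269846339377484799, Int.ofNat 205824796366234101638400, Int.negSucc 346250704827795395846399, Int.negSucc 383879313879280977139199, Int.ofNat 256863945329066594937600, Int.ofNat 112993468620932736345600, Int.ofNat 117009322289020660262400, Int.negSucc 1453995130282964559763199,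 Int.ofNat 35530269562426567219200, Int.negSucc 20247483710673724377599, Int.ofNat 328036278443429765664000, Int.ofNat 83948225355277353907200, Int.ofNat 149197435907968396166400, Int.ofNat 50340619790948714572800, Int.ofNat 421694828299768116038400, Int.negSucc 641721797799358060511999, Int.negSucc 65219601106845508377599, Int.ofNat 39539199579619888512000],
  [Int.ofNat 2165562710711191686585600, Int.ofNat 19243331993793482517196800, Int.negSucc 1076071390734098964441599, Int.negSucc 3180896475488843267519999, Int.negSucc 262292060921504277081599, Int.negSucc 412592888491503396767999, Int.ofNat 228574646139203886412800, Int.ofNat 1916509326686479864684800, Int.negSucc 4889902397556029513587199, Int.negSucc 14794574654821743465465599, Int.ofNat 207139176148820033664000, Int.ofNat 1530412793278410781958400, Int.negSucc 1551828002190137962617599, Int.negSucc 998508648380514297062399, Int.ofNat 4764844562146873904044800, Int.negSucc 1102102012127645977593599, Int.negSucc 185125610700280462867199, Int.negSucc 521206532647382910182399,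 Int.ofNat 130268278604661200640000, Int.negSucc 46582303196001600518399, Int.negSucc 1072659060520405394399999, Int.ofNat 57769353850293398476800, Int.ofNat 3127271327802166572518400, Int.ofNat 2031778262199832180070400, Int.negSucc 290406898653201606931199, Int.negSucc 199207908796980320539584, Int.ofNat 250074436866138470476800, Int.negSucc 1508681710930404005049599, Int.ofNat 758090432014834385376000, Int.ofNat 328441889168197280985600, Int.ofNat 1262573111541070421164800, Int.ofNat 146853511938590587603200, Int.negSucc 356848310088762511219199, Int.ofNat 468401318125063485926400, Int.ofNat 205391373617676648729600, Int.ofNat 1033892244582562892217600, Int.negSucc 316268343250672852166399, Int.negSucc 184131317246346366623999],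
  [Int.ofNat 1635185577296043968832000, Int.negSucc 1076071390734098964441599, Int.ofNat 1281541683235081869619200, Int.negSucc 2136668958759105116236799, Int.negSucc 380844115862139590169599, Int.negSucc 417900391305533508153599, Int.ofNat 989208397744714117152000, Int.ofNat 281541133837107825408000, Int.ofNat 491641762477919261644800, Int.ofNat 1807931372876597792678400, Int.negSucc 274526734283525683814399, Int.ofNat 102272732294412811622400, Int.negSucc 766997118398123787283199, Int.ofNat 233742720146406653145600, Int.ofNat 2891018645731593027705600, Int.negSucc 882701422967690768332799, Int.negSucc 8422321567480486847999, Int.ofNat 3154243811842468800000, Int.ofNat 116398181746931724057600, Int.negSucc 68696112643276783391999, Int.negSucc 457691246996009796806399, Int.ofNat 126050800453278673190400, Int.negSucc 527083008660387912095999, Int.negSucc 511709673544198360358399, Int.ofNat 187266499654090293964800, Int.ofNat 65610259719085784102400, Int.negSucc 5318760715259715359999, Int.negSucc 462057984760086637977599,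 Int.negSucc 139007696939746369862399, Int.negSucc 143118739740079334649599, Int.ofNat 35096504679680717145600, Int.ofNat 42307787647258697491200, Int.ofNat 110424904060013084505600, Int.ofNat 195440586619378112812800, Int.ofNat 308174092874075570688000, Int.negSucc 460494971817645214195199, Int.negSucc 15676739597136830284799, Int.ofNat 37054987886441759270400],
  [Int.negSucc 7247533599652374200390399, Int.negSucc 3180896475488843267519999, Int.negSucc 2136668958759105116236799, Int.ofNat 24660971791650437794387200, Int.ofNat 2125578884603792944435200, Int.ofNat 1168559580692540008627200, Int.negSucc 8694746582773640910393599, Int.negSucc 999255232159299717638399, Int.ofNat 817005577351417156684800, Int.negSucc 1777331077928539246713599, Int.ofNat 171046247982100519392000, Int.negSucc 703181979505339798463999, Int.ofNat 3606115214590778150427852, Int.negSucc 1030196697214434144595199, Int.negSucc 20840187742059575527387451, Int.ofNat 2968647944735248162732800, Int.ofNat 292959057612046507718400, Int.ofNat 266477951341622573280000,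 Int.negSucc 489250045017729987263999, Int.ofNat 209876871263526875116800, Int.ofNat 2898889989789552312153600, Int.negSucc 425826139434368840294399, Int.ofNat 1460352061838310873523200, Int.ofNat 504081392177492092454400, Int.negSucc 310950477942707432793599, Int.negSucc 347915280187562082828094, Int.negSucc 302970974682856800902399, Int.ofNat 4244993393446975420742400, Int.negSucc 692236148760532643903999, Int.negSucc 665058650604742061740799, Int.negSucc 477235362175691548665599, Int.negSucc 95193439801554255033599, Int.negSucc 426398265486270693907199, Int.ofNat 966538321032462450854400, Int.ofNat 43321510450504158163200, Int.ofNat 1240962911869523730451200, Int.negSucc 40788722557794263270399, Int.negSucc 113679160086951531071999],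
  [Int.negSucc 844443671952403662047999, Int.negSucc 262292060921504277081599, Int.negSucc 380844115862139590169599, Int.ofNat 2125578884603792944435200, Int.ofNat 221797826231468723308800, Int.ofNat 168059555395117547616000, Int.negSucc 779916765701510546054399, Int.negSucc 151511559791788788883199, Int.ofNat 23755513551724742860800, Int.negSucc 270468920375579372428799, Int.ofNat 62654357496389700787200, Int.negSucc 85214428856374310438399, Int.ofNat 405732554167911348268800, Int.negSucc 98077231034628588287999, Int.negSucc 2039911663817111687366399, Int.ofNat 389067533311027895251200, Int.ofNat 23940203605187735174400, Int.ofNat 24589183430563011187200, Int.negSucc 57438109495527666796799, Int.ofNat 28287631474386995692800, Int.ofNat 299588749353881172057600, Int.negSucc 53922254444913505996799, Int.ofNat 158663166137497135296000, Int.ofNat 107258913674757652953600, Int.negSucc 54447590956505868575999, Int.negSucc 33848760183955427692799, Int.negSucc 23738559916319004556799, Int.ofNat 395719337237014097798400, Int.negSucc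 28162707865791759187199, Int.negSucc 19674924491574540115199, Int.negSucc 57556361137536844127999, Int.negSucc 16930232624976154847999, Int.negSucc 45229049788242346790399, Int.ofNat 22919339854626037804800, Int.negSucc 62277871685225120870399, Int.ofNat 161705195666196248102400, Int.ofNat 4809849744885274252800, Int.negSucc 12658203735567413587199],
  [Int.negSucc 788877246878382209183999, Int.negSucc 412592888491503396767999, Int.negSucc 417900391305533508153599, Int.ofNat 1168559580692540008627200, Int.ofNat 168059555395117547616000, Int.ofNat 192104691280788240864000, Int.negSucc 412524442305764656358399, Int.negSucc 201848110929612521337599, Int.ofNat 31593617969958762681600, Int.negSucc 16929555646074968332799, Int.ofNat 85998648364603920691200, Int.negSucc 77367885768598302259199, Int.ofNat 273623381425652107449600, Int.negSucc 33574107932590947321599, Int.negSucc 1450212680748100813689599, Int.ofNat 392404728625918056921600, Int.ofNat 12279615814680953356800, Int.ofNat 24289593074639752204800, Int.negSucc 50172028357559036947199,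 Int.ofNat 27965822466902282726400, Int.ofNat 213022814727638218867200, Int.negSucc 41769842415738804057599, Int.ofNat 60986478148391876371200, Int.ofNat 114844474155010803840000, Int.negSucc 73422064444253768006399, Int.negSucc 21660582343550382086399, Int.negSucc 22258164144418271596799, Int.ofNat 263241011302095190291200, Int.ofNat 22475169519636396326400, Int.ofNat 29238716332346934067200, Int.negSucc 63402016173699191788799, Int.negSucc 17769914021022508799999, Int.negSucc 35449435164951416044799, Int.negSucc 58162008253982362329599, Int.negSucc 128908125091524752063999, Int.ofNat 155138528288112681312000, Int.ofNat 20578199052151954886400, Int.negSucc 8006199279100123046399],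
  [Int.ofNat 2555365365496560487852800, Int.ofNat 228574646139203886412800, Int.ofNat 989208397744714117152000, Int.negSucc 8694746582773640910393599, Int.negSucc 779916765701510546054399, Int.negSucc 412524442305764656358399, Int.ofNat 3235687277968344971116800, Int.ofNat 282370941408508033536000, Int.negSucc 20930290089868950335999, Int.ofNat 1548508844970198700243200, Int.negSucc 114843474196414435180799, Int.ofNat 255237705522782111001600, Int.negSucc 1506965667815117722867199, Int.ofNat 464825380467950338636800, Int.ofNat 7424472014585601508915200, Int.negSucc 1096223254650275861491199, Int.negSucc 99163694688702218265599, Int.negSucc 68267626388679515615999, Int.ofNat 183338318337595786310400, Int.negSucc 81325911323369182579199, Int.negSucc 1083782266565737996857599, Int.ofNat 185591185202505239539200, Int.negSucc 737634969397990051315199, Int.negSucc 298508910730526803507199, Int.ofNat 107309711522027222208000, Int.ofNat 131644480427845959974400, Int.ofNat 71375791624510070880000, Int.negSucc 1488267614461628827007999,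 Int.ofNat 215572003659663193670400, Int.ofNat 191664103729775469811200, Int.ofNat 138155410863374523091200, Int.ofNat 44015408043494173977600, Int.ofNat 160045950957473436710400, Int.negSucc 291699406679831306956799, Int.negSucc 6976715403982106764799, Int.negSucc 487764192441264969484799, Int.ofNat 31126049586830618784000, Int.ofNat 49898245596538085510400],
  [Int.ofNat 850155990930741371385600, Int.ofNat 1916509326686479864684800, Int.ofNat 281541133837107825408000, Int.negSucc 999255232159299717638399, Int.negSucc 151511559791788788883199, Int.negSucc 201848110929612521337599, Int.ofNat 282370941408508033536000, Int.ofNat 386070590429555249836800, Int.negSucc 389770154766408968697599, Int.negSucc 1240594313620261111948799, Int.negSucc 68845363085705090975999, Int.ofNat 160309142694494790796800, Int.negSucc 295595015952125519884799, Int.negSucc 141885140222278085068799, Int.ofNat 1512367150707015996556800, Int.negSucc 411995733439605420268799, Int.negSucc 28311080050459575532799, Int.negSucc 63802419055315117631999,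 Int.ofNat 47563596579984829344000, Int.negSucc 27851047897596487199999, Int.negSucc 306037807772011099948799, Int.ofNat 54087998908281171724800, Int.ofNat 209527056407810845267200, Int.ofNat 95433549880140710784000, Int.ofNat 12337744381744143398400, Int.negSucc 1747723025567193292799, Int.ofNat 40349397561343636147200, Int.negSucc 271956511342429170566399, Int.ofNat 17534419920141006355200, Int.negSucc 61895744636125945708799, Int.ofNat 221223279723753209011200, Int.ofNat 46932385435643661408000, Int.negSucc 35556521310854426937599, Int.ofNat 63377595874554275059200, Int.ofNat 160514297093643423840000, Int.negSucc 32796189661267358726399, Int.negSucc 43147126414835556422399, Int.negSucc 4958794329537678739199],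
  [Int.negSucc 300115168230065814662399, Int.negSucc 4889902397556029513587199, Int.ofNat 491641762477919261644800, Int.ofNat 817005577351417156684800, Int.ofNat 23755513551724742860800, Int.ofNat 31593617969958762681600, Int.negSucc 20930290089868950335999, Int.negSucc 389770154766408968697599, Int.ofNat 1304786120022360727315200, Int.ofNat 3873333839145816857011200, Int.negSucc 108857565684214385875199, Int.negSucc 371582777314867668076799, Int.ofNat 296447251415099787475200, Int.ofNat 226737102805117097356800, Int.negSucc 919835696199579753484799, Int.ofNat 138190930260302996294400, Int.ofNat 45292342069203659539200, Int.ofNat 129549273210594189388800, Int.negSucc 17986175889899277715199, Int.ofNat 333292272879761395200, Int.ofNat 185253906160465440480000, Int.ofNat 13468798912305448857600, Int.negSucc 835187707597455665107199, Int.negSucc 567730900781309362406399, Int.ofNat 87079211808787283904000, Int.ofNat 53838962383981807468800, Int.negSucc 65816974531986418540799, Int.ofNat 369317967867057134016000, Int.negSucc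 231808021452607028083199, Int.negSucc 150590857632045095865599, Int.negSucc 268700174086819294310399, Int.negSucc 17313324769482235603199, Int.ofNat 81763736378206899744000, Int.negSucc 72375375825683891251199, Int.ofNat 29063117267597791123200, Int.negSucc 313127869608611775244799, Int.ofNat 72844458959284184390400, Int.ofNat 51744888684197607225600],
  [Int.ofNat 9890636984888408985600, Int.negSucc 14794574654821743465465599, Int.ofNat 1807931372876597792678400, Int.negSucc 1777331077928539246713599, Int.negSucc 270468920375579372428799, Int.negSucc 16929555646074968332799, Int.ofNat 1548508844970198700243200, Int.negSucc 1240594313620261111948799, Int.ofNat 3873333839145816857011200, Int.ofNat 12582549370764871887916800, Int.negSucc 334532208059344645459199, Int.negSucc 942302183621090590771199, Int.ofNat 58027373063359340659200, Int.ofNat 1095193791248035149216000, Int.ofNat 486974906424266488300800, Int.ofNat 2061203197144768185600, Int.ofNat 98693727019751894284800, Int.ofNat 369891072544175765856000, Int.ofNat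 29571447942372793766400, Int.negSucc 28499710215385837209599, Int.ofNat 173349009010239030259200, Int.ofNat 94727524216908623040000, Int.negSucc 2881771583755447739865599, Int.negSucc 1871027601253233879455999, Int.ofNat 333052016832669853555200, Int.ofNat 224151363890698283020800, Int.negSucc 183364160370280092403199, Int.ofNat 336586440810544257715200, Int.negSucc 531320141926190729548799, Int.negSucc 225066720995552264774399, Int.negSucc 896261995569700694188799, Int.negSucc 74724947302300311743999, Int.ofNat 382409943558083317094400, Int.negSucc 308712815048822451321599, Int.negSucc 35953424675520505171199, Int.negSucc 1143069996221385774796799, Int.ofNat 243447088541363913024000, Int.ofNat 170014976522814786854400],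
  [Int.negSucc 302833641431655325555199, Int.ofNat 207139176148820033664000, Int.negSucc 274526734283525683814399, Int.ofNat 171046247982100519392000, Int.ofNat 62654357496389700787200, Int.ofNat 85998648364603920691200, Int.negSucc 114843474196414435180799, Int.negSucc 68845363085705090975999, Int.negSucc 108857565684214385875199, Int.negSucc 334532208059344645459199, Int.ofNat 63850077476440829683200, Int.negSucc 20290668414585162047999, Int.ofNat 140358854710890650016000, Int.negSucc 28417500076285426579199, Int.negSucc 424988160204742562937599, Int.ofNat 175065102843841776384000, Int.negSucc 589171162497602630399, Int.negSucc 1795396604935185907199, Int.negSucc 21356228151519243091199, Int.ofNat 13886419165204805856000, Int.ofNat 81408648721347809971200, Int.negSucc 26748613512153071884799, Int.ofNat 91719319530422735424000, Int.ofNat 102157053070254903302400, Int.negSucc 35445341219079213676799, Int.negSucc 9556676123372690457599, Int.ofNat 4470294764897258169600, Int.ofNat 53390480114443068979200, Int.ofNat 40919446541665781107200,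 Int.ofNat 48510279874577616076800, Int.negSucc 15533572016096766777599, Int.negSucc 11957205850265081951999, Int.negSucc 14615856894683473228799, Int.negSucc 59651613428258265523199, Int.negSucc 78218722638942080831999, Int.ofNat 85907766855539173708800, Int.ofNat 5610662097207012518400, Int.negSucc 6783539962227060614399],
  [Int.ofNat 374651036149538113056000, Int.ofNat 1530412793278410781958400, Int.ofNat 102272732294412811622400, Int.negSucc 703181979505339798463999, Int.negSucc 85214428856374310438399, Int.negSucc 77367885768598302259199, Int.ofNat 255237705522782111001600, Int.ofNat 160309142694494790796800, Int.negSucc 371582777314867668076799, Int.negSucc 942302183621090590771199, Int.negSucc 20290668414585162047999, Int.ofNat 194457923336356662528000, Int.negSucc 389107195700324774399999, Int.ofNat 16931533896655748697600, Int.ofNat 881042185135693840896000, Int.negSucc 225909697052704150886399, Int.negSucc 17268241706230232390399, Int.negSucc 42676274872547048678399, Int.ofNat 32956745695776732211200, Int.negSucc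 14406400579209230591999, Int.negSucc 165505449034879800537599, Int.ofNat 26706188130839559014400, Int.ofNat 173962073015134038835200, Int.ofNat 98342683932648580588800, Int.negSucc 992836350356036659199, Int.negSucc 8599401038209892601599, Int.ofNat 8483282769513055795200, Int.negSucc 245525017568814562924799, Int.ofNat 71408177452707648134400, Int.ofNat 40608985306320341164800, Int.ofNat 85804267796198859398400, Int.ofNat 12874443027754833907200, Int.negSucc 2154116372605561727999, Int.ofNat 103072406330258762342400, Int.ofNat 31018273829614688198400, Int.ofNat 37264152140454479385600, Int.negSucc 26720732684907566323199, Int.negSucc 13480156104602959699199],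
  [Int.negSucc 1430299264631399825644799, Int.negSucc 1551828002190137962617599, Int.negSucc 766997118398123787283199, Int.ofNat 3606115214590778150427852, Int.ofNat 405732554167911348268800, Int.ofNat 273623381425652107449600, Int.negSucc 1506965667815117722867199, Int.negSucc 295595015952125519884799, Int.ofNat 296447251415099787475200, Int.ofNat 58027373063359340659200, Int.ofNat 140358854710890650016000, Int.negSucc 389107195700324774399999, Int.ofNat 1299803727652677017971200, Int.negSucc 259906051357256665670399, Int.negSucc 3705279462446638799923199, Int.ofNat 778832761518411121267200, Int.ofNat 50733102981347113017600, Int.ofNat 61658609648048142912000, Int.negSucc 121615934719782107404799, Int.ofNat 57796112125343356128000, Int.ofNat 652238055825677350848000, Int.negSucc 137071651494393676569599, Int.ofNat 176248007634569675328000, Int.ofNat 83316107493374281344000, Int.negSucc 41630110915873675103999, Int.negSucc 35747703279760042771199, Int.ofNat 550715612344813843200, Int.ofNat 814537676779283227680000,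 Int.negSucc 128166471580548518207999, Int.negSucc 57233995256146169260799, Int.negSucc 152139018566598493247999, Int.negSucc 47015221828466617689599, Int.negSucc 56414358130365060134399, Int.negSucc 148063612352947168550399, Int.negSucc 87596804629815995404799, Int.ofNat 161056996105763753049600, Int.ofNat 20175755131899566035200, Int.negSucc 4809634287693769497599],
  [Int.ofNat 202210878251585491142400, Int.negSucc 998508648380514297062399, Int.ofNat 233742720146406653145600, Int.negSucc 1030196697214434144595199, Int.negSucc 98077231034628588287999, Int.negSucc 33574107932590947321599, Int.ofNat 464825380467950338636800, Int.negSucc 141885140222278085068799, Int.ofNat 226737102805117097356800, Int.ofNat 1095193791248035149216000, Int.negSucc 28417500076285426579199, Int.ofNat 16931533896655748697600, Int.negSucc 259906051357256665670399, Int.ofNat 250572370583000505312000, Int.ofNat 726071822149095807840000, Int.negSucc 125007585688878213484799, Int.ofNat 4732636501666932768000, Int.ofNat 22520362352931592531200,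 Int.ofNat 27457658182253976768000, Int.negSucc 9993835660324228876799, Int.negSucc 24462031457051493177599, Int.ofNat 6927905621761419859200, Int.negSucc 271197473972103518111999, Int.negSucc 204389905753466921779199, Int.ofNat 71087182169857150752000, Int.ofNat 29441644074356062348800, Int.negSucc 15542962741783739807999, Int.negSucc 193604623563974418431999, Int.ofNat 9710643310388260531200, Int.ofNat 80124601997607222182400, Int.negSucc 143022962847587302771199, Int.negSucc 27748458376383425990399, Int.ofNat 91312955798589582220800, Int.ofNat 25485870162151966694400, Int.negSucc 39056262364605743711999, Int.negSucc 139142296117240054329599, Int.ofNat 17116745567689687046400, Int.ofNat 10303386370560420883200],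
  [Int.ofNat 7694884715079819122611200, Int.ofNat 4764844562146873904044800, Int.ofNat 2891018645731593027705600, Int.negSucc 20840187742059575527387451, Int.negSucc 2039911663817111687366399, Int.negSucc 1450212680748100813689599, Int.ofNat 7424472014585601508915200, Int.ofNat 1512367150707015996556800, Int.negSucc 919835696199579753484799, Int.ofNat 486974906424266488300800, Int.negSucc 424988160204742562937599, Int.ofNat 881042185135693840896000, Int.negSucc 3705279462446638799923199, Int.ofNat 726071822149095807840000, Int.ofNat 19437097791791272162752000, Int.negSucc 3427228600996484321855999, Int.negSucc 260807019960367924243199, Int.negSucc 293516815995975546374399, Int.ofNat 513981289276627640832000, Int.negSucc 244324952709246224524799, Int.negSucc 2887034108204915040153599, Int.ofNat 479516830445478518784000, Int.negSucc 1064490529767466827916799, Int.negSucc 565063829778123942739199, Int.ofNat 379376569683873472838400, Int.ofNat 290534535265871594880000, Int.ofNat 271616241889595694873600, Int.negSucc 3849891297713354233267199,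 Int.ofNat 447793837395125672505600, Int.ofNat 308048892521164048800000, Int.ofNat 699229311576384145939200, Int.ofNat 166464653134694881075200, Int.ofNat 339396673656864064550400, Int.negSucc 412534757027482946438399, Int.ofNat 426299373450312784531200, Int.negSucc 1254128977207634898988799, Int.negSucc 53380737336173827507199, Int.ofNat 95316609881617781529600],
  [Int.negSucc 1699703286845034324671999, Int.negSucc 1102102012127645977593599, Int.negSucc 882701422967690768332799, Int.ofNat 2968647944735248162732800, Int.ofNat 389067533311027895251200, Int.ofNat 392404728625918056921600, Int.negSucc 1096223254650275861491199, Int.negSucc 411995733439605420268799, Int.ofNat 138190930260302996294400, Int.ofNat 2061203197144768185600, Int.ofNat 175065102843841776384000, Int.negSucc 225909697052704150886399, Int.ofNat 778832761518411121267200, Int.negSucc 125007585688878213484799, Int.negSucc 3427228600996484321855999, Int.ofNat 856046417040860714323200, Int.ofNat 34211754721501287840000, Int.ofNat 57543955241818133088000,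 Int.negSucc 115371895881035972505599, Int.ofNat 61333076834408690438400, Int.ofNat 522526040782380022752000, Int.negSucc 102476583429063008255999, Int.ofNat 145294468936908425971200, Int.ofNat 212419283834911183430400, Int.negSucc 136266868999236982406399, Int.negSucc 46752741667197223257599, Int.negSucc 40263135923264477932799, Int.ofNat 662055854353944507475200, Int.ofNat 944648915360219596800, Int.ofNat 26122301630364343622400, Int.negSucc 141774309164628986227199, Int.negSucc 39748403702373209625599, Int.negSucc 77054676486152287103999, Int.negSucc 125199204506437794969599, Int.negSucc 233586076786618649183999, Int.ofNat 304377078059645006707200, Int.ofNat 39450250900982030054400, Int.negSucc 14735503376358605567999],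
  [Int.negSucc 87053513560791067180799, Int.negSucc 185125610700280462867199, Int.negSucc 8422321567480486847999, Int.ofNat 292959057612046507718400, Int.ofNat 23940203605187735174400, Int.ofNat 12279615814680953356800, Int.negSucc 99163694688702218265599, Int.negSucc 28311080050459575532799, Int.ofNat 45292342069203659539200, Int.ofNat 98693727019751894284800, Int.negSucc 589171162497602630399, Int.negSucc 17268241706230232390399, Int.ofNat 50733102981347113017600, Int.ofNat 4732636501666932768000, Int.negSucc 260807019960367924243199, Int.ofNat 34211754721501287840000, Int.ofNat 5551184565556623302400, Int.ofNat 7012068471654332486400, Int.negSucc 5407270249104176543999, Int.ofNat 2335421468159190028800, Int.ofNat 47129462952046549401600, Int.negSucc 7141644577812960633599, Int.negSucc 7094402390365041023999, Int.negSucc 17555098785837133247999, Int.ofNat 4862727161251449235200, Int.negSucc 1785366762752375711999, Int.negSucc 4894747879618512115199, Int.ofNat 52707788001818509996800, Int.negSucc 14116137681487184179199,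 Int.negSucc 5034600209987360812799, Int.negSucc 22719904404328152403199, Int.negSucc 4546863076823823974399, Int.ofNat 3116659111666546118400, Int.ofNat 13536633795978876710400, Int.ofNat 134537751364109184000, Int.ofNat 192870523017323424000, Int.ofNat 1063969116053155603200, Int.negSucc 132490314553452710399],
  [Int.negSucc 126398646827951616518399, Int.negSucc 521206532647382910182399, Int.ofNat 3154243811842468800000, Int.ofNat 266477951341622573280000, Int.ofNat 24589183430563011187200, Int.ofNat 24289593074639752204800, Int.negSucc 68267626388679515615999, Int.negSucc 63802419055315117631999, Int.ofNat 129549273210594189388800, Int.ofNat 369891072544175765856000, Int.negSucc 1795396604935185907199, Int.negSucc 42676274872547048678399, Int.ofNat 61658609648048142912000, Int.ofNat 22520362352931592531200, Int.negSucc 293516815995975546374399, Int.ofNat 57543955241818133088000, Int.ofNat 7012068471654332486400, Int.ofNat 15826861487840295110400, Int.negSucc 7524008740202735289599, Int.ofNat 3269816253875037484800,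 Int.ofNat 52032666358758632601600, Int.negSucc 5281914603765625862399, Int.negSucc 69704052172368077318399, Int.negSucc 46003605441830272454399, Int.ofNat 3534773200213826188800, Int.ofNat 2192224555843651929600, Int.negSucc 9695053959237185011199, Int.ofNat 70066348217902564819200, Int.negSucc 21690325629271290700799, Int.negSucc 9654008255601652051199, Int.negSucc 39181438264735994572799, Int.negSucc 5338970032670930073599, Int.ofNat 6406168791933924249600, Int.negSucc 4730497627241524319999, Int.negSucc 10282735517561179545599, Int.negSucc 13462565459457818995199, Int.ofNat 8477323715005450905600, Int.ofNat 3538677054835608940800],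
  [Int.ofNat 231686528526607452480000, Int.ofNat 130268278604661200640000, Int.ofNat 116398181746931724057600, Int.negSucc 489250045017729987263999, Int.negSucc 57438109495527666796799, Int.negSucc 50172028357559036947199, Int.ofNat 183338318337595786310400, Int.ofNat 47563596579984829344000, Int.negSucc 17986175889899277715199, Int.ofNat 29571447942372793766400, Int.negSucc 21356228151519243091199, Int.ofNat 32956745695776732211200, Int.negSucc 121615934719782107404799, Int.ofNat 27457658182253976768000, Int.ofNat 513981289276627640832000, Int.negSucc 115371895881035972505599, Int.negSucc 5407270249104176543999, Int.negSucc 7524008740202735289599, Int.ofNat 16471058651030949638400, Int.negSucc 8294022416261763417599, Int.negSucc 76136239690703023103999, Int.ofNat 14443955805709648108800, Int.negSucc 29502180607984869657599, Int.negSucc 29819155215468244953599, Int.ofNat 17753982936858662457600, Int.ofNat 7480568104403693644800, Int.ofNat 5069946022822017792000, Int.negSucc 103480429645884391027199, Int.ofNat 5295522061159047244800,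 Int.ofNat 3397427345053196582400, Int.ofNat 15241026653204663001600, Int.ofNat 4413656861619754694400, Int.ofNat 12913435587806590636800, Int.ofNat 11950993889998471526400, Int.ofNat 24008488892882487302400, Int.negSucc 42080954677250239295999, Int.negSucc 3849915585285518111999, Int.ofNat 2242590677827230931200],
  [Int.negSucc 120994575581888779679999, Int.negSucc 46582303196001600518399, Int.negSucc 68696112643276783391999, Int.ofNat 209876871263526875116800, Int.ofNat 28287631474386995692800, Int.ofNat 27965822466902282726400, Int.negSucc 81325911323369182579199, Int.negSucc 27851047897596487199999, Int.ofNat 333292272879761395200, Int.negSucc 28499710215385837209599, Int.ofNat 13886419165204805856000, Int.negSucc 14406400579209230591999, Int.ofNat 57796112125343356128000, Int.negSucc 9993835660324228876799, Int.negSucc 244324952709246224524799, Int.ofNat 61333076834408690438400, Int.ofNat 2335421468159190028800, Int.ofNat 3269816253875037484800, Int.negSucc 8294022416261763417599, Int.ofNat 4531215030285350534400,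 Int.ofNat 38853642843376944710400, Int.negSucc 8256452801718652876799, Int.ofNat 17253241692049327910400, Int.ofNat 18577926661123883289600, Int.negSucc 9445369184965169164799, Int.negSucc 3672480078824325350399, Int.negSucc 2128986054762263423999, Int.ofNat 45225138261730966156800, Int.ofNat 1559422493526763756800, Int.ofNat 4023271801610221305600, Int.negSucc 9896991657990971788799, Int.negSucc 3313664177702053593599, Int.negSucc 5327019633785291769599, Int.negSucc 8571341805679488326399, Int.negSucc 17259664110828341529599, Int.ofNat 23468150948186531059200, Int.ofNat 2218553407261172217600, Int.negSucc 1480137543851289523199],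
  [Int.negSucc 1146761269846339377484799, Int.negSucc 1072659060520405394399999, Int.negSucc 457691246996009796806399, Int.ofNat 2898889989789552312153600, Int.ofNat 299588749353881172057600, Int.ofNat 213022814727638218867200, Int.negSucc 1083782266565737996857599, Int.negSucc 306037807772011099948799, Int.ofNat 185253906160465440480000, Int.ofNat 173349009010239030259200, Int.ofNat 81408648721347809971200, Int.negSucc 165505449034879800537599, Int.ofNat 652238055825677350848000, Int.negSucc 24462031457051493177599, Int.negSucc 2887034108204915040153599, Int.ofNat 522526040782380022752000, Int.ofNat 47129462952046549401600, Int.ofNat 52032666358758632601600, Int.negSucc 76136239690703023103999, Int.ofNat 38853642843376944710400, Int.ofNat 525533283581360897606400, Int.negSucc 101322378372298046745599, Int.ofNat 119800956625744620844800, Int.ofNat 8979454574532648460800, Int.negSucc 4447460099675258265599, Int.negSucc 32593738894484574643199, Int.negSucc 31959973683863148268799, Int.ofNat 536658263708087747116800, Int.negSucc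 67999941350205049785599, Int.ofNat 17925188729308168089600, Int.negSucc 202644466008454334591999, Int.negSucc 54392530320128360505599, Int.ofNat 1760568983359469337600, Int.ofNat 51663282099203672352000, Int.negSucc 90113479513286801644799, Int.ofNat 129595013497697162688000, Int.ofNat 10109668400181672940800, Int.negSucc 13193106963512106758399],
  [Int.ofNat 205824796366234101638400, Int.ofNat 57769353850293398476800, Int.ofNat 126050800453278673190400, Int.negSucc 425826139434368840294399, Int.negSucc 53922254444913505996799, Int.negSucc 41769842415738804057599, Int.ofNat 185591185202505239539200, Int.ofNat 54087998908281171724800, Int.ofNat 13468798912305448857600, Int.ofNat 94727524216908623040000, Int.negSucc 26748613512153071884799, Int.ofNat 26706188130839559014400, Int.negSucc 137071651494393676569599, Int.ofNat 6927905621761419859200, Int.ofNat 479516830445478518784000, Int.negSucc 102476583429063008255999, Int.negSucc 7141644577812960633599, Int.negSucc 5281914603765625862399, Int.ofNat 14443955805709648108800,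 Int.negSucc 8256452801718652876799, Int.negSucc 101322378372298046745599, Int.ofNat 24260475536603345894400, Int.negSucc 49654197001746409363199, Int.negSucc 20118419127268076159999, Int.ofNat 69255646191478656000, Int.ofNat 6159851925022756396800, Int.ofNat 313184978074557388800, Int.negSucc 78031270210893456038399, Int.ofNat 706711040815784659200, Int.negSucc 20309861003575118975999, Int.ofNat 38157941595621111264000, Int.ofNat 13395973245346083974400, Int.negSucc 2712166701989838911999, Int.ofNat 2298326421383531884800, Int.ofNat 26833873550935609267200, Int.negSucc 30748279147432909171199, Int.negSucc 425410714616048179199, Int.ofNat 3998576567573136057600],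
  [Int.negSucc 346250704827795395846399, Int.ofNat 3127271327802166572518400, Int.negSucc 527083008660387912095999, Int.ofNat 1460352061838310873523200, Int.ofNat 158663166137497135296000, Int.ofNat 60986478148391876371200, Int.negSucc 737634969397990051315199, Int.ofNat 209527056407810845267200, Int.negSucc 835187707597455665107199, Int.negSucc 2881771583755447739865599, Int.ofNat 91719319530422735424000, Int.ofNat 173962073015134038835200, Int.ofNat 176248007634569675328000, Int.negSucc 271197473972103518111999, Int.negSucc 1064490529767466827916799, Int.ofNat 145294468936908425971200, Int.negSucc 7094402390365041023999, Int.negSucc 69704052172368077318399, Int.negSucc 29502180607984869657599, Int.ofNat 17253241692049327910400, Int.ofNat 119800956625744620844800, Int.negSucc 49654197001746409363199, Int.ofNat 712565496173706440428800, Int.ofNat 432429438392396869132800, Int.negSucc 77938579353539975615999, Int.negSucc 64183070551430800569599, Int.ofNat 29871534082009880332800, Int.ofNat 105527917538094689164800, Int.ofNat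 92319168844654661145600, Int.ofNat 41786498487028292524800, Int.ofNat 153985685653145182636800, Int.ofNat 4058601292338491808000, Int.negSucc 92432187475224446303999, Int.ofNat 109010141129241728812800, Int.negSucc 2425590403730634067199, Int.ofNat 305113154879869807161600, Int.negSucc 56000929808442837254399, Int.negSucc 43857231530105259302399],
  [Int.negSucc 383879313879280977139199, Int.ofNat 2031778262199832180070400, Int.negSucc 511709673544198360358399, Int.ofNat 504081392177492092454400, Int.ofNat 107258913674757652953600, Int.ofNat 114844474155010803840000, Int.negSucc 298508910730526803507199, Int.ofNat 95433549880140710784000, Int.negSucc 567730900781309362406399, Int.negSucc 1871027601253233879455999, Int.ofNat 102157053070254903302400, Int.ofNat 98342683932648580588800, Int.ofNat 83316107493374281344000, Int.negSucc 204389905753466921779199, Int.negSucc 565063829778123942739199, Int.ofNat 212419283834911183430400, Int.negSucc 17555098785837133247999, Int.negSucc 46003605441830272454399, Int.negSucc 29819155215468244953599,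 Int.ofNat 18577926661123883289600, Int.ofNat 8979454574532648460800, Int.negSucc 20118419127268076159999, Int.ofNat 432429438392396869132800, Int.ofNat 376296004543831334726400, Int.negSucc 119110966643478915705599, Int.negSucc 42421228374442320748799, Int.ofNat 17311503107894507366400, Int.ofNat 53227918260985570502400, Int.ofNat 110147297167558039334400, Int.ofNat 39600671923629012268800, Int.ofNat 144286078948872399302400, Int.ofNat 14554959463811129126400, Int.negSucc 95915260057941418348799, Int.negSucc 38897942226928539955199, Int.negSucc 79676449555563717292799, Int.ofNat 268440594929992350028800, Int.negSucc 18373568606967759494399, Int.negSucc 26516851186337203910399],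
  [Int.ofNat 256863945329066594937600, Int.negSucc 290406898653201606931199, Int.ofNat 187266499654090293964800, Int.negSucc 310950477942707432793599, Int.negSucc 54447590956505868575999, Int.negSucc 73422064444253768006399, Int.ofNat 107309711522027222208000, Int.ofNat 12337744381744143398400, Int.ofNat 87079211808787283904000, Int.ofNat 333052016832669853555200, Int.negSucc 35445341219079213676799, Int.negSucc 992836350356036659199, Int.negSucc 41630110915873675103999, Int.ofNat 71087182169857150752000, Int.ofNat 379376569683873472838400, Int.negSucc 136266868999236982406399, Int.ofNat 4862727161251449235200, Int.ofNat 3534773200213826188800, Int.ofNat 17753982936858662457600, Int.negSucc 9445369184965169164799, Int.negSucc 4447460099675258265599, Int.ofNat 69255646191478656000, Int.negSucc 77938579353539975615999, Int.negSucc 119110966643478915705599, Int.ofNat 62757130805572605292800, Int.ofNat 13985607630493961280000, Int.ofNat 5201540293237813324800, Int.negSucc 77547750392481193843199, Int.negSucc 28690601050371992659199,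 Int.ofNat 8185811664365458905600, Int.negSucc 47184412249050479020799, Int.negSucc 10257020832862193644799, Int.ofNat 45490342208546378707200, Int.ofNat 39268317127345178745600, Int.ofNat 44932529909510582976000, Int.negSucc 102060395435169216863999, Int.negSucc 5011916585506420262399, Int.ofNat 5037822230712407136000],
  [Int.ofNat 112993468620932736345600, Int.negSucc 199207908796980320539584, Int.ofNat 65610259719085784102400, Int.negSucc 347915280187562082828094, Int.negSucc 33848760183955427692799, Int.negSucc 21660582343550382086399, Int.ofNat 131644480427845959974400, Int.negSucc 1747723025567193292799, Int.ofNat 53838962383981807468800, Int.ofNat 224151363890698283020800, Int.negSucc 9556676123372690457599, Int.negSucc 8599401038209892601599, Int.negSucc 35747703279760042771199, Int.ofNat 29441644074356062348800, Int.ofNat 290534535265871594880000, Int.negSucc 46752741667197223257599, Int.negSucc 1785366762752375711999, Int.ofNat 2192224555843651929600, Int.ofNat 7480568104403693644800, Int.negSucc 3672480078824325350399,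 Int.negSucc 32593738894484574643199, Int.ofNat 6159851925022756396800, Int.negSucc 64183070551430800569599, Int.negSucc 42421228374442320748799, Int.ofNat 13985607630493961280000, Int.ofNat 8755481955209491756800, Int.ofNat 2490172009429077792000, Int.negSucc 50456453583381279033599, Int.negSucc 3098080242190208620799, Int.ofNat 3740895808935677683200, Int.negSucc 9191107197847793836799, Int.negSucc 462320000833714732799, Int.ofNat 13686052181033289657600, Int.negSucc 16058719264723003814399, Int.ofNat 4400689542819043219200, Int.negSucc 40993845281479306943999, Int.ofNat 3429806232681368467200, Int.ofNat 4451332182166926201600],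
  [Int.ofNat 117009322289020660262400, Int.ofNat 250074436866138470476800, Int.negSucc 5318760715259715359999, Int.negSucc 302970974682856800902399, Int.negSucc 23738559916319004556799, Int.negSucc 22258164144418271596799, Int.ofNat 71375791624510070880000, Int.ofNat 40349397561343636147200, Int.negSucc 65816974531986418540799, Int.negSucc 183364160370280092403199, Int.ofNat 4470294764897258169600, Int.ofNat 8483282769513055795200, Int.ofNat 550715612344813843200, Int.negSucc 15542962741783739807999, Int.ofNat 271616241889595694873600, Int.negSucc 40263135923264477932799, Int.negSucc 4894747879618512115199, Int.negSucc 9695053959237185011199, Int.ofNat 5069946022822017792000, Int.negSucc 2128986054762263423999, Int.negSucc 31959973683863148268799, Int.ofNat 313184978074557388800, Int.ofNat 29871534082009880332800, Int.ofNat 17311503107894507366400, Int.ofNat 5201540293237813324800, Int.ofNat 2490172009429077792000, Int.ofNat 11871817281594807264000, Int.negSucc 55191406098836561299199, Int.ofNat 10810127196139277260800,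 Int.ofNat 10015577028234243648000, Int.ofNat 19925748574527157689600, Int.ofNat 1279227282811685625600, Int.ofNat 1327487766001713388800, Int.negSucc 19120290446493884793599, Int.ofNat 6698616242929302182400, Int.negSucc 8615225326350160627199, Int.negSucc 4202228294406119577599, Int.negSucc 302902406125709644799],
  [Int.negSucc 1453995130282964559763199, Int.negSucc 1508681710930404005049599, Int.negSucc 462057984760086637977599, Int.ofNat 4244993393446975420742400, Int.ofNat 395719337237014097798400, Int.ofNat 263241011302095190291200, Int.negSucc 1488267614461628827007999, Int.negSucc 271956511342429170566399, Int.ofNat 369317967867057134016000, Int.ofNat 336586440810544257715200, Int.ofNat 53390480114443068979200, Int.negSucc 245525017568814562924799, Int.ofNat 814537676779283227680000, Int.negSucc 193604623563974418431999, Int.negSucc 3849891297713354233267199, Int.ofNat 662055854353944507475200, Int.ofNat 52707788001818509996800, Int.ofNat 70066348217902564819200, Int.negSucc 103480429645884391027199, Int.ofNat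 45225138261730966156800, Int.ofNat 536658263708087747116800, Int.negSucc 78031270210893456038399, Int.ofNat 105527917538094689164800, Int.ofNat 53227918260985570502400, Int.negSucc 77547750392481193843199, Int.negSucc 50456453583381279033599, Int.negSucc 55191406098836561299199, Int.ofNat 837144281085509370355200, Int.negSucc 141007290704345782079999, Int.negSucc 135816889877570755526399, Int.negSucc 107753517075337514035199, Int.negSucc 16428622660276535654399, Int.negSucc 83977478499241533023999, Int.ofNat 45413211894059417990400, Int.negSucc 37870336777184129836799, Int.ofNat 200603259285213793881600, Int.ofNat 17729789763078946425600, Int.negSucc 8136818877773508249599],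
  [Int.ofNat 35530269562426567219200, Int.ofNat 758090432014834385376000, Int.negSucc 139007696939746369862399, Int.negSucc 692236148760532643903999, Int.negSucc 28162707865791759187199, Int.ofNat 22475169519636396326400, Int.ofNat 215572003659663193670400, Int.ofNat 17534419920141006355200, Int.negSucc 231808021452607028083199, Int.negSucc 531320141926190729548799, Int.ofNat 40919446541665781107200, Int.ofNat 71408177452707648134400, Int.negSucc 128166471580548518207999, Int.ofNat 9710643310388260531200, Int.ofNat 447793837395125672505600, Int.ofNat 944648915360219596800, Int.negSucc 14116137681487184179199, Int.negSucc 21690325629271290700799, Int.ofNat 5295522061159047244800, Int.ofNat 1559422493526763756800, Int.negSucc 67999941350205049785599, Int.ofNat 706711040815784659200, Int.ofNat 92319168844654661145600, Int.ofNat 110147297167558039334400, Int.negSucc 28690601050371992659199, Int.negSucc 3098080242190208620799, Int.ofNat 10810127196139277260800, Int.negSucc 141007290704345782079999, Int.ofNat 77807488712748683616000,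 Int.ofNat 67642796611035759859200, Int.ofNat 31663345240323444211200, Int.negSucc 1194440303678159865599, Int.negSucc 6009486658497220953599, Int.negSucc 36479401003747043596799, Int.negSucc 59367773156457787257599, Int.ofNat 60521752384225486099200, Int.negSucc 2009869482048264345599, Int.negSucc 7413435949104230572799],
  [Int.negSucc 20247483710673724377599, Int.ofNat 328441889168197280985600, Int.negSucc 143118739740079334649599, Int.negSucc 665058650604742061740799, Int.negSucc 19674924491574540115199, Int.ofNat 29238716332346934067200, Int.ofNat 191664103729775469811200, Int.negSucc 61895744636125945708799, Int.negSucc 150590857632045095865599, Int.negSucc 225066720995552264774399, Int.ofNat 48510279874577616076800, Int.ofNat 40608985306320341164800, Int.negSucc 57233995256146169260799, Int.ofNat 80124601997607222182400, Int.ofNat 308048892521164048800000, Int.ofNat 26122301630364343622400, Int.negSucc 5034600209987360812799, Int.negSucc 9654008255601652051199, Int.ofNat 3397427345053196582400, Int.ofNat 4023271801610221305600,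 Int.ofNat 17925188729308168089600, Int.negSucc 20309861003575118975999, Int.ofNat 41786498487028292524800, Int.ofNat 39600671923629012268800, Int.ofNat 8185811664365458905600, Int.ofNat 3740895808935677683200, Int.ofNat 10015577028234243648000, Int.negSucc 135816889877570755526399, Int.ofNat 67642796611035759859200, Int.ofNat 105348663118162984665600, Int.negSucc 51363317526940471852799, Int.negSucc 23014700521284813868799, Int.ofNat 32006303926917020064000, Int.negSucc 30372943994015266425599, Int.negSucc 78515799617862241689599, Int.ofNat 19183105788279482649600, Int.ofNat 1805374247118068390400, Int.negSucc 6078723521472778175999],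
  [Int.ofNat 328036278443429765664000, Int.ofNat 1262573111541070421164800, Int.ofNat 35096504679680717145600, Int.negSucc 477235362175691548665599, Int.negSucc 57556361137536844127999, Int.negSucc 63402016173699191788799, Int.ofNat 138155410863374523091200, Int.ofNat 221223279723753209011200, Int.negSucc 268700174086819294310399, Int.negSucc 896261995569700694188799, Int.negSucc 15533572016096766777599, Int.ofNat 85804267796198859398400, Int.negSucc 152139018566598493247999, Int.negSucc 143022962847587302771199, Int.ofNat 699229311576384145939200, Int.negSucc 141774309164628986227199, Int.negSucc 22719904404328152403199, Int.negSucc 39181438264735994572799, Int.ofNat 15241026653204663001600, Int.negSucc 9896991657990971788799, Int.negSucc 202644466008454334591999, Int.ofNat 38157941595621111264000, Int.ofNat 153985685653145182636800, Int.ofNat 144286078948872399302400, Int.negSucc 47184412249050479020799, Int.negSucc 9191107197847793836799, Int.ofNat 19925748574527157689600, Int.negSucc 107753517075337514035199, Int.ofNat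 31663345240323444211200, Int.negSucc 51363317526940471852799, Int.ofNat 177603710355635232614400, Int.ofNat 39983901124188920371200, Int.negSucc 60383675885568497279999, Int.negSucc 12659064252493329215999, Int.ofNat 59416108010638666560000, Int.ofNat 52971389180217343180800, Int.negSucc 18168291285936128063999, Int.negSucc 4281851942821860825599],
  [Int.ofNat 83948225355277353907200, Int.ofNat 146853511938590587603200, Int.ofNat 42307787647258697491200, Int.negSucc 95193439801554255033599, Int.negSucc 16930232624976154847999, Int.negSucc 17769914021022508799999, Int.ofNat 44015408043494173977600, Int.ofNat 46932385435643661408000, Int.negSucc 17313324769482235603199, Int.negSucc 74724947302300311743999, Int.negSucc 11957205850265081951999, Int.ofNat 12874443027754833907200, Int.negSucc 47015221828466617689599, Int.negSucc 27748458376383425990399, Int.ofNat 166464653134694881075200, Int.negSucc 39748403702373209625599, Int.negSucc 4546863076823823974399, Int.negSucc 5338970032670930073599, Int.ofNat 4413656861619754694400,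 Int.negSucc 3313664177702053593599, Int.negSucc 54392530320128360505599, Int.ofNat 13395973245346083974400, Int.ofNat 4058601292338491808000, Int.ofNat 14554959463811129126400, Int.negSucc 10257020832862193644799, Int.negSucc 462320000833714732799, Int.ofNat 1279227282811685625600, Int.negSucc 16428622660276535654399, Int.negSucc 1194440303678159865599, Int.negSucc 23014700521284813868799, Int.ofNat 39983901124188920371200, Int.ofNat 11513226609627158707200, Int.negSucc 13955609371275039686399, Int.negSucc 1281223390492360223999, Int.ofNat 19678206771591087283200, Int.ofNat 1537765583578341062400, Int.negSucc 2042055820807623129599, Int.ofNat 1014997103719475385600],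
  [Int.ofNat 149197435907968396166400, Int.negSucc 356848310088762511219199, Int.ofNat 110424904060013084505600, Int.negSucc 426398265486270693907199, Int.negSucc 45229049788242346790399, Int.negSucc 35449435164951416044799, Int.ofNat 160045950957473436710400, Int.negSucc 35556521310854426937599, Int.ofNat 81763736378206899744000, Int.ofNat 382409943558083317094400, Int.negSucc 14615856894683473228799, Int.negSucc 2154116372605561727999, Int.negSucc 56414358130365060134399, Int.ofNat 91312955798589582220800, Int.ofNat 339396673656864064550400, Int.negSucc 77054676486152287103999, Int.ofNat 3116659111666546118400, Int.ofNat 6406168791933924249600, Int.ofNat 12913435587806590636800, Int.negSucc 5327019633785291769599, Int.ofNat 1760568983359469337600, Int.negSucc 2712166701989838911999, Int.negSucc 92432187475224446303999, Int.negSucc 95915260057941418348799, Int.ofNat 45490342208546378707200, Int.ofNat 13686052181033289657600, Int.ofNat 1327487766001713388800, Int.negSucc 83977478499241533023999, Int.negSucc 6009486658497220953599,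 Int.ofNat 32006303926917020064000, Int.negSucc 60383675885568497279999, Int.negSucc 13955609371275039686399, Int.ofNat 44102061980842964716800, Int.ofNat 12081018022865247456000, Int.ofNat 2326880858916613708800, Int.negSucc 76507736208883185023999, Int.ofNat 2368590051682685376000, Int.ofNat 4388762859290587814400],
  [Int.ofNat 50340619790948714572800, Int.ofNat 468401318125063485926400, Int.ofNat 195440586619378112812800, Int.ofNat 966538321032462450854400, Int.ofNat 22919339854626037804800, Int.negSucc 58162008253982362329599, Int.negSucc 291699406679831306956799, Int.ofNat 63377595874554275059200, Int.negSucc 72375375825683891251199, Int.negSucc 308712815048822451321599, Int.negSucc 59651613428258265523199, Int.ofNat 103072406330258762342400, Int.negSucc 148063612352947168550399, Int.ofNat 25485870162151966694400, Int.negSucc 412534757027482946438399, Int.negSucc 125199204506437794969599, Int.ofNat 13536633795978876710400, Int.negSucc 4730497627241524319999, Int.ofNat 11950993889998471526400, Int.negSucc 8571341805679488326399,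 Int.ofNat 51663282099203672352000, Int.ofNat 2298326421383531884800, Int.ofNat 109010141129241728812800, Int.negSucc 38897942226928539955199, Int.ofNat 39268317127345178745600, Int.negSucc 16058719264723003814399, Int.negSucc 19120290446493884793599, Int.ofNat 45413211894059417990400, Int.negSucc 36479401003747043596799, Int.negSucc 30372943994015266425599, Int.negSucc 12659064252493329215999, Int.negSucc 1281223390492360223999, Int.ofNat 12081018022865247456000, Int.ofNat 208711397184986504390400, Int.ofNat 86630470974786614803200, Int.ofNat 809656658476916140800, Int.negSucc 26103550033679850950399, Int.negSucc 10864168598091436991999],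
  [Int.ofNat 421694828299768116038400, Int.ofNat 205391373617676648729600, Int.ofNat 308174092874075570688000, Int.ofNat 43321510450504158163200, Int.negSucc 62277871685225120870399, Int.negSucc 128908125091524752063999, Int.negSucc 6976715403982106764799, Int.ofNat 160514297093643423840000, Int.ofNat 29063117267597791123200, Int.negSucc 35953424675520505171199, Int.negSucc 78218722638942080831999, Int.ofNat 31018273829614688198400, Int.negSucc 87596804629815995404799, Int.negSucc 39056262364605743711999, Int.ofNat 426299373450312784531200, Int.negSucc 233586076786618649183999, Int.ofNat 134537751364109184000, Int.negSucc 10282735517561179545599, Int.ofNat 24008488892882487302400, Int.negSucc 17259664110828341529599, Int.negSucc 90113479513286801644799, Int.ofNat 26833873550935609267200, Int.negSucc 2425590403730634067199, Int.negSucc 79676449555563717292799, Int.ofNat 44932529909510582976000, Int.ofNat 4400689542819043219200, Int.ofNat 6698616242929302182400, Int.negSucc 37870336777184129836799, Int.negSucc 59367773156457787257599,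 Int.negSucc 78515799617862241689599, Int.ofNat 59416108010638666560000, Int.ofNat 19678206771591087283200, Int.ofNat 2326880858916613708800, Int.ofNat 86630470974786614803200, Int.ofNat 132025875480667756224000, Int.negSucc 87419616493796516966399, Int.negSucc 19741474883957215334399, Int.ofNat 4174518744670256236800],
  [Int.negSucc 641721797799358060511999, Int.ofNat 1033892244582562892217600, Int.negSucc 460494971817645214195199, Int.ofNat 1240962911869523730451200, Int.ofNat 161705195666196248102400, Int.ofNat 155138528288112681312000, Int.negSucc 487764192441264969484799, Int.negSucc 32796189661267358726399, Int.negSucc 313127869608611775244799, Int.negSucc 1143069996221385774796799, Int.ofNat 85907766855539173708800, Int.ofNat 37264152140454479385600, Int.ofNat 161056996105763753049600, Int.negSucc 139142296117240054329599, Int.negSucc 1254128977207634898988799, Int.ofNat 304377078059645006707200, Int.ofNat 192870523017323424000, Int.negSucc 13462565459457818995199, Int.negSucc 42080954677250239295999, Int.ofNat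 23468150948186531059200, Int.ofNat 129595013497697162688000, Int.negSucc 30748279147432909171199, Int.ofNat 305113154879869807161600, Int.ofNat 268440594929992350028800, Int.negSucc 102060395435169216863999, Int.negSucc 40993845281479306943999, Int.negSucc 8615225326350160627199, Int.ofNat 200603259285213793881600, Int.ofNat 60521752384225486099200, Int.ofNat 19183105788279482649600, Int.ofNat 52971389180217343180800, Int.ofNat 1537765583578341062400, Int.negSucc 76507736208883185023999, Int.ofNat 809656658476916140800, Int.negSucc 87419616493796516966399, Int.ofNat 240278932947367463385600, Int.negSucc 5772212358610464748799, Int.negSucc 21772322556977278540799],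
  [Int.negSucc 65219601106845508377599, Int.negSucc 316268343250672852166399, Int.negSucc 15676739597136830284799, Int.negSucc 40788722557794263270399, Int.ofNat 4809849744885274252800, Int.ofNat 20578199052151954886400, Int.ofNat 31126049586830618784000, Int.negSucc 43147126414835556422399, Int.ofNat 72844458959284184390400, Int.ofNat 243447088541363913024000, Int.ofNat 5610662097207012518400, Int.negSucc 26720732684907566323199, Int.ofNat 20175755131899566035200, Int.ofNat 17116745567689687046400, Int.negSucc 53380737336173827507199, Int.ofNat 39450250900982030054400, Int.ofNat 1063969116053155603200, Int.ofNat 8477323715005450905600, Int.negSucc 3849915585285518111999, Int.ofNat 2218553407261172217600, Int.ofNat 10109668400181672940800, Int.negSucc 425410714616048179199, Int.negSucc 56000929808442837254399, Int.negSucc 18373568606967759494399, Int.negSucc 5011916585506420262399, Int.ofNat 3429806232681368467200, Int.negSucc 4202228294406119577599, Int.ofNat 17729789763078946425600, Int.negSucc 2009869482048264345599,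 Int.ofNat 1805374247118068390400, Int.negSucc 18168291285936128063999, Int.negSucc 2042055820807623129599, Int.ofNat 2368590051682685376000, Int.negSucc 26103550033679850950399, Int.negSucc 19741474883957215334399, Int.negSucc 5772212358610464748799, Int.ofNat 8318271956296142131200, Int.ofNat 3114234851724978508800],
  [Int.ofNat 39539199579619888512000, Int.negSucc 184131317246346366623999, Int.ofNat 37054987886441759270400, Int.negSucc 113679160086951531071999, Int.negSucc 12658203735567413587199, Int.negSucc 8006199279100123046399, Int.ofNat 49898245596538085510400, Int.negSucc 4958794329537678739199, Int.ofNat 51744888684197607225600, Int.ofNat 170014976522814786854400, Int.negSucc 6783539962227060614399, Int.negSucc 13480156104602959699199, Int.negSucc 4809634287693769497599, Int.ofNat 10303386370560420883200, Int.ofNat 95316609881617781529600, Int.negSucc 14735503376358605567999, Int.negSucc 132490314553452710399, Int.ofNat 3538677054835608940800, Int.ofNat 2242590677827230931200, Int.negSucc 1480137543851289523199,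 Int.negSucc 13193106963512106758399, Int.ofNat 3998576567573136057600, Int.negSucc 43857231530105259302399, Int.negSucc 26516851186337203910399, Int.ofNat 5037822230712407136000, Int.ofNat 4451332182166926201600, Int.negSucc 302902406125709644799, Int.negSucc 8136818877773508249599, Int.negSucc 7413435949104230572799, Int.negSucc 6078723521472778175999, Int.negSucc 4281851942821860825599, Int.ofNat 1014997103719475385600, Int.ofNat 4388762859290587814400, Int.negSucc 10864168598091436991999, Int.ofNat 4174518744670256236800, Int.negSucc 21772322556977278540799, Int.ofNat 3114234851724978508800, Int.ofNat 3193785946656044812800]]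
  U := [[Int.ofNat 200444934, Int.ofNat 0, Int.ofNat 0, Int.ofNat 0, Int.ofNat 0, Int.ofNat 0, Int.ofNat 0, Int.ofNat 0, Int.ofNat 0, Int.ofNat 0, Int.ofNat 0, Int.ofNat 0, Int.ofNat 0, Int.ofNat 0, Int.ofNat 0, Int.ofNat 0, Int.ofNat 0, Int.ofNat 0, Int.ofNat 0, Int.ofNat 0, Int.ofNat 0, Int.ofNat 0, Int.ofNat 0, Int.ofNat 0, Int.ofNat 0, Int.ofNat 0, Int.ofNat 0, Int.ofNat 0, Int.ofNat 0, Int.ofNat 0, Int.ofNat 0, Int.ofNat 0, Int.ofNat 0, Int.ofNat 0, Int.ofNat 0, Int.ofNat 0, Int.ofNat 0, Int.ofNat 0],
  [Int.ofNat 120535700, Int.ofNat 447398181, Int.ofNat 0, Int.ofNat 0, Int.ofNat 0, Int.ofNat 0, Int.ofNat 0, Int.ofNat 0, Int.ofNat 0, Int.ofNat 0, Int.ofNat 0, Int.ofNat 0, Int.ofNat 0, Int.ofNat 0, Int.ofNat 0, Int.ofNat 0, Int.ofNat 0, Int.ofNat 0, Int.ofNat 0, Int.ofNat 0, Int.ofNat 0, Int.ofNat 0, Int.ofNat 0, Int.ofNat 0, Int.ofNat 0, Int.ofNat 0, Int.ofNat 0, Int.ofNat 0, Int.ofNat 0, Int.ofNat 0, Int.ofNat 0, Int.ofNat 0, Int.ofNat 0, Int.ofNat 0, Int.ofNat 0, Int.ofNat 0, Int.ofNat 0, Int.ofNat 0],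
  [Int.ofNat 91014791, Int.negSucc 51354823, Int.ofNat 58109432, Int.ofNat 0, Int.ofNat 0, Int.ofNat 0, Int.ofNat 0, Int.ofNat 0, Int.ofNat 0, Int.ofNat 0, Int.ofNat 0, Int.ofNat 0, Int.ofNat 0, Int.ofNat 0, Int.ofNat 0, Int.ofNat 0, Int.ofNat 0, Int.ofNat 0, Int.ofNat 0, Int.ofNat 0, Int.ofNat 0, Int.ofNat 0, Int.ofNat 0, Int.ofNat 0, Int.ofNat 0, Int.ofNat 0, Int.ofNat 0, Int.ofNat 0, Int.ofNat 0, Int.ofNat 0, Int.ofNat 0, Int.ofNat 0, Int.ofNat 0, Int.ofNat 0, Int.ofNat 0, Int.ofNat 0, Int.ofNat 0, Int.ofNat 0],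
  [Int.negSucc 403399325, Int.ofNat 29359450, Int.ofNat 247544093, Int.ofNat 224201897, Int.ofNat 0, Int.ofNat 0, Int.ofNat 0, Int.ofNat 0, Int.ofNat 0, Int.ofNat 0, Int.ofNat 0, Int.ofNat 0, Int.ofNat 0, Int.ofNat 0, Int.ofNat 0, Int.ofNat 0, Int.ofNat 0, Int.ofNat 0, Int.ofNat 0, Int.ofNat 0, Int.ofNat 0, Int.ofNat 0, Int.ofNat 0, Int.ofNat 0, Int.ofNat 0, Int.ofNat 0, Int.ofNat 0, Int.ofNat 0, Int.ofNat 0, Int.ofNat 0, Int.ofNat 0, Int.ofNat 0, Int.ofNat 0, Int.ofNat 0, Int.ofNat 0, Int.ofNat 0, Int.ofNat 0, Int.ofNat 0],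
  [Int.negSucc 47001921, Int.ofNat 6122213, Int.ofNat 5907304, Int.ofNat 13880667, Int.ofNat 353222, Int.ofNat 0, Int.ofNat 0, Int.ofNat 0, Int.ofNat 0, Int.ofNat 0, Int.ofNat 0, Int.ofNat 0, Int.ofNat 0, Int.ofNat 0, Int.ofNat 0, Int.ofNat 0, Int.ofNat 0, Int.ofNat 0, Int.ofNat 0, Int.ofNat 0, Int.ofNat 0, Int.ofNat 0, Int.ofNat 0, Int.ofNat 0, Int.ofNat 0, Int.ofNat 0, Int.ofNat 0, Int.ofNat 0, Int.ofNat 0, Int.ofNat 0, Int.ofNat 0, Int.ofNat 0, Int.ofNat 0, Int.ofNat 0, Int.ofNat 0, Int.ofNat 0, Int.ofNat 0, Int.ofNat 0],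
  [Int.negSucc 43909081, Int.ofNat 1540891, Int.negSucc 10100371, Int.negSucc 9903796, Int.negSucc 3111979, Int.ofNat 1704832, Int.ofNat 0, Int.ofNat 0, Int.ofNat 0, Int.ofNat 0, Int.ofNat 0, Int.ofNat 0, Int.ofNat 0, Int.ofNat 0, Int.ofNat 0, Int.ofNat 0, Int.ofNat 0, Int.ofNat 0, Int.ofNat 0, Int.ofNat 0, Int.ofNat 0, Int.ofNat 0, Int.ofNat 0, Int.ofNat 0, Int.ofNat 0, Int.ofNat 0, Int.ofNat 0, Int.ofNat 0, Int.ofNat 0, Int.ofNat 0, Int.ofNat 0, Int.ofNat 0, Int.ofNat 0, Int.ofNat 0, Int.ofNat 0, Int.ofNat 0, Int.ofNat 0, Int.ofNat 0],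
  [Int.ofNat 142232202, Int.negSucc 32619475, Int.negSucc 61676599, Int.negSucc 104387555, Int.negSucc 9006049, Int.ofNat 4854195, Int.ofNat 528849, Int.ofNat 0, Int.ofNat 0, Int.ofNat 0, Int.ofNat 0, Int.ofNat 0, Int.ofNat 0, Int.ofNat 0, Int.ofNat 0, Int.ofNat 0, Int.ofNat 0, Int.ofNat 0, Int.ofNat 0, Int.ofNat 0, Int.ofNat 0, Int.ofNat 0, Int.ofNat 0, Int.ofNat 0, Int.ofNat 0, Int.ofNat 0, Int.ofNat 0, Int.ofNat 0, Int.ofNat 0, Int.ofNat 0, Int.ofNat 0, Int.ofNat 0, Int.ofNat 0, Int.ofNat 0, Int.ofNat 0, Int.ofNat 0, Int.ofNat 0, Int.ofNat 0],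
  [Int.ofNat 47319871, Int.ofNat 35043494, Int.ofNat 10909504, Int.ofNat 18781566, Int.negSucc 16847472, Int.ofNat 9128678, Int.ofNat 815200, Int.ofNat 547875, Int.ofNat 0, Int.ofNat 0, Int.ofNat 0, Int.ofNat 0, Int.ofNat 0, Int.ofNat 0, Int.ofNat 0, Int.ofNat 0, Int.ofNat 0, Int.ofNat 0, Int.ofNat 0, Int.ofNat 0, Int.ofNat 0, Int.ofNat 0, Int.ofNat 0, Int.ofNat 0, Int.ofNat 0, Int.ofNat 0, Int.ofNat 0, Int.ofNat 0, Int.ofNat 0, Int.ofNat 0, Int.ofNat 0, Int.ofNat 0, Int.ofNat 0, Int.ofNat 0, Int.ofNat 0, Int.ofNat 0, Int.ofNat 0, Int.ofNat 0],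
  [Int.negSucc 16704476, Int.negSucc 117439509, Int.ofNat 16768749, Int.ofNat 7464502, Int.negSucc 10722514, Int.ofNat 5804944, Int.ofNat 526891, Int.ofNat 275786, Int.ofNat 197077, Int.ofNat 0, Int.ofNat 0, Int.ofNat 0, Int.ofNat 0, Int.ofNat 0, Int.ofNat 0, Int.ofNat 0, Int.ofNat 0, Int.ofNat 0, Int.ofNat 0, Int.ofNat 0, Int.ofNat 0, Int.ofNat 0, Int.ofNat 0, Int.ofNat 0, Int.ofNat 0, Int.ofNat 0, Int.ofNat 0, Int.ofNat 0, Int.ofNat 0, Int.ofNat 0, Int.ofNat 0, Int.ofNat 0, Int.ofNat 0, Int.ofNat 0, Int.ofNat 0, Int.ofNat 0, Int.ofNat 0, Int.ofNat 0],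
  [Int.ofNat 550515, Int.negSucc 369081979, Int.ofNat 20074202, Int.negSucc 61286157, Int.ofNat 33850, Int.negSucc 56061, Int.ofNat 55667, Int.negSucc 210444, Int.ofNat 25463, Int.ofNat 274294, Int.ofNat 0, Int.ofNat 0, Int.ofNat 0, Int.ofNat 0, Int.ofNat 0, Int.ofNat 0, Int.ofNat 0, Int.ofNat 0, Int.ofNat 0, Int.ofNat 0, Int.ofNat 0, Int.ofNat 0, Int.ofNat 0, Int.ofNat 0, Int.ofNat 0, Int.ofNat 0, Int.ofNat 0, Int.ofNat 0, Int.ofNat 0, Int.ofNat 0, Int.ofNat 0, Int.ofNat 0, Int.ofNat 0, Int.ofNat 0, Int.ofNat 0, Int.ofNat 0, Int.ofNat 0, Int.ofNat 0],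
  [Int.negSucc 16855787, Int.ofNat 9706648, Int.negSucc 17729191, Int.negSucc 3512494, Int.ofNat 2348806, Int.negSucc 1265548, Int.negSucc 123949, Int.negSucc 43114, Int.negSucc 10862, Int.negSucc 15671, Int.ofNat 169113, Int.ofNat 0, Int.ofNat 0, Int.ofNat 0, Int.ofNat 0, Int.ofNat 0, Int.ofNat 0, Int.ofNat 0, Int.ofNat 0, Int.ofNat 0, Int.ofNat 0, Int.ofNat 0, Int.ofNat 0, Int.ofNat 0, Int.ofNat 0, Int.ofNat 0, Int.ofNat 0, Int.ofNat 0, Int.ofNat 0, Int.ofNat 0, Int.ofNat 0, Int.ofNat 0, Int.ofNat 0, Int.ofNat 0, Int.ofNat 0, Int.ofNat 0, Int.ofNat 0, Int.ofNat 0],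
  [Int.ofNat 20853160, Int.ofNat 32545894, Int.ofNat 15737205, Int.negSucc 19109108, Int.ofNat 6928411, Int.negSucc 3768905, Int.negSucc 313250, Int.negSucc 276516, Int.negSucc 35331, Int.ofNat 57007, Int.negSucc 2300, Int.ofNat 190281, Int.ofNat 0, Int.ofNat 0, Int.ofNat 0, Int.ofNat 0, Int.ofNat 0, Int.ofNat 0, Int.ofNat 0, Int.ofNat 0, Int.ofNat 0, Int.ofNat 0, Int.ofNat 0, Int.ofNat 0, Int.ofNat 0, Int.ofNat 0, Int.ofNat 0, Int.ofNat 0, Int.ofNat 0, Int.ofNat 0, Int.ofNat 0, Int.ofNat 0, Int.ofNat 0, Int.ofNat 0, Int.ofNat 0, Int.ofNat 0, Int.ofNat 0, Int.ofNat 0],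
  [Int.negSucc 79610773, Int.negSucc 17249754, Int.negSucc 37813840, Int.ofNat 80217180, Int.ofNat 956845, Int.negSucc 465529, Int.negSucc 127818, Int.ofNat 303403, Int.ofNat 8985, Int.negSucc 177348, Int.ofNat 20830, Int.negSucc 86957, Int.ofNat 265333, Int.ofNat 0, Int.ofNat 0, Int.ofNat 0, Int.ofNat 0, Int.ofNat 0, Int.ofNat 0, Int.ofNat 0, Int.ofNat 0, Int.ofNat 0, Int.ofNat 0, Int.ofNat 0, Int.ofNat 0, Int.ofNat 0, Int.ofNat 0, Int.ofNat 0, Int.ofNat 0, Int.ofNat 0, Int.ofNat 0, Int.ofNat 0, Int.ofNat 0, Int.ofNat 0, Int.ofNat 0, Int.ofNat 0, Int.ofNat 0, Int.ofNat 0],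
  [Int.ofNat 11255102, Int.negSucc 27932192, Int.ofNat 2563944, Int.negSucc 30187178, Int.ofNat 27352491, Int.negSucc 14833570, Int.negSucc 1306454, Int.negSucc 814764, Int.negSucc 117208, Int.ofNat 89709, Int.ofNat 12056, Int.ofNat 88287, Int.negSucc 31446, Int.ofNat 262437, Int.ofNat 0, Int.ofNat 0, Int.ofNat 0, Int.ofNat 0, Int.ofNat 0, Int.ofNat 0, Int.ofNat 0, Int.ofNat 0, Int.ofNat 0, Int.ofNat 0, Int.ofNat 0, Int.ofNat 0, Int.ofNat 0, Int.ofNat 0, Int.ofNat 0, Int.ofNat 0, Int.ofNat 0, Int.ofNat 0, Int.ofNat 0, Int.ofNat 0, Int.ofNat 0, Int.ofNat 0, Int.ofNat 0, Int.ofNat 0],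
  [Int.ofNat 428298988, Int.ofNat 3431271, Int.negSucc 112731901, Int.negSucc 142412279, Int.negSucc 17886752, Int.ofNat 9656209, Int.ofNat 916574, Int.ofNat 416524, Int.ofNat 65244, Int.ofNat 16500, Int.negSucc 22280, Int.negSucc 22139, Int.negSucc 27201, Int.negSucc 76916, Int.ofNat 235335, Int.ofNat 0, Int.ofNat 0, Int.ofNat 0, Int.ofNat 0, Int.ofNat 0, Int.ofNat 0, Int.ofNat 0, Int.ofNat 0, Int.ofNat 0, Int.ofNat 0, Int.ofNat 0, Int.ofNat 0, Int.ofNat 0, Int.ofNat 0, Int.ofNat 0, Int.ofNat 0, Int.ofNat 0, Int.ofNat 0, Int.ofNat 0, Int.ofNat 0, Int.ofNat 0, Int.ofNat 0, Int.ofNat 0],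
  [Int.negSucc 94605860, Int.negSucc 1994997, Int.negSucc 23060826, Int.ofNat 3228528, Int.negSucc 6449196, Int.ofNat 3510181, Int.ofNat 291576, Int.ofNat 187384, Int.ofNat 27681, Int.negSucc 36240, Int.ofNat 5621, Int.negSucc 29533, Int.ofNat 14330, Int.negSucc 44980, Int.negSucc 22823, Int.ofNat 182156, Int.ofNat 0, Int.ofNat 0, Int.ofNat 0, Int.ofNat 0, Int.ofNat 0, Int.ofNat 0, Int.ofNat 0, Int.ofNat 0, Int.ofNat 0, Int.ofNat 0, Int.ofNat 0, Int.ofNat 0, Int.ofNat 0, Int.ofNat 0, Int.ofNat 0, Int.ofNat 0, Int.ofNat 0, Int.ofNat 0, Int.ofNat 0, Int.ofNat 0, Int.ofNat 0, Int.ofNat 0],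
  [Int.negSucc 4845417, Int.negSucc 3311066, Int.ofNat 3045963, Int.ofNat 2930622, Int.ofNat 2692303, Int.negSucc 1458494, Int.negSucc 131088, Int.negSucc 68526, Int.negSucc 10854, Int.ofNat 3485, Int.ofNat 1522, Int.ofNat 5992, Int.ofNat 1949, Int.ofNat 14928, Int.negSucc 3918, Int.negSucc 3574, Int.ofNat 166818, Int.ofNat 0, Int.ofNat 0, Int.ofNat 0, Int.ofNat 0, Int.ofNat 0, Int.ofNat 0, Int.ofNat 0, Int.ofNat 0, Int.ofNat 0, Int.ofNat 0, Int.ofNat 0, Int.ofNat 0, Int.ofNat 0, Int.ofNat 0, Int.ofNat 0, Int.ofNat 0, Int.ofNat 0, Int.ofNat 0, Int.ofNat 0, Int.ofNat 0, Int.ofNat 0],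
  [Int.negSucc 7035376, Int.negSucc 11101939, Int.ofNat 1813414, Int.ofNat 53632, Int.ofNat 487547, Int.negSucc 264623, Int.negSucc 22855, Int.negSucc 18323, Int.negSucc 1161, Int.ofNat 5011, Int.ofNat 285, Int.ofNat 1657, Int.negSucc 1117, Int.ofNat 2826, Int.negSucc 2076, Int.ofNat 72, Int.ofNat 108, Int.ofNat 166429, Int.ofNat 0, Int.ofNat 0, Int.ofNat 0, Int.ofNat 0, Int.ofNat 0, Int.ofNat 0, Int.ofNat 0, Int.ofNat 0, Int.ofNat 0, Int.ofNat 0, Int.ofNat 0, Int.ofNat 0, Int.ofNat 0, Int.ofNat 0, Int.ofNat 0, Int.ofNat 0, Int.ofNat 0, Int.ofNat 0, Int.ofNat 0, Int.ofNat 0],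
  [Int.ofNat 12895724, Int.negSucc 225786, Int.ofNat 1950380, Int.negSucc 3267230, Int.ofNat 1443642, Int.negSucc 785005, Int.negSucc 66037, Int.negSucc 47374, Int.negSucc 6455, Int.ofNat 8758, Int.negSucc 487, Int.ofNat 6817, Int.negSucc 4627, Int.ofNat 9398, Int.ofNat 1828, Int.negSucc 3993, Int.ofNat 539, Int.ofNat 40, Int.ofNat 166662, Int.ofNat 0, Int.ofNat 0, Int.ofNat 0, Int.ofNat 0, Int.ofNat 0, Int.ofNat 0, Int.ofNat 0, Int.ofNat 0, Int.ofNat 0, Int.ofNat 0, Int.ofNat 0, Int.ofNat 0, Int.ofNat 0, Int.ofNat 0, Int.ofNat 0, Int.ofNat 0, Int.ofNat 0, Int.ofNat 0, Int.ofNat 0],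
  [Int.negSucc 6734584, Int.ofNat 652770, Int.negSucc 2064375, Int.ofNat 520461, Int.ofNat 100315, Int.negSucc 52897, Int.negSucc 6892, Int.ofNat 602, Int.negSucc 415, Int.negSucc 3075, Int.ofNat 849, Int.negSucc 1226, Int.ofNat 2095, Int.negSucc 197, Int.negSucc 2365, Int.ofNat 1510, Int.negSucc 48, Int.ofNat 16, Int.negSucc 160, Int.ofNat 166430, Int.ofNat 0, Int.ofNat 0, Int.ofNat 0, Int.ofNat 0, Int.ofNat 0, Int.ofNat 0, Int.ofNat 0, Int.ofNat 0, Int.ofNat 0, Int.ofNat 0, Int.ofNat 0, Int.ofNat 0, Int.ofNat 0, Int.ofNat 0, Int.ofNat 0, Int.ofNat 0, Int.ofNat 0, Int.ofNat 0],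
  [Int.negSucc 63828985, Int.negSucc 9552521, Int.ofNat 3655857, Int.ofNat 26624503, Int.ofNat 27433231, Int.negSucc 14850162, Int.negSucc 1351818, Int.negSucc 658578, Int.negSucc 112463, Int.ofNat 1037, Int.ofNat 21402, Int.ofNat 47914, Int.ofNat 40845, Int.ofNat 147048, Int.negSucc 49033, Int.negSucc 27151, Int.ofNat 8583, Int.ofNat 973, Int.ofNat 4392, Int.ofNat 174, Int.ofNat 206108, Int.ofNat 0, Int.ofNat 0, Int.ofNat 0, Int.ofNat 0, Int.ofNat 0, Int.ofNat 0, Int.ofNat 0, Int.ofNat 0, Int.ofNat 0, Int.ofNat 0, Int.ofNat 0, Int.ofNat 0, Int.ofNat 0, Int.ofNat 0, Int.ofNat 0, Int.ofNat 0, Int.ofNat 0],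
  [Int.ofNat 11456254, Int.negSucc 1645884, Int.ofNat 4803215, Int.negSucc 5664988, Int.negSucc 7921777, Int.ofNat 4286929, Int.ofNat 392355, Int.ofNat 181605, Int.ofNat 32862, Int.ofNat 5742, Int.negSucc 6839, Int.negSucc 11580, Int.negSucc 15989, Int.negSucc 42113, Int.ofNat 13204, Int.ofNat 7639, Int.negSucc 2523, Int.negSucc 227, Int.negSucc 1223, Int.negSucc 95, Int.negSucc 21591, Int.ofNat 169039, Int.ofNat 0, Int.ofNat 0, Int.ofNat 0, Int.ofNat 0, Int.ofNat 0, Int.ofNat 0, Int.ofNat 0, Int.ofNat 0, Int.ofNat 0, Int.ofNat 0, Int.ofNat 0, Int.ofNat 0, Int.ofNat 0, Int.ofNat 0, Int.ofNat 0, Int.ofNat 0],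
  [Int.negSucc 19272390, Int.ofNat 83177319, Int.ofNat 2496404, Int.ofNat 24345868, Int.ofNat 6857204, Int.negSucc 3704202, Int.negSucc 349763, Int.negSucc 119206, Int.negSucc 33844, Int.negSucc 36680, Int.ofNat 6753, Int.ofNat 6561, Int.ofNat 20909, Int.ofNat 33002, Int.negSucc 13901, Int.negSucc 6826, Int.ofNat 2119, Int.negSucc 255, Int.ofNat 932, Int.ofNat 115, Int.ofNat 18966, Int.negSucc 4830, Int.ofNat 170252, Int.ofNat 0, Int.ofNat 0, Int.ofNat 0, Int.ofNat 0, Int.ofNat 0, Int.ofNat 0, Int.ofNat 0, Int.ofNat 0, Int.ofNat 0, Int.ofNat 0, Int.ofNat 0, Int.ofNat 0, Int.ofNat 0, Int.ofNat 0, Int.ofNat 0],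
  [Int.negSucc 21366807, Int.ofNat 56423175, Int.negSucc 14915813, Int.negSucc 4280281, Int.negSucc 15636211, Int.ofNat 8477753, Int.ofNat 751490, Int.ofNat 408667, Int.ofNat 60597, Int.negSucc 37127, Int.negSucc 5922, Int.negSucc 37669, Int.negSucc 9158, Int.negSucc 91305, Int.ofNat 8389, Int.ofNat 29056, Int.negSucc 5685, Int.negSucc 667, Int.negSucc 4014, Int.ofNat 729, Int.negSucc 42776, Int.ofNat 9832, Int.negSucc 6340, Int.ofNat 179709, Int.ofNat 0, Int.ofNat 0, Int.ofNat 0, Int.ofNat 0, Int.ofNat 0, Int.ofNat 0, Int.ofNat 0, Int.ofNat 0, Int.ofNat 0, Int.ofNat 0, Int.ofNat 0, Int.ofNat 0, Int.ofNat 0, Int.ofNat 0],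
  [Int.ofNat 14297104, Int.negSucc 11093754, Int.ofNat 3757236, Int.ofNat 7555029, Int.ofNat 15243482, Int.negSucc 8258072, Int.negSucc 742457, Int.negSucc 371413, Int.negSucc 62414, Int.ofNat 10954, Int.ofNat 8501, Int.ofNat 30917, Int.ofNat 18486, Int.ofNat 85697, Int.negSucc 12738, Int.negSucc 24137, Int.ofNat 5332, Int.ofNat 428, Int.ofNat 3406, Int.negSucc 404, Int.ofNat 42141, Int.negSucc 10000, Int.ofNat 8240, Int.negSucc 22000, Int.ofNat 175581, Int.ofNat 0, Int.ofNat 0, Int.ofNat 0, Int.ofNat 0, Int.ofNat 0, Int.ofNat 0, Int.ofNat 0, Int.ofNat 0, Int.ofNat 0, Int.ofNat 0, Int.ofNat 0, Int.ofNat 0, Int.ofNat 0],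
  [Int.ofNat 6289241, Int.negSucc 6662080, Int.negSucc 3141362, Int.negSucc 1656219, Int.ofNat 836251, Int.negSucc 452851, Int.negSucc 41088, Int.negSucc 16856, Int.negSucc 2946, Int.negSucc 485, Int.ofNat 709, Int.ofNat 304, Int.ofNat 3690, Int.ofNat 4882, Int.ofNat 531, Int.negSucc 1661, Int.ofNat 367, Int.ofNat 28, Int.ofNat 208, Int.negSucc 20, Int.ofNat 3029, Int.negSucc 772, Int.ofNat 445, Int.negSucc 1675, Int.ofNat 1351, Int.ofNat 166458, Int.ofNat 0, Int.ofNat 0, Int.ofNat 0, Int.ofNat 0, Int.ofNat 0, Int.ofNat 0, Int.ofNat 0, Int.ofNat 0, Int.ofNat 0, Int.ofNat 0, Int.ofNat 0, Int.ofNat 0],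
  [Int.ofNat 6512765, Int.ofNat 4481494, Int.negSucc 7261333, Int.ofNat 4072141, Int.ofNat 566476, Int.negSucc 302504, Int.negSucc 34485, Int.ofNat 17873, Int.negSucc 1915, Int.negSucc 17549, Int.ofNat 1971, Int.negSucc 6815, Int.ofNat 15586, Int.ofNat 1953, Int.ofNat 921, Int.negSucc 1492, Int.ofNat 425, Int.negSucc 112, Int.ofNat 44, Int.ofNat 43, Int.ofNat 4285, Int.negSucc 1285, Int.ofNat 1612, Int.negSucc 1555, Int.ofNat 1811, Int.ofNat 285, Int.ofNat 166888, Int.ofNat 0, Int.ofNat 0, Int.ofNat 0, Int.ofNat 0, Int.ofNat 0, Int.ofNat 0, Int.ofNat 0, Int.ofNat 0, Int.ofNat 0, Int.ofNat 0, Int.ofNat 0],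
  [Int.negSucc 80929690, Int.negSucc 15818475, Int.ofNat 24064098, Int.ofNat 41128537, Int.negSucc 14402210, Int.ofNat 7813952, Int.ofNat 683274, Int.ofNat 430028, Int.ofNat 66187, Int.negSucc 43027, Int.negSucc 5333, Int.negSucc 49152, Int.ofNat 18736, Int.negSucc 85110, Int.ofNat 3470, Int.ofNat 20133, Int.negSucc 4479, Int.negSucc 439, Int.negSucc 3482, Int.ofNat 328, Int.negSucc 35363, Int.ofNat 8271, Int.negSucc 6118, Int.ofNat 18009, Int.negSucc 14816, Int.negSucc 834, Int.ofNat 153, Int.ofNat 175680, Int.ofNat 0, Int.ofNat 0, Int.ofNat 0, Int.ofNat 0, Int.ofNat 0, Int.ofNat 0, Int.ofNat 0, Int.ofNat 0, Int.ofNat 0, Int.ofNat 0],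
  [Int.ofNat 1977623, Int.ofNat 18371770, Int.negSucc 13550231, Int.negSucc 18333832, Int.ofNat 2268803, Int.negSucc 1230961, Int.negSucc 106630, Int.negSucc 94294, Int.negSucc 13294, Int.ofNat 12227, Int.ofNat 2004, Int.ofNat 12717, Int.negSucc 14415, Int.ofNat 12196, Int.negSucc 7553, Int.ofNat 3927, Int.ofNat 100, Int.ofNat 155, Int.negSucc 2, Int.ofNat 299, Int.ofNat 2171, Int.negSucc 471, Int.ofNat 231, Int.ofNat 1702, Int.negSucc 607, Int.negSucc 223, Int.negSucc 918, Int.negSucc 3519, Int.ofNat 168013, Int.ofNat 0, Int.ofNat 0, Int.ofNat 0, Int.ofNat 0, Int.ofNat 0, Int.ofNat 0, Int.ofNat 0, Int.ofNat 0, Int.ofNat 0],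
  [Int.negSucc 1126978, Int.ofNat 8494010, Int.negSucc 18206480, Int.negSucc 16132904, Int.ofNat 19831681, Int.negSucc 10743366, Int.negSucc 964474, Int.negSucc 534247, Int.negSucc 86257, Int.ofNat 24724, Int.ofNat 13837, Int.ofNat 48688, Int.ofNat 3649, Int.ofNat 109087, Int.negSucc 30420, Int.negSucc 16826, Int.ofNat 5756, Int.ofNat 760, Int.ofNat 3279, Int.ofNat 214, Int.ofNat 48518, Int.negSucc 11512, Int.ofNat 9074, Int.negSucc 19684, Int.ofNat 17546, Int.ofNat 1021, Int.ofNat 568, Int.negSucc 18563, Int.ofNat 4334, Int.ofNat 177485, Int.ofNat 0, Int.ofNat 0, Int.ofNat 0, Int.ofNat 0, Int.ofNat 0, Int.ofNat 0, Int.ofNat 0, Int.ofNat 0],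
  [Int.ofNat 18258572, Int.ofNat 26565771, Int.ofNat 1618419, Int.ofNat 3837992, Int.negSucc 26705834, Int.ofNat 14469037, Int.ofNat 1296832, Int.ofNat 710756, Int.ofNat 111199, Int.negSucc 41431, Int.negSucc 16741, Int.negSucc 63847, Int.negSucc 9447, Int.negSucc 148343, Int.ofNat 38960, Int.ofNat 28617, Int.negSucc 8197, Int.negSucc 1139, Int.negSucc 4884, Int.ofNat 77, Int.negSucc 66705, Int.ofNat 15589, Int.negSucc 11486, Int.ofNat 30589, Int.negSucc 25524, Int.negSucc 1570, Int.negSucc 1003, Int.ofNat 23480, Int.negSucc 3250, Int.negSucc 26894, Int.ofNat 182664, Int.ofNat 0, Int.ofNat 0, Int.ofNat 0, Int.ofNat 0, Int.ofNat 0, Int.ofNat 0, Int.ofNat 0],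
  [Int.ofNat 4672577, Int.ofNat 2403238, Int.ofNat 2928340, Int.ofNat 122248, Int.negSucc 8425027, Int.ofNat 4563156, Int.ofNat 411364, Int.ofNat 215361, Int.ofNat 35392, Int.negSucc 7044, Int.negSucc 5827, Int.negSucc 18102, Int.negSucc 6721, Int.negSucc 46259, Int.ofNat 12314, Int.ofNat 8837, Int.negSucc 2613, Int.negSucc 306, Int.negSucc 1485, Int.negSucc 10, Int.negSucc 21627, Int.ofNat 5139, Int.negSucc 4107, Int.ofNat 9532, Int.negSucc 8214, Int.negSucc 533, Int.negSucc 554, Int.ofNat 7261, Int.negSucc 930, Int.negSucc 8566, Int.ofNat 9796, Int.ofNat 167814, Int.ofNat 0, Int.ofNat 0, Int.ofNat 0, Int.ofNat 0, Int.ofNat 0, Int.ofNat 0],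
  [Int.ofNat 8304362, Int.negSucc 11136076, Int.negSucc 1647262, Int.negSucc 2999754, Int.ofNat 14880243, Int.negSucc 8063019, Int.negSucc 721503, Int.negSucc 389387, Int.negSucc 62176, Int.ofNat 21250, Int.ofNat 8533, Int.ofNat 35264, Int.ofNat 7222, Int.ofNat 83614, Int.negSucc 16434, Int.negSucc 19238, Int.ofNat 4807, Int.ofNat 543, Int.ofNat 3035, Int.negSucc 203, Int.ofNat 38533, Int.negSucc 9054, Int.ofNat 6942, Int.negSucc 18848, Int.ofNat 15526, Int.ofNat 1011, Int.ofNat 878, Int.negSucc 13630, Int.ofNat 1018, Int.ofNat 14777, Int.negSucc 17619, Int.negSucc 5049, Int.ofNat 170984, Int.ofNat 0, Int.ofNat 0, Int.ofNat 0, Int.ofNat 0, Int.ofNat 0],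
  [Int.ofNat 2801970, Int.ofNat 10925674, Int.ofNat 42790966, Int.ofNat 4461933, Int.ofNat 16424582, Int.negSucc 8914695, Int.negSucc 774139, Int.negSucc 507519, Int.negSucc 71503, Int.ofNat 71242, Int.ofNat 1206, Int.ofNat 65373, Int.negSucc 37917, Int.ofNat 97091, Int.negSucc 14763, Int.negSucc 28299, Int.ofNat 5068, Int.ofNat 676, Int.ofNat 4394, Int.negSucc 911, Int.ofNat 35532, Int.negSucc 7385, Int.ofNat 5755, Int.negSucc 22175, Int.ofNat 16125, Int.ofNat 427, Int.negSucc 1590, Int.negSucc 17108, Int.ofNat 1470, Int.ofNat 14337, Int.negSucc 18539, Int.negSucc 4648, Int.ofNat 9781, Int.ofNat 176662, Int.ofNat 0, Int.ofNat 0, Int.ofNat 0, Int.ofNat 0],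
  [Int.ofNat 23471628, Int.negSucc 1201740, Int.ofNat 21343508, Int.ofNat 20979268, Int.negSucc 4366231, Int.ofNat 2363952, Int.ofNat 212893, Int.ofNat 150319, Int.ofNat 20922, Int.negSucc 12695, Int.negSucc 5809, Int.negSucc 14141, Int.ofNat 9615, Int.negSucc 21936, Int.ofNat 18565, Int.negSucc 7774, Int.negSucc 432, Int.negSucc 399, Int.ofNat 245, Int.negSucc 646, Int.negSucc 6553, Int.ofNat 1576, Int.negSucc 377, Int.negSucc 2074, Int.ofNat 357, Int.ofNat 170, Int.ofNat 926, Int.ofNat 4344, Int.negSucc 4681, Int.negSucc 6863, Int.ofNat 4626, Int.ofNat 1253, Int.negSucc 873, Int.ofNat 821, Int.ofNat 169959, Int.ofNat 0, Int.ofNat 0, Int.ofNat 0],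
  [Int.negSucc 35718376, Int.ofNat 35405326, Int.negSucc 1179148, Int.negSucc 5848175, Int.negSucc 9441971, Int.ofNat 5115960, Int.ofNat 459613, Int.ofNat 207484, Int.ofNat 35460, Int.negSucc 3799, Int.negSucc 4519, Int.negSucc 13586, Int.negSucc 23948, Int.negSucc 55009, Int.negSucc 1616, Int.ofNat 21626, Int.negSucc 3946, Int.negSucc 223, Int.negSucc 2660, Int.ofNat 551, Int.negSucc 30226, Int.ofNat 7290, Int.negSucc 5421, Int.ofNat 18446, Int.negSucc 14276, Int.negSucc 1265, Int.negSucc 2077, Int.ofNat 8252, Int.ofNat 2970, Int.negSucc 8012, Int.ofNat 12219, Int.ofNat 3667, Int.negSucc 7447, Int.negSucc 5978, Int.negSucc 4398, Int.ofNat 171472, Int.ofNat 0, Int.ofNat 0],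
  [Int.negSucc 3630136, Int.negSucc 6908799, Int.negSucc 3429845, Int.negSucc 3869682, Int.negSucc 1950010, Int.ofNat 1056454, Int.ofNat 95048, Int.ofNat 44208, Int.ofNat 8462, Int.ofNat 451, Int.negSucc 675, Int.negSucc 4270, Int.negSucc 2283, Int.negSucc 11006, Int.ofNat 632, Int.ofNat 4260, Int.negSucc 735, Int.ofNat 4, Int.negSucc 538, Int.ofNat 119, Int.negSucc 5538, Int.ofNat 1304, Int.negSucc 1451, Int.ofNat 3206, Int.negSucc 2605, Int.negSucc 157, Int.negSucc 270, Int.ofNat 1736, Int.ofNat 389, Int.negSucc 1580, Int.ofNat 2247, Int.ofNat 673, Int.negSucc 1369, Int.negSucc 1741, Int.negSucc 805, Int.ofNat 1537, Int.ofNat 166545, Int.ofNat 0],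
  [Int.ofNat 2200761, Int.negSucc 5184616, Int.negSucc 914505, Int.negSucc 8533, Int.negSucc 1481045, Int.ofNat 802610, Int.ofNat 71571, Int.ofNat 42275, Int.ofNat 6815, Int.negSucc 2700, Int.negSucc 771, Int.negSucc 4705, Int.ofNat 1656, Int.negSucc 8126, Int.ofNat 2661, Int.ofNat 1296, Int.negSucc 394, Int.negSucc 46, Int.negSucc 258, Int.negSucc 0, Int.negSucc 3204, Int.ofNat 724, Int.negSucc 712, Int.ofNat 1287, Int.negSucc 1151, Int.negSucc 24, Int.ofNat 76, Int.ofNat 1411, Int.negSucc 405, Int.negSucc 1524, Int.ofNat 1599, Int.ofNat 442, Int.negSucc 744, Int.negSucc 1094, Int.ofNat 427, Int.ofNat 126, Int.ofNat 79, Int.ofNat 166431]]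
  c := 89631360
  X := X6_11

end Pool.Agent.CycT
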