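import Pool.Agent.W_1bfdb5t_h19.Dx6_9

/-!
# Data of the certificate for closed walks of length 9 in triangle-free graphs
-/

set_option maxRecDepth 100000

namespace Pool.Agent.CycT

/-- The block for the localiser `5 + 2 a`. -/
def b6_9 : Blk where
  n := 29
  d := 26
  Nc := [[Int.ofNat 1, Int.ofNat 0, Int.ofNat 0, Int.ofNat 0, Int.ofNat 0, Int.ofNat 0, Int.ofNat 0, Int.ofNat 0, Int.ofNat 0, Int.ofNat 0, Int.ofNat 0, Int.ofNat 0, Int.ofNat 0, Int.ofNat 0, Int.ofNat 0, Int.ofNat 0, Int.ofNat 0, Int.ofNat 0, Int.ofNat 0, Int.ofNat 0, Int.ofNat 0, Int.ofNat 0, Int.ofNat 0, Int.ofNat 0, Int.ofNat 0, Int.ofNat 0],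
  [Int.ofNat 0, Int.ofNat 1, Int.ofNat 0, Int.ofNat 0, Int.ofNat 0, Int.ofNat 0, Int.ofNat 0, Int.ofNat 0, Int.ofNat 0, Int.ofNat 0, Int.ofNat 0, Int.ofNat 0, Int.ofNat 0, Int.ofNat 0, Int.ofNat 0, Int.ofNat 0, Int.ofNat 0, Int.ofNat 0, Int.ofNat 0, Int.ofNat 0, Int.ofNat 0, Int.ofNat 0, Int.ofNat 0, Int.ofNat 0, Int.ofNat 0, Int.ofNat 0],
  [Int.ofNat 0, Int.ofNat 0, Int.ofNat 1, Int.ofNat 0, Int.ofNat 0, Int.ofNat 0, Int.ofNat 0, Int.ofNat 0, Int.ofNat 0, Int.ofNat 0, Int.ofNat 0, Int.ofNat 0, Int.ofNat 0, Int.ofNat 0, Int.ofNat 0, Int.ofNat 0, Int.ofNat 0, Int.ofNat 0, Int.ofNat 0, Int.ofNat 0, Int.ofNat 0, Int.ofNat 0, Int.ofNat 0, Int.ofNat 0, Int.ofNat 0, Int.ofNat 0],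
  [Int.ofNat 0, Int.ofNat 0, Int.ofNat 0, Int.ofNat 1, Int.ofNat 0, Int.ofNat 0, Int.ofNat 0, Int.ofNat 0, Int.ofNat 0, Int.ofNat 0, Int.ofNat 0, Int.ofNat 0, Int.ofNat 0, Int.ofNat 0, Int.ofNat 0, Int.ofNat 0, Int.ofNat 0, Int.ofNat 0, Int.ofNat 0, Int.ofNat 0, Int.ofNat 0, Int.ofNat 0, Int.ofNat 0, Int.ofNat 0, Int.ofNat 0, Int.ofNat 0],
  [Int.ofNat 0, Int.ofNat 0, Int.ofNat 0, Int.ofNat 0, Int.ofNat 1, Int.ofNat 0, Int.ofNat 0, Int.ofNat 0, Int.ofNat 0, Int.ofNat 0, Int.ofNat 0, Int.ofNat 0, Int.ofNat 0, Int.ofNat 0, Int.ofNat 0, Int.ofNat 0, Int.ofNat 0, Int.ofNat 0, Int.ofNat 0, Int.ofNat 0, Int.ofNat 0, Int.ofNat 0, Int.ofNat 0, Int.ofNat 0, Int.ofNat 0, Int.ofNat 0],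
  [Int.ofNat 0, Int.ofNat 0, Int.ofNat 0, Int.ofNat 0, Int.ofNat 0, Int.ofNat 1, Int.ofNat 0, Int.ofNat 0, Int.ofNat 0, Int.ofNat 0, Int.ofNat 0, Int.ofNat 0, Int.ofNat 0, Int.ofNat 0, Int.ofNat 0, Int.ofNat 0, Int.ofNat 0, Int.ofNat 0, Int.ofNat 0, Int.ofNat 0, Int.ofNat 0, Int.ofNat 0, Int.ofNat 0, Int.ofNat 0, Int.ofNat 0, Int.ofNat 0],
  [Int.ofNat 0, Int.ofNat 0, Int.ofNat 0, Int.ofNat 0, Int.ofNat 0, Int.ofNat 0, Int.ofNat 1, Int.ofNat 0, Int.ofNat 0, Int.ofNat 0, Int.ofNat 0, Int.ofNat 0, Int.ofNat 0, Int.ofNat 0, Int.ofNat 0, Int.ofNat 0, Int.ofNat 0, Int.ofNat 0, Int.ofNat 0, Int.ofNat 0, Int.ofNat 0, Int.ofNat 0, Int.ofNat 0, Int.ofNat 0, Int.ofNat 0, Int.ofNat 0],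
  [Int.ofNat 0, Int.ofNat 0, Int.ofNat 0, Int.ofNat 0, Int.ofNat 0, Int.ofNat 0, Int.ofNat 0, Int.ofNat 1, Int.ofNat 0, Int.ofNat 0, Int.ofNat 0, Int.ofNat 0, Int.ofNat 0, Int.ofNat 0, Int.ofNat 0, Int.ofNat 0, Int.ofNat 0, Int.ofNat 0, Int.ofNat 0, Int.ofNat 0, Int.ofNat 0, Int.ofNat 0, Int.ofNat 0, Int.ofNat 0, Int.ofNat 0, Int.ofNat 0],
  [Int.ofNat 0, Int.ofNat 0, Int.ofNat 0, Int.ofNat 0, Int.ofNat 0, Int.ofNat 0, Int.ofNat 0, Int.ofNat 0, Int.ofNat 1, Int.ofNat 0, Int.ofNat 0, Int.ofNat 0, Int.ofNat 0, Int.ofNat 0, Int.ofNat 0, Int.ofNat 0, Int.ofNat 0, Int.ofNat 0, Int.ofNat 0, Int.ofNat 0, Int.ofNat 0, Int.ofNat 0, Int.ofNat 0, Int.ofNat 0, Int.ofNat 0, Int.ofNat 0],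
  [Int.ofNat 0, Int.ofNat 0, Int.ofNat 0, Int.ofNat 0, Int.ofNat 0, Int.ofNat 0, Int.ofNat 0, Int.ofNat 0, Int.ofNat 0, Int.ofNat 1, Int.ofNat 0, Int.ofNat 0, Int.ofNat 0, Int.ofNat 0, Int.ofNat 0, Int.ofNat 0, Int.ofNat 0, Int.ofNat 0, Int.ofNat 0, Int.ofNat 0, Int.ofNat 0, Int.ofNat 0, Int.ofNat 0, Int.ofNat 0, Int.ofNat 0, Int.ofNat 0],
  [Int.ofNat 0, Int.ofNat 0, Int.ofNat 0, Int.ofNat 0, Int.ofNat 0, Int.ofNat 0, Int.ofNat 0, Int.ofNat 0, Int.ofNat 0, Int.ofNat 0, Int.ofNat 1, Int.ofNat 0, Int.ofNat 0, Int.ofNat 0, Int.ofNat 0, Int.ofNat 0, Int.ofNat 0, Int.ofNat 0, Int.ofNat 0, Int.ofNat 0, Int.ofNat 0, Int.ofNat 0, Int.ofNat 0, Int.ofNat 0, Int.ofNat 0, Int.ofNat 0],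
  [Int.ofNat 0, Int.ofNat 0, Int.ofNat 0, Int.ofNat 0, Int.ofNat 0, Int.ofNat 0, Int.ofNat 0, Int.ofNat 0, Int.ofNat 0, Int.ofNat 0, Int.ofNat 0, Int.ofNat 1, Int.ofNat 0, Int.ofNat 0, Int.ofNat 0, Int.ofNat 0, Int.ofNat 0, Int.ofNat 0, Int.ofNat 0, Int.ofNat 0, Int.ofNat 0, Int.ofNat 0, Int.ofNat 0, Int.ofNat 0, Int.ofNat 0, Int.ofNat 0],
  [Int.ofNat 0, Int.ofNat 0, Int.ofNat 0, Int.ofNat 0, Int.ofNat 0, Int.ofNat 0, Int.ofNat 0, Int.ofNat 0, Int.ofNat 0, Int.ofNat 0, Int.ofNat 0, Int.ofNat 0, Int.ofNat 1, Int.ofNat 0, Int.ofNat 0, Int.ofNat 0, Int.ofNat 0, Int.ofNat 0, Int.ofNat 0, Int.ofNat 0, Int.ofNat 0, Int.ofNat 0, Int.ofNat 0, Int.ofNat 0, Int.ofNat 0, Int.ofNat 0],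
  [Int.ofNat 0, Int.ofNat 0, Int.ofNat 0, Int.ofNat 0, Int.ofNat 0, Int.ofNat 0, Int.ofNat 0, Int.ofNat 0, Int.ofNat 0, Int.ofNat 0, Int.ofNat 0, Int.ofNat 0, Int.ofNat 0, Int.ofNat 1, Int.ofNat 0, Int.ofNat 0, Int.ofNat 0, Int.ofNat 0, Int.ofNat 0, Int.ofNat 0, Int.ofNat 0, Int.ofNat 0, Int.ofNat 0, Int.ofNat 0, Int.ofNat 0, Int.ofNat 0],
  [Int.ofNat 0, Int.ofNat 0, Int.ofNat 0, Int.ofNat 0, Int.ofNat 0, Int.ofNat 0, Int.ofNat 0, Int.ofNat 0, Int.ofNat 0, Int.ofNat 0, Int.ofNat 0, Int.ofNat 0, Int.ofNat 0, Int.ofNat 0, Int.ofNat 1, Int.ofNat 0, Int.ofNat 0, Int.ofNat 0, Int.ofNat 0, Int.ofNat 0, Int.ofNat 0, Int.ofNat 0, Int.ofNat 0, Int.ofNat 0, Int.ofNat 0, Int.ofNat 0],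
  [Int.ofNat 0, Int.ofNat 0, Int.ofNat 0, Int.ofNat 0, Int.ofNat 0, Int.ofNat 0, Int.ofNat 0, Int.ofNat 0, Int.ofNat 0, Int.ofNat 0, Int.ofNat 0, Int.ofNat 0, Int.ofNat 0, Int.ofNat 0, Int.ofNat 0, Int.ofNat 1, Int.ofNat 0, Int.ofNat 0, Int.ofNat 0, Int.ofNat 0, Int.ofNat 0, Int.ofNat 0, Int.ofNat 0, Int.ofNat 0, Int.ofNat 0, Int.ofNat 0],
  [Int.ofNat 0, Int.ofNat 0, Int.ofNat 0, Int.ofNat 0, Int.ofNat 0, Int.ofNat 0, Int.ofNat 0, Int.ofNat 0, Int.ofNat 0, Int.ofNat 0, Int.ofNat 0, Int.ofNat 0, Int.ofNat 0, Int.ofNat 0, Int.ofNat 0, Int.ofNat 0, Int.ofNat 1, Int.ofNat 0, Int.ofNat 0, Int.ofNat 0, Int.ofNat 0, Int.ofNat 0, Int.ofNat 0, Int.ofNat 0, Int.ofNat 0, Int.ofNat 0],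
  [Int.ofNat 0, Int.ofNat 0, Int.ofNat 0, Int.ofNat 0, Int.ofNat 0, Int.ofNat 0, Int.ofNat 0, Int.ofNat 0, Int.ofNat 0, Int.ofNat 0, Int.ofNat 0, Int.ofNat 0, Int.ofNat 0, Int.ofNat 0, Int.ofNat 0, Int.ofNat 0, Int.ofNat 0, Int.ofNat 1, Int.ofNat 0, Int.ofNat 0, Int.ofNat 0, Int.ofNat 0, Int.ofNat 0, Int.ofNat 0, Int.ofNat 0, Int.ofNat 0],
  [Int.ofNat 0, Int.ofNat 0, Int.ofNat 0, Int.ofNat 0, Int.ofNat 0, Int.ofNat 0, Int.ofNat 0, Int.ofNat 0, Int.ofNat 0, Int.ofNat 0, Int.ofNat 0, Int.ofNat 0, Int.ofNat 0, Int.ofNat 0, Int.ofNat 0, Int.ofNat 0, Int.ofNat 0, Int.ofNat 0, Int.ofNat 1, Int.ofNat 0, Int.ofNat 0, Int.ofNat 0, Int.ofNat 0, Int.ofNat 0, Int.ofNat 0, Int.ofNat 0],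
  [Int.ofNat 0, Int.ofNat 0, Int.ofNat 0, Int.ofNat 0, Int.ofNat 0, Int.ofNat 0, Int.ofNat 0, Int.ofNat 0, Int.ofNat 0, Int.ofNat 0, Int.ofNat 0, Int.ofNat 0, Int.ofNat 0, Int.ofNat 0, Int.ofNat 0, Int.ofNat 0, Int.ofNat 0, Int.ofNat 0, Int.ofNat 0, Int.ofNat 1, Int.ofNat 0, Int.ofNat 0, Int.ofNat 0, Int.ofNat 0, Int.ofNat 0, Int.ofNat 0],
  [Int.ofNat 0, Int.ofNat 0, Int.ofNat 0, Int.ofNat 0, Int.ofNat 0, Int.ofNat 0, Int.ofNat 0, Int.ofNat 0, Int.ofNat 0, Int.ofNat 0, Int.ofNat 0, Int.ofNat 0, Int.ofNat 0, Int.ofNat 0, Int.ofNat 0, Int.ofNat 0, Int.ofNat 0, Int.ofNat 0, Int.ofNat 0, Int.ofNat 0, Int.ofNat 1, Int.ofNat 0, Int.ofNat 0, Int.ofNat 0, Int.ofNat 0, Int.ofNat 0],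
  [Int.ofNat 0, Int.ofNat 0, Int.ofNat 0, Int.ofNat 0, Int.ofNat 0, Int.ofNat 0, Int.ofNat 0, Int.ofNat 0, Int.ofNat 0, Int.ofNat 0, Int.ofNat 0, Int.ofNat 0, Int.ofNat 0, Int.ofNat 0, Int.ofNat 0, Int.ofNat 0, Int.ofNat 0, Int.ofNat 0, Int.ofNat 0, Int.ofNat 0, Int.ofNat 0, Int.ofNat 1, Int.ofNat 0, Int.ofNat 0, Int.ofNat 0, Int.ofNat 0],
  [Int.ofNat 0, Int.ofNat 0, Int.ofNat 0, Int.ofNat 0, Int.ofNat 0, Int.ofNat 0, Int.ofNat 0, Int.ofNat 0, Int.ofNat 0, Int.ofNat 0, Int.ofNat 0, Int.ofNat 0, Int.ofNat 0, Int.ofNat 0, Int.ofNat 0, Int.ofNat 0, Int.ofNat 0, Int.ofNat 0, Int.ofNat 0, Int.ofNat 0, Int.ofNat 0, Int.ofNat 0, Int.ofNat 1, Int.ofNat 0, Int.ofNat 0, Int.ofNat 0],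
  [Int.ofNat 0, Int.ofNat 0, Int.ofNat 0, Int.ofNat 0, Int.ofNat 0, Int.ofNat 0, Int.ofNat 0, Int.ofNat 0, Int.ofNat 0, Int.ofNat 0, Int.ofNat 0, Int.ofNat 0, Int.ofNat 0, Int.ofNat 0, Int.ofNat 0, Int.ofNat 0, Int.ofNat 0, Int.ofNat 0, Int.ofNat 0, Int.ofNat 0, Int.ofNat 0, Int.ofNat 0, Int.ofNat 0, Int.ofNat 1, Int.ofNat 0, Int.ofNat 0],
  [Int.ofNat 0, Int.ofNat 0, Int.ofNat 0, Int.ofNat 0, Int.ofNat 0, Int.ofNat 0, Int.ofNat 0, Int.ofNat 0, Int.ofNat 0, Int.ofNat 0, Int.ofNat 0, Int.ofNat 0, Int.ofNat 0, Int.ofNat 0, Int.ofNat 0, Int.ofNat 0, Int.ofNat 0, Int.ofNat 0, Int.ofNat 0, Int.ofNat 0, Int.ofNat 0, Int.ofNat 0, Int.ofNat 0, Int.ofNat 0, Int.ofNat 1, Int.ofNat 0],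
  [Int.ofNat 0, Int.ofNat 0, Int.ofNat 0, Int.ofNat 0, Int.ofNat 0, Int.ofNat 0, Int.ofNat 0, Int.ofNat 0, Int.ofNat 0, Int.ofNat 0, Int.ofNat 0, Int.ofNat 0, Int.ofNat 0, Int.ofNat 0, Int.ofNat 0, Int.ofNat 0, Int.ofNat 0, Int.ofNat 0, Int.ofNat 0, Int.ofNat 0, Int.ofNat 0, Int.ofNat 0, Int.ofNat 0, Int.ofNat 0, Int.ofNat 0, Int.ofNat 1],
  [Int.negSucc 1, Int.ofNat 0, Int.negSucc 1, Int.ofNat 0, Int.negSucc 3, Int.negSucc 3, Int.ofNat 0, Int.ofNat 0, Int.ofNat 0, Int.negSucc 3, Int.ofNat 0, Int.ofNat 0, Int.ofNat 0, Int.ofNat 0, Int.negSucc 0, Int.negSucc 1, Int.ofNat 0, Int.ofNat 0, Int.ofNat 0, Int.negSucc 1, Int.ofNat 0, Int.negSucc 1, Int.ofNat 0, Int.negSucc 1, Int.ofNat 0, Int.ofNat 1],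
  [Int.ofNat 0, Int.ofNat 0, Int.ofNat 0, Int.ofNat 0, Int.ofNat 0, Int.ofNat 0, Int.negSucc 1, Int.ofNat 0, Int.ofNat 0, Int.ofNat 0, Int.negSucc 1, Int.ofNat 0, Int.negSucc 1, Int.ofNat 0, Int.ofNat 1, Int.ofNat 2, Int.ofNat 0, Int.ofNat 0, Int.ofNat 0, Int.ofNat 2, Int.ofNat 0, Int.ofNat 2, Int.ofNat 0, Int.ofNat 2, Int.ofNat 0, Int.negSucc 1],
  [Int.ofNat 0, Int.negSucc 1, Int.ofNat 0, Int.negSucc 1, Int.ofNat 0, Int.ofNat 0, Int.ofNat 0, Int.negSucc 3, Int.negSucc 3, Int.ofNat 0, Int.ofNat 0, Int.negSucc 3, Int.ofNat 0, Int.negSucc 3, Int.negSucc 9, Int.negSucc 19, Int.negSucc 7, Int.negSucc 7, Int.negSucc 7, Int.negSucc 19, Int.negSucc 7, Int.negSucc 19, Int.negSucc 7, Int.negSucc 19, Int.negSucc 7, Int.negSucc 9]]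
  Z := [[Int.ofNat 1217031793090375680000, Int.ofNat 824543257902008832000, Int.negSucc 71188594387238591999, Int.negSucc 1014280059973935743999, Int.negSucc 248412722402382911999, Int.negSucc 495949908851103167999, Int.ofNat 89073703953457344000, Int.negSucc 301149724823665343999, Int.negSucc 141309937989082367999, Int.ofNat 64822615644568320000, Int.ofNat 437266765296662400000, Int.ofNat 838710198135893952000, Int.ofNat 8952819335627904000, Int.ofNat 370025761839471936000, Int.negSucc 169628243228376767999, Int.ofNat 114741911515004928000, Int.negSucc 225452475826003007999, Int.ofNat 489349370306757312000, Int.negSucc 406087463411125055999, Int.ofNat 151454871894230784000, Int.negSucc 118228511656411199999, Int.ofNat 29519640967487616000, Int.negSucc 301830178805394623999, Int.negSucc 79476194406565439999, Int.ofNat 67276122058797696000, Int.negSucc 66943409074724159999],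
  [Int.ofNat 824543257902008832000, Int.ofNat 7663784121098785152000, Int.negSucc 3389790988516553279999, Int.negSucc 1040492661933669119999, Int.negSucc 125162474752560959999, Int.negSucc 307659591419875199999, Int.negSucc 351790194454915391999, Int.negSucc 4313044026862230527999, Int.negSucc 3353227886517436223999, Int.ofNat 1193193940929528384000, Int.ofNat 131994150390116784000, Int.ofNat 2052831013675066944000, Int.ofNat 513192216744833472000, Int.ofNat 1383039209716566336000, Int.negSucc 129478018708120895999, Int.negSucc 130070344940623295999, Int.ofNat 772567835881171968000, Int.ofNat 512448329679149952000, Int.ofNat 939314268724398336000, Int.ofNat 35743563519833664000, Int.negSucc 120970038421013759999, Int.ofNat 24332163088901184000, Int.negSucc 368280236447868095999, Int.negSucc 68475025194485183999, Int.negSucc 91271769170491007999, Int.negSucc 169285081934054591999],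
  [Int.negSucc 71188594387238591999, Int.negSucc 3389790988516553279999, Int.ofNat 1763291176459325568000, Int.ofNat 174935214418510656000, Int.ofNat 5831380115130240000, Int.negSucc 90347438266303679999, Int.ofNat 168228129796322112000, Int.ofNat 1806190351419015936000, Int.ofNat 1692427599416892096000, Int.negSucc 577326619970812799999, Int.ofNat 176278794780464640000, Int.negSucc 484315821304843967999, Int.negSucc 177035583493967615999, Int.negSucc 547980888556157759999, Int.negSucc 57639021379372223999, Int.ofNat 106634819266563456000, Int.negSucc 507029850521580671999, Int.negSucc 151648336273300415999, Int.negSucc 459919651513215167999, Int.ofNat 12026513592149760000, Int.ofNat 25561319129609472000, Int.negSucc 5222563410449087999, Int.ofNat 62810353083950208000, Int.ofNat 63558949148183808000, Int.ofNat 2350415509934976000, Int.ofNat 38218327170997248000],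
  [Int.negSucc 1014280059973935743999, Int.negSucc 1040492661933669119999, Int.ofNat 174935214418510656000, Int.ofNat 961943640196980672000, Int.ofNat 203649249126660480000, Int.ofNat 433602258317807040000, Int.negSucc 25723405392518591999, Int.ofNat 461767662345375936000, Int.ofNat 92836270932970752000, Int.negSucc 109672821404353151999, Int.negSucc 391741658233542143999, Int.negSucc 857537292362249663999, Int.negSucc 59468844353960447999, Int.negSucc 280172886094328391999, Int.ofNat 173670175166602752000, Int.negSucc 87512382226272959999, Int.ofNat 173699157413802240000, Int.negSucc 365629130579002751999, Int.ofNat 274235377840199424000, Int.negSucc 152611223344842239999, Int.ofNat 147225206472322176000, Int.negSucc 32012246389521023999, Int.ofNat 260883069190362432000, Int.ofNat 91869105796345152000, Int.negSucc 124150582172447423999, Int.ofNat 66841985751292224000],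
  [Int.negSucc 248412722402382911999, Int.negSucc 125162474752560959999, Int.ofNat 5831380115130240000, Int.ofNat 203649249126660480000, Int.ofNat 52042769008325568000, Int.ofNat 94729079302380864000, Int.negSucc 21521845929786047999, Int.ofNat 26950950898717824000, Int.ofNat 15058975892824987200, Int.negSucc 8465176408670783999, Int.negSucc 82621235914797887999, Int.negSucc 146282717409829520399, Int.ofNat 4910198743410048000, Int.negSucc 66287356695441154799, Int.ofNat 30227053837394304000, Int.negSucc 23677027352111231999, Int.ofNat 46608360615273600000, Int.negSucc 100194645860724095999, Int.ofNat 96131779335510336000, Int.negSucc 32639612638881599999, Int.ofNat 24905011679247744000, Int.negSucc 6274474534728575999, Int.ofNat 58411823911974720000, Int.ofNat 20153704289127552000, Int.negSucc 20147307463546559999, Int.ofNat 11402289029419200000],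
  [Int.negSucc 495949908851103167999, Int.negSucc 307659591419875199999, Int.negSucc 90347438266303679999, Int.ofNat 433602258317807040000, Int.ofNat 94729079302380864000, Int.ofNat 263311690226694912000, Int.negSucc 28611584133130943999, Int.ofNat 190941786751320000000, Int.negSucc 31080740877046079999, Int.negSucc 2577903092107199999, Int.negSucc 249479680819064255999, Int.negSucc 484138845450399743999, Int.negSucc 35701947977566463999, Int.negSucc 156198784634855423999, Int.ofNat 110547580597489728000, Int.negSucc 56593558774982591999, Int.ofNat 143206356948006528000, Int.negSucc 180158012017112447999, Int.ofNat 119113051168311552000, Int.negSucc 53010049381521407999, Int.ofNat 44763722608917312000, Int.negSucc 10678603205438783999, Int.ofNat 140537908634846976000, Int.negSucc 685563479333567999, Int.ofNat 12319661454262272000, Int.ofNat 40558508933792256000],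
  [Int.ofNat 89073703953457344000, Int.negSucc 351790194454915391999, Int.ofNat 168228129796322112000, Int.negSucc 25723405392518591999, Int.negSucc 21521845929786047999, Int.negSucc 28611584133130943999, Int.ofNat 39730392525738816000, Int.ofNat 222438406087630656000, Int.ofNat 126913549846957632000, Int.negSucc 60176367681686783999, Int.ofNat 27949912243615296000, Int.negSucc 55945699448500223999, Int.negSucc 38633624411690879999, Int.negSucc 18047549617295615999, Int.negSucc 1075224382119359999, Int.ofNat 19273727781462528000, Int.negSucc 59048668039046399999, Int.ofNat 39294407556119232000, Int.negSucc 104311856454600959999, Int.ofNat 6759615603451392000, Int.ofNat 5544020833851456000, Int.ofNat 320154426599040000, Int.negSucc 9990860046368255999, Int.ofNat 478481455552320000, Int.negSucc 4674201991842239999, Int.ofNat 4347402828081984000],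
  [Int.negSucc 301149724823665343999, Int.negSucc 4313044026862230527999, Int.ofNat 1806190351419015936000, Int.ofNat 461767662345375936000, Int.ofNat 26950950898717824000, Int.ofNat 190941786751320000000, Int.ofNat 222438406087630656000, Int.ofNat 2575546481678841792000, Int.ofNat 1853042768047380096000, Int.negSucc 652652388377085887999, Int.negSucc 108900811404620927999, Int.negSucc 1264478790127867775999, Int.negSucc 338816180275417151999, Int.negSucc 781998998975732735999, Int.ofNat 104053857316085952000, Int.ofNat 79049188833544512000, Int.negSucc 416761223192740799999, Int.negSucc 210798236499092351999, Int.negSucc 676963666936846079999, Int.ofNat 22636782818483328000, Int.ofNat 36323907310291392000, Int.negSucc 6125456249846207999, Int.ofNat 195362210392835904000, Int.negSucc 27717220830987071999, Int.ofNat 141479608345739136000, Int.ofNat 107454423031091136000],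
  [Int.negSucc 141309937989082367999, Int.negSucc 3353227886517436223999, Int.ofNat 1692427599416892096000, Int.ofNat 92836270932970752000, Int.ofNat 15058975892824987200, Int.negSucc 31080740877046079999, Int.ofNat 126913549846957632000, Int.ofNat 1853042768047380096000, Int.ofNat 1900106536800764160000, Int.negSucc 548015101103948543999, Int.ofNat 130905216118378944000, Int.negSucc 536233835833103231999, Int.negSucc 167853424798572479999, Int.negSucc 712525561429004927999, Int.negSucc 56701672734015935999, Int.ofNat 91099584642825792000, Int.negSucc 484390246848311231999, Int.negSucc 245821166721554687999, Int.negSucc 471547177096438079999, Int.ofNat 57082504217454144000, Int.negSucc 50333607418678847999, Int.ofNat 7595190531453888000, Int.ofNat 102024964234778112000, Int.negSucc 5079503420792063999, Int.ofNat 163862027326901376000, Int.ofNat 47249015729832576000],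
  [Int.ofNat 64822615644568320000, Int.ofNat 1193193940929528384000, Int.negSucc 577326619970812799999, Int.negSucc 109672821404353151999, Int.negSucc 8465176408670783999, Int.negSucc 2577903092107199999, Int.negSucc 60176367681686783999, Int.negSucc 652652388377085887999, Int.negSucc 548015101103948543999, Int.ofNat 196141944239467776000, Int.negSucc 25022711965895423999, Int.ofNat 239805532648116864000, Int.ofNat 72393512551538112000, Int.ofNat 194006532025658880000, Int.ofNat 630394286594688000, Int.negSucc 30434126638037759999, Int.ofNat 151819903711181376000, Int.ofNat 58275699223173696000, Int.ofNat 157701479075661312000, Int.ofNat 1843874896260672000, Int.negSucc 16946718116093567999, Int.ofNat 3230741506652352000, Int.negSucc 36134863521888383999, Int.negSucc 19051856964081215999, Int.negSucc 391298828583167999, Int.negSucc 19264802712484031999],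
  [Int.ofNat 437266765296662400000, Int.ofNat 131994150390116784000, Int.ofNat 176278794780464640000, Int.negSucc 391741658233542143999, Int.negSucc 82621235914797887999, Int.negSucc 249479680819064255999, Int.ofNat 27949912243615296000, Int.negSucc 108900811404620927999, Int.ofNat 130905216118378944000, Int.negSucc 25022711965895423999, Int.ofNat 244448512330486464000, Int.ofNat 442954896060612672000, Int.ofNat 32706467103245760000, Int.ofNat 108146465978227776000, Int.negSucc 110752853008013567999, Int.ofNat 56372169882352896000, Int.negSucc 159449571884883455999, Int.ofNat 144928529628791040000, Int.negSucc 116083863063951551999, Int.ofNat 49203798376182912000, Int.negSucc 43230885518139263999, Int.ofNat 9849380663536128000, Int.negSucc 125083108781288063999, Int.ofNat 6041290506368832000, Int.negSucc 9311698012243967999, Int.negSucc 37193462000570303999],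
  [Int.ofNat 838710198135893952000, Int.ofNat 2052831013675066944000, Int.negSucc 484315821304843967999, Int.negSucc 857537292362249663999, Int.negSucc 146282717409829520399, Int.negSucc 484138845450399743999, Int.negSucc 55945699448500223999, Int.negSucc 1264478790127867775999, Int.negSucc 536233835833103231999, Int.ofNat 239805532648116864000, Int.ofNat 442954896060612672000, Int.ofNat 1261519390311219072000, Int.ofNat 200255751072932544000, Int.ofNat 484309502971081920000, Int.negSucc 227170245043830527999, Int.ofNat 57236100343437312000, Int.negSucc 83500395171006527999, Int.ofNat 313753645490364288000, Int.ofNat 93874912541106048000, Int.ofNat 79833367523967552000, Int.negSucc 99054950650223039999, Int.ofNat 20769929752492800000, Int.negSucc 284341090244789951999, Int.ofNat 10043631187628544000, Int.negSucc 49049227698419519999, Int.negSucc 105640495829453375999],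
  [Int.ofNat 8952819335627904000, Int.ofNat 513192216744833472000, Int.negSucc 177035583493967615999, Int.negSucc 59468844353960447999, Int.ofNat 4910198743410048000, Int.negSucc 35701947977566463999, Int.negSucc 38633624411690879999, Int.negSucc 338816180275417151999, Int.negSucc 167853424798572479999, Int.ofNat 72393512551538112000, Int.ofNat 32706467103245760000, Int.ofNat 200255751072932544000, Int.ofNat 58535912297782656000, Int.ofNat 76288308389029440000, Int.negSucc 27925638443999999999, Int.negSucc 9052750877924159999, Int.ofNat 35450756756819712000, Int.negSucc 345149723888639999, Int.ofNat 110256430148916480000, Int.negSucc 2903046787466495999, Int.negSucc 9173973165508799999, Int.ofNat 796730774539392000, Int.negSucc 24189550375060223999, Int.ofNat 10553762897891136000, Int.negSucc 17860332702117311999, Int.negSucc 17018916894923327999],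
  [Int.ofNat 370025761839471936000, Int.ofNat 1383039209716566336000, Int.negSucc 547980888556157759999, Int.negSucc 280172886094328391999, Int.negSucc 66287356695441154799, Int.negSucc 156198784634855423999, Int.negSucc 18047549617295615999, Int.negSucc 781998998975732735999, Int.negSucc 712525561429004927999, Int.ofNat 194006532025658880000, Int.ofNat 108146465978227776000, Int.ofNat 484309502971081920000, Int.ofNat 76288308389029440000, Int.ofNat 384472032322352832000, Int.negSucc 43364628013253183999, Int.ofNat 4372345055428416000, Int.ofNat 86022883974259584000, Int.ofNat 220257996417258624000, Int.ofNat 92574569271945024000, Int.ofNat 3534817513715136000, Int.ofNat 5878758602280960000, Int.ofNat 1374821294844096000, Int.negSucc 128825607751663679999, Int.ofNat 13099089332444544000, Int.negSucc 95505930331479359999, Int.negSucc 42244390561108031999],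
  [Int.negSucc 169628243228376767999, Int.negSucc 129478018708120895999, Int.negSucc 57639021379372223999, Int.ofNat 173670175166602752000, Int.ofNat 30227053837394304000, Int.ofNat 110547580597489728000, Int.negSucc 1075224382119359999, Int.ofNat 104053857316085952000, Int.negSucc 56701672734015935999, Int.ofNat 630394286594688000, Int.negSucc 110752853008013567999, Int.negSucc 227170245043830527999, Int.negSucc 27925638443999999999, Int.negSucc 43364628013253183999, Int.ofNat 55630301506705728000, Int.negSucc 21485528308601279999, Int.ofNat 64897823964542976000, Int.negSucc 47082929380806527999, Int.ofNat 21848639055198912000, Int.negSucc 20570794505534591999, Int.ofNat 23534628646630464000, Int.negSucc 4784061291001343999, Int.ofNat 53154260397950976000, Int.negSucc 4963029650694719999, Int.ofNat 1631858894740800000, Int.ofNat 19010358254378304000],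
  [Int.ofNat 114741911515004928000, Int.negSucc 130070344940623295999, Int.ofNat 106634819266563456000, Int.negSucc 87512382226272959999, Int.negSucc 23677027352111231999, Int.negSucc 56593558774982591999, Int.ofNat 19273727781462528000, Int.ofNat 79049188833544512000, Int.ofNat 91099584642825792000, Int.negSucc 30434126638037759999, Int.ofNat 56372169882352896000, Int.ofNat 57236100343437312000, Int.negSucc 9052750877924159999, Int.ofNat 4372345055428416000, Int.negSucc 21485528308601279999, Int.ofNat 18548088463561536000, Int.negSucc 55193949980966015999, Int.ofNat 38689940105226432000, Int.negSucc 66063411855897983999, Int.ofNat 14601432749549184000, Int.negSucc 8886733903073663999, Int.ofNat 2350044851799744000, Int.negSucc 26529427004211647999, Int.negSucc 1823643093609215999, Int.ofNat 3355343886875904000, Int.negSucc 4721630378781887999],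
  [Int.negSucc 225452475826003007999, Int.ofNat 772567835881171968000, Int.negSucc 507029850521580671999, Int.ofNat 173699157413802240000, Int.ofNat 46608360615273600000, Int.ofNat 143206356948006528000, Int.negSucc 59048668039046399999, Int.negSucc 416761223192740799999, Int.negSucc 484390246848311231999, Int.ofNat 151819903711181376000, Int.negSucc 159449571884883455999, Int.negSucc 83500395171006527999, Int.ofNat 35450756756819712000, Int.ofNat 86022883974259584000, Int.ofNat 64897823964542976000, Int.negSucc 55193949980966015999, Int.ofNat 202387573956845376000, Int.negSucc 44988058877262335999, Int.ofNat 195615037719858240000, Int.negSucc 34922792686928255999, Int.ofNat 22006493957517696000, Int.negSucc 5186016538338239999, Int.ofNat 47635897871029248000, Int.negSucc 7230134452692095999, Int.negSucc 13409595790208639999, Int.ofNat 7066418541031872000],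
  [Int.ofNat 489349370306757312000, Int.ofNat 512448329679149952000, Int.negSucc 151648336273300415999, Int.negSucc 365629130579002751999, Int.negSucc 100194645860724095999, Int.negSucc 180158012017112447999, Int.ofNat 39294407556119232000, Int.negSucc 210798236499092351999, Int.negSucc 245821166721554687999, Int.ofNat 58275699223173696000, Int.ofNat 144928529628791040000, Int.ofNat 313753645490364288000, Int.negSucc 345149723888639999, Int.ofNat 220257996417258624000, Int.negSucc 47082929380806527999, Int.ofNat 38689940105226432000, Int.negSucc 44988058877262335999, Int.ofNat 230669495098808832000, Int.negSucc 140898032087548031999, Int.ofNat 46614008583489600000, Int.negSucc 25258944821787071999, Int.ofNat 8262898003717632000, Int.negSucc 124190958827251007999, Int.negSucc 25145455940744831999, Int.negSucc 8589196328980607999, Int.negSucc 25805230107959807999],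
  [Int.negSucc 406087463411125055999, Int.ofNat 939314268724398336000, Int.negSucc 459919651513215167999, Int.ofNat 274235377840199424000, Int.ofNat 96131779335510336000, Int.ofNat 119113051168311552000, Int.negSucc 104311856454600959999, Int.negSucc 676963666936846079999, Int.negSucc 471547177096438079999, Int.ofNat 157701479075661312000, Int.negSucc 116083863063951551999, Int.ofNat 93874912541106048000, Int.ofNat 110256430148916480000, Int.ofNat 92574569271945024000, Int.ofNat 21848639055198912000, Int.negSucc 66063411855897983999, Int.ofNat 195615037719858240000, Int.negSucc 140898032087548031999, Int.ofNat 388992462725712384000, Int.negSucc 74645003357305919999, Int.ofNat 42856429607906112000, Int.negSucc 11491700813708543999, Int.ofNat 56380994743829184000, Int.ofNat 57573830277190656000, Int.negSucc 93971575719869759999, Int.negSucc 10455182061274367999],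
  [Int.ofNat 151454871894230784000, Int.ofNat 35743563519833664000, Int.ofNat 12026513592149760000, Int.negSucc 152611223344842239999, Int.negSucc 32639612638881599999, Int.negSucc 53010049381521407999, Int.ofNat 6759615603451392000, Int.ofNat 22636782818483328000, Int.ofNat 57082504217454144000, Int.ofNat 1843874896260672000, Int.ofNat 49203798376182912000, Int.ofNat 79833367523967552000, Int.negSucc 2903046787466495999, Int.ofNat 3534817513715136000, Int.negSucc 20570794505534591999, Int.ofNat 14601432749549184000, Int.negSucc 34922792686928255999, Int.ofNat 46614008583489600000, Int.negSucc 74645003357305919999, Int.ofNat 33508262809479744000, Int.negSucc 31584745393698815999, Int.ofNat 6379560995379264000, Int.negSucc 32392359427241087999, Int.negSucc 28330297976471039999, Int.ofNat 47481547081237632000, Int.negSucc 5080534830993599999],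
  [Int.negSucc 118228511656411199999, Int.negSucc 120970038421013759999, Int.ofNat 25561319129609472000, Int.ofNat 147225206472322176000, Int.ofNat 24905011679247744000, Int.ofNat 44763722608917312000, Int.ofNat 5544020833851456000, Int.ofNat 36323907310291392000, Int.negSucc 50333607418678847999, Int.negSucc 16946718116093567999, Int.negSucc 43230885518139263999, Int.negSucc 99054950650223039999, Int.negSucc 9173973165508799999, Int.ofNat 5878758602280960000, Int.ofNat 23534628646630464000, Int.negSucc 8886733903073663999, Int.ofNat 22006493957517696000, Int.negSucc 25258944821787071999, Int.ofNat 42856429607906112000, Int.negSucc 31584745393698815999, Int.ofNat 37861051771471104000, Int.negSucc 7224609356148095999, Int.ofNat 25496101532683584000, Int.ofNat 28386554623498368000, Int.negSucc 55222678326860351999, Int.ofNat 6513196926538368000],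
  [Int.ofNat 29519640967487616000, Int.ofNat 24332163088901184000, Int.negSucc 5222563410449087999, Int.negSucc 32012246389521023999, Int.negSucc 6274474534728575999, Int.negSucc 10678603205438783999, Int.ofNat 320154426599040000, Int.negSucc 6125456249846207999, Int.ofNat 7595190531453888000, Int.ofNat 3230741506652352000, Int.ofNat 9849380663536128000, Int.ofNat 20769929752492800000, Int.ofNat 796730774539392000, Int.ofNat 1374821294844096000, Int.negSucc 4784061291001343999, Int.ofNat 2350044851799744000, Int.negSucc 5186016538338239999, Int.ofNat 8262898003717632000, Int.negSucc 11491700813708543999, Int.ofNat 6379560995379264000, Int.negSucc 7224609356148095999, Int.ofNat 1793614304832768000, Int.negSucc 6141190471713791999, Int.negSucc 5555930064379199999, Int.ofNat 10133230751550720000, Int.negSucc 1414226559157631999],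
  [Int.negSucc 301830178805394623999, Int.negSucc 368280236447868095999, Int.ofNat 62810353083950208000, Int.ofNat 260883069190362432000, Int.ofNat 58411823911974720000, Int.ofNat 140537908634846976000, Int.negSucc 9990860046368255999, Int.ofNat 195362210392835904000, Int.ofNat 102024964234778112000, Int.negSucc 36134863521888383999, Int.negSucc 125083108781288063999, Int.negSucc 284341090244789951999, Int.negSucc 24189550375060223999, Int.negSucc 128825607751663679999, Int.ofNat 53154260397950976000, Int.negSucc 26529427004211647999, Int.ofNat 47635897871029248000, Int.negSucc 124190958827251007999, Int.ofNat 56380994743829184000, Int.negSucc 32392359427241087999, Int.ofNat 25496101532683584000, Int.negSucc 6141190471713791999, Int.ofNat 86578452809234496000, Int.ofNat 8886864382070400000, Int.ofNat 4509669799470528000, Int.ofNat 23498367293611584000],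
  [Int.negSucc 79476194406565439999, Int.negSucc 68475025194485183999, Int.ofNat 63558949148183808000, Int.ofNat 91869105796345152000, Int.ofNat 20153704289127552000, Int.negSucc 685563479333567999, Int.ofNat 478481455552320000, Int.negSucc 27717220830987071999, Int.negSucc 5079503420792063999, Int.negSucc 19051856964081215999, Int.ofNat 6041290506368832000, Int.ofNat 10043631187628544000, Int.ofNat 10553762897891136000, Int.ofNat 13099089332444544000, Int.negSucc 4963029650694719999, Int.negSucc 1823643093609215999, Int.negSucc 7230134452692095999, Int.negSucc 25145455940744831999, Int.ofNat 57573830277190656000, Int.negSucc 28330297976471039999, Int.ofNat 28386554623498368000, Int.negSucc 5555930064379199999, Int.ofNat 8886864382070400000, Int.ofNat 38613988676780352000, Int.negSucc 61597976989792319999, Int.negSucc 2899686263728319999],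
  [Int.ofNat 67276122058797696000, Int.negSucc 91271769170491007999, Int.ofNat 2350415509934976000, Int.negSucc 124150582172447423999, Int.negSucc 20147307463546559999, Int.ofNat 12319661454262272000, Int.negSucc 4674201991842239999, Int.ofNat 141479608345739136000, Int.ofNat 163862027326901376000, Int.negSucc 391298828583167999, Int.negSucc 9311698012243967999, Int.negSucc 49049227698419519999, Int.negSucc 17860332702117311999, Int.negSucc 95505930331479359999, Int.ofNat 1631858894740800000, Int.ofNat 3355343886875904000, Int.negSucc 13409595790208639999, Int.negSucc 8589196328980607999, Int.negSucc 93971575719869759999, Int.ofNat 47481547081237632000, Int.negSucc 55222678326860351999, Int.ofNat 10133230751550720000, Int.ofNat 4509669799470528000, Int.negSucc 61597976989792319999, Int.ofNat 121203778130189568000, Int.ofNat 7798073364132480000],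
  [Int.negSucc 66943409074724159999, Int.negSucc 169285081934054591999, Int.ofNat 38218327170997248000, Int.ofNat 66841985751292224000, Int.ofNat 11402289029419200000, Int.ofNat 40558508933792256000, Int.ofNat 4347402828081984000, Int.ofNat 107454423031091136000, Int.ofNat 47249015729832576000, Int.negSucc 19264802712484031999, Int.negSucc 37193462000570303999, Int.negSucc 105640495829453375999, Int.negSucc 17018916894923327999, Int.negSucc 42244390561108031999, Int.ofNat 19010358254378304000, Int.negSucc 4721630378781887999, Int.ofNat 7066418541031872000, Int.negSucc 25805230107959807999, Int.negSucc 10455182061274367999, Int.negSucc 5080534830993599999, Int.ofNat 6513196926538368000, Int.negSucc 1414226559157631999, Int.ofNat 23498367293611584000, Int.negSucc 2899686263728319999, Int.ofNat 7798073364132480000, Int.ofNat 9268324511136768000]]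
  U := [[Int.ofNat 43824883, Int.ofNat 0, Int.ofNat 0, Int.ofNat 0, Int.ofNat 0, Int.ofNat 0, Int.ofNat 0, Int.ofNat 0, Int.ofNat 0, Int.ofNat 0, Int.ofNat 0, Int.ofNat 0, Int.ofNat 0, Int.ofNat 0, Int.ofNat 0, Int.ofNat 0, Int.ofNat 0, Int.ofNat 0, Int.ofNat 0, Int.ofNat 0, Int.ofNat 0, Int.ofNat 0, Int.ofNat 0, Int.ofNat 0, Int.ofNat 0, Int.ofNat 0],
  [Int.ofNat 29694602, Int.ofNat 105894521, Int.ofNat 0, Int.ofNat 0, Int.ofNat 0, Int.ofNat 0, Int.ofNat 0, Int.ofNat 0, Int.ofNat 0, Int.ofNat 0, Int.ofNat 0, Int.ofNat 0, Int.ofNat 0, Int.ofNat 0, Int.ofNat 0, Int.ofNat 0, Int.ofNat 0, Int.ofNat 0, Int.ofNat 0, Int.ofNat 0, Int.ofNat 0, Int.ofNat 0, Int.ofNat 0, Int.ofNat 0, Int.ofNat 0, Int.ofNat 0],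
  [Int.negSucc 2563742, Int.negSucc 49803516, Int.ofNat 17199101, Int.ofNat 0, Int.ofNat 0, Int.ofNat 0, Int.ofNat 0, Int.ofNat 0, Int.ofNat 0, Int.ofNat 0, Int.ofNat 0, Int.ofNat 0, Int.ofNat 0, Int.ofNat 0, Int.ofNat 0, Int.ofNat 0, Int.ofNat 0, Int.ofNat 0, Int.ofNat 0, Int.ofNat 0, Int.ofNat 0, Int.ofNat 0, Int.ofNat 0, Int.ofNat 0, Int.ofNat 0, Int.ofNat 0],
  [Int.negSucc 36527667, Int.negSucc 5264833, Int.negSucc 4637310, Int.ofNat 11598510, Int.ofNat 0, Int.ofNat 0, Int.ofNat 0, Int.ofNat 0, Int.ofNat 0, Int.ofNat 0, Int.ofNat 0, Int.ofNat 0, Int.ofNat 0, Int.ofNat 0, Int.ofNat 0, Int.ofNat 0, Int.ofNat 0, Int.ofNat 0, Int.ofNat 0, Int.ofNat 0, Int.ofNat 0, Int.ofNat 0, Int.ofNat 0, Int.ofNat 0, Int.ofNat 0, Int.ofNat 0],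
  [Int.negSucc 8946185, Int.ofNat 643203, Int.ofNat 1064102, Int.ofNat 254666, Int.ofNat 541383, Int.ofNat 0, Int.ofNat 0, Int.ofNat 0, Int.ofNat 0, Int.ofNat 0, Int.ofNat 0, Int.ofNat 0, Int.ofNat 0, Int.ofNat 0, Int.ofNat 0, Int.ofNat 0, Int.ofNat 0, Int.ofNat 0, Int.ofNat 0, Int.ofNat 0, Int.ofNat 0, Int.ofNat 0, Int.ofNat 0, Int.ofNat 0, Int.ofNat 0, Int.ofNat 0],
  [Int.negSucc 17860839, Int.ofNat 423031, Int.negSucc 9728180, Int.negSucc 944367, Int.ofNat 79561, Int.ofNat 809993, Int.ofNat 0, Int.ofNat 0, Int.ofNat 0, Int.ofNat 0, Int.ofNat 0, Int.ofNat 0, Int.ofNat 0, Int.ofNat 0, Int.ofNat 0, Int.ofNat 0, Int.ofNat 0, Int.ofNat 0, Int.ofNat 0, Int.ofNat 0, Int.ofNat 0, Int.ofNat 0, Int.ofNat 0, Int.ofNat 0, Int.ofNat 0, Int.ofNat 0],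
  [Int.ofNat 3207846, Int.negSucc 6142717, Int.negSucc 1871799, Int.ofNat 3065552, Int.negSucc 198494, Int.negSucc 694069, Int.ofNat 1029640, Int.ofNat 0, Int.ofNat 0, Int.ofNat 0, Int.ofNat 0, Int.ofNat 0, Int.ofNat 0, Int.ofNat 0, Int.ofNat 0, Int.ofNat 0, Int.ofNat 0, Int.ofNat 0, Int.ofNat 0, Int.ofNat 0, Int.ofNat 0, Int.ofNat 0, Int.ofNat 0, Int.ofNat 0, Int.ofNat 0, Int.ofNat 0],
  [Int.negSucc 10845423, Int.negSucc 61241626, Int.negSucc 13208486, Int.negSucc 4400304, Int.ofNat 143355, Int.ofNat 1107922, Int.negSucc 743676, Int.ofNat 976071, Int.ofNat 0, Int.ofNat 0, Int.ofNat 0, Int.ofNat 0, Int.ofNat 0, Int.ofNat 0, Int.ofNat 0, Int.ofNat 0, Int.ofNat 0, Int.ofNat 0, Int.ofNat 0, Int.ofNat 0, Int.ofNat 0, Int.ofNat 0, Int.ofNat 0, Int.ofNat 0, Int.ofNat 0, Int.ofNat 0],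
  [Int.negSucc 5089050, Int.negSucc 48550430, Int.ofNat 13960041, Int.negSucc 19851014, Int.negSucc 613315, Int.negSucc 2842769, Int.ofNat 3194006, Int.negSucc 1251403, Int.ofNat 2547933, Int.ofNat 0, Int.ofNat 0, Int.ofNat 0, Int.ofNat 0, Int.ofNat 0, Int.ofNat 0, Int.ofNat 0, Int.ofNat 0, Int.ofNat 0, Int.ofNat 0, Int.ofNat 0, Int.ofNat 0, Int.ofNat 0, Int.ofNat 0, Int.ofNat 0, Int.ofNat 0, Int.ofNat 0],
  [Int.ofNat 2334482, Int.ofNat 17129083, Int.negSucc 3029874, Int.negSucc 1007906, Int.negSucc 22949, Int.negSucc 54515, Int.ofNat 127429, Int.negSucc 36288, Int.ofNat 97942, Int.ofNat 534344, Int.ofNat 0, Int.ofNat 0, Int.ofNat 0, Int.ofNat 0, Int.ofNat 0, Int.ofNat 0, Int.ofNat 0, Int.ofNat 0, Int.ofNat 0, Int.ofNat 0, Int.ofNat 0, Int.ofNat 0, Int.ofNat 0, Int.ofNat 0, Int.ofNat 0, Int.ofNat 0],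
  [Int.ofNat 15747461, Int.negSucc 2448572, Int.ofNat 11433312, Int.negSucc 252843, Int.negSucc 86563, Int.negSucc 564646, Int.ofNat 314123, Int.negSucc 273785, Int.ofNat 91410, Int.negSucc 34253, Int.ofNat 580374, Int.ofNat 0, Int.ofNat 0, Int.ofNat 0, Int.ofNat 0, Int.ofNat 0, Int.ofNat 0, Int.ofNat 0, Int.ofNat 0, Int.ofNat 0, Int.ofNat 0, Int.ofNat 0, Int.ofNat 0, Int.ofNat 0, Int.ofNat 0, Int.ofNat 0],
  [Int.ofNat 30204802, Int.ofNat 22126059, Int.ofNat 24129491, Int.negSucc 1874327, Int.negSucc 162908, Int.negSucc 1241918, Int.ofNat 719430, Int.negSucc 701437, Int.ofNat 295443, Int.negSucc 52463, Int.ofNat 207397, Int.ofNat 696351, Int.ofNat 0, Int.ofNat 0, Int.ofNat 0, Int.ofNat 0, Int.ofNat 0, Int.ofNat 0, Int.ofNat 0, Int.ofNat 0, Int.ofNat 0, Int.ofNat 0, Int.ofNat 0, Int.ofNat 0, Int.ofNat 0, Int.ofNat 0],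
  [Int.ofNat 322421, Int.ofNat 7558354, Int.ofNat 5689077, Int.negSucc 1371369, Int.ofNat 125703, Int.ofNat 312122, Int.negSucc 471834, Int.ofNat 30610, Int.negSucc 177046, Int.negSucc 17718, Int.ofNat 30122, Int.ofNat 77825, Int.ofNat 576101, Int.ofNat 0, Int.ofNat 0, Int.ofNat 0, Int.ofNat 0, Int.ofNat 0, Int.ofNat 0, Int.ofNat 0, Int.ofNat 0, Int.ofNat 0, Int.ofNat 0, Int.ofNat 0, Int.ofNat 0, Int.ofNat 0],
  [Int.ofNat 13325884, Int.ofNat 16876418, Int.ofNat 569815, Int.ofNat 11731281, Int.ofNat 271121, Int.ofNat 1168776, Int.negSucc 1549757, Int.ofNat 522387, Int.negSucc 1325656, Int.negSucc 42485, Int.ofNat 76353, Int.ofNat 75607, Int.ofNat 11281, Int.ofNat 616664, Int.ofNat 0, Int.ofNat 0, Int.ofNat 0, Int.ofNat 0, Int.ofNat 0, Int.ofNat 0, Int.ofNat 0, Int.ofNat 0, Int.ofNat 0, Int.ofNat 0, Int.ofNat 0, Int.ofNat 0],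
  [Int.negSucc 6108888, Int.negSucc 216742, Int.negSucc 6827499, Int.ofNat 1565272, Int.ofNat 113658, Int.ofNat 626103, Int.negSucc 537122, Int.ofNat 303805, Int.negSucc 303356, Int.ofNat 10752, Int.negSucc 52510, Int.negSucc 72983, Int.ofNat 5808, Int.ofNat 7092, Int.ofNat 532897, Int.ofNat 0, Int.ofNat 0, Int.ofNat 0, Int.ofNat 0, Int.ofNat 0, Int.ofNat 0, Int.ofNat 0, Int.ofNat 0, Int.ofNat 0, Int.ofNat 0, Int.ofNat 0],
  [Int.ofNat 4132246, Int.negSucc 3097356, Int.ofNat 1432320, Int.ofNat 272195, Int.negSucc 4494, Int.negSucc 16913, Int.negSucc 27631, Int.ofNat 6232, Int.negSucc 44983, Int.negSucc 7853, Int.ofNat 20142, Int.ofNat 19584, Int.negSucc 3679, Int.ofNat 16028, Int.negSucc 3439, Int.ofNat 524551, Int.ofNat 0, Int.ofNat 0, Int.ofNat 0, Int.ofNat 0, Int.ofNat 0, Int.ofNat 0, Int.ofNat 0, Int.ofNat 0, Int.ofNat 0, Int.ofNat 0],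
  [Int.negSucc 8119308, Int.ofNat 13791367, Int.negSucc 7802369, Int.ofNat 1206553, Int.ofNat 90392, Int.ofNat 490929, Int.negSucc 367191, Int.ofNat 208070, Int.negSucc 192562, Int.ofNat 25448, Int.negSucc 70725, Int.negSucc 82726, Int.ofNat 4765, Int.negSucc 17202, Int.ofNat 19988, Int.negSucc 8772, Int.ofNat 537991, Int.ofNat 0, Int.ofNat 0, Int.ofNat 0, Int.ofNat 0, Int.ofNat 0, Int.ofNat 0, Int.ofNat 0, Int.ofNat 0, Int.ofNat 0],
  [Int.ofNat 17623132, Int.ofNat 2695857, Int.negSucc 3482717, Int.ofNat 5579040, Int.ofNat 139486, Int.ofNat 815158, Int.negSucc 954748, Int.ofNat 455574, Int.negSucc 790586, Int.negSucc 16275, Int.ofNat 30938, Int.ofNat 1521, Int.negSucc 28442, Int.ofNat 105963, Int.ofNat 9303, Int.ofNat 14199, Int.negSucc 11914, Int.ofNat 567899, Int.ofNat 0, Int.ofNat 0, Int.ofNat 0, Int.ofNat 0, Int.ofNat 0, Int.ofNat 0, Int.ofNat 0, Int.ofNat 0],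
  [Int.negSucc 14624587, Int.ofNat 18100794, Int.ofNat 8029852, Int.ofNat 2685990, Int.ofNat 32817, Int.negSucc 272522, Int.ofNat 79148, Int.negSucc 297560, Int.negSucc 6244, Int.negSucc 17434, Int.ofNat 37945, Int.ofNat 96505, Int.ofNat 64681, Int.negSucc 4, Int.negSucc 13429, Int.negSucc 10407, Int.ofNat 4214, Int.negSucc 67379, Int.ofNat 582626, Int.ofNat 0, Int.ofNat 0, Int.ofNat 0, Int.ofNat 0, Int.ofNat 0, Int.ofNat 0, Int.ofNat 0],
  [Int.ofNat 5454404, Int.negSucc 996773, Int.negSucc 969696, Int.negSucc 4429158, Int.ofNat 152407, Int.ofNat 677517, Int.negSucc 668169, Int.ofNat 277886, Int.negSucc 168230, Int.ofNat 1248, Int.negSucc 20803, Int.negSucc 3333, Int.ofNat 91853, Int.negSucc 12314, Int.ofNat 23166, Int.negSucc 2115, Int.ofNat 14952, Int.ofNat 601, Int.negSucc 12511, Int.ofNat 582652, Int.ofNat 0, Int.ofNat 0, Int.ofNat 0, Int.ofNat 0, Int.ofNat 0, Int.ofNat 0],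
  [Int.negSucc 4257809, Int.negSucc 609010, Int.negSucc 52551, Int.ofNat 6327114, Int.ofNat 96664, Int.ofNat 389606, Int.negSucc 521940, Int.ofNat 172361, Int.negSucc 507763, Int.negSucc 21063, Int.ofNat 23664, Int.ofNat 16867, Int.negSucc 8683, Int.ofNat 69172, Int.negSucc 87, Int.ofNat 3525, Int.negSucc 6251, Int.ofNat 20427, Int.ofNat 22984, Int.negSucc 31256, Int.ofNat 539680, Int.ofNat 0, Int.ofNat 0, Int.ofNat 0, Int.ofNat 0, Int.ofNat 0],
  [Int.ofNat 1063102, Int.ofNat 64542, Int.negSucc 133887, Int.negSucc 1032270, Int.negSucc 52351, Int.negSucc 205455, Int.ofNat 245098, Int.negSucc 80535, Int.ofNat 160419, Int.ofNat 6217, Int.negSucc 3923, Int.negSucc 7134, Int.negSucc 15715, Int.negSucc 15943, Int.negSucc 3368, Int.negSucc 139, Int.negSucc 990, Int.negSucc 2491, Int.negSucc 8740, Int.negSucc 10288, Int.negSucc 5222, Int.ofNat 524299, Int.ofNat 0, Int.ofNat 0, Int.ofNat 0, Int.ofNat 0],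
  [Int.negSucc 10869928, Int.negSucc 2440844, Int.negSucc 2924447, Int.negSucc 1010313, Int.negSucc 212167, Int.negSucc 854008, Int.ofNat 1064030, Int.negSucc 347163, Int.ofNat 620646, Int.ofNat 27419, Int.negSucc 41874, Int.negSucc 65975, Int.negSucc 86651, Int.negSucc 67020, Int.negSucc 13668, Int.negSucc 5710, Int.ofNat 3378, Int.negSucc 30537, Int.negSucc 5080, Int.negSucc 85751, Int.negSucc 2984, Int.ofNat 13742, Int.ofNat 565006, Int.ofNat 0, Int.ofNat 0, Int.ofNat 0],
  [Int.negSucc 2862207, Int.negSucc 217960, Int.ofNat 4774716, Int.ofNat 5297230, Int.negSucc 161087, Int.negSucc 798262, Int.ofNat 689743, Int.negSucc 347388, Int.ofNat 129293, Int.negSucc 15813, Int.ofNat 57574, Int.ofNat 50992, Int.negSucc 86420, Int.ofNat 33131, Int.negSucc 31756, Int.ofNat 5317, Int.negSucc 26776, Int.ofNat 2726, Int.ofNat 25042, Int.negSucc 121522, Int.ofNat 35515, Int.ofNat 7976, Int.ofNat 65518, Int.ofNat 575909, Int.ofNat 0, Int.ofNat 0],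
  [Int.ofNat 2422842, Int.negSucc 2039746, Int.negSucc 5329661, Int.negSucc 12320393, Int.negSucc 3884, Int.ofNat 121219, Int.ofNat 191523, Int.ofNat 53905, Int.ofNat 607524, Int.ofNat 44685, Int.negSucc 95315, Int.negSucc 88072, Int.ofNat 72512, Int.negSucc 127995, Int.ofNat 27621, Int.negSucc 11174, Int.ofNat 34113, Int.negSucc 37051, Int.negSucc 46557, Int.ofNat 129065, Int.negSucc 70776, Int.ofNat 980, Int.negSucc 38796, Int.negSucc 118240, Int.ofNat 599262, Int.ofNat 0],
  [Int.negSucc 2410858, Int.negSucc 1847028, Int.negSucc 2200697, Int.negSucc 215297, Int.ofNat 23368, Int.ofNat 148406, Int.negSucc 99350, Int.ofNat 76538, Int.negSucc 28827, Int.ofNat 5163, Int.negSucc 20419, Int.negSucc 27434, Int.ofNat 1893, Int.negSucc 6398, Int.ofNat 6424, Int.negSucc 1502, Int.ofNat 6366, Int.negSucc 361, Int.negSucc 5599, Int.ofNat 8422, Int.negSucc 2623, Int.negSucc 412, Int.negSucc 1627, Int.negSucc 9442, Int.ofNat 9216, Int.ofNat 523559]]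
  c := 633600
  X := X6_9

end Pool.Agent.CycT
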