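import Pool.Agent.W_1bfdb5t_h19.Dc19
import Pool.Agent.W_1bfdb5t_h19.Dk11
import Pool.Agent.W_1bfdb5t_h19.Dt11

/-!
# Data of the certificate for closed walks of length 11 in triangle-free graphs
-/

set_option maxRecDepth 100000

namespace Pool.Agent.CycT

open Pool.Agent.CycGT

/-- Multiplier of the flag part. -/
def cT11 : ℤ := 89631360000000000000

/-- The scale. -/
def M11 : ℤ := 8963136000000000000000

/-- Value at a coded graph, from its pattern counts. -/
def tH11 (g x : ℕ) : ℤ := dotK K11 (rowD x) + cT11 * (tys11.map fun T => tot T g).sum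

end Pool.Agent.CycT
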