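import Pool.Agent.W_1bfdb5t_h19.TDefs19

/-!
# Closed walks of length 9 and 11 in triangle-free graphs: the form of the certificate
-/

namespace Pool.Agent.CycT

open Finset Matrix Pool.Agent.CycGT
open scoped Classical

/-- Scalar product of two lists. -/
def dotL : List ℤ → List ℤ → ℤ
  | a :: l, b :: m => bif a == 0 then dotL l m else a * b + dotL l m
  | _, _ => 0

/-- `∑ a, N_a * (Z_a · v)`. -/
def quadL : List ℤ → List (List ℤ) → List ℤ → ℤ
  | a :: l, z :: Z, v => bif a == 0 then quadL l Z v else a * dotL v z + quadL l Z v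
  | _, _, _ => 0

/-- A positive semidefinite integer matrix `X` (`n` rows) with its certificate:
`X_ij = ∑_ab N_ai Z_ab N_bj` (the lists in `Nc` are the columns of `N`), and
`Z_ab = c * (U_a · U_b) + R_ab` with `R` diagonally dominant. -/
structure Blk where
  n : ℕ
  d : ℕ
  Nc : List (List ℤ)
  Z : List (List ℤ)
  U : List (List ℤ)
  c : ℕ
  X : List (List ℤ)

/-- Entry of a matrix given by its rows. -/
def ent (X : List (List ℤ)) (i j : ℕ) : ℤ := (X.getD i []).getD j 0

/-- The row `a` of `R`. -/
def rowR (c : ℕ) (z ua : List ℤ) (U : List (List ℤ)) : List ℤ :=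
  List.zipWith (fun x u => x - c * dotL ua u) z U

/-- Sum of the absolute values. -/
def absS : List ℤ → ℕ
  | [] => 0
  | a :: l => a.natAbs + absS l

/-- The lengths are right. -/
def Blk.lenB (b : Blk) : Bool :=
  Nat.beq b.Nc.length b.n && Nat.beq b.Z.length b.d && Nat.beq b.U.length b.d &&
  Nat.beq b.X.length b.n && (b.Nc.all fun l => Nat.beq l.length b.d) &&
  (b.Z.all fun l => Nat.beq l.length b.d) && (b.U.all fun l => Nat.beq l.length b.d) &&
  (b.X.all fun l => Nat.beq l.length b.n)

/-- `Z` is symmetric and `R` is diagonally dominant. -/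
def Blk.domB (b : Blk) : Bool :=
  (List.range b.d).all fun a =>
    (decide ((absS (rowR b.c (b.Z.getD a []) (b.U.getD a []) b.U) : ℤ) ≤
      2 * (rowR b.c (b.Z.getD a []) (b.U.getD a []) b.U).getD a 0)) &&
    ((List.range a).all fun e => decide (ent b.Z a e = ent b.Z e a))

/-- The upper half of `X` comes from `Z`, and `X` is symmetric. -/
def Blk.xB (b : Blk) : Bool :=
  (List.range b.n).all fun i => (List.range b.n).all fun j =>
    bif Nat.ble i j then decide (ent b.X i j = quadL (b.Nc.getD i []) b.Z (b.Nc.getD j []))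
      else decide (ent b.X i j = ent b.X j i)

/-- The pairs `i ≤ j` with the two possible middle parts (`0` empty, `1` the letter `0`), in the
order of the data. -/
def prs (n : ℕ) : List (ℕ × ℕ × ℕ) :=
  (List.range n).flatMap fun i => (List.range (n - i)).flatMap fun s => [(i, i + s, 0), (i, i + s, 1)]

/-- The word of a pair. -/
def wordE (ws : List (List ℕ)) (e : ℕ × ℕ × ℕ) : List ℕ :=
  bif Nat.beq e.2.2 0 then (ws.getD e.1 []).reverse ++ ws.getD e.2.1 []
    else (ws.getD e.1 []).reverse ++ 0 :: ws.getD e.2.1 []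

/-- The coefficient of a pair, for the matrices `X5` and `X6` of the two blocks. -/
def coE (X5 X6 : List (List ℤ)) (e : ℕ × ℕ × ℕ) : ℤ :=
  (bif Nat.beq e.1 e.2.1 then 1 else 2) *
    (bif Nat.beq e.2.2 0 then 5 * (ent X5 e.1 e.2.1 + ent X6 e.1 e.2.1)
      else 2 * (ent X6 e.1 e.2.1 - ent X5 e.1 e.2.1))

/-- The datum `(c, p)` is right for the word `w`: class `0` means that the density vanishes, class
`c + 1` that the graph of the word is isomorphic to that of the `c`-th list of masks. -/
def datB (cm : List (List ℕ)) (w : List ℕ) (q : ℕ × List ℕ) : Bool :=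
  match rotW w, q.1 with
  | [], _ => false
  | r, 0 => Nat.ble w.length 11 && !(Nat.beq (r.getLastD 1) 1) && zeroB q.2 (wE r)
  | r, c + 1 => Nat.ble w.length 11 && !(Nat.beq (r.getLastD 1) 1) &&
      isoB q.2 (wE r) (mE (cm.getD c []))

/-- All data of the pairs are right. -/
def datsB (cm ws : List (List ℕ)) (dat : List (ℕ × List ℕ)) : Bool :=
  Nat.beq dat.length (prs ws.length).length &&
    ((List.zip (prs ws.length) dat).all fun x => datB cm (wordE ws x.1) x.2)

/-- The contributions of the pairs to the classes. -/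
def conL (X5 X6 : List (List ℤ)) (ws : List (List ℕ)) (dat : List (ℕ × List ℕ)) : List (ℕ × ℤ) :=
  (List.zip (prs ws.length) dat).map fun x =>
    (x.2.1, coE X5 X6 x.1 * 5 ^ lett (wordE ws x.1))

/-- Sum of the contributions to the class `c`. -/
def clsS (L : List (ℕ × ℤ)) (c : ℕ) : ℤ :=
  match L with
  | [] => 0
  | x :: l => bif Nat.beq x.1 c then x.2 + clsS l c else clsS l c

/-- The class sums are the numbers `K`. -/
def sumB (L : List (ℕ × ℤ)) (K : List ℤ) : Bool :=
  (L.all fun x => Nat.ble x.1 K.length) &&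
    ((List.range K.length).all fun c => decide (clsS L (c + 1) = K.getD c 0))

end Pool.Agent.CycT
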