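import Pool.Agent.W_1bfdb5t_h19.Dt5
import Pool.Agent.W_1bfdb5t_h19.TDefb19

/-!
# Data of the certificate for closed walks of length 5 in triangle-free graphs
-/

set_option maxRecDepth 100000

namespace Pool.Agent.CycT

open Pool.Agent.CycGT

/-- The masks of the cycle of length five. -/
def c5m : List ℕ := [0, 1, 2, 4, 9]

/-- Value at a coded graph. -/
def tH5 (g : ℕ) : ℤ := 312500 * totp c5m g + (tys5.map fun T => tot T g).sum

end Pool.Agent.CycT
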