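import Pool.Agent.W_1bfdb5t_h19.Dt0_5
import Pool.Agent.W_1bfdb5t_h19.Dt1_5
import Pool.Agent.W_1bfdb5t_h19.Dt2_5
import Pool.Agent.W_1bfdb5t_h19.Dt3_5
import Pool.Agent.W_1bfdb5t_h19.Dt4_5
import Pool.Agent.W_1bfdb5t_h19.Dt5_5

/-!
# Data of the certificate for closed walks of length 5 in triangle-free graphs
-/

set_option maxRecDepth 100000

namespace Pool.Agent.CycT

def tys5 : List Pool.Agent.CycGT.Ty := [ty0_5, ty1_5, ty2_5, ty3_5, ty4_5, ty5_5]

end Pool.Agent.CycT
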