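import Pool.Agent.W_1bfdb5t_h19.TDefb19

/-!
# Closed walks of length 9 and 11 in triangle-free graphs: positive semidefinite blocks (helper14)
-/

namespace Pool.Agent.CycT

open Finset Matrix Pool.Agent.CycGT
open scoped Classical

namespace Psd14

lemma dotL_nil_right (v : List ℤ) : dotL v [] = 0 := by
  cases v <;> rfl

lemma dotL_eq (l m : List ℤ) : ∀ D : ℕ, l.length ≤ D →
    dotL l m = ∑ k ∈ range D, l.getD k 0 * m.getD k 0 := by
  induction l generalizing m with
  | nil =>
    intro D _
    have h1 : dotL [] m = 0 := by cases m <;> rfl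
    rw [h1]
    symm
    refine Finset.sum_eq_zero fun k _ => ?_
    simp
  | cons a l ih =>
    intro D hD
    rcases m with _ | ⟨b, m⟩
    · rw [dotL_nil_right]
      symm
      refine Finset.sum_eq_zero fun k _ => ?_
      simp
    · rcases D with _ | D
      · simp at hD
      · rw [Finset.sum_range_succ']
        simp only [List.getD_cons_succ, List.getD_cons_zero]
        rw [← ih m D (by simpa using hD)]
        have h1 : dotL (a :: l) (b :: m) = bif a == 0 then dotL l m else a * b + dotL l m := rfl
        rw [h1]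
        cases h : (a == 0)
        · simp only [cond_false]
          ring
        · have h2 : a = 0 := by simpa using h
          simp only [cond_true]
          rw [h2]
          ring

lemma quadL_eq (l : List ℤ) (Z : List (List ℤ)) (v : List ℤ) : ∀ D : ℕ, l.length ≤ D →
    quadL l Z v = ∑ k ∈ range D, l.getD k 0 * dotL v (Z.getD k []) := by
  induction l generalizing Z with
  | nil =>
    intro D _
    have h1 : quadL [] Z v = 0 := by cases Z <;> rfl
    rw [h1]
    symm
    refine Finset.sum_eq_zero fun k _ => ?_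
    simp
  | cons a l ih =>
    intro D hD
    rcases Z with _ | ⟨z, Z⟩
    · have h1 : quadL (a :: l) [] v = 0 := rfl
      rw [h1]
      symm
      refine Finset.sum_eq_zero fun k _ => ?_
      simp [dotL_nil_right]
    · rcases D with _ | D
      · simp at hD
      · rw [Finset.sum_range_succ']
        simp only [List.getD_cons_succ, List.getD_cons_zero]
        rw [← ih Z D (by simpa using hD)]
        have h1 : quadL (a :: l) (z :: Z) v =
          bif a == 0 then quadL l Z v else a * dotL v z + quadL l Z v := rfl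
        rw [h1]
        cases h : (a == 0)
        · simp only [cond_false]
          ring
        · have h2 : a = 0 := by simpa using h
          simp only [cond_true]
          rw [h2]
          ring

lemma absS_eq (l : List ℤ) : ∀ D : ℕ, l.length ≤ D →
    absS l = ∑ k ∈ range D, (l.getD k 0).natAbs := by
  induction l with
  | nil =>
    intro D _
    have h1 : absS [] = 0 := rfl
    rw [h1]
    symm
    refine Finset.sum_eq_zero fun k _ => ?_
    simp
  | cons a l ih =>
    intro D hD
    rcases D with _ | D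
    · simp at hD
    · rw [Finset.sum_range_succ']
      simp only [List.getD_cons_succ, List.getD_cons_zero]
      rw [← ih D (by simpa using hD)]
      have h1 : absS (a :: l) = a.natAbs + absS l := rfl
      rw [h1, add_comm]

lemma rowR_length (c : ℕ) (z ua : List ℤ) (U : List (List ℤ)) :
    (rowR c z ua U).length = min z.length U.length := by
  unfold rowR
  exact List.length_zipWith

lemma rowR_getD (c : ℕ) (ua : List ℤ) (z : List ℤ) (U : List (List ℤ)) : ∀ e : ℕ,
    e < z.length → e < U.length →
    (rowR c z ua U).getD e 0 = z.getD e 0 - c * dotL ua (U.getD e []) := by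
  induction z generalizing U with
  | nil =>
    intro e he _
    simp at he
  | cons a z ih =>
    intro e he hU
    rcases U with _ | ⟨u, U⟩
    · simp at hU
    · have h1 : rowR c (a :: z) ua (u :: U) = (a - c * dotL ua u) :: rowR c z ua U := rfl
      rw [h1]
      rcases e with _ | e
      · simp
      · simp only [List.getD_cons_succ]
        exact ih U e (by simpa using he) (by simpa using hU)

/-- A diagonally dominant symmetric matrix pairs nonnegatively with a nonnegative form. -/
lemma dom_nonneg (D : ℕ) (R Q : ℕ → ℕ → ℝ) (hR : ∀ a ∈ range D, ∀ e ∈ range D, R a e = R e a)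
    (hdom : ∀ a ∈ range D, ∑ e ∈ range D, |R a e| ≤ 2 * R a a)
    (hQs : ∀ a ∈ range D, ∀ e ∈ range D, Q a e = Q e a)
    (hQ : ∀ y : ℕ → ℝ, 0 ≤ ∑ a ∈ range D, ∑ e ∈ range D, y a * y e * Q a e) :
    0 ≤ ∑ a ∈ range D, ∑ e ∈ range D, R a e * Q a e := by
  have hdiag : ∀ a ∈ range D, 0 ≤ Q a a := by
    intro a ha
    have h1 := hQ fun i => if i = a then 1 else 0
    have h2 : ∑ i ∈ range D, ∑ j ∈ range D, (if i = a then (1 : ℝ) else 0) *
        (if j = a then 1 else 0) * Q i j = Q a a := by
      rw [Finset.sum_eq_single_of_mem a ha]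
      · rw [Finset.sum_eq_single_of_mem a ha]
        · rw [if_pos rfl, one_mul, one_mul]
        · intro j _ hj
          rw [if_neg hj, mul_zero, zero_mul]
      · intro i _ hi
        refine Finset.sum_eq_zero fun j _ => ?_
        rw [if_neg hi, zero_mul, zero_mul]
    rwa [h2] at h1
  have hoff : ∀ a ∈ range D, ∀ e ∈ range D, a ≠ e → ∀ s : ℝ, s ^ 2 = 1 →
      0 ≤ Q a a + Q e e + 2 * s * Q a e := by
    intro a ha e he hae s hs
    have h1 := hQ fun i => (if i = a then 1 else 0) + s * if i = e then 1 else 0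
    have h3 : ∀ c ∈ range D, ∀ g : ℕ → ℝ, ∑ j ∈ range D, (if j = c then (1 : ℝ) else 0) * g j =
        g c := by
      intro c hc g
      rw [Finset.sum_eq_single_of_mem c hc]
      · rw [if_pos rfl, one_mul]
      · intro j _ hj
        rw [if_neg hj, zero_mul]
    have h2 : ∑ i ∈ range D, ∑ j ∈ range D,
        ((if i = a then (1 : ℝ) else 0) + s * if i = e then 1 else 0) *
        ((if j = a then 1 else 0) + s * if j = e then 1 else 0) * Q i j =
        Q a a + s * Q a e + s * Q e a + s ^ 2 * Q e e := by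
      have h4 : ∀ i, ∑ j ∈ range D,
          ((if i = a then (1 : ℝ) else 0) + s * if i = e then 1 else 0) *
          ((if j = a then 1 else 0) + s * if j = e then 1 else 0) * Q i j =
          ((if i = a then (1 : ℝ) else 0) + s * if i = e then 1 else 0) *
            (Q i a + s * Q i e) := by
        intro i
        rw [← h3 a ha fun j => Q i j, ← h3 e he fun j => Q i j, Finset.mul_sum,
          ← Finset.sum_add_distrib, Finset.mul_sum]
        refine Finset.sum_congr rfl fun j _ => ?_
        ring
      rw [Finset.sum_congr rfl fun i _ => h4 i]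
      have h5 : ∑ i ∈ range D, ((if i = a then (1 : ℝ) else 0) + s * if i = e then 1 else 0) *
          (Q i a + s * Q i e) =
          ∑ i ∈ range D, (if i = a then (1 : ℝ) else 0) * (Q i a + s * Q i e) +
            s * ∑ i ∈ range D, (if i = e then (1 : ℝ) else 0) * (Q i a + s * Q i e) := by
        rw [Finset.mul_sum, ← Finset.sum_add_distrib]
        refine Finset.sum_congr rfl fun i _ => ?_
        ring
      rw [h5, h3 a ha, h3 e he]
      ring
    rw [h2, hs, hQs e he a ha] at h1
    linarith
  have habs : ∀ a ∈ range D, ∀ e ∈ range D, a ≠ e → |Q a e| ≤ (Q a a + Q e e) / 2 := by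
    intro a ha e he hae
    have h1 := hoff a ha e he hae 1 (by norm_num)
    have h2 := hoff a ha e he hae (-1) (by norm_num)
    rw [abs_le]
    constructor <;> linarith
  -- the pointwise bound
  have hpt : ∀ a ∈ range D, ∀ e ∈ range D, (if a = e then 2 * R a a * Q a a else 0) -
      |R a e| * ((Q a a + Q e e) / 2) ≤ R a e * Q a e := by
    intro a ha e he
    by_cases hae : a = e
    · subst hae
      rw [if_pos rfl]
      have h0 : 0 ≤ R a a := by
        have h1 := hdom a ha
        have h2 : |R a a| ≤ ∑ e ∈ range D, |R a e| :=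
          Finset.single_le_sum (f := fun e => |R a e|) (fun e _ => abs_nonneg _) ha
        have h3 := abs_nonneg (R a a)
        linarith
      rw [abs_of_nonneg h0]
      have h4 : R a a * ((Q a a + Q a a) / 2) = R a a * Q a a := by ring
      rw [h4]
      linarith
    · rw [if_neg hae]
      have h1 := habs a ha e he hae
      have h2 : |R a e * Q a e| ≤ |R a e| * ((Q a a + Q e e) / 2) := by
        rw [abs_mul]
        exact mul_le_mul_of_nonneg_left h1 (abs_nonneg _)
      have h3 := neg_abs_le (R a e * Q a e)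
      linarith
  refine le_trans ?_ (Finset.sum_le_sum fun a ha => Finset.sum_le_sum fun e he => hpt a ha e he)
  have e1 : ∑ a ∈ range D, ∑ e ∈ range D, ((if a = e then 2 * R a a * Q a a else 0) -
      |R a e| * ((Q a a + Q e e) / 2)) =
      ∑ a ∈ range D, (2 * R a a * Q a a) -
        ∑ a ∈ range D, ∑ e ∈ range D, |R a e| * ((Q a a + Q e e) / 2) := by
    rw [← Finset.sum_sub_distrib]
    refine Finset.sum_congr rfl fun a ha => ?_
    rw [Finset.sum_sub_distrib, Finset.sum_ite_eq, if_pos ha]
  have e2 : ∑ a ∈ range D, ∑ e ∈ range D, |R a e| * ((Q a a + Q e e) / 2) =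
      ∑ a ∈ range D, (∑ e ∈ range D, |R a e|) * Q a a := by
    have e3 : ∑ a ∈ range D, ∑ e ∈ range D, |R a e| * ((Q a a + Q e e) / 2) =
        (∑ a ∈ range D, ∑ e ∈ range D, |R a e| * Q a a) / 2 +
          (∑ a ∈ range D, ∑ e ∈ range D, |R a e| * Q e e) / 2 := by
      rw [Finset.sum_div, Finset.sum_div, ← Finset.sum_add_distrib]
      refine Finset.sum_congr rfl fun a _ => ?_
      rw [Finset.sum_div, Finset.sum_div, ← Finset.sum_add_distrib]
      refine Finset.sum_congr rfl fun e _ => ?_
      ring
    have e4 : ∑ a ∈ range D, ∑ e ∈ range D, |R a e| * Q e e =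
        ∑ a ∈ range D, ∑ e ∈ range D, |R a e| * Q a a := by
      rw [Finset.sum_comm]
      refine Finset.sum_congr rfl fun a ha => Finset.sum_congr rfl fun e he => ?_
      rw [hR e he a ha]
    rw [e3, e4, add_halves]
    refine Finset.sum_congr rfl fun a _ => ?_
    rw [Finset.sum_mul]
  rw [e1, e2, ← Finset.sum_sub_distrib]
  refine Finset.sum_nonneg fun a ha => ?_
  have h1 : (∑ e ∈ range D, |R a e|) * Q a a ≤ 2 * R a a * Q a a :=
    mul_le_mul_of_nonneg_right (hdom a ha) (hdiag a ha)
  linarith

/-- The lengths. -/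
lemma len_facts {b : Blk} (hl : b.lenB = true) :
    b.Nc.length = b.n ∧ b.Z.length = b.d ∧ b.U.length = b.d ∧ b.X.length = b.n ∧
      (∀ l ∈ b.Nc, l.length = b.d) ∧ (∀ l ∈ b.Z, l.length = b.d) ∧
      (∀ l ∈ b.U, l.length = b.d) := by
  unfold Blk.lenB at hl
  simp only [Bool.and_eq_true, List.all_eq_true] at hl
  obtain ⟨⟨⟨⟨⟨⟨⟨h1, h2⟩, h3⟩, h4⟩, h5⟩, h6⟩, h7⟩, _⟩ := hl
  exact ⟨Nat.eq_of_beq_eq_true h1, Nat.eq_of_beq_eq_true h2, Nat.eq_of_beq_eq_true h3,
    Nat.eq_of_beq_eq_true h4, fun l h => Nat.eq_of_beq_eq_true (h5 l h),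
    fun l h => Nat.eq_of_beq_eq_true (h6 l h), fun l h => Nat.eq_of_beq_eq_true (h7 l h)⟩

lemma getD_len {L : List (List ℤ)} {d : ℕ} (h : ∀ l ∈ L, l.length = d) (i : ℕ) :
    (L.getD i []).length ≤ d := by
  by_cases hi : i < L.length
  · rw [List.getD_eq_getElem _ _ hi]
    exact (h _ (List.getElem_mem hi)).le
  · rw [List.getD_eq_default _ _ (not_lt.1 hi)]
    exact Nat.zero_le _

lemma getD_len' {L : List (List ℤ)} {d : ℕ} (h : ∀ l ∈ L, l.length = d) {i : ℕ}
    (hi : i < L.length) : (L.getD i []).length = d := by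
  rw [List.getD_eq_getElem _ _ hi]
  exact h _ (List.getElem_mem hi)

end Psd14

open Psd14

/-- A certified block pairs nonnegatively with a nonnegative form. -/
theorem blk_psd (b : Blk) (hl : b.lenB = true) (hd : b.domB = true) (hx : b.xB = true)
    (B : ℕ → ℕ → ℝ) (hs : ∀ i j, B i j = B j i)
    (hB : ∀ x : ℕ → ℝ, 0 ≤ ∑ i ∈ range b.n, ∑ j ∈ range b.n, x i * x j * B i j) :
    0 ≤ ∑ i ∈ range b.n, ∑ j ∈ range b.n, (ent b.X i j : ℝ) * B i j := by
  obtain ⟨l1, l2, l3, l4, l5, l6, l7⟩ := len_facts hl
  set D := b.d with hD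
  set n := b.n with hn
  set N : ℕ → ℕ → ℝ := fun a i => ((b.Nc.getD i []).getD a 0 : ℝ) with hN
  set Z : ℕ → ℕ → ℝ := fun a e => (ent b.Z a e : ℝ) with hZ
  set U : ℕ → ℕ → ℝ := fun a l => ((b.U.getD a []).getD l 0 : ℝ) with hU
  set R : ℕ → ℕ → ℝ := fun a e => Z a e - b.c * ∑ l ∈ range D, U a l * U e l with hR
  set Q : ℕ → ℕ → ℝ := fun a e => ∑ i ∈ range n, ∑ j ∈ range n, N a i * N e j * B i j with hQ
  -- domB
  unfold Blk.domB at hd
  rw [List.all_eq_true] at hd
  have hd1 : ∀ a ∈ range D, ((absS (rowR b.c (b.Z.getD a []) (b.U.getD a []) b.U) : ℤ) ≤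
      2 * (rowR b.c (b.Z.getD a []) (b.U.getD a []) b.U).getD a 0) := by
    intro a ha
    have h1 := hd a (List.mem_range.2 (Finset.mem_range.1 ha))
    rw [Bool.and_eq_true] at h1
    exact of_decide_eq_true h1.1
  have hZs0 : ∀ a < D, ∀ e < a, ent b.Z a e = ent b.Z e a := by
    intro a ha e he
    have h1 := hd a (List.mem_range.2 ha)
    rw [Bool.and_eq_true, List.all_eq_true] at h1
    exact of_decide_eq_true (h1.2 e (List.mem_range.2 he))
  have hZs : ∀ a ∈ range D, ∀ e ∈ range D, Z a e = Z e a := by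
    intro a ha e he
    have ha' := Finset.mem_range.1 ha
    have he' := Finset.mem_range.1 he
    simp only [hZ]
    rcases lt_trichotomy a e with h | h | h
    · rw [hZs0 e he' a h]
    · rw [h]
    · rw [hZs0 a ha' e h]
  -- the rows of R
  have hrow : ∀ a ∈ range D, ∀ e ∈ range D,
      (((rowR b.c (b.Z.getD a []) (b.U.getD a []) b.U).getD e 0 : ℤ) : ℝ) = R a e := by
    intro a ha e he
    have ha' := Finset.mem_range.1 ha
    have he' := Finset.mem_range.1 he
    have h1 : (b.Z.getD a []).length = D := getD_len' l6 (by rw [l2]; exact ha')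
    rw [rowR_getD b.c _ _ _ e (by rw [h1]; exact he') (by rw [l3]; exact he'),
      dotL_eq _ _ D (getD_len l7 a)]
    simp only [hR, hZ, hU, ent]
    push_cast
    ring
  have hdom : ∀ a ∈ range D, ∑ e ∈ range D, |R a e| ≤ 2 * R a a := by
    intro a ha
    have ha' := Finset.mem_range.1 ha
    have h1 := hd1 a ha
    have h2 : (rowR b.c (b.Z.getD a []) (b.U.getD a []) b.U).length ≤ D := by
      rw [rowR_length, l3]
      exact min_le_right _ _
    rw [absS_eq _ D h2] at h1
    have h3 : ((((∑ k ∈ range D, ((rowR b.c (b.Z.getD a []) (b.U.getD a []) b.U).getD k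
        0).natAbs : ℕ) : ℤ)) : ℝ) ≤
        ((2 * (rowR b.c (b.Z.getD a []) (b.U.getD a []) b.U).getD a 0 : ℤ) : ℝ) := by
      exact_mod_cast h1
    rw [Int.cast_mul, hrow a ha a ha] at h3
    have h4 : ((((∑ k ∈ range D, ((rowR b.c (b.Z.getD a []) (b.U.getD a []) b.U).getD k
        0).natAbs : ℕ) : ℤ)) : ℝ) = ∑ e ∈ range D, |R a e| := by
      push_cast
      refine Finset.sum_congr rfl fun e he => ?_
      rw [← hrow a ha e he, ← Int.cast_abs, ← Int.natCast_natAbs]
    rw [h4] at h3
    have h5 : ((2 : ℤ) : ℝ) = 2 := by norm_num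
    rw [h5] at h3
    exact h3
  have hRs : ∀ a ∈ range D, ∀ e ∈ range D, R a e = R e a := by
    intro a ha e he
    simp only [hR]
    rw [hZs a ha e he]
    congr 2
    refine Finset.sum_congr rfl fun l _ => ?_
    ring
  have hQs : ∀ a ∈ range D, ∀ e ∈ range D, Q a e = Q e a := by
    intro a _ e _
    simp only [hQ]
    rw [Finset.sum_comm]
    refine Finset.sum_congr rfl fun i _ => Finset.sum_congr rfl fun j _ => ?_
    rw [hs j i]
    ring
  have hQ0 : ∀ y : ℕ → ℝ, 0 ≤ ∑ a ∈ range D, ∑ e ∈ range D, y a * y e * Q a e := by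
    intro y
    have h1 := hB fun i => ∑ a ∈ range D, y a * N a i
    have h2 : ∑ i ∈ range n, ∑ j ∈ range n, (∑ a ∈ range D, y a * N a i) *
        (∑ a ∈ range D, y a * N a j) * B i j =
        ∑ a ∈ range D, ∑ e ∈ range D, y a * y e * Q a e := by
      have h2a : ∀ i j, (∑ a ∈ range D, y a * N a i) * (∑ a ∈ range D, y a * N a j) * B i j =
          ∑ a ∈ range D, ∑ e ∈ range D, y a * y e * (N a i * N e j * B i j) := by
        intro i j
        rw [Finset.sum_mul_sum, Finset.sum_mul]
        refine Finset.sum_congr rfl fun a _ => ?_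
        rw [Finset.sum_mul]
        refine Finset.sum_congr rfl fun e _ => ?_
        ring
      rw [Finset.sum_congr rfl fun i _ => Finset.sum_congr rfl fun j _ => h2a i j]
      have h3 : ∀ F : ℕ → ℕ → ℕ → ℕ → ℝ,
          ∑ i ∈ range n, ∑ j ∈ range n, ∑ a ∈ range D, ∑ e ∈ range D, F i j a e =
          ∑ a ∈ range D, ∑ e ∈ range D, ∑ i ∈ range n, ∑ j ∈ range n, F i j a e := by
        intro F
        calc ∑ i ∈ range n, ∑ j ∈ range n, ∑ a ∈ range D, ∑ e ∈ range D, F i j a e
            = ∑ i ∈ range n, ∑ a ∈ range D, ∑ j ∈ range n, ∑ e ∈ range D, F i j a e :=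
              Finset.sum_congr rfl fun i _ => Finset.sum_comm
          _ = ∑ i ∈ range n, ∑ a ∈ range D, ∑ e ∈ range D, ∑ j ∈ range n, F i j a e :=
              Finset.sum_congr rfl fun i _ => Finset.sum_congr rfl fun a _ => Finset.sum_comm
          _ = ∑ a ∈ range D, ∑ i ∈ range n, ∑ e ∈ range D, ∑ j ∈ range n, F i j a e :=
              Finset.sum_comm
          _ = ∑ a ∈ range D, ∑ e ∈ range D, ∑ i ∈ range n, ∑ j ∈ range n, F i j a e :=
              Finset.sum_congr rfl fun a _ => Finset.sum_comm
      rw [h3]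
      refine Finset.sum_congr rfl fun a _ => Finset.sum_congr rfl fun e _ => ?_
      simp only [hQ, Finset.mul_sum]
    rw [h2] at h1
    exact h1
  -- the entries of X
  have hX : ∀ i ∈ range n, ∀ j ∈ range n, (ent b.X i j : ℝ) =
      ∑ a ∈ range D, ∑ e ∈ range D, Z a e * (N a i * N e j) := by
    have hform : ∀ i < n, ∀ j < n, i ≤ j → (ent b.X i j : ℝ) =
        ∑ a ∈ range D, ∑ e ∈ range D, Z a e * (N a i * N e j) := by
      intro i hi j hj hij
      unfold Blk.xB at hx
      rw [List.all_eq_true] at hx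
      have h1 := hx i (List.mem_range.2 hi)
      rw [List.all_eq_true] at h1
      have h2 := h1 j (List.mem_range.2 hj)
      have h3 : Nat.ble i j = true := Nat.ble_eq_true_of_le hij
      rw [h3, cond_true] at h2
      have h4 := of_decide_eq_true h2
      rw [h4, quadL_eq _ _ _ D (getD_len l5 i)]
      push_cast
      refine Finset.sum_congr rfl fun a _ => ?_
      rw [dotL_eq _ _ D (getD_len l5 j)]
      push_cast
      rw [Finset.mul_sum]
      refine Finset.sum_congr rfl fun e _ => ?_
      simp only [hZ, hN, ent]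
      ring
    intro i hi j hj
    have hi' := Finset.mem_range.1 hi
    have hj' := Finset.mem_range.1 hj
    rcases le_or_gt i j with hij | hij
    · exact hform i hi' j hj' hij
    · have hx' := hx
      unfold Blk.xB at hx'
      rw [List.all_eq_true] at hx'
      have h1 := hx' i (List.mem_range.2 hi')
      rw [List.all_eq_true] at h1
      have h2 := h1 j (List.mem_range.2 hj')
      have h3 : Nat.ble i j = false := by
        rw [← Bool.not_eq_true]
        exact fun h => not_le.2 hij (Nat.le_of_ble_eq_true h)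
      rw [h3, cond_false] at h2
      have h4 := of_decide_eq_true h2
      rw [h4, hform j hj' i hi' hij.le, Finset.sum_comm]
      refine Finset.sum_congr rfl fun a ha => Finset.sum_congr rfl fun e he => ?_
      rw [hZs e he a ha]
      ring
  -- the total
  have hT : ∑ i ∈ range n, ∑ j ∈ range n, (ent b.X i j : ℝ) * B i j =
      ∑ a ∈ range D, ∑ e ∈ range D, Z a e * Q a e := by
    have h1 : ∑ i ∈ range n, ∑ j ∈ range n, (ent b.X i j : ℝ) * B i j =
        ∑ i ∈ range n, ∑ j ∈ range n, ∑ a ∈ range D, ∑ e ∈ range D,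
          Z a e * (N a i * N e j * B i j) := by
      refine Finset.sum_congr rfl fun i hi => Finset.sum_congr rfl fun j hj => ?_
      rw [hX i hi j hj, Finset.sum_mul]
      refine Finset.sum_congr rfl fun a _ => ?_
      rw [Finset.sum_mul]
      refine Finset.sum_congr rfl fun e _ => ?_
      ring
    rw [h1]
    calc ∑ i ∈ range n, ∑ j ∈ range n, ∑ a ∈ range D, ∑ e ∈ range D,
          Z a e * (N a i * N e j * B i j)
        = ∑ i ∈ range n, ∑ a ∈ range D, ∑ j ∈ range n, ∑ e ∈ range D,
          Z a e * (N a i * N e j * B i j) := Finset.sum_congr rfl fun i _ => Finset.sum_comm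
      _ = ∑ i ∈ range n, ∑ a ∈ range D, ∑ e ∈ range D, ∑ j ∈ range n,
          Z a e * (N a i * N e j * B i j) :=
          Finset.sum_congr rfl fun i _ => Finset.sum_congr rfl fun a _ => Finset.sum_comm
      _ = ∑ a ∈ range D, ∑ i ∈ range n, ∑ e ∈ range D, ∑ j ∈ range n,
          Z a e * (N a i * N e j * B i j) := Finset.sum_comm
      _ = ∑ a ∈ range D, ∑ e ∈ range D, ∑ i ∈ range n, ∑ j ∈ range n,
          Z a e * (N a i * N e j * B i j) := Finset.sum_congr rfl fun a _ => Finset.sum_comm
      _ = ∑ a ∈ range D, ∑ e ∈ range D, Z a e * Q a e := by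
          refine Finset.sum_congr rfl fun a _ => Finset.sum_congr rfl fun e _ => ?_
          simp only [hQ, Finset.mul_sum]
  rw [hT]
  -- the splitting of Z
  have hsplit : ∑ a ∈ range D, ∑ e ∈ range D, Z a e * Q a e =
      ∑ a ∈ range D, ∑ e ∈ range D, R a e * Q a e +
        b.c * ∑ l ∈ range D, ∑ a ∈ range D, ∑ e ∈ range D, U a l * U e l * Q a e := by
    have h1 : ∑ l ∈ range D, ∑ a ∈ range D, ∑ e ∈ range D, U a l * U e l * Q a e =
        ∑ a ∈ range D, ∑ e ∈ range D, (∑ l ∈ range D, U a l * U e l) * Q a e := by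
      rw [Finset.sum_comm]
      refine Finset.sum_congr rfl fun a _ => ?_
      rw [Finset.sum_comm]
      refine Finset.sum_congr rfl fun e _ => ?_
      rw [Finset.sum_mul]
    rw [h1, Finset.mul_sum, ← Finset.sum_add_distrib]
    refine Finset.sum_congr rfl fun a _ => ?_
    rw [Finset.mul_sum, ← Finset.sum_add_distrib]
    refine Finset.sum_congr rfl fun e _ => ?_
    simp only [hR]
    ring
  rw [hsplit]
  refine add_nonneg (dom_nonneg D R Q hRs hdom hQs hQ0) (mul_nonneg (Nat.cast_nonneg _) ?_)
  exact Finset.sum_nonneg fun l _ => hQ0 fun a => U a l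

end Pool.Agent.CycT
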