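import Pool.Agent.W_1bfdb5t_h19.Mst19
import Pool.Agent.W_1bfdb5t_h19.Cls60
import Pool.Agent.W_1bfdb5t_h19.Psd14

/-!
# Closed walks of length 9 and 11 in triangle-free graphs: from a certificate to the bound
-/

namespace Pool.Agent.CycT

open Finset Matrix Pool.Agent.CycGT
open scoped Classical

variable {V : Type} [Fintype V]

/-- The vertices of the edges of a list of masks are smaller than its length. -/
lemma bitE_lt (i m : ℕ) : ∀ (s j : ℕ), j + s ≤ i → ∀ e ∈ bitE i m j s, e.1 < i ∧ e.2 = i := by
  intro s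
  induction s with
  | zero =>
    intro j _ e he
    simp [bitE] at he
  | succ s ih =>
    intro j hj e he
    rw [bitE] at he
    cases hb : Nat.testBit m j with
    | true =>
      rw [hb, cond_true, List.mem_cons] at he
      rcases he with rfl | he
      · exact ⟨by simp; omega, rfl⟩
      · exact ih (j + 1) (by omega) e he
    | false =>
      rw [hb, cond_false] at he
      exact ih (j + 1) (by omega) e he

lemma mEa_lt : ∀ (ms : List ℕ) (i : ℕ), ∀ e ∈ mEa i ms, e.1 < i + ms.length ∧ e.2 < i + ms.length := by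
  intro ms
  induction ms with
  | nil =>
    intro i e he
    simp [mEa] at he
  | cons m ms ih =>
    intro i e he
    rw [mEa, List.mem_append] at he
    rcases he with he | he
    · obtain ⟨h1, h2⟩ := bitE_lt i m i 0 (by omega) e he
      rw [List.length_cons]
      omega
    · have := ih (i + 1) e he
      rw [List.length_cons]
      omega

lemma sum_zip_take (f : List ℕ → ℝ) (g : ℤ → ℝ) : ∀ (ns : ℕ) (cm : List (List ℕ)) (K : List ℤ),
    ns ≤ cm.length → ns ≤ K.length →
    ((List.zip (cm.take ns) K).map fun p => g p.2 * f p.1).sum =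
      ∑ c ∈ range ns, g (K.getD c 0) * f (cm.getD c []) := by
  intro ns
  induction ns with
  | zero => intro cm K _ _; simp
  | succ ns ih =>
    intro cm K h1 h2
    match cm, K with
    | [], _ => simp at h1
    | _ :: _, [] => simp at h2
    | a :: cm, b :: K =>
      rw [List.take_succ_cons, List.zip_cons_cons, List.map_cons, List.sum_cons,
        ih cm K (by simpa using h1) (by simpa using h2), Finset.sum_range_succ']
      simp [add_comm]

/-- The bound from a certificate. -/
theorem cert_bound (G : SimpleGraph V) (hG : OddFree G 5) (hV : 0 < Fintype.card V)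
    (ws cm : List (List ℕ)) (dat : List (ℕ × List ℕ)) (b5 b6 : Blk) (K : List ℤ)
    (tys : List Ty) (cT M : ℤ) (tgt ns k : ℕ)
    (hM : 0 < M) (hcT : 0 ≤ cT)
    (h5n : b5.n = ws.length) (h6n : b6.n = ws.length)
    (h5l : b5.lenB = true) (h5d : b5.domB = true) (h5x : b5.xB = true)
    (h6l : b6.lenB = true) (h6d : b6.domB = true) (h6x : b6.xB = true)
    (hd : datsB cm ws dat = true) (hs : sumB (conL b5.X b6.X ws dat) K = true)
    (hns : ns < K.length) (hns2 : ns ≤ cm.length)
    (hbig : ((List.range K.length).all fun c =>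
      Nat.blt c ns || Nat.beq (c + 1) K.length || decide (K.getD c 0 = 0)) = true)
    (hlast : K.getD (K.length - 1) 0 = - (2 * 5 ^ k * M))
    (hsm : ((List.zip (cm.take ns) K).all fun p => Nat.ble p.1.length 7 &&
      ((List.range 7).all fun i => Nat.blt (p.1.getD i 0) (2 ^ i))) = true)
    (htys : ∀ T ∈ tys, T.sg.length = 5 ∧ ∀ m ∈ T.sg, m < 32)
    (hval : ∀ T ∈ tys, ∀ r : V → V → Bool, 0 ≤ ∑ φ : Fin 7 → V, val T r (List.ofFn φ))
    (hH : ∀ g ∈ reps7, ((List.zip (cm.take ns) K).map fun p => p.2 * totp p.1 g).sum +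
      cT * (tys.map fun T => tot T g).sum ≤ 5040 * (2 * tgt * M)) :
    5 ^ k * tt G (mE (cm.getD (K.length - 1) [])) ≤ tgt := by
  set r : V → V → Bool := fun x y => decide (G.Adj x y) with hr
  have hn : (0 : ℝ) < (Fintype.card V : ℝ) := by exact_mod_cast hV
  -- the sum of the two blocks is nonnegative
  have hB : ∀ s : ℝ, (s = 1 ∨ s = -1) → ∀ b : Blk, b.n = ws.length → b.lenB = true →
      b.domB = true → b.xB = true →
      0 ≤ ∑ i ∈ range ws.length, ∑ j ∈ range ws.length, (ent b.X i j : ℝ) *
        (5 * Fw G ((ws.getD i []).reverse ++ ws.getD j []) -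
          2 * s * Fw G ((ws.getD i []).reverse ++ 0 :: ws.getD j [])) := by
    intro s hs1 b hbn hl hdd hx
    have h := blk_psd b hl hdd hx (fun i j =>
      (5 * Fw G ((ws.getD i []).reverse ++ ws.getD j []) -
          2 * s * Fw G ((ws.getD i []).reverse ++ 0 :: ws.getD j []))) ?_ ?_
    · rw [hbn] at h
      exact h
    · intro i j
      have e1 : Fw G ((ws.getD i []).reverse ++ ws.getD j []) =
          Fw G ((ws.getD j []).reverse ++ ws.getD i []) := by
        rw [← Fw_rev G ((ws.getD i []).reverse ++ ws.getD j [])]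
        simp
      have e2 : Fw G ((ws.getD i []).reverse ++ 0 :: ws.getD j []) =
          Fw G ((ws.getD j []).reverse ++ 0 :: ws.getD i []) := by
        rw [← Fw_rev G ((ws.getD i []).reverse ++ 0 :: ws.getD j [])]
        simp
      simp only [e1, e2]
    · intro x
      rw [hbn]
      exact blkT hG hV s hs1 ws x
  have hsym : ∀ b : Blk, b.n = ws.length → b.xB = true → ∀ i < ws.length, ∀ j < ws.length,
      ent b.X i j = ent b.X j i := by
    intro b hbn hx i hi j hj
    unfold Blk.xB at hx
    rw [List.all_eq_true] at hx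
    rcases le_total i j with hij | hij
    · rcases hij.eq_or_lt with rfl | hlt
      · rfl
      · have h1 := hx j (List.mem_range.2 (by omega))
        rw [List.all_eq_true] at h1
        have h2 := h1 i (List.mem_range.2 (by omega))
        have h3 : Nat.ble j i = false := by
          rw [Bool.eq_false_iff]; intro h; rw [Nat.ble_eq] at h; omega
        rw [h3, cond_false] at h2
        exact (of_decide_eq_true h2).symm
    · rcases hij.eq_or_lt with rfl | hlt
      · rfl
      · have h1 := hx i (List.mem_range.2 (by omega))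
        rw [List.all_eq_true] at h1
        have h2 := h1 j (List.mem_range.2 (by omega))
        have h3 : Nat.ble i j = false := by
          rw [Bool.eq_false_iff]; intro h; rw [Nat.ble_eq] at h; omega
        rw [h3, cond_false] at h2
        exact of_decide_eq_true h2
  have hS := S_eq G hG hV cm ws dat b5.X b6.X K (hsym b5 h5n h5x) (hsym b6 h6n h6x) hd hs
  have hS0 : 0 ≤ ∑ c ∈ range K.length, (K.getD c 0 : ℝ) * tt G (mE (cm.getD c [])) := by
    rw [← hS]
    have h1 := hB 1 (Or.inl rfl) b5 h5n h5l h5d h5x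
    have h2 := hB (-1) (Or.inr rfl) b6 h6n h6l h6d h6x
    have h3 := add_nonneg h1 h2
    rw [← Finset.sum_add_distrib] at h3
    refine le_of_le_of_eq h3 (Finset.sum_congr rfl fun i _ => ?_)
    rw [← Finset.sum_add_distrib]
    refine Finset.sum_congr rfl fun j _ => ?_
    ring
  -- split the sum over the classes
  have hsplit : ∑ c ∈ range K.length, (K.getD c 0 : ℝ) * tt G (mE (cm.getD c [])) =
      ∑ c ∈ range ns, (K.getD c 0 : ℝ) * tt G (mE (cm.getD c [])) +
        (K.getD (K.length - 1) 0 : ℝ) * tt G (mE (cm.getD (K.length - 1) [])) := by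
    have e : K.length = (K.length - 1) + 1 := by omega
    rw [e, Finset.sum_range_succ]
    have e2 : K.length - 1 + 1 - 1 = K.length - 1 := by omega
    rw [e2]
    congr 1
    symm
    refine Finset.sum_subset (Finset.range_mono (by omega)) fun c hc hc2 => ?_
    rw [Finset.mem_range] at hc hc2
    rw [List.all_eq_true] at hbig
    have h1 := hbig c (List.mem_range.2 (by omega))
    rw [Bool.or_eq_true, Bool.or_eq_true] at h1
    rcases h1 with (h1 | h1) | h1
    · rw [Nat.blt_eq] at h1; omega
    · have := Nat.eq_of_beq_eq_true h1; omega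
    · rw [of_decide_eq_true h1]; simp
  rw [hsplit, hlast] at hS0
  -- the small classes
  have hsm' : ∀ p ∈ List.zip (cm.take ns) K, p.1.length ≤ 7 ∧ ∀ i, p.1.getD i 0 < 2 ^ i := by
    intro p hp
    rw [List.all_eq_true] at hsm
    have h1 := hsm p hp
    rw [Bool.and_eq_true, Nat.ble_eq, List.all_eq_true] at h1
    refine ⟨h1.1, fun i => ?_⟩
    by_cases hi : i < 7
    · have := h1.2 i (List.mem_range.2 hi)
      rwa [Nat.blt_eq] at this
    · rw [List.getD_eq_default _ _ (by omega)]
      positivity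
  have h7 := FT_graph (List.zip (cm.take ns) K) cT tys (2 * tgt * M) hsm' htys hH hcT hval G hG
  have hpv : ∀ p ∈ List.zip (cm.take ns) K,
      ((∑ φ : Fin 7 → V, pv (fun x y => decide (G.Adj x y)) p.1 φ : ℤ) : ℝ) =
        (Fintype.card V : ℝ) ^ 7 * tt G (mE p.1) := by
    intro p hp
    have hlt : ∀ e ∈ mE p.1, e.1 < 7 ∧ e.2 < 7 := by
      intro e he
      have h1 := mEa_lt p.1 0 e he
      have h2 := (hsm' p hp).1
      omega
    rw [tt_small G hV _ hlt, mul_div_cancel₀ _ (by positivity)]
    rw [Int.cast_sum]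
    refine Finset.sum_congr rfl fun φ _ => ?_
    unfold pv
    have e : (∀ e ∈ mE p.1, (fun x y => decide (G.Adj x y)) (φ (Fin.ofNat 7 e.2))
        (φ (Fin.ofNat 7 e.1)) = true) ↔
        (∀ e ∈ mE p.1, G.Adj (φ (Fin.ofNat 7 e.1)) (φ (Fin.ofNat 7 e.2))) := by
      simp only [decide_eq_true_eq, G.adj_comm]
    by_cases hh : (∀ e ∈ mE p.1, G.Adj (φ (Fin.ofNat 7 e.1)) (φ (Fin.ofNat 7 e.2)))
    · rw [if_pos (e.2 hh), if_pos hh]; simp
    · rw [if_neg (fun h => hh (e.1 h)), if_neg hh]; simp
  have h8 : (((List.zip (cm.take ns) K).map fun p =>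
      p.2 * ∑ φ : Fin 7 → V, pv (fun x y => decide (G.Adj x y)) p.1 φ).sum : ℝ) =
      (Fintype.card V : ℝ) ^ 7 *
        ∑ c ∈ range ns, (K.getD c 0 : ℝ) * tt G (mE (cm.getD c [])) := by
    have e1 : (((List.zip (cm.take ns) K).map fun p =>
        p.2 * ∑ φ : Fin 7 → V, pv (fun x y => decide (G.Adj x y)) p.1 φ).sum : ℝ) =
        ((List.zip (cm.take ns) K).map fun p => (p.2 : ℝ) *
          ((Fintype.card V : ℝ) ^ 7 * tt G (mE p.1))).sum := by
      rw [Int.cast_list_sum, List.map_map]
      congr 1
      refine List.map_congr_left fun p hp => ?_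
      rw [← hpv p hp]
      simp
    rw [e1, sum_zip_take (fun m => (Fintype.card V : ℝ) ^ 7 * tt G (mE m)) (fun z => (z : ℝ)) ns cm K
      hns2 hns.le, Finset.mul_sum]
    refine Finset.sum_congr rfl fun c _ => ?_
    ring
  have h9 : (Fintype.card V : ℝ) ^ 7 *
      ∑ c ∈ range ns, (K.getD c 0 : ℝ) * tt G (mE (cm.getD c [])) ≤
        2 * tgt * M * (Fintype.card V : ℝ) ^ 7 := by
    rw [← h8]
    exact_mod_cast h7
  have h10 : ∑ c ∈ range ns, (K.getD c 0 : ℝ) * tt G (mE (cm.getD c [])) ≤ 2 * tgt * M := by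
    have hp : (0 : ℝ) < (Fintype.card V : ℝ) ^ 7 := by positivity
    rw [mul_comm (2 * (tgt : ℝ) * M)] at h9
    exact le_of_mul_le_mul_left h9 hp
  push_cast at hS0
  have hMr : (0 : ℝ) < (M : ℝ) := by exact_mod_cast hM
  have h11 : (2 * (M : ℝ)) * (5 ^ k * tt G (mE (cm.getD (K.length - 1) []))) ≤
      (2 * (M : ℝ)) * tgt := by
    linarith
  exact le_of_mul_le_mul_left h11 (by positivity)

end Pool.Agent.CycT
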