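import Pool.Agent.W_1bfdb5t_h19.Mst19
import Pool.Agent.W_1bfdb5t_h19.Prt19
import Pool.Agent.W_1bfdb5t_h19.Dt5
import Pool.Agent.W_1bfdb5t_h19.Ch0_5
import Pool.Agent.W_1bfdb5t_h19.Ch1_5
import Pool.Agent.W_1bfdb5t_h19.Ch2_5
import Pool.Agent.W_1bfdb5t_h19.Ch3_5
import Pool.Agent.W_1bfdb5t_h19.Ch4_5
import Pool.Agent.W_1bfdb5t_h19.Ch5_5
import Pool.Agent.W_1bfdb5t_h19.Ch6_5
import Pool.Agent.W_1bfdb5t_h19.Ch7_5

/-!
# Closed walks of length 5 in triangle-free graphs (known; included for completeness)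
-/

namespace Pool.Agent.CycT

open Finset Matrix Pool.Agent.CycGT
open scoped Classical

variable {V : Type} [Fintype V]

lemma sgs_5 : (tys5.all fun T => Nat.beq T.sg.length 5 && T.sg.all fun m => Nat.blt m 32) = true := by
  decide +kernel

lemma val_nonneg_5 (T : Ty) (hT : T ∈ tys5) (r : V → V → Bool) :
    0 ≤ ∑ φ : Fin 7 → V, val T r (List.ofFn φ) := by
  simp only [tys5, List.mem_cons, List.not_mem_nil, or_false] at hT
  rcases hT with rfl | rfl | rfl | rfl | rfl | rfl
  · exact val_nonneg ty0_5 sc0_5 sq0_5 chkS0_5 rfl r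
  · exact val_nonneg ty1_5 sc1_5 sq1_5 chkS1_5 rfl r
  · exact val_nonneg ty2_5 sc2_5 sq2_5 chkS2_5 rfl r
  · exact val_nonneg ty3_5 sc3_5 sq3_5 chkS3_5 rfl r
  · exact val_nonneg ty4_5 sc4_5 sq4_5 chkS4_5 rfl r
  · exact val_nonneg ty5_5 sc5_5 sq5_5 chkS5_5 rfl r

lemma all_H_5 (g : ℕ) (hg : g ∈ reps7) : ((([(c5m, (312500 : ℤ))] : List (List ℕ × ℤ))).map fun p =>
      p.2 * totp p.1 g).sum + 1 * (tys5.map fun T => tot T g).sum ≤ 5040 * 1000 := by
  have key : tH5 g ≤ 5040000 := by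
    obtain ⟨p, hp, hgp⟩ := mem_part reps7 14 8 (by decide +kernel) g hg
    interval_cases p
    · exact of_decide_eq_true (List.all_eq_true.1 chH0_5 g hgp)
    · exact of_decide_eq_true (List.all_eq_true.1 chH1_5 g hgp)
    · exact of_decide_eq_true (List.all_eq_true.1 chH2_5 g hgp)
    · exact of_decide_eq_true (List.all_eq_true.1 chH3_5 g hgp)
    · exact of_decide_eq_true (List.all_eq_true.1 chH4_5 g hgp)
    · exact of_decide_eq_true (List.all_eq_true.1 chH5_5 g hgp)
    · exact of_decide_eq_true (List.all_eq_true.1 chH6_5 g hgp)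
    · exact of_decide_eq_true (List.all_eq_true.1 chH7_5 g hgp)
  rw [List.map_cons, List.map_nil, List.sum_cons, List.sum_nil, add_zero, one_mul]
  exact key

lemma tt_c5 (G : SimpleGraph V) (hV : 0 < Fintype.card V) :
    tt G (mE c5m) = (#(clos G 5) : ℝ) / (Fintype.card V : ℝ) ^ 5 := by
  have hw : mE c5m = [(0, 1), (1, 2), (2, 3), (0, 4), (3, 4)] := by decide +kernel
  rw [hw, tt_first31 G hV 5 6 rfl _ (by decide)]
  congr 1
  refine sum_ite_clos31 G 5 _ fun c => ?_
  constructor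
  · intro h i
    have h' : ∀ a b : ℕ, (a, b) ∈ [(0, 1), (1, 2), (2, 3), (0, 4), (3, 4)] →
        G.Adj (c (Fin.ofNat 5 a)) (c (Fin.ofNat 5 b)) := fun a b hab => h (a, b) hab
    change Fin 5 at i
    fin_cases i
    · exact h' 0 1 (by decide)
    · exact h' 1 2 (by decide)
    · exact h' 2 3 (by decide)
    · exact h' 3 4 (by decide)
    · exact (h' 0 4 (by decide)).symm
  · intro h e he
    simp only [List.mem_cons, List.not_mem_nil, or_false] at he
    rcases he with rfl | rfl | rfl | rfl | rfl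
    · exact h 0
    · exact h 1
    · exact h 2
    · exact (h 4).symm
    · exact h 3

theorem main5c (G : SimpleGraph V) (hG : OddFree G 5) :
    (#(clos G 5) : ℝ) * 5 ^ 5 ≤ 10 * (Fintype.card V : ℝ) ^ 5 := by
  rcases Nat.eq_zero_or_pos (Fintype.card V) with h0 | hV
  · have : IsEmpty V := Fintype.card_eq_zero_iff.1 h0
    have h1 : clos G 5 = ∅ := by
      rw [Finset.eq_empty_iff_forall_notMem]
      intro c _
      exact this.elim (c 0)
    rw [h1, h0]
    simp
  · have h := FT_graph [(c5m, (312500 : ℤ))] 1 tys5 1000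
      (fun p hp => by
        rw [List.mem_singleton] at hp
        subst hp
        refine ⟨by decide, fun i => ?_⟩
        by_cases hi : i < 5
        · interval_cases i <;> decide
        · rw [List.getD_eq_default _ _ (by simp [c5m]; omega)]
          positivity)
      (fun T hT => by
        have h1 := List.all_eq_true.1 sgs_5 T hT
        rw [Bool.and_eq_true] at h1
        refine ⟨Nat.eq_of_beq_eq_true h1.1, fun m hm => ?_⟩
        have h2 := List.all_eq_true.1 h1.2 m hm
        rwa [Nat.blt_eq] at h2)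
      all_H_5 (by norm_num) (fun T hT r => val_nonneg_5 T hT r) G hG
    rw [List.map_cons, List.map_nil, List.sum_cons, List.sum_nil, add_zero] at h
    have hn : (0 : ℝ) < (Fintype.card V : ℝ) := by exact_mod_cast hV
    have hpv : ((∑ φ : Fin 7 → V, pv (fun x y => decide (G.Adj x y)) c5m φ : ℤ) : ℝ) =
        (Fintype.card V : ℝ) ^ 7 * tt G (mE c5m) := by
      have hlt : ∀ e ∈ mE c5m, e.1 < 7 ∧ e.2 < 7 := by
        have hw : mE c5m = [(0, 1), (1, 2), (2, 3), (0, 4), (3, 4)] := by decide +kernel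
        rw [hw]
        decide
      rw [tt_small G hV _ hlt, mul_div_cancel₀ _ (by positivity)]
      rw [Int.cast_sum]
      refine Finset.sum_congr rfl fun φ _ => ?_
      unfold pv
      have e : (∀ e ∈ mE c5m, (fun x y => decide (G.Adj x y)) (φ (Fin.ofNat 7 e.2))
          (φ (Fin.ofNat 7 e.1)) = true) ↔
          (∀ e ∈ mE c5m, G.Adj (φ (Fin.ofNat 7 e.1)) (φ (Fin.ofNat 7 e.2))) := by
        simp only [decide_eq_true_eq, G.adj_comm]
      by_cases hh : (∀ e ∈ mE c5m, G.Adj (φ (Fin.ofNat 7 e.1)) (φ (Fin.ofNat 7 e.2)))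
      · rw [if_pos (e.2 hh), if_pos hh]; simp
      · rw [if_neg (fun h => hh (e.1 h)), if_neg hh]; simp
    have h2 : (312500 : ℝ) * ((∑ φ : Fin 7 → V, pv (fun x y => decide (G.Adj x y)) c5m φ : ℤ) : ℝ) ≤
        1000 * (Fintype.card V : ℝ) ^ 7 := by
      exact_mod_cast h
    rw [hpv, tt_c5 G hV] at h2
    have h3 : (312500 : ℝ) * ((Fintype.card V : ℝ) ^ 7 *
        ((#(clos G 5) : ℝ) / (Fintype.card V : ℝ) ^ 5)) =
        312500 * ((#(clos G 5) : ℝ) * (Fintype.card V : ℝ) ^ 2) := by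
      field_simp
    rw [h3] at h2
    have h4 : ((#(clos G 5) : ℝ) * 5 ^ 5) * (Fintype.card V : ℝ) ^ 2 ≤
        (10 * (Fintype.card V : ℝ) ^ 5) * (Fintype.card V : ℝ) ^ 2 := by
      have e : (10 * (Fintype.card V : ℝ) ^ 5) * (Fintype.card V : ℝ) ^ 2 =
          10 * (Fintype.card V : ℝ) ^ 7 := by ring
      rw [e]
      linarith
    exact le_of_mul_le_mul_right h4 (by positivity)

end Pool.Agent.CycT
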