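import Pool.Agent.W_1bfdb5t_h19.TDefs19
import Pool.Agent.W_1bfdb5_h19.FlSum

/-!
# The number of permutations which respect a list of masks
-/

namespace Pool.Agent.CycT

open Finset Pool.Agent.CycGT

def paB (g : ℕ) (l : List ℕ) (x : ℕ) : ℕ := mkw (ad g) x l + (if x ∈ l then 128 else 0)

def paP (g : ℕ) (l : List ℕ) : ℕ := ∑ x ∈ range 7, paB g l x * 256 ^ x

lemma pa_mkw_lt {α : Type} (r : α → α → Bool) (x : α) (l : List α) :
    mkw r x l < 2 ^ l.length := by
  induction l with
  | nil => simp [mkw]
  | cons y l ih =>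
    rw [mkw, List.length_cons, pow_succ]
    have h : (r x y).toNat ≤ 1 := Bool.toNat_le _
    have h2 : 2 ^ l.length * (r x y).toNat ≤ 2 ^ l.length * 1 := Nat.mul_le_mul_left _ h
    omega

lemma pa_mkw_lt7 (g : ℕ) (l : List ℕ) (hl : l.length ≤ 7) (x : ℕ) : mkw (ad g) x l < 128 := by
  have h1 := pa_mkw_lt (ad g) x l
  have h2 : 2 ^ l.length ≤ 2 ^ 7 := Nat.pow_le_pow_right (by norm_num) hl
  omega

lemma pa_B_lt (g : ℕ) (l : List ℕ) (hl : l.length ≤ 7) (x : ℕ) : paB g l x < 256 := by
  have h1 := pa_mkw_lt7 g l hl x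
  unfold paB
  split_ifs <;> omega

lemma pa_byte_sum (b : ℕ → ℕ) (hb : ∀ x, b x < 256) (y : ℕ) (hy : y < 7) :
    byte (∑ x ∈ range 7, b x * 256 ^ x) y = b y := by
  have h0 := hb 0
  have h1 := hb 1
  have h2 := hb 2
  have h3 := hb 3
  have h4 := hb 4
  have h5 := hb 5
  have h6 := hb 6
  unfold byte
  rw [Nat.shiftRight_eq_div_pow]
  simp only [Finset.sum_range_succ, Finset.sum_range_zero]
  interval_cases y <;> norm_num <;> omega

lemma pa_digits (c : ℕ) (hc : c < 72057594037927936) :
    c = ∑ x ∈ range 7, byte c x * 256 ^ x := by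
  unfold byte
  simp only [Finset.sum_range_succ, Finset.sum_range_zero, Nat.shiftRight_eq_div_pow]
  norm_num
  omega

lemma pa_col (g : ℕ) (hg : clean g = true) (y : ℕ) (hy : y < 7) :
    col g y = ∑ x ∈ range 7, (ad g x y).toNat * 256 ^ x := by
  have h1 : col g y < 72057594037927936 := Nat.mod_lt _ (by norm_num)
  rw [pa_digits (col g y) h1]
  refine Finset.sum_congr rfl fun x hx => ?_
  unfold clean at hg
  rw [List.all_eq_true] at hg
  have h2 := hg y (List.mem_range.2 hy)
  rw [List.all_eq_true] at h2
  have h3 := h2 x (List.mem_range.2 (Finset.mem_range.1 hx))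
  rw [Nat.eq_of_beq_eq_true h3]

lemma pa_P_cons (g : ℕ) (hg : clean g = true) (l : List ℕ) (x : ℕ) (hx : x < 7)
    (hxl : x ∉ l) : paP g (x :: l) = paP g l + 2 ^ l.length * col g x + 128 * 256 ^ x := by
  have h1 : ∀ y ∈ range 7, paB g (x :: l) y * 256 ^ y =
      paB g l y * 256 ^ y + 2 ^ l.length * ((ad g y x).toNat * 256 ^ y) +
        (if y = x then 128 * 256 ^ x else 0) := by
    intro y _
    unfold paB
    rw [mkw]
    by_cases hyx : y = x
    · subst hyx
      have : y ∉ l := hxl
      simp [this]
      ring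
    · by_cases hyl : y ∈ l
      · simp [hyx, hyl]
        ring
      · simp [hyx, hyl]
        ring
  unfold paP
  rw [Finset.sum_congr rfl h1, Finset.sum_add_distrib, Finset.sum_add_distrib, ← Finset.mul_sum,
    ← pa_col g hg x hx, Finset.sum_ite_eq' (range 7) x, if_pos (Finset.mem_range.2 hx)]

lemma pa_byte_P (g : ℕ) (l : List ℕ) (hl : l.length ≤ 7) (y : ℕ) (hy : y < 7) :
    byte (paP g l) y = paB g l y :=
  pa_byte_sum _ (pa_B_lt g l hl) y hy

lemma pa_P_nil (g : ℕ) : paP g [] = 0 := by
  unfold paP paB
  simp [mkw]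

lemma pa_s7 (f : ℕ → ℤ) : s7 f = ∑ x ∈ range 7, f x := by
  unfold s7
  simp only [Finset.sum_range_succ, Finset.sum_range_zero]
  ring

lemma pa_sumL_congr (f h : List ℕ → ℤ) (k : ℕ) : ∀ l : List ℕ,
    (∀ v : List ℕ, v.length = k → f (v ++ l) = h (v ++ l)) → sumL k l f = sumL k l h := by
  induction k with
  | zero =>
    intro l hv
    exact hv [] rfl
  | succ k ih =>
    intro l hv
    rw [sumL, sumL]
    refine Finset.sum_congr rfl fun x hx => ?_
    refine ih (x :: l) fun v hvl => ?_
    have h1 := hv (v ++ [x]) (by simp [hvl])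
    simpa using h1

lemma pa_sumL_zero (k : ℕ) : ∀ l : List ℕ, sumL k l (fun _ => 0) = 0 := by
  induction k with
  | zero => intro l; rfl
  | succ k ih =>
    intro l
    rw [sumL]
    exact Finset.sum_eq_zero fun x _ => ih _

/-- The bits of `mkw`. -/
lemma pa_bit {α : Type} (r : α → α → Bool) (x z : α) : ∀ (l : List α) (j : ℕ), j < l.length →
    Nat.testBit (mkw r x l) j = r x (l.reverse.getD j z) := by
  intro l
  induction l with
  | nil => intro j hj; simp at hj
  | cons y l ih =>
    intro j hj
    rw [mkw, add_comm, Nat.testBit_two_pow_mul_add _ (pa_mkw_lt r x l), List.reverse_cons]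
    rw [List.length_cons] at hj
    by_cases h : j < l.length
    · rw [if_pos h, ih j h, List.getD_append _ _ _ _ (by rwa [List.length_reverse])]
    · have h1 : j = l.length := by omega
      rw [if_neg h, h1, List.getD_append_right _ _ _ _ (by rw [List.length_reverse]),
        List.length_reverse, Nat.sub_self]
      have h2 : [y].getD 0 z = y := rfl
      rw [h2]
      cases r x y <;> simp

lemma pa_land (B m : ℕ) (hB : B < 128) (hm : m < 128) :
    Nat.land B (m + 128) = m ↔ ∀ j, Nat.testBit m j = true → Nat.testBit B j = true := by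
  have h1 : m + 128 = 128 ||| m := by
    have := Nat.two_pow_add_eq_or_of_lt (i := 7) hm 1
    norm_num at this
    omega
  have h2 : ∀ j, Nat.testBit (Nat.land B (m + 128)) j =
      (Nat.testBit B j && (Nat.testBit 128 j || Nat.testBit m j)) := by
    intro j
    rw [h1]
    change Nat.testBit (B &&& (128 ||| m)) j = _
    rw [Nat.testBit_and, Nat.testBit_or]
  constructor
  · intro h j hj
    have h3 := h2 j
    rw [h, hj] at h3
    by_contra hc
    rw [Bool.not_eq_true] at hc
    rw [hc] at h3
    simp at h3
  · intro h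
    apply Nat.eq_of_testBit_eq
    intro j
    rw [h2 j]
    by_cases hj : j = 7
    · subst hj
      rw [Nat.testBit_lt_two_pow (show B < 2 ^ 7 from hB),
        Nat.testBit_lt_two_pow (show m < 2 ^ 7 from hm)]
      rfl
    · have h3 : Nat.testBit 128 j = false := by
        have := Nat.testBit_two_pow_of_ne (n := 7) (m := j) (fun h => hj h.symm)
        simpa using this
      rw [h3, Bool.false_or]
      cases hmj : Nat.testBit m j with
      | false => simp
      | true => simp [h j hmj]

lemma pa_land' (B m : ℕ) (hB : B < 128) (hm : m < 128) :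
    Nat.land (B + 128) (m + 128) ≠ m := by
  intro h
  have h1 : m + 128 = 128 ||| m := by
    have := Nat.two_pow_add_eq_or_of_lt (i := 7) hm 1
    norm_num at this
    omega
  have h1' : B + 128 = 128 ||| B := by
    have := Nat.two_pow_add_eq_or_of_lt (i := 7) hB 1
    norm_num at this
    omega
  have h2 : Nat.testBit (Nat.land (B + 128) (m + 128)) 7 = true := by
    rw [h1, h1']
    change Nat.testBit ((128 ||| B) &&& (128 ||| m)) 7 = _
    rw [Nat.testBit_and, Nat.testBit_or, Nat.testBit_or]
    have : Nat.testBit 128 7 = true := by decide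
    rw [this]
    rfl
  rw [h, Nat.testBit_lt_two_pow (show m < 2 ^ 7 from hm)] at h2
  exact Bool.noConfusion h2

lemma mem_bitE (i m : ℕ) (e : ℕ × ℕ) : ∀ (s j : ℕ), e ∈ bitE i m j s ↔
    ∃ t, t < s ∧ Nat.testBit m (j + t) = true ∧ e = (j + t, i) := by
  intro s
  induction s with
  | zero => intro j; simp [bitE]
  | succ s ih =>
    intro j
    have key : (∃ t, t < s + 1 ∧ Nat.testBit m (j + t) = true ∧ e = (j + t, i)) ↔
        (Nat.testBit m j = true ∧ e = (j, i)) ∨
          ∃ t, t < s ∧ Nat.testBit m (j + 1 + t) = true ∧ e = (j + 1 + t, i) := by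
      constructor
      · rintro ⟨t, h1, h2, h3⟩
        cases t with
        | zero => exact Or.inl ⟨h2, h3⟩
        | succ t =>
          refine Or.inr ⟨t, by omega, ?_, ?_⟩
          · rwa [show j + 1 + t = j + (t + 1) by ring]
          · rwa [show j + 1 + t = j + (t + 1) by ring]
      · rintro (⟨h2, h3⟩ | ⟨t, h1, h2, h3⟩)
        · exact ⟨0, by omega, h2, h3⟩
        · refine ⟨t + 1, by omega, ?_, ?_⟩
          · rwa [show j + (t + 1) = j + 1 + t by ring]
          · rwa [show j + (t + 1) = j + 1 + t by ring]
    rw [key, bitE]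
    cases h : Nat.testBit m j with
    | false =>
      rw [cond_false, ih]
      simp
    | true =>
      rw [cond_true, List.mem_cons, ih]
      simp

lemma mEa_append : ∀ (a b : List ℕ) (i : ℕ), mEa i (a ++ b) = mEa i a ++ mEa (i + a.length) b := by
  intro a
  induction a with
  | nil => intro b i; simp [mEa]
  | cons m a ih =>
    intro b i
    rw [List.cons_append, mEa, mEa, ih, List.append_assoc, List.length_cons]
    congr 3
    ring

lemma mem_mEa : ∀ (a : List ℕ) (i : ℕ) (e : ℕ × ℕ), e ∈ mEa i a → e.1 < e.2 ∧ e.2 < i + a.length := by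
  intro a
  induction a with
  | nil => intro i e he; simp [mEa] at he
  | cons m a ih =>
    intro i e he
    rw [mEa, List.mem_append, mem_bitE] at he
    rw [List.length_cons]
    rcases he with ⟨t, h1, -, rfl⟩ | he
    · exact ⟨by simpa using h1, by simp⟩
    · have := ih (i + 1) e he
      exact ⟨this.1, by omega⟩

/-- The condition on a list of vertices, the latest one first. -/
def paC (g : ℕ) (ms w : List ℕ) : Prop :=
  ∀ e ∈ mE ms, ad g (w.reverse.getD e.2 0) (w.reverse.getD e.1 0) = true

instance (g : ℕ) (ms w : List ℕ) : Decidable (paC g ms w) := by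
  unfold paC
  infer_instance

lemma paC_append (g : ℕ) (ms v l : List ℕ) (h : ms.length ≤ l.length) :
    paC g ms (v ++ l) ↔ paC g ms l := by
  unfold paC
  refine forall₂_congr fun e he => ?_
  have h1 := mem_mEa ms 0 e he
  rw [List.reverse_append, List.getD_append _ _ _ _ (by rw [List.length_reverse]; omega),
    List.getD_append _ _ _ _ (by rw [List.length_reverse]; omega)]

lemma paC_mono (g : ℕ) (a b w : List ℕ) (h : paC g (a ++ b) w) : paC g a w := by
  intro e he
  apply h
  unfold mE at he ⊢
  rw [mEa_append, List.mem_append]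
  exact Or.inl he

/-- One more vertex. -/
lemma paC_cons (g m : ℕ) (done l : List ℕ) (x : ℕ) (hd : done.length = l.length)
    (hm : m < 2 ^ l.length) :
    paC g (done ++ [m]) (x :: l) ↔ paC g done l ∧
      ∀ j, Nat.testBit m j = true → Nat.testBit (mkw (ad g) x l) j = true := by
  have hx : (x :: l).reverse.getD l.length 0 = x := by
    rw [List.reverse_cons, List.getD_append_right _ _ _ _ (by rw [List.length_reverse]),
      List.length_reverse, Nat.sub_self]
    rfl
  have hj : ∀ j, j < l.length → (x :: l).reverse.getD j 0 = l.reverse.getD j 0 := by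
    intro j hj
    rw [List.reverse_cons, List.getD_append _ _ _ _ (by rwa [List.length_reverse])]
  have hb : ∀ j, Nat.testBit m j = true → j < l.length := by
    intro j h
    by_contra hc
    push Not at hc
    have h1 : m < 2 ^ j := hm.trans_le (Nat.pow_le_pow_right (by norm_num) hc)
    rw [Nat.testBit_lt_two_pow h1] at h
    exact Bool.noConfusion h
  constructor
  · intro h
    have h1 : paC g done (x :: l) := paC_mono g done [m] _ h
    refine ⟨(paC_append g done [x] l hd.le).1 h1, ?_⟩
    intro j hjb
    have hjl := hb j hjb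
    have h2 := h (j, l.length) (by
      unfold mE
      rw [mEa_append, List.mem_append]
      right
      rw [mEa, List.mem_append, mem_bitE]
      left
      refine ⟨j, ?_, ?_, ?_⟩
      · rw [hd]; omega
      · rwa [Nat.zero_add]
      · rw [Nat.zero_add, hd, Nat.zero_add])
    simp only at h2
    rw [hx, hj j hjl] at h2
    rw [pa_bit (ad g) x 0 l j hjl]
    exact h2
  · rintro ⟨h1, h2⟩ e he
    unfold mE at he
    rw [mEa_append, List.mem_append] at he
    rcases he with he | he
    · exact (paC_append g done [x] l hd.le).2 h1 e he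
    · rw [mEa, List.mem_append, mem_bitE] at he
      rcases he with ⟨t, ht1, ht2, rfl⟩ | he
      · rw [Nat.zero_add] at ht2
        have ht : t < l.length := hb t ht2
        simp only [Nat.zero_add]
        rw [hd, hx, hj t ht, ← pa_bit (ad g) x 0 l t ht]
        exact h2 t ht2
      · simp [mEa] at he

/-- The number of ways to complete a list without repetitions. -/
lemma pa_count (j : ℕ) : ∀ l : List ℕ, l.Nodup → (∀ y ∈ l, y < 7) → l.length + j = 7 →
    sumL j l (fun w => if w.Nodup then 1 else 0) = (Nat.factorial j : ℤ) := by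
  induction j with
  | zero =>
    intro l h1 _ _
    rw [sumL, if_pos h1]
    rfl
  | succ j ih =>
    intro l h1 h2 h3
    rw [sumL]
    have h4 : ∀ x ∈ range 7, sumL j (x :: l) (fun w => if w.Nodup then 1 else 0) =
        if x ∉ l.toFinset then (Nat.factorial j : ℤ) else 0 := by
      intro x hx
      by_cases hxl : x ∈ l
      · rw [if_neg (by simpa using hxl)]
        refine (pa_sumL_congr _ (fun _ => 0) _ _ fun v _ => ?_).trans (pa_sumL_zero j (x :: l))
        apply if_neg
        intro hn
        exact (List.nodup_cons.1 (List.Nodup.of_append_right hn)).1 hxl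
      · rw [if_pos (by simpa using hxl)]
        refine ih (x :: l) (List.nodup_cons.2 ⟨hxl, h1⟩) ?_ ?_
        · intro y hy
          rcases List.mem_cons.1 hy with rfl | hy
          · exact Finset.mem_range.1 hx
          · exact h2 y hy
        · rw [List.length_cons]
          omega
    rw [Finset.sum_congr rfl h4, ← Finset.sum_filter, Finset.sum_const, nsmul_eq_mul]
    have h5 : (range 7).filter (fun x => x ∉ l.toFinset) = range 7 \ l.toFinset := by
      ext x
      simp
    have h6 : l.toFinset ⊆ range 7 := by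
      intro x hx
      rw [List.mem_toFinset] at hx
      exact Finset.mem_range.2 (h2 x hx)
    rw [h5, Finset.card_sdiff_of_subset h6, Finset.card_range, List.toFinset_card_of_nodup h1,
      show 7 - l.length = j + 1 by omega, Nat.factorial_succ]
    push_cast
    ring

lemma pa_rem7 (k : ℕ) (hk : k ≤ 7) : rem7 k = (Nat.factorial (7 - k) : ℤ) := by
  interval_cases k <;> rfl

lemma pa_main (g : ℕ) (hg : clean g = true) (ms : List ℕ) :
    ∀ (l done : List ℕ), done.length = l.length → paC g done l → l.Nodup → (∀ y ∈ l, y < 7) →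
      l.length + ms.length ≤ 7 → (∀ i, i < ms.length → ms.getD i 0 < 2 ^ (l.length + i)) →
      dfp g ms (paP g l) (2 ^ l.length) l.length = sumL (7 - l.length) l
        (fun w => if w.Nodup ∧ paC g (done ++ ms) w then 1 else 0) := by
  induction ms with
  | nil =>
    intro l done h0 h1 h2 h3 h4 _
    rw [List.length_nil, Nat.add_zero] at h4
    rw [dfp, pa_rem7 _ h4, List.append_nil]
    rw [← pa_count (7 - l.length) l h2 h3 (by omega)]
    refine pa_sumL_congr _ _ _ _ fun v _ => ?_
    have h5 : paC g done (v ++ l) := (paC_append g done v l h0.le).2 h1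
    simp [h5]
  | cons m ms ih =>
    intro l done h0 h1 h2 h3 h4 h5
    rw [List.length_cons] at h4
    have hl7 : l.length ≤ 7 := by omega
    have hm : m < 2 ^ l.length := by
      have := h5 0 (by simp)
      simpa using this
    have hm' : m < 128 := by
      have : 2 ^ l.length ≤ 2 ^ 6 := Nat.pow_le_pow_right (by norm_num) (by omega)
      omega
    rw [dfp, pa_s7, show 7 - l.length = (7 - (l.length + 1)) + 1 by omega, sumL]
    refine Finset.sum_congr rfl fun x hx => ?_
    have hx7 : x < 7 := Finset.mem_range.1 hx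
    rw [pa_byte_P g l hl7 x hx7]
    by_cases hc : x ∉ l ∧ ∀ j, Nat.testBit m j = true → Nat.testBit (mkw (ad g) x l) j = true
    · have hB : Nat.beq (Nat.land (paB g l x) (m + 128)) m = true := by
        have hh : Nat.land (paB g l x) (m + 128) = m := by
          unfold paB
          rw [if_neg hc.1, Nat.add_zero]
          exact (pa_land _ _ (pa_mkw_lt7 g l hl7 x) hm').2 hc.2
        rw [hh]
        exact Nat.beq_refl m
      rw [hB, cond_true, ← pa_P_cons g hg l x hx7 hc.1]
      have h6 : 2 * 2 ^ l.length = 2 ^ (x :: l).length := by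
        rw [List.length_cons, pow_succ]
        ring
      rw [h6]
      have h7 := ih (x :: l) (done ++ [m]) (by simp [h0])
        ((paC_cons g m done l x h0 hm).2 ⟨h1, hc.2⟩) (List.nodup_cons.2 ⟨hc.1, h2⟩)
        (by
          intro y hy
          rcases List.mem_cons.1 hy with hy | hy
          · rw [hy]; exact hx7
          · exact h3 y hy)
        (by rw [List.length_cons]; omega)
        (by
          intro i hi
          have := h5 (i + 1) (by simpa using hi)
          rw [List.getD_cons_succ] at this
          rw [List.length_cons, show l.length + 1 + i = l.length + (i + 1) by ring]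
          exact this)
      rw [List.length_cons] at h7 ⊢
      rw [h7, List.append_assoc, List.singleton_append]
    · have hB : Nat.beq (Nat.land (paB g l x) (m + 128)) m = false := by
        rw [Bool.eq_false_iff]
        intro hb
        apply hc
        have hb' := Nat.eq_of_beq_eq_true hb
        unfold paB at hb'
        by_cases hxl : x ∈ l
        · rw [if_pos hxl] at hb'
          exact absurd hb' (pa_land' _ _ (pa_mkw_lt7 g l hl7 x) hm')
        · rw [if_neg hxl, Nat.add_zero] at hb'
          exact ⟨hxl, (pa_land _ _ (pa_mkw_lt7 g l hl7 x) hm').1 hb'⟩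
      rw [hB, cond_false]
      symm
      refine (pa_sumL_congr _ (fun _ => 0) _ _ fun v _ => ?_).trans (pa_sumL_zero _ (x :: l))
      apply if_neg
      rintro ⟨hn, hC⟩
      apply hc
      rw [show done ++ m :: ms = (done ++ [m]) ++ ms by simp] at hC
      have h6 := paC_mono g _ _ _ hC
      have h7 := (paC_append g (done ++ [m]) v (x :: l) (by simp [h0])).1 h6
      exact ⟨(List.nodup_cons.1 (List.Nodup.of_append_right hn)).1,
        ((paC_cons g m done l x h0 hm).1 h7).2⟩

theorem totp_eq (g : ℕ) (hc : clean g = true) (ms : List ℕ) (hl : ms.length ≤ 7)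
    (hm : ∀ i, ms.getD i 0 < 2 ^ i) :
    ∑ π : Equiv.Perm (Fin 7), (if (∀ e ∈ mE ms, ad g ((π (Fin.ofNat 7 e.2) : Fin 7) : ℕ)
      ((π (Fin.ofNat 7 e.1) : Fin 7) : ℕ) = true) then (1 : ℤ) else 0) = totp ms g := by
  have h1 := pa_main g hc ms [] [] rfl (by intro e he; simp [mE, mEa] at he) List.nodup_nil
    (by simp) (by simpa using hl) (by intro i _; simpa using hm i)
  rw [pa_P_nil, List.length_nil, pow_zero, List.nil_append, Nat.sub_zero] at h1
  unfold totp
  rw [h1]
  have h2 := perm_sum (fun w => if paC g ms w then 1 else 0)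
  have h3 : sumL 7 [] (fun w => if w.Nodup ∧ paC g ms w then (1 : ℤ) else 0) =
      sumL 7 [] (fun w => if w.Nodup then (if paC g ms w then (1 : ℤ) else 0) else 0) := by
    refine pa_sumL_congr _ _ _ _ fun v _ => ?_
    rw [List.append_nil]
    by_cases ha : v.Nodup
    · simp [ha]
    · simp [ha]
  rw [h3, ← h2]
  refine Fintype.sum_equiv (Equiv.mulRight (Fin.revPerm : Equiv.Perm (Fin 7))) _ _ fun π => ?_
  have h4 : ∀ i : ℕ, i < 7 → (List.ofFn fun k : Fin 7 => (((Equiv.mulRight
      (Fin.revPerm : Equiv.Perm (Fin 7))) π : Equiv.Perm (Fin 7)) k : ℕ)).reverse.getD i 0 =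
      ((π (Fin.ofNat 7 i) : Fin 7) : ℕ) := by
    intro i hi
    interval_cases i <;> rfl
  have h5 : paC g ms (List.ofFn fun k : Fin 7 => (((Equiv.mulRight
      (Fin.revPerm : Equiv.Perm (Fin 7))) π : Equiv.Perm (Fin 7)) k : ℕ)) ↔
      (∀ e ∈ mE ms, ad g ((π (Fin.ofNat 7 e.2) : Fin 7) : ℕ)
        ((π (Fin.ofNat 7 e.1) : Fin 7) : ℕ) = true) := by
    unfold paC
    refine forall₂_congr fun e he => ?_
    have h6 := mem_mEa ms 0 e he
    rw [h4 _ (by omega), h4 _ (by omega)]
  by_cases h : (∀ e ∈ mE ms, ad g ((π (Fin.ofNat 7 e.2) : Fin 7) : ℕ)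
      ((π (Fin.ofNat 7 e.1) : Fin 7) : ℕ) = true)
  · rw [if_pos h, if_pos (h5.2 h)]
  · rw [if_neg h, if_neg (fun hh => h (h5.1 hh))]

end Pool.Agent.CycT
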