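import Pool.Agent.W_1bfdb5t_h19.TDefs19

/-!
# Closed walks of length 9 and 11 in triangle-free graphs: the spectral blocks (helper14)
-/

namespace Pool.Agent.CycT

open Finset Matrix Pool.Agent.CycGT
open scoped Classical

variable {V : Type} [Fintype V] {G : SimpleGraph V}

namespace Spx14

omit [Fintype V] in
lemma tri (hG : OddFree G 5) {u v w : V} (h1 : G.Adj u v) (h2 : G.Adj v w) (h3 : G.Adj w u) :
    False :=
  hG 3 (by norm_num) (by decide) u
    ⟨SimpleGraph.Walk.cons h1 (SimpleGraph.Walk.cons h2 (SimpleGraph.Walk.cons h3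
      SimpleGraph.Walk.nil)), rfl⟩

/-- The adjacency matrix. -/
noncomputable def aa (G : SimpleGraph V) (u v : V) : ℝ := if G.Adj u v then (1 : ℝ) else 0

omit [Fintype V] in
lemma aa_sq (u v : V) : aa G u v ^ 2 = aa G u v := by
  unfold aa
  split_ifs <;> norm_num

omit [Fintype V] in
lemma aa_nonneg (u v : V) : 0 ≤ aa G u v := by
  unfold aa
  split_ifs <;> norm_num

/-- The degree. -/
noncomputable def dd (G : SimpleGraph V) (u : V) : ℝ := ∑ v, aa G u v

lemma dd_eq (u : V) : dd G u = (#(univ.filter (fun v => G.Adj u v)) : ℝ) := by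
  unfold dd aa
  rw [Finset.sum_boole]

lemma dd_add (hG : OddFree G 5) {u v : V} (h : G.Adj u v) :
    dd G u + dd G v ≤ (Fintype.card V : ℝ) := by
  rw [dd_eq, dd_eq]
  have h1 : Disjoint (univ.filter (fun w => G.Adj u w)) (univ.filter (fun w => G.Adj v w)) := by
    rw [Finset.disjoint_filter]
    intro w _ h2 h3
    exact tri hG h h3 h2.symm
  have h2 : #(univ.filter (fun w => G.Adj u w)) + #(univ.filter (fun w => G.Adj v w)) ≤
      Fintype.card V := by
    rw [← Finset.card_union_of_disjoint h1]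
    exact Finset.card_le_univ _
  exact_mod_cast h2

/-- The sum of the degrees of the neighbours. -/
lemma nb_le (hG : OddFree G 5) (v : V) :
    ∑ u, aa G u v * dd G u ≤ (Fintype.card V : ℝ) ^ 2 / 4 := by
  have h1 : ∑ u, aa G u v * dd G u ≤ ∑ u, aa G u v * ((Fintype.card V : ℝ) - dd G v) := by
    refine Finset.sum_le_sum fun u _ => ?_
    by_cases h : G.Adj u v
    · have h2 := dd_add hG h
      refine mul_le_mul_of_nonneg_left ?_ (aa_nonneg u v)
      linarith
    · have h2 : aa G u v = 0 := if_neg h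
      rw [h2, zero_mul, zero_mul]
  have h2 : ∑ u, aa G u v = dd G v := by
    unfold dd
    refine Finset.sum_congr rfl fun u _ => ?_
    unfold aa
    rw [G.adj_comm]
  rw [← Finset.sum_mul, h2] at h1
  nlinarith [sq_nonneg ((Fintype.card V : ℝ) - 2 * dd G v)]

/-- The square norm of `A y`. -/
lemma sq_le (hG : OddFree G 5) (y : V → ℝ) :
    ∑ u, (∑ v, aa G u v * y v) ^ 2 ≤ (Fintype.card V : ℝ) ^ 2 / 4 * ∑ v, y v ^ 2 := by
  have h1 : ∀ u, (∑ v, aa G u v * y v) ^ 2 ≤ dd G u * ∑ v, aa G u v * y v ^ 2 := by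
    intro u
    have h2 := Finset.sum_mul_sq_le_sq_mul_sq Finset.univ (fun v => aa G u v)
      (fun v => aa G u v * y v)
    have h3 : ∑ v, aa G u v * (aa G u v * y v) = ∑ v, aa G u v * y v := by
      refine Finset.sum_congr rfl fun v _ => ?_
      rw [← mul_assoc, ← sq, aa_sq]
    have h4 : ∑ v, aa G u v ^ 2 = dd G u := by
      unfold dd
      exact Finset.sum_congr rfl fun v _ => aa_sq u v
    have h5 : ∑ v, (aa G u v * y v) ^ 2 = ∑ v, aa G u v * y v ^ 2 := by
      refine Finset.sum_congr rfl fun v _ => ?_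
      rw [mul_pow, aa_sq]
    rw [h3, h4, h5] at h2
    exact h2
  calc ∑ u, (∑ v, aa G u v * y v) ^ 2 ≤ ∑ u, dd G u * ∑ v, aa G u v * y v ^ 2 :=
        Finset.sum_le_sum fun u _ => h1 u
    _ = ∑ v, (∑ u, aa G u v * dd G u) * y v ^ 2 := by
        simp only [Finset.mul_sum, Finset.sum_mul]
        rw [Finset.sum_comm]
        refine Finset.sum_congr rfl fun v _ => Finset.sum_congr rfl fun u _ => ?_
        ring
    _ ≤ ∑ v, (Fintype.card V : ℝ) ^ 2 / 4 * y v ^ 2 :=
        Finset.sum_le_sum fun v _ => mul_le_mul_of_nonneg_right (nb_le hG v) (sq_nonneg _)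
    _ = (Fintype.card V : ℝ) ^ 2 / 4 * ∑ v, y v ^ 2 := by rw [Finset.mul_sum]

/-- The spectral bound. -/
lemma spec (hG : OddFree G 5) (hV : 0 < Fintype.card V) {s : ℝ} (hs : s = 1 ∨ s = -1)
    (y : V → ℝ) :
    2 * s * ∑ u, y u * ∑ v, aa G u v * y v ≤ (Fintype.card V : ℝ) * ∑ v, y v ^ 2 := by
  have hn : (0 : ℝ) < (Fintype.card V : ℝ) := by exact_mod_cast hV
  have h1 : ∀ u, 2 * s * (y u * ∑ v, aa G u v * y v) ≤
      (Fintype.card V : ℝ) / 2 * y u ^ 2 + 2 / (Fintype.card V : ℝ) *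
        (∑ v, aa G u v * y v) ^ 2 := by
    intro u
    set n : ℝ := (Fintype.card V : ℝ)
    set z : ℝ := ∑ v, aa G u v * y v
    have h2 : 0 ≤ (n * y u - 2 * s * z) ^ 2 / (2 * n) := by positivity
    have hs2 : s ^ 2 = 1 := by
      rcases hs with h | h <;> rw [h] <;> norm_num
    have h3 : (n * y u - 2 * s * z) ^ 2 / (2 * n) =
        n / 2 * y u ^ 2 + 2 / n * z ^ 2 - 2 * s * (y u * z) := by
      have h4 : (n * y u - 2 * s * z) ^ 2 =
          n ^ 2 * y u ^ 2 + 4 * z ^ 2 - 4 * n * s * (y u * z) := by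
        have h5 : (n * y u - 2 * s * z) ^ 2 =
          n ^ 2 * y u ^ 2 + 4 * s ^ 2 * z ^ 2 - 4 * n * s * (y u * z) := by ring
        rw [h5, hs2]
        ring
      rw [h4]
      field_simp
      ring
    linarith
  have h2 := Finset.sum_le_sum (s := Finset.univ) fun u _ => h1 u
  rw [← Finset.mul_sum, Finset.sum_add_distrib, ← Finset.mul_sum, ← Finset.mul_sum] at h2
  have h3 := sq_le hG y
  have h4 : 2 / (Fintype.card V : ℝ) * ∑ u, (∑ v, aa G u v * y v) ^ 2 ≤
      2 / (Fintype.card V : ℝ) * ((Fintype.card V : ℝ) ^ 2 / 4 * ∑ v, y v ^ 2) :=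
    mul_le_mul_of_nonneg_left h3 (by positivity)
  have h5 : 2 / (Fintype.card V : ℝ) * ((Fintype.card V : ℝ) ^ 2 / 4 * ∑ v, y v ^ 2) =
      (Fintype.card V : ℝ) / 2 * ∑ v, y v ^ 2 := by
    field_simp
    ring
  linarith

lemma lm_symm (G : SimpleGraph V) (a : ℕ) : (lm G a)ᵀ = lm G a := by
  rcases a with _ | _ | a
  · ext u v
    simp only [lm, Matrix.transpose_apply, Matrix.smul_apply, Matrix.of_apply, G.adj_comm]
  · change ((5 / (Fintype.card V : ℝ)) •
        Matrix.diagonal (fun u => (#(univ.filter (fun v => G.Adj u v)) : ℝ)))ᵀ =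
      (5 / (Fintype.card V : ℝ)) •
        Matrix.diagonal (fun u => (#(univ.filter (fun v => G.Adj u v)) : ℝ))
    rw [Matrix.transpose_smul, Matrix.diagonal_transpose]
  · ext u v
    simp only [lm, Matrix.transpose_apply, Matrix.smul_apply, Matrix.of_apply]

lemma ev_reverse (G : SimpleGraph V) (w : List ℕ) : ev G w.reverse = (ev G w)ᵀ := by
  unfold ev
  rw [Matrix.transpose_list_prod, List.map_map, List.map_reverse]
  congr 3
  funext a
  exact (lm_symm G a).symm

lemma ev_append (G : SimpleGraph V) (u w : List ℕ) : ev G (u ++ w) = ev G u * ev G w := by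
  unfold ev
  rw [List.map_append, List.prod_append]

lemma ev_cons (G : SimpleGraph V) (a : ℕ) (w : List ℕ) : ev G (a :: w) = lm G a * ev G w := by
  unfold ev
  rw [List.map_cons, List.prod_cons]

/-- The combination of the words. -/
noncomputable def qq (G : SimpleGraph V) (ws : List (List ℕ)) (x : ℕ → ℝ) : Matrix V V ℝ :=
  ∑ i ∈ range ws.length, x i • ev G (ws.getD i [])

lemma sum_tr (G : SimpleGraph V) (ws : List (List ℕ)) (x : ℕ → ℝ) (M : Matrix V V ℝ) :
    ∑ i ∈ range ws.length, ∑ j ∈ range ws.length, x i * x j *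
      Matrix.trace ((ev G (ws.getD i []))ᵀ * (M * ev G (ws.getD j []))) =
      Matrix.trace ((qq G ws x)ᵀ * (M * qq G ws x)) := by
  unfold qq
  rw [Matrix.transpose_sum, Finset.mul_sum, Finset.sum_mul_sum, Matrix.trace_sum]
  refine Finset.sum_congr rfl fun i _ => ?_
  rw [Matrix.trace_sum]
  refine Finset.sum_congr rfl fun j _ => ?_
  rw [Matrix.transpose_smul, Matrix.mul_smul, Matrix.smul_mul, Matrix.mul_smul,
    Matrix.trace_smul, Matrix.trace_smul, smul_eq_mul, smul_eq_mul, mul_assoc]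

end Spx14

open Spx14

/-- The blocks are nonnegative. -/
theorem blkT (hG : OddFree G 5) (hV : 0 < Fintype.card V) (s : ℝ) (hs : s = 1 ∨ s = -1)
    (ws : List (List ℕ)) (x : ℕ → ℝ) :
    0 ≤ ∑ i ∈ range ws.length, ∑ j ∈ range ws.length, x i * x j *
      (5 * Fw G ((ws.getD i []).reverse ++ ws.getD j []) -
        2 * s * Fw G ((ws.getD i []).reverse ++ 0 :: ws.getD j [])) := by
  have hn : (0 : ℝ) < (Fintype.card V : ℝ) := by exact_mod_cast hV
  have h1 : ∑ i ∈ range ws.length, ∑ j ∈ range ws.length, x i * x j *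
      (5 * Fw G ((ws.getD i []).reverse ++ ws.getD j []) -
        2 * s * Fw G ((ws.getD i []).reverse ++ 0 :: ws.getD j [])) =
      5 * Matrix.trace ((qq G ws x)ᵀ * (1 * qq G ws x)) -
        2 * s * Matrix.trace ((qq G ws x)ᵀ * (lm G 0 * qq G ws x)) := by
    rw [← sum_tr, ← sum_tr]
    simp only [Finset.mul_sum, ← Finset.sum_sub_distrib]
    refine Finset.sum_congr rfl fun i _ => Finset.sum_congr rfl fun j _ => ?_
    unfold Fw
    rw [ev_append, ev_append, ev_cons, ev_reverse, one_mul]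
    ring
  rw [h1]
  have h2 : ∀ M : Matrix V V ℝ, Matrix.trace ((qq G ws x)ᵀ * (M * qq G ws x)) =
      ∑ v, ∑ u, qq G ws x u v * ∑ w, M u w * qq G ws x w v := by
    intro M
    simp only [Matrix.trace, Matrix.diag_apply, Matrix.mul_apply, Matrix.transpose_apply]
  rw [h2, h2, Finset.mul_sum, Finset.mul_sum, ← Finset.sum_sub_distrib]
  refine Finset.sum_nonneg fun v _ => ?_
  have h3 := spec hG hV hs (fun u => qq G ws x u v)
  have h4 : ∑ u, qq G ws x u v * ∑ w, (1 : Matrix V V ℝ) u w * qq G ws x w v =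
      ∑ u, qq G ws x u v ^ 2 := by
    refine Finset.sum_congr rfl fun u _ => ?_
    have h5 : ∑ w, (1 : Matrix V V ℝ) u w * qq G ws x w v = qq G ws x u v := by
      simp only [Matrix.one_apply, ite_mul, one_mul, zero_mul]
      rw [Finset.sum_ite_eq Finset.univ u, if_pos (Finset.mem_univ u)]
    rw [h5, sq]
  have h6 : ∑ u, qq G ws x u v * ∑ w, lm G 0 u w * qq G ws x w v =
      5 / (Fintype.card V : ℝ) * ∑ u, qq G ws x u v * ∑ w, aa G u w * qq G ws x w v := by
    rw [Finset.mul_sum]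
    refine Finset.sum_congr rfl fun u _ => ?_
    have h7 : ∑ w, lm G 0 u w * qq G ws x w v =
        5 / (Fintype.card V : ℝ) * ∑ w, aa G u w * qq G ws x w v := by
      rw [Finset.mul_sum]
      refine Finset.sum_congr rfl fun w _ => ?_
      simp only [lm, Matrix.smul_apply, Matrix.of_apply, smul_eq_mul, aa]
      ring
    rw [h7]
    ring
  rw [h4, h6]
  have h8 : 2 * s * (5 / (Fintype.card V : ℝ) *
      ∑ u, qq G ws x u v * ∑ w, aa G u w * qq G ws x w v) =
      5 / (Fintype.card V : ℝ) *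
        (2 * s * ∑ u, qq G ws x u v * ∑ w, aa G u w * qq G ws x w v) := by ring
  rw [h8]
  have h9 : 5 / (Fintype.card V : ℝ) *
      (2 * s * ∑ u, qq G ws x u v * ∑ w, aa G u w * qq G ws x w v) ≤
      5 / (Fintype.card V : ℝ) * ((Fintype.card V : ℝ) * ∑ u, qq G ws x u v ^ 2) :=
    mul_le_mul_of_nonneg_left h3 (by positivity)
  have h10 : 5 / (Fintype.card V : ℝ) * ((Fintype.card V : ℝ) * ∑ u, qq G ws x u v ^ 2) =
      5 * ∑ u, qq G ws x u v ^ 2 := by
    field_simp
  linarith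

end Pool.Agent.CycT
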