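import Pool.Agent.W_1bfdb5t_h19.TDefb19
import Pool.Agent.W_1bfdb5t_h19.Spx14
import Pool.Agent.W_1bfdb5t_h19.Pat31
import Pool.Agent.W_1bfdb5t_h19.Clw31
import Pool.Agent.W_1bfdb5_h19.FlMain

/-!
# Closed walks of length 9 and 11 in triangle-free graphs: the flag part
-/

namespace Pool.Agent.CycT

open Finset Matrix Pool.Agent.CycGT

/-- Indicator of a pattern given by masks. -/
def pv {α : Type} (r : α → α → Bool) (ms : List ℕ) (f : Fin 7 → α) : ℤ :=
  if (∀ e ∈ mE ms, r (f (Fin.ofNat 7 e.2)) (f (Fin.ofNat 7 e.1)) = true) then 1 else 0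

/-- The total functional. -/
def FT {α : Type} (sm : List (List ℕ × ℤ)) (cT : ℤ) (tys : List Ty) (r : α → α → Bool)
    (f : Fin 7 → α) : ℤ :=
  (sm.map fun p => p.2 * pv r p.1 f).sum + cT * (tys.map fun T => val T r (List.ofFn f)).sum

lemma FT_comp {α β : Type} (sm : List (List ℕ × ℤ)) (cT : ℤ) (tys : List Ty) (r : β → β → Bool)
    (h : α → β) (f : Fin 7 → α) :
    FT sm cT tys r (h ∘ f) = FT sm cT tys (fun i j => r (h i) (h j)) f := by
  unfold FT
  have e : ∀ T : Ty, val T r (List.ofFn (h ∘ f)) = val T (fun i j => r (h i) (h j)) (List.ofFn f) := by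
    intro T
    rw [← val_map T r h (List.ofFn f), List.map_ofFn]
  simp only [e]
  rfl

lemma sum_list {ι : Type} [Fintype ι] {β : Type} (l : List β) (F : β → ι → ℤ) :
    ∑ i, (l.map fun b => F b i).sum = (l.map fun b => ∑ i, F b i).sum := by
  induction l with
  | nil => simp
  | cons b l ih => simp only [List.map_cons, List.sum_cons, sum_add_distrib, ih]

lemma sum_FT {ι α : Type} [Fintype ι] (sm : List (List ℕ × ℤ)) (cT : ℤ) (tys : List Ty)
    (r : α → α → Bool) (f : ι → Fin 7 → α) :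
    ∑ i, FT sm cT tys r (f i) = (sm.map fun p => p.2 * ∑ i, pv r p.1 (f i)).sum +
      cT * (tys.map fun T => ∑ i, val T r (List.ofFn (f i))).sum := by
  unfold FT
  rw [sum_add_distrib, sum_list, ← mul_sum, sum_list]
  congr 2
  refine List.map_congr_left fun p _ => ?_
  rw [mul_sum]

/-- The inequality for one graph on seven vertices. -/
lemma FT_le (sm : List (List ℕ × ℤ)) (cT : ℤ) (tys : List Ty) (N : ℤ)
    (hsm : ∀ p ∈ sm, p.1.length ≤ 7 ∧ ∀ i, p.1.getD i 0 < 2 ^ i)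
    (htys : ∀ T ∈ tys, T.sg.length = 5 ∧ ∀ m ∈ T.sg, m < 32)
    (hH : ∀ g ∈ reps7, (sm.map fun p => p.2 * totp p.1 g).sum +
      cT * (tys.map fun T => tot T g).sum ≤ N)
    (A : Fin 7 → Fin 7 → Bool) (hs : ∀ i j, A i j = A j i)
    (hi : ∀ i, A i i = false) (ht : ∀ i j k, ¬ (A i j = true ∧ A j k = true ∧ A i k = true)) :
    ∑ π : Equiv.Perm (Fin 7), FT sm cT tys A π ≤ N := by
  obtain ⟨g, hg, τ, hτ⟩ := classify A hs hi ht
  have hc : clean g = true := List.all_eq_true.1 clean_reps g hg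
  have h1 : ∑ π : Equiv.Perm (Fin 7), FT sm cT tys A π =
      ∑ π : Equiv.Perm (Fin 7), FT sm cT tys (ad g) (fun i => ((π i : Fin 7) : ℕ)) := by
    rw [← Equiv.sum_comp (Equiv.mulLeft τ)]
    refine sum_congr rfl fun π _ => ?_
    have e1 : (⇑((Equiv.mulLeft τ) π) : Fin 7 → Fin 7) = τ ∘ π := rfl
    have e2 : (fun i => ((π i : Fin 7) : ℕ)) = (fun i : Fin 7 => (i : ℕ)) ∘ π := rfl
    rw [e1, e2, FT_comp, FT_comp]
    congr 1
    funext i j
    exact hτ i j
  rw [h1, sum_FT]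
  have h2 : (sm.map fun p => p.2 * ∑ π : Equiv.Perm (Fin 7),
      pv (ad g) p.1 (fun i => ((π i : Fin 7) : ℕ))) = sm.map fun p => p.2 * totp p.1 g := by
    refine List.map_congr_left fun p hp => ?_
    rw [← totp_eq g hc p.1 (hsm p hp).1 (hsm p hp).2]
    congr 1
  have h3 : (tys.map fun T => ∑ π : Equiv.Perm (Fin 7),
      val T (ad g) (List.ofFn fun i => ((π i : Fin 7) : ℕ))) = tys.map fun T => tot T g := by
    refine List.map_congr_left fun T hT => ?_
    exact tot_eq T (htys T hT).1 (htys T hT).2 g hc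
  rw [h2, h3]
  exact hH g hg

variable {V : Type} [Fintype V]

open scoped Classical in
/-- The inequality for graphs. -/
theorem FT_graph (sm : List (List ℕ × ℤ)) (cT : ℤ) (tys : List Ty) (N : ℤ)
    (hsm : ∀ p ∈ sm, p.1.length ≤ 7 ∧ ∀ i, p.1.getD i 0 < 2 ^ i)
    (htys : ∀ T ∈ tys, T.sg.length = 5 ∧ ∀ m ∈ T.sg, m < 32)
    (hH : ∀ g ∈ reps7, (sm.map fun p => p.2 * totp p.1 g).sum +
      cT * (tys.map fun T => tot T g).sum ≤ 5040 * N)
    (hcT : 0 ≤ cT)
    (hval : ∀ T ∈ tys, ∀ r : V → V → Bool, 0 ≤ ∑ φ : Fin 7 → V, val T r (List.ofFn φ))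
    (G : SimpleGraph V) (hG : OddFree G 5) :
    (sm.map fun p => p.2 * ∑ φ : Fin 7 → V, pv (fun x y => decide (G.Adj x y)) p.1 φ).sum ≤
      N * (Fintype.card V : ℤ) ^ 7 := by
  set r : V → V → Bool := fun x y => decide (G.Adj x y) with hr
  have htri : ∀ x y z, ¬ (G.Adj x y ∧ G.Adj y z ∧ G.Adj x z) := by
    rintro x y z ⟨h1, h2, h3⟩
    refine hG 3 (by norm_num) (by decide) x ⟨.cons h1 (.cons h2 (.cons h3.symm .nil)), rfl⟩
  have h1 : ∀ φ : Fin 7 → V, ∑ π : Equiv.Perm (Fin 7), FT sm cT tys r (φ ∘ π) ≤ 5040 * N := by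
    intro φ
    have e : ∀ π : Equiv.Perm (Fin 7), FT sm cT tys r (φ ∘ π) =
        FT sm cT tys (fun i j => r (φ i) (φ j)) π := fun π => FT_comp _ _ _ _ _ _
    rw [sum_congr rfl fun π _ => e π]
    refine FT_le sm cT tys _ hsm htys hH _ ?_ ?_ ?_
    · intro i j
      simp only [hr, G.adj_comm]
    · intro i
      simp [hr]
    · intro i j k
      simp only [hr, decide_eq_true_eq]
      exact htri _ _ _
  have h2 : ∑ φ : Fin 7 → V, ∑ π : Equiv.Perm (Fin 7), FT sm cT tys r (φ ∘ π) =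
      5040 * ∑ φ : Fin 7 → V, FT sm cT tys r φ := by
    rw [sum_comm]
    have : ∀ π : Equiv.Perm (Fin 7), ∑ φ : Fin 7 → V, FT sm cT tys r (φ ∘ π) =
        ∑ φ : Fin 7 → V, FT sm cT tys r φ := by
      intro π
      exact (Equiv.arrowCongr π.symm (Equiv.refl V)).sum_comp
        (fun φ : Fin 7 → V => FT sm cT tys r φ)
    rw [sum_congr rfl fun π _ => this π, sum_const, card_univ, Fintype.card_perm,
      Fintype.card_fin]
    simp [Nat.factorial]
  have h3 : ∑ φ : Fin 7 → V, ∑ π : Equiv.Perm (Fin 7), FT sm cT tys r (φ ∘ π) ≤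
      5040 * N * (Fintype.card V : ℤ) ^ 7 := by
    refine (sum_le_sum fun φ _ => h1 φ).trans_eq ?_
    rw [sum_const, card_univ, Fintype.card_fun, Fintype.card_fin]
    simp [mul_comm]
  rw [h2, sum_FT sm cT tys r (fun φ : Fin 7 → V => φ)] at h3
  have h4 : 0 ≤ (tys.map fun T => ∑ φ : Fin 7 → V, val T r (List.ofFn φ)).sum := by
    refine List.sum_nonneg fun x hx => ?_
    rw [List.mem_map] at hx
    obtain ⟨T, hT, rfl⟩ := hx
    exact hval T hT r
  have h5 := mul_nonneg hcT h4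
  linarith

end Pool.Agent.CycT
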