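import Pool.Agent.W_1bfdb5t_h19.TDefb19

/-!
# Decoding of the data
-/

namespace Pool.Agent.CycT

/-- The digits in base 16. -/
def digD : ℕ → ℕ → List ℕ
  | 0, _ => []
  | n + 1, x => (x % 16) :: digD n (x / 16)

/-- Class and witness from the code. -/
def decD (x : ℕ) : ℕ × List ℕ := (x % 1024, digD (x / 1024 % 16) (x / 16384))

end Pool.Agent.CycT
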