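import Pool.Agent.W_1bfdb5_h19.FlTh
import Pool.Agent.W_1bfdb5_h19.Defs

/-!
# Closed walks of length 9 and 11 in triangle-free graphs: definitions

Words over the letters `0` (adjacency matrix), `1` (degree matrix), `2` (mean matrix, all entries
equal), scaled by `5 / n`, `5 / n`, `1 / n`.  The trace of a word is a power of `5` times the
homomorphism density of a graph on at most eleven vertices.
-/

namespace Pool.Agent.CycT

open Finset Matrix Pool.Agent.CycGT
open scoped Classical

variable {V : Type} [Fintype V]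

/-- The matrix of a letter. -/
noncomputable def lm (G : SimpleGraph V) : ℕ → Matrix V V ℝ
  | 0 => (5 / (Fintype.card V : ℝ)) • Matrix.of (fun u v => if G.Adj u v then (1 : ℝ) else 0)
  | 1 => (5 / (Fintype.card V : ℝ)) •
      Matrix.diagonal (fun u => (#(univ.filter (fun v => G.Adj u v)) : ℝ))
  | _ => (1 / (Fintype.card V : ℝ)) • Matrix.of (fun _ _ => (1 : ℝ))

/-- The matrix of a word. -/
noncomputable def ev (G : SimpleGraph V) (w : List ℕ) : Matrix V V ℝ := (w.map (lm G)).prod

/-- The trace of a word. -/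
noncomputable def Fw (G : SimpleGraph V) (w : List ℕ) : ℝ := Matrix.trace (ev G w)

/-- The edges of the graph of a word whose last letter is not `1`: `c` is the current vertex,
`n` the next new one. -/
def edgs : ℕ → ℕ → List ℕ → List (ℕ × ℕ)
  | _, _, [] => []
  | c, _, [a] => bif Nat.beq a 0 then [(c, 0)] else []
  | c, n, a :: b :: w => bif Nat.beq a 0 then (c, n) :: edgs n (n + 1) (b :: w) else
      bif Nat.beq a 1 then (c, n) :: edgs c (n + 1) (b :: w) else edgs n (n + 1) (b :: w)

/-- The edges of the graph of a word. -/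
def wE (w : List ℕ) : List (ℕ × ℕ) := edgs 0 1 w

/-- Number of letters `0` and `1`. -/
def lett : List ℕ → ℕ
  | [] => 0
  | a :: w => bif Nat.blt a 2 then lett w + 1 else lett w

/-- Rotate until the last letter is not `1`. -/
def rotW (w : List ℕ) : List ℕ :=
  (w.reverse.takeWhile fun a => Nat.beq a 1) ++ (w.reverse.dropWhile fun a => Nat.beq a 1).reverse

/-- Homomorphism density of the graph with the edge list `E` on the vertices `0, ..., 10`. -/
noncomputable def tt (G : SimpleGraph V) (E : List (ℕ × ℕ)) : ℝ :=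
  (∑ φ : Fin 11 → V, if (∀ e ∈ E, G.Adj (φ (Fin.ofNat 11 e.1)) (φ (Fin.ofNat 11 e.2))) then (1 : ℝ)
    else 0) / (Fintype.card V : ℝ) ^ 11

/-- `e` or its reverse is in the list. -/
def memE (e : ℕ × ℕ) (E : List (ℕ × ℕ)) : Bool :=
  E.any fun f => (Nat.beq e.1 f.1 && Nat.beq e.2 f.2) || (Nat.beq e.1 f.2 && Nat.beq e.2 f.1)

/-- `p` lists the numbers `0, ..., 10` and maps the edges `E` onto the edges `E'`. -/
def isoB (p : List ℕ) (E E' : List (ℕ × ℕ)) : Bool :=
  Nat.beq p.length 11 && ((List.range 11).all fun i => p.any fun j => Nat.beq i j) &&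
  (E.all fun e => Nat.blt e.1 11 && Nat.blt e.2 11 && memE (p.getD e.1 0, p.getD e.2 0) E') &&
  (E'.all fun f => Nat.blt f.1 11 && Nat.blt f.2 11 &&
    memE f (E.map fun e => (p.getD e.1 0, p.getD e.2 0)))

/-- A witness that the density vanishes: a loop `[a]` or a triangle `[a, b, c]`. -/
def zeroB (p : List ℕ) (E : List (ℕ × ℕ)) : Bool :=
  match p with
  | [a] => memE (a, a) E
  | [a, b, c] => memE (a, b) E && memE (b, c) E && memE (a, c) E
  | _ => false

/-- The bits of `m`, as edges from `i` to smaller vertices `j, j + 1, ...` (`s` steps). -/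
def bitE (i m : ℕ) : ℕ → ℕ → List (ℕ × ℕ)
  | _, 0 => []
  | j, s + 1 => bif Nat.testBit m j then (j, i) :: bitE i m (j + 1) s else bitE i m (j + 1) s

/-- The edges given by a list of masks: the mask of the vertex `i` gives its neighbours among the
vertices `0, ..., i - 1`. -/
def mEa : ℕ → List ℕ → List (ℕ × ℕ)
  | _, [] => []
  | i, m :: ms => bitE i m 0 i ++ mEa (i + 1) ms

def mE (ms : List ℕ) : List (ℕ × ℕ) := mEa 0 ms

/-- Factorials for the unused vertices. -/
def rem7 : ℕ → ℤ
  | 0 => 5040 | 1 => 720 | 2 => 120 | 3 => 24 | 4 => 6 | 5 => 2 | _ => 1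

/-- Number of injective sequences in the graph `g` on `0, ..., 6` which respect the masks `ms`;
`P`, `w` as in `dft`, `k` is the number of vertices chosen so far. -/
def dfp (g : ℕ) : List ℕ → ℕ → ℕ → ℕ → ℤ
  | [], _, _, k => rem7 k
  | m :: ms, P, w, k => s7 fun x => bif Nat.beq (Nat.land (byte P x) (m + 128)) m then
      dfp g ms (P + w * col g x + 128 * 256 ^ x) (2 * w) (k + 1) else 0

/-- Number of permutations of `0, ..., 6` which respect the masks. -/
def totp (ms : List ℕ) (g : ℕ) : ℤ := dfp g ms 0 1 0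

end Pool.Agent.CycT
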